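import Pool.Agent.P.MP_44bffd_co.PB.DA
import Pool.Agent.P.MP_44bffd_co.LS.Abs

/-! The absorbing link with two-sided accuracy. -/

namespace Pool.Agent.P.MP_44bffd_co.PB

open Finset
open scoped Classical

namespace AbsP

/-- The weights of the labels. -/
def wt (K : ℕ) (κ : Bool × Fin K × Bool) : ℕ :=
  2 ^ K + if κ.2.2 = true then 2 ^ (κ.2.1 : ℕ) else 0

lemma wt_bd (K : ℕ) (κ : Bool × Fin K × Bool) : 2 ^ K ≤ wt K κ ∧ wt K κ ≤ 8 * 2 ^ K := by
  have : 2 ^ (κ.2.1 : ℕ) ≤ 2 ^ K := Nat.pow_le_pow_right (by norm_num) κ.2.1.2.le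
  unfold wt
  generalize 2 ^ (κ.2.1 : ℕ) = a at this ⊢
  generalize 2 ^ K = b at this ⊢
  split_ifs <;> omega

lemma sum_wt (K δ : ℕ) (c : Bool) (h : δ < 2 ^ K) :
    ∑ k : Fin K, wt K (c, k, δ.testBit k) = K * 2 ^ K + δ := by
  unfold wt
  rw [sum_add_distrib, sum_const, card_univ, Fintype.card_fin, smul_eq_mul]
  congr 1
  have := LS.AbsP.sum_bits δ K
  rw [Nat.mod_eq_of_lt h, ← Fin.sum_univ_eq_sum_range
    (fun k => if δ.testBit k = true then 2 ^ k else 0) K] at this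
  exact this

end AbsP

open AbsP in
theorem p_Abs : S_Abs := by
  intro K E g hK hT D g₀ hN
  obtain ⟨V₀, G, hc, hd⟩ := hN
  have : Nonempty (Bool × Fin K × Bool) := ⟨(true, ⟨0, hK⟩, true)⟩
  obtain ⟨V, W, ξ, hW, hv⟩ := hT (Bool × Fin K × Bool) (fun κ => (wt K κ : ℝ))
    (by simp only [Fintype.card_prod, Fintype.card_bool, Fintype.card_fin]; omega)
    (fun κ => ⟨by exact_mod_cast (wt_bd K κ).1, by exact_mod_cast (wt_bd K κ).2⟩)
  obtain ⟨U, S, hS, hdeg⟩ := link G W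
    (fun x w => ∃ k : Fin K, ξ w = (G.col x, k, (D - G.deg x).testBit k)) (by
      rintro x hx x' hx' hadj w _ ⟨k, e⟩ ⟨k', e'⟩
      exact G.bip x hx x' hx' hadj (Prod.mk.inj (e.symm.trans e')).1)
  refine ⟨U, S, ?_, fun v hv' => ?_⟩
  · refine hS.trans ?_
    rw [pow_add, mul_comm 2 g₀, pow_mul]
    exact Nat.mul_le_mul (Nat.pow_le_pow_left hc 2) hW
  · obtain ⟨x, hx, w, hw, e⟩ := hdeg v hv'
    obtain ⟨d1, d2⟩ := hd x hx
    have hδ : D - G.deg x < 2 ^ K := by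
      have : ((D - G.deg x : ℕ) : ℝ) < ((2 ^ K : ℕ) : ℝ) := by
        rw [Nat.cast_sub d1]
        push_cast
        linarith
      exact_mod_cast this
    have hs := sum_wt K (D - G.deg x) (G.col x) hδ
    have hinj : Function.Injective
        (fun k : Fin K => (G.col x, k, (D - G.deg x).testBit k)) :=
      fun i j h => (Prod.mk.inj (Prod.mk.inj h).2).1
    rw [LS.AbsP.cnt_sum W ξ _ hinj w] at e
    have u : |∑ k : Fin K,
        ((W.cnt w (fun w' => ξ w' = (G.col x, k, (D - G.deg x).testBit k)) : ℝ) -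
          (wt K (G.col x, k, (D - G.deg x).testBit k) : ℝ))| ≤ K * 2 ^ E := by
      refine (abs_sum_le_sum_abs _ _).trans ((sum_le_sum fun k _ => hv w hw _).trans ?_)
      simp
    rw [sum_sub_distrib, ← Nat.cast_sum, ← Nat.cast_sum, hs, abs_le] at u
    obtain ⟨u1, u2⟩ := u
    rw [Nat.cast_add, Nat.cast_sub d1] at u1 u2
    push_cast at u1 u2
    have e' : (S.deg v : ℝ) = G.deg x + ∑ k : Fin K,
        (W.cnt w (fun w' => ξ w' = (G.col x, k, (D - G.deg x).testBit k)) : ℝ) := by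
      rw [e]; push_cast; rfl
    constructor
    · have : (S.deg v : ℝ) ≤ ((D + (K * 2 ^ K + K * 2 ^ E) : ℕ) : ℝ) := by
        push_cast; linarith
      exact_mod_cast this
    · push_cast; linarith

end Pool.Agent.P.MP_44bffd_co.PB
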