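import Pool.Agent.P.MP_44bffd_co.PB.DB

/-! Adjoining the square root of a totally positive element with invariant class. -/

namespace Pool.Agent.P.MP_44bffd_co.PB

open NumberField QuadraticAlgebra

namespace AdjFP

variable {K L : Type} [Field K] [Field L] [Algebra K L] {ν : L}

/-- The lift of an automorphism to the quadratic algebra. -/
def up (σ : L ≃ₐ[K] L) (b : L) (h : σ ν = b ^ 2 * ν) :
    QuadraticAlgebra L ν 0 →ₐ[K] QuadraticAlgebra L ν 0 where
  toFun z := ⟨σ z.re, σ z.im * b⟩
  map_one' := by ext <;> simp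
  map_mul' x y := by
    ext
    · simp only [re_mul, map_add, map_mul, h]; ring
    · simp only [im_mul, map_add, map_mul, map_zero]; ring
  map_zero' := by ext <;> simp
  map_add' x y := by
    ext
    · simp
    · simp [add_mul]
  commutes' r := by
    ext
    · exact σ.commutes r
    · change σ 0 * b = 0
      rw [map_zero, zero_mul]

theorem eq_add (z : QuadraticAlgebra L ν 0) :
    z = algebraMap L _ z.re + algebraMap L _ z.im * ω := by
  ext <;> simp

theorem om_sq : (ω : QuadraticAlgebra L ν 0) ^ 2 = algebraMap L _ ν := by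
  ext <;> simp [sq]

end AdjFP

open AdjFP in
theorem p_AdjF : S_AdjF := by
  intro K L _ _ _ _ _ _ _ ν h1 h2 h3
  have : Fact (∀ r : L, r ^ 2 ≠ ν + 0 * r) := ⟨fun r e => h2 ⟨r, by rw [← sq, e]; ring⟩⟩
  have : NumberField (QuadraticAlgebra L ν 0) := NumberField.of_module_finite L _
  have : FiniteDimensional K L := Module.Finite.of_restrictScalars_finite ℚ K L
  have : FiniteDimensional K (QuadraticAlgebra L ν 0) := Module.Finite.trans L _
  refine ⟨QuadraticAlgebra L ν 0, inferInstance, inferInstance, inferInstance, inferInstance,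
    inferInstance, ω, ?_, finrank_eq_two _ _, ⟨fun v => ?_⟩, om_sq, fun σ hσ => ?_⟩
  · refine IsGalois.of_fixedField_eq_bot K _ (eq_bot_iff.2 fun z hz => ?_)
    have key : ∀ (σ : L ≃ₐ[K] L) (b : L) (h : σ ν = b ^ 2 * ν), up σ b h z = z := fun σ b h =>
      (IntermediateField.mem_fixedField_iff _ _).1 hz
        (AlgEquiv.ofBijective (up σ b h) (Algebra.IsAlgebraic.algHom_bijective _)) trivial
    have h4 : z.im = 0 := by
      have e : z.im * (-1) = z.im := congrArg QuadraticAlgebra.im (key 1 (-1) (by simp))
      linear_combination (-1 / 2 : L) * e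
    have h5 : ∀ σ : L ≃ₐ[K] L, σ z.re = z.re := fun σ => by
      obtain ⟨b, hb⟩ := h1.2 σ
      exact congrArg QuadraticAlgebra.re (key σ b hb)
    obtain ⟨a, ha⟩ := (IsGalois.mem_range_algebraMap_iff_fixed z.re).2 h5
    refine IntermediateField.mem_bot.2 ⟨a, ?_⟩
    ext
    · exact ha
    · exact h4.symm
  · rw [InfinitePlace.isReal_iff, ComplexEmbedding.isReal_iff]
    set φ := v.embedding
    have hr := IsTotallyReal.complexEmbedding_isReal
      (φ.comp (algebraMap L (QuadraticAlgebra L ν 0)))
    have e : ∀ a : L, φ (algebraMap L _ a) = (hr.embedding a : ℂ) := fun a =>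
      (hr.coe_embedding_apply a).symm
    have e2 : φ ω ^ 2 = (hr.embedding ν : ℂ) := by rw [← map_pow, om_sq, e]
    have e3 : (φ ω).im = 0 := by
      have a1 := congrArg Complex.re e2
      have a2 := congrArg Complex.im e2
      simp only [sq, Complex.mul_re, Complex.mul_im, Complex.ofReal_re, Complex.ofReal_im] at a1 a2
      have a3 := h3 hr.embedding
      by_contra a4
      have a5 : (φ ω).re = 0 := by
        refine (mul_eq_zero.1 (show (φ ω).re * (φ ω).im = 0 by linarith)).resolve_right a4
      rw [a5] at a1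
      nlinarith [mul_self_nonneg (φ ω).im]
    ext z
    rw [ComplexEmbedding.conjugate_coe_eq, Complex.conj_eq_iff_im, eq_add z, map_add, map_mul, e, e]
    simp only [Complex.add_im, Complex.mul_im, Complex.ofReal_im, e3, mul_zero, zero_mul, add_zero]
  · have e : (σ ω - ω) * (σ ω + ω) = 0 := by
      have : σ ω ^ 2 = ω ^ 2 := by rw [← map_pow, om_sq, hσ]
      linear_combination this
    rcases mul_eq_zero.1 e with e1 | e1
    · left
      ext1 z
      rw [eq_add z, map_add, map_mul, hσ, hσ, sub_eq_zero.1 e1]
      rfl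
    · exact Or.inr (eq_neg_of_add_eq_zero_left e1)

end Pool.Agent.P.MP_44bffd_co.PB
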