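import Pool.Agent.P.MP_44bffd_co.PB.DB

/-! Adjoining the square root of a primary element with even divisor is unramified. -/

namespace Pool.Agent.P.MP_44bffd_co.PB

open NumberField Polynomial

namespace AdjUP

theorem root_int {M : Type} [Field M] [NumberField M] (x : M) (a b : 𝓞 M)
    (h : x ^ 2 = (a : M) * x + b) : ∃ x' : 𝓞 M, (x' : M) = x := by
  refine IsIntegrallyClosed.isIntegral_iff.1 ⟨X ^ 2 - (C a * X + C b), ?_, ?_⟩
  · exact monic_X_pow_sub (degree_linear_le.trans_lt (by norm_num))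
  · simp [h]

end AdjUP

open AdjUP

theorem p_AdjU (h : S_App) : S_AdjU := by
  intro K L M _ _ _ _ _ _ _ _ _ _ _ ν w hν hU hE hP hw hσ σ h1 P'
  have cast : ∀ x : 𝓞 L, ((algebraMap (𝓞 L) (𝓞 M) x : 𝓞 M) : M) = algebraMap L M x := fun _ => rfl
  by_cases hτ : σ.restrictNormal L = 1
  swap
  · obtain ⟨x, hx⟩ := hU _ hτ (und L P')
    refine ⟨algebraMap (𝓞 L) (𝓞 M) x, fun hm => hx ?_⟩
    rw [mem_und, map_sub]
    convert hm using 2
    apply RingOfIntegers.coe_injective
    exact σ.restrictNormal_commutes L x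
  have fix : ∀ a : L, σ (algebraMap L M a) = algebraMap L M a := fun a => by
    rw [← σ.restrictNormal_commutes L a, hτ]
    rfl
  have hs : σ w = -w := (hσ σ fix).resolve_left h1
  have hp := P'.isPrime
  by_cases h2 : (2 : 𝓞 M) ∈ P'.asIdeal
  · obtain ⟨z, y, -, hy⟩ := hP
    have ht : (w * algebraMap L M z) ^ 2 = 1 + 4 * algebraMap L M y := by
      rw [mul_pow, hw, ← map_pow, ← map_mul, hy]
      simp [map_ofNat]
    obtain ⟨x, hx⟩ := root_int ((1 + w * algebraMap L M z) / 2) 1 (algebraMap (𝓞 L) (𝓞 M) y) (by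
      rw [cast]
      simp only [RingOfIntegers.coe_eq_algebraMap, map_one]
      linear_combination (1 / 4 : M) * ht)
    refine ⟨x, fun hm => hp.ne_top ((Ideal.eq_top_iff_one _).2 ?_)⟩
    have e : (σ • x - x) * (σ • x - x) = 1 + 2 * (2 * algebraMap (𝓞 L) (𝓞 M) y) := by
      apply RingOfIntegers.coe_injective
      have e1 : σ (x : M) = (1 - w * algebraMap L M z) / 2 := by
        rw [hx, map_div₀, map_add, map_mul, map_one, map_ofNat, hs, fix]
        ring
      simp only [map_mul, map_sub, map_add, map_one, map_ofNat]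
      change (σ (x : M) - (x : M)) * (σ (x : M) - (x : M)) = 1 + 2 * (2 * algebraMap L M y)
      rw [e1, hx]
      linear_combination ht
    have h3 := P'.asIdeal.mul_mem_left (σ • x - x) hm
    rw [e] at h3
    exact (P'.asIdeal.add_mem_iff_left (P'.asIdeal.mul_mem_right _ h2)).1 h3
  · obtain ⟨z, hz, h3, h4⟩ := h L {und L P'}
      ((dv ν).mapRange (fun n => -(n / 2)) (by simp))
    have hv : ∀ Q, val Q (ν * z ^ 2) = val Q ν + 2 * val Q z := fun Q => by
      rw [val_mul Q hν (pow_ne_zero 2 hz), val_pow]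
      rfl
    obtain ⟨y, hy⟩ := exists_int (a := ν * z ^ 2) fun Q => by
      have h5 := h3 Q
      obtain ⟨k, hk⟩ := hE Q
      rw [Finsupp.mapRange_apply, dv_apply] at h5
      rw [hv]
      omega
    have hy0 : y ≠ 0 := fun e => mul_ne_zero hν (pow_ne_zero 2 hz) (by rw [← hy, e]; rfl)
    have hy1 : y ∉ (und L P').asIdeal := by
      have h5 := h4 _ (Finset.mem_singleton_self _)
      obtain ⟨k, hk⟩ := hE (und L P')
      rw [Finsupp.mapRange_apply, dv_apply] at h5
      rw [← val_eq_zero_iff _ hy0, hy, hv]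
      omega
    have ht : (w * algebraMap L M z) ^ 2 = algebraMap L M y := by
      rw [mul_pow, hw, ← map_pow, ← map_mul, hy]
    obtain ⟨x, hx⟩ := root_int (w * algebraMap L M z) 0 (algebraMap (𝓞 L) (𝓞 M) y) (by
      rw [cast, ht]
      simp)
    refine ⟨x, fun hm => hy1 ?_⟩
    have e : σ • x - x = -(2 * x) := by
      apply RingOfIntegers.coe_injective
      simp only [map_mul, map_sub, map_neg, map_ofNat]
      change σ (x : M) - (x : M) = -(2 * (x : M))
      rw [hx, map_mul, hs, fix]
      ring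
    have e2 : algebraMap (𝓞 L) (𝓞 M) y = x * x := by
      apply RingOfIntegers.coe_injective
      rw [map_mul]
      change algebraMap L M y = (x : M) * (x : M)
      rw [hx, ← ht, sq]
    rw [e, neg_mem_iff] at hm
    rw [mem_und, e2]
    exact P'.asIdeal.mul_mem_left _ ((hp.mem_or_mem hm).resolve_left h2)

end Pool.Agent.P.MP_44bffd_co.PB
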