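import Pool.Agent.P.MP_44bffd_co.PB.DB

/-! The count of ambiguous classes. -/

namespace Pool.Agent.P.MP_44bffd_co.PB

open AddSubgroup

namespace AmbP

variable {G H : Type} [AddCommGroup G] [AddCommGroup H]

theorem push (f : G →+ H) (B A : AddSubgroup G) (hk : f.ker ≤ A) :
    (B ⊔ f.ker).relIndex A = (B.map f).relIndex (A.map f) := by
  rw [relIndex_map_map, sup_eq_left.2 hk]

theorem herb (f : G →+ H) (B A : AddSubgroup G) (h : B ≤ A) :
    B.relIndex A = (B.map f).relIndex (A.map f) * B.relIndex (A ⊓ f.ker) := by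
  have h1 := relIndex_mul_relIndex B (B ⊔ (f.ker ⊓ A)) A le_sup_left (sup_le h inf_le_right)
  rw [relIndex_sup_left] at h1
  have h2 : A ⊔ f.ker = (B ⊔ f.ker) ⊔ A := by
    apply le_antisymm
    · exact sup_le le_sup_right (le_sup_of_le_left le_sup_right)
    · exact sup_le (sup_le (le_sup_of_le_left h) le_sup_right) le_sup_left
  rw [relIndex_map_map, h2, relIndex_sup_left, ← inf_relIndex_right (B ⊔ f.ker) A,
    sup_inf_assoc_of_le _ h, ← h1, mul_comm, inf_comm A]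

theorem rel_card (B A : AddSubgroup G) :
    B.relIndex A = Nat.card (A.map (QuotientAddGroup.mk' B)) := by
  rw [← relIndex_ker, QuotientAddGroup.ker_mk']

theorem fin_rel (B A : AddSubgroup G) (R : Finset G) (h : ∀ D ∈ A, ∃ r ∈ R, D - r ∈ B) :
    B.relIndex A ≠ 0 := by
  rw [rel_card]
  have hf : (A.map (QuotientAddGroup.mk' B) : Set (G ⧸ B)).Finite := by
    refine (R.finite_toSet.image (QuotientAddGroup.mk' B)).subset ?_
    rintro _ ⟨D, hD, rfl⟩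
    obtain ⟨r, hr, hb⟩ := h D hD
    refine ⟨r, hr, ?_⟩
    exact (QuotientAddGroup.eq_iff_sub_mem.2 hb).symm
  have : Finite (A.map (QuotientAddGroup.mk' B)) := hf
  exact Nat.card_pos.ne'

theorem two_rel (B A : AddSubgroup G) (h : ∀ D ∈ A, ∀ D' ∈ A, D ∈ B ∨ D' ∈ B ∨ D - D' ∈ B) :
    B.relIndex A ≤ 2 := by
  by_cases hA : A ≤ B
  · rw [relIndex_eq_one.2 hA]; omega
  obtain ⟨x, hx, hxB⟩ := SetLike.not_le_iff_exists.1 hA
  rw [rel_card]
  have hs : Function.Surjective (fun b : Bool => (if b then ⟨QuotientAddGroup.mk' B x, x, hx, rfl⟩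
      else 0 : A.map (QuotientAddGroup.mk' B))) := by
    rintro ⟨_, D, hD, rfl⟩
    rcases h x hx D hD with h1 | h1 | h1
    · exact absurd h1 hxB
    · refine ⟨false, Subtype.ext ?_⟩
      exact ((QuotientAddGroup.eq_zero_iff D).2 h1).symm
    · refine ⟨true, Subtype.ext ?_⟩
      exact QuotientAddGroup.eq_iff_sub_mem.2 h1
  simpa using Nat.card_le_card_of_surjective _ hs

/-- Kernel and cokernel of an endomorphism of a finite quotient have the same order. -/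
theorem ker_coker (m : G →+ G) (V : AddSubgroup G) (hV : V.index ≠ 0) (hm : V ≤ V.comap m) :
    V.relIndex (V.comap m) = (V ⊔ m.range).index := by
  have h1 := relIndex_mul_index hm
  have h2 := relIndex_mul_index (le_sup_left : V ≤ V ⊔ m.range)
  rw [index_comap] at h1
  rw [relIndex_sup_left] at h2
  have h3 : V.relIndex m.range ≠ 0 := fun h => hV (by rw [← h2, h, zero_mul])
  apply Nat.eq_of_mul_eq_mul_right (Nat.pos_of_ne_zero h3)
  rw [h1, mul_comm, h2]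

theorem arith {a b e1 e2 g1 g2 h' y w x i : ℕ} (hb : b ≠ 0) (hab : 2 * a ≤ b) (he : e2 * e1 = a)
    (hg : g1 ≤ e2) (hh : h' ≤ 2) (hw : w ≤ y) (hx : x = w * e1) (h1 : g2 * g1 = y * i)
    (h2 : i * h' = b * g2) (hg2 : g2 ≠ 0) : x ≤ 1 := by
  have h3 : g2 * (g1 * h') = g2 * (y * b) := by
    calc g2 * (g1 * h') = (g2 * g1) * h' := by ring
      _ = y * (i * h') := by rw [h1]; ring
      _ = g2 * (y * b) := by rw [h2]; ring
  have h4 : g1 * h' = y * b := Nat.eq_of_mul_eq_mul_left (Nat.pos_of_ne_zero hg2) h3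
  have h5 : x * b ≤ 1 * b := by
    calc x * b = w * b * e1 := by rw [hx]; ring
      _ ≤ y * b * e1 := by gcongr
      _ = g1 * h' * e1 := by rw [h4]
      _ ≤ e2 * 2 * e1 := by gcongr
      _ = 2 * a := by rw [← he]; ring
      _ ≤ 1 * b := by omega
  exact Nat.le_of_mul_le_mul_right h5 (Nat.pos_of_ne_zero hb)

end AmbP

open AmbP in
theorem p_Amb : S_Amb := by
  intro E A I _ _ _ u t s ι v ht hs hι hv hinj hker hHb h90 hR hR' htri
  obtain ⟨ha0, hb0, hab⟩ := hHb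
  set Nu := AddMonoidHom.id E + u with hNu
  set Mu := AddMonoidHom.id E - u with hMu
  set Nt := AddMonoidHom.id A + t with hNt
  set Mt := AddMonoidHom.id A - t with hMt
  set Ns := AddMonoidHom.id I + s with hNs
  set Ms := AddMonoidHom.id I - s with hMs
  have nu : ∀ x, Nu x = x + u x := fun _ => rfl
  have mu : ∀ x, Mu x = x - u x := fun _ => rfl
  have nt : ∀ x, Nt x = x + t x := fun _ => rfl
  have mt : ∀ x, Mt x = x - t x := fun _ => rfl
  have ns : ∀ x, Ns x = x + s x := fun _ => rfl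
  have ms : ∀ x, Ms x = x - s x := fun _ => rfl
  have vN : ∀ a, v (Nt a) = Ns (v a) := fun a => by rw [nt, ns, map_add, hv]
  have vM : ∀ a, v (Mt a) = Ms (v a) := fun a => by rw [mt, ms, map_sub, hv]
  have iN : ∀ x, ι (Nu x) = Nt (ι x) := fun a => by rw [nu, nt, map_add, hι]
  have iM : ∀ x, ι (Mu x) = Mt (ι x) := fun a => by rw [mu, mt, map_sub, hι]
  have NMt : ∀ a, Nt (Mt a) = 0 := fun a => by rw [nt, mt, map_sub, ht]; abel
  have MNt : ∀ a, Mt (Nt a) = 0 := fun a => by rw [mt, nt, map_add, ht]; abel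
  have NMs : ∀ a, Ns (Ms a) = 0 := fun a => by rw [ns, ms, map_sub, hs]; abel
  have MNs : ∀ a, Ms (Ns a) = 0 := fun a => by rw [ms, ns, map_add, hs]; abel
  have fixt : ∀ a, a ∈ Mt.ker ↔ t a = a := fun a => by
    rw [AddMonoidHom.mem_ker, mt, sub_eq_zero, eq_comm]
  have fixs : ∀ a, a ∈ Ms.ker ↔ s a = a := fun a => by
    rw [AddMonoidHom.mem_ker, ms, sub_eq_zero, eq_comm]
  have kv : v.ker = ι.range := by
    ext a; rw [AddMonoidHom.mem_ker, hker, AddMonoidHom.mem_range]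
  have vι : ∀ x, v (ι x) = 0 := fun x => (hker _).2 ⟨x, rfl⟩
  have kN : Nt.ker = Mt.range := by
    ext a
    constructor
    · intro h
      obtain ⟨b, hb⟩ := h90 a h
      exact ⟨b, hb.symm⟩
    · rintro ⟨b, rfl⟩
      exact NMt b
  set V := v.range with hV
  set Vp := Mt.ker.map v with hVp
  have VpV : Vp ≤ V := by rintro _ ⟨a, _, rfl⟩; exact ⟨a, rfl⟩
  have VpI : Vp ≤ Ms.ker := by
    rintro _ ⟨a, ha, rfl⟩
    rw [AddMonoidHom.mem_ker, ← vM, (AddMonoidHom.mem_ker).1 ha, map_zero]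
  have NI : Ns.range ≤ Ms.ker := by rintro _ ⟨a, rfl⟩; exact MNs a
  -- finiteness
  have fV : V.index ≠ 0 := by
    obtain ⟨R, hR⟩ := hR
    rw [← relIndex_top_right]
    refine fin_rel _ _ R fun D _ => ?_
    obtain ⟨r, hr, a, rfl⟩ := hR D
    exact ⟨r, hr, a, by abel⟩
  have fh : Vp.relIndex Ms.ker ≠ 0 := by
    obtain ⟨R, hR⟩ := hR'
    refine fin_rel _ _ R fun D hD => ?_
    obtain ⟨r, hr, a, ha, rfl⟩ := hR D ((fixs D).1 hD)
    exact ⟨r, hr, a, (fixt a).2 ha, by abel⟩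
  have h2 : (Vp ⊔ Ns.range).relIndex Ms.ker ≤ 2 := by
    have key : ∀ D, (∃ B a, t a = a ∧ D = B + s B + v a) → D ∈ Vp ⊔ Ns.range := by
      rintro _ ⟨B, a, ha, rfl⟩
      exact add_mem (mem_sup_right ⟨B, rfl⟩) (mem_sup_left ⟨a, (fixt a).2 ha, rfl⟩)
    refine two_rel _ _ fun D hD D' hD' => ?_
    exact (htri D D' ((fixs D).1 hD) ((fixs D').1 hD')).imp (key _) (Or.imp (key _) (key _))
  -- the groups
  set Z := V.comap Ms with hZ
  set Y := Vp.comap Ns with hY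
  set Y0 := V ⊔ Ms.range with hY0
  set X := Mt.ker ⊓ Ns.range.comap v with hX
  have VZ : V ≤ Z := by rintro _ ⟨a, rfl⟩; exact ⟨Mt a, vM a⟩
  have IZ : Ms.ker ≤ Z := fun D hD => by
    rw [hZ, mem_comap, (AddMonoidHom.mem_ker).1 hD]; exact zero_mem _
  have Y0Y : Y0 ≤ Y := by
    refine sup_le ?_ ?_
    · rintro _ ⟨a, rfl⟩
      exact ⟨Nt a, MNt a, vN a⟩
    · rintro _ ⟨D, rfl⟩
      rw [hY, mem_comap, NMs]; exact zero_mem _
  have s1 : V.relIndex Z = Y0.index := ker_coker Ms V fV VZ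
  have s2 : Y0.relIndex Y * Y.index = Y0.index := relIndex_mul_index Y0Y
  have s3 : Y.index * (Vp ⊔ Ns.range).relIndex Ms.ker = Vp.relIndex Ms.ker := by
    rw [hY, index_comap, ← relIndex_sup_left Ns.range Vp]
    exact relIndex_mul_relIndex _ _ _ le_sup_left (sup_le VpI NI)
  have s4 : V.relIndex Ms.ker * (V ⊔ Ms.ker).relIndex Z = V.relIndex Z := by
    rw [← relIndex_sup_left Ms.ker V]
    exact relIndex_mul_relIndex _ _ _ le_sup_left (sup_le VZ IZ)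
  have s5 : Vp.relIndex (V ⊓ Ms.ker) * V.relIndex Ms.ker = Vp.relIndex Ms.ker := by
    rw [← inf_relIndex_right V Ms.ker]
    exact relIndex_mul_relIndex _ _ _ (le_inf VpV VpI) inf_le_right
  -- the capitulation index
  have s6 : Vp.relIndex (V ⊓ Ms.ker) = Mu.range.relIndex Nu.ker := by
    set A' := ι.range.comap Mt with hA'
    have e1 : V ⊓ Ms.ker = A'.map v := by
      ext D
      constructor
      · rintro ⟨⟨a, rfl⟩, hD⟩
        refine ⟨a, ?_, rfl⟩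
        change Mt a ∈ ι.range
        rw [← kv, AddMonoidHom.mem_ker, vM]; exact hD
      · rintro ⟨a, ⟨x, hx⟩, rfl⟩
        refine ⟨⟨a, rfl⟩, ?_⟩
        change Ms (v a) = 0
        rw [← vM, ← hx, vι]
    have k1 : v.ker ≤ A' := by
      rw [kv]; rintro _ ⟨x, rfl⟩; exact ⟨Mu x, iM x⟩
    have k2 : Mt.ker ≤ A' := fun a ha => ⟨0, by rw [map_zero, (AddMonoidHom.mem_ker).1 ha]⟩
    have e2 : ι.range.map Mt = Mu.range.map ι := by
      ext a
      constructor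
      · rintro ⟨_, ⟨x, rfl⟩, rfl⟩; exact ⟨Mu x, ⟨x, rfl⟩, iM x⟩
      · rintro ⟨_, ⟨x, rfl⟩, rfl⟩; exact ⟨ι x, ⟨x, rfl⟩, (iM x).symm⟩
    have e3 : A'.map Mt = Nu.ker.map ι := by
      ext a
      constructor
      · rintro ⟨b, ⟨x, hx⟩, rfl⟩
        refine ⟨x, ?_, hx⟩
        apply hinj
        rw [iN, hx, NMt, map_zero]
      · rintro ⟨x, hx, rfl⟩
        have : ι x ∈ Nt.ker := by
          rw [AddMonoidHom.mem_ker, ← iN, (AddMonoidHom.mem_ker).1 hx, map_zero]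
        rw [kN] at this
        obtain ⟨b, hb⟩ := this
        exact ⟨b, ⟨x, hb.symm⟩, hb⟩
    rw [e1, hVp, ← push v _ _ k1, kv, sup_comm, push Mt _ _ k2, e2, e3,
      relIndex_map_map_of_injective _ _ hinj]
  -- units that are norms
  set NE := Nu.range.map ι with hNE
  set Ep := Mu.ker.map ι with hEp
  have s7 : NE.relIndex (Nt.range ⊓ Ep) * Nt.range.relIndex Ep = Nu.range.relIndex Mu.ker := by
    rw [← relIndex_map_map_of_injective _ _ hinj, ← inf_relIndex_right Nt.range Ep]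
    refine relIndex_mul_relIndex _ _ _ ?_ inf_le_right
    rintro _ ⟨_, ⟨x, rfl⟩, rfl⟩
    refine ⟨⟨ι x, (iN x).symm⟩, Nu x, ?_, rfl⟩
    apply hinj
    rw [iM, iN, MNt, map_zero]
  have s8 : (V ⊔ Ms.ker).relIndex Z ≤ NE.relIndex (Nt.range ⊓ Ep) := by
    set Z' := Ms.range.comap v with hZ'
    have e1 : V.map Ms = Mt.range.map v := by
      ext D
      constructor
      · rintro ⟨_, ⟨a, rfl⟩, rfl⟩; exact ⟨Mt a, ⟨a, rfl⟩, vM a⟩
      · rintro ⟨_, ⟨a, rfl⟩, rfl⟩; exact ⟨v a, ⟨a, rfl⟩, (vM a).symm⟩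
    have e2 : Z.map Ms = Z'.map v := by
      ext D
      constructor
      · rintro ⟨B, ⟨a, ha⟩, rfl⟩; exact ⟨a, ⟨B, ha.symm⟩, ha⟩
      · rintro ⟨a, ⟨B, hB⟩, rfl⟩; exact ⟨B, ⟨a, hB.symm⟩, hB⟩
    have k1 : v.ker ≤ Z' := fun a ha => ⟨0, by rw [map_zero, (AddMonoidHom.mem_ker).1 ha]⟩
    have k2 : Nt.ker ≤ Z' := by
      rw [kN]; rintro _ ⟨a, rfl⟩; exact ⟨v a, (vM a).symm⟩
    have e3 : ι.range.map Nt = NE := by
      ext a
      constructor
      · rintro ⟨_, ⟨x, rfl⟩, rfl⟩; exact ⟨Nu x, ⟨x, rfl⟩, iN x⟩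
      · rintro ⟨_, ⟨x, rfl⟩, rfl⟩; exact ⟨ι x, ⟨x, rfl⟩, (iN x).symm⟩
    rw [push Ms _ _ IZ, e1, e2, ← push v _ _ k1, kv, ← kN, sup_comm, push Nt _ _ k2, e3]
    refine relIndex_le_of_le_right ?_ fun h => ha0 (by rw [← s7, h, zero_mul])
    rintro _ ⟨a, ⟨B, hB⟩, rfl⟩
    refine ⟨⟨a, rfl⟩, ?_⟩
    obtain ⟨x, hx⟩ := (hker (Nt a)).1 (by rw [vN, ← hB, NMs])
    refine ⟨x, ?_, hx⟩
    apply hinj
    rw [iM, hx, MNt, map_zero]
  -- the norm index
  have NX : Nt.range ≤ X := by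
    rintro _ ⟨a, rfl⟩; exact ⟨MNt a, v a, (vN a).symm⟩
  have fY0 : Y0.index ≠ 0 := fun h => fV (by
    rw [← relIndex_mul_index (le_sup_left : V ≤ Y0), h, mul_zero])
  have fy : Y0.relIndex Y ≠ 0 := fun h => fY0 (by rw [← s2, h, zero_mul])
  have e1 : Nt.range.map v = Y0.map Ns := by
    ext D
    constructor
    · rintro ⟨_, ⟨a, rfl⟩, rfl⟩; exact ⟨v a, mem_sup_left ⟨a, rfl⟩, (vN a).symm⟩
    · rintro ⟨B, hB, rfl⟩
      obtain ⟨_, ⟨a, rfl⟩, _, ⟨C, rfl⟩, rfl⟩ := mem_sup.1 hB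
      exact ⟨Nt a, ⟨a, rfl⟩, by rw [map_add, NMs, add_zero, vN]⟩
  have e2 : X.map v = Y.map Ns := by
    ext D
    constructor
    · rintro ⟨a, ⟨ha, B, hB⟩, rfl⟩; exact ⟨B, ⟨a, ha, hB.symm⟩, hB⟩
    · rintro ⟨B, ⟨a, ha, hB⟩, rfl⟩; exact ⟨a, ⟨ha, B, hB.symm⟩, hB⟩
  have e3 : X ⊓ v.ker = Ep := by
    ext a
    constructor
    · rintro ⟨⟨ha, _⟩, hk⟩
      obtain ⟨x, rfl⟩ := (hker a).1 hk
      refine ⟨x, ?_, rfl⟩
      apply hinj
      rw [iM, map_zero]; exact ha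
    · rintro ⟨x, hx, rfl⟩
      refine ⟨⟨?_, 0, by rw [map_zero, vι]⟩, vι x⟩
      change Mt (ι x) = 0
      rw [← iM, (AddMonoidHom.mem_ker).1 hx, map_zero]
  have s9 := herb v Nt.range X NX
  rw [e1, e2, e3] at s9
  have s10 := herb Ns Y0 Y Y0Y
  have fw : (Y0.map Ns).relIndex (Y.map Ns) ≠ 0 := fun h => fy (by rw [s10, h, zero_mul])
  have hw : (Y0.map Ns).relIndex (Y.map Ns) ≤ Y0.relIndex Y :=
    Nat.le_of_dvd (Nat.pos_of_ne_zero fy) ⟨_, s10⟩
  have fe : Nt.range.relIndex Ep ≠ 0 := fun h => ha0 (by rw [← s7, h, mul_zero])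
  have fg : V.relIndex Ms.ker ≠ 0 := fun h => fh (by rw [← s5, h, mul_zero])
  have hx : Nt.range.relIndex X ≤ 1 :=
    arith hb0 hab s7 s8 h2 hw s9 (by rw [s4, s1, s2]) (by rw [s3, ← s6, s5]) fg
  have hx1 : Nt.range.relIndex X = 1 := by
    have : Nt.range.relIndex X ≠ 0 := by rw [s9]; exact mul_ne_zero fw fe
    omega
  intro a D ha hD
  obtain ⟨b, hb⟩ := relIndex_eq_one.1 hx1 (show a ∈ X from ⟨(fixt a).2 ha, D, hD.symm⟩)
  exact ⟨b, hb.symm⟩

end Pool.Agent.P.MP_44bffd_co.PB
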