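import Pool.Agent.P.MP_44bffd_co.PB.DB

/-! Elements with prescribed orders at finitely many primes, and the class of a divisor. -/

namespace Pool.Agent.P.MP_44bffd_co.PB

open Finset NumberField
open scoped Classical nonZeroDivisors

namespace AppP

variable {L : Type} [Field L] [NumberField L]

/-- An integer with prescribed orders at finitely many primes. -/
theorem exists_nat (S : Finset (Pr L)) (e : Pr L → ℕ) :
    ∃ x : 𝓞 L, x ≠ 0 ∧ ∀ P ∈ S, val P (x : L) = e P := by
  rcases S.eq_empty_or_nonempty with rfl | ⟨P₀, h₀⟩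
  · exact ⟨1, one_ne_zero, by simp⟩
  have h : ∀ P : Pr L, ∃ x : 𝓞 L, x ∈ P.asIdeal ^ e P ∧ x ∉ P.asIdeal ^ (e P + 1) := fun P =>
    Ideal.exists_mem_pow_notMem_pow_succ P.asIdeal P.ne_bot P.isPrime.ne_top (e P)
  choose x h1 h2 using h
  obtain ⟨y, hy⟩ := IsDedekindDomain.exists_forall_sub_mem_ideal (s := S) (fun P => P.asIdeal)
    (fun P => e P + 1) (fun P _ => P.prime)
    (fun P _ Q _ hne hh => hne (IsDedekindDomain.HeightOneSpectrum.ext hh)) fun P => x P
  have h3 : ∀ P ∈ S, y ∉ P.asIdeal ^ (e P + 1) := fun P hP hh => h2 P (by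
    have := sub_mem hh (hy P hP)
    rwa [sub_sub_cancel] at this)
  have h4 : ∀ P ∈ S, y ∈ P.asIdeal ^ e P := fun P hP => by
    have := add_mem (Ideal.pow_le_pow_right (Nat.le_succ _) (hy P hP)) (h1 P)
    rwa [sub_add_cancel] at this
  have h0 : y ≠ 0 := fun hh => h3 P₀ h₀ (hh ▸ zero_mem _)
  refine ⟨y, h0, fun P hP => ?_⟩
  have h5 := (le_val_iff P h0 _).2 (h4 P hP)
  have h6 := (le_val_iff P h0 (e P + 1)).not.2 (h3 P hP)
  push_cast at h6
  omega

/-- The fractional ideal of a divisor. -/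
noncomputable def fi (L : Type) [Field L] [NumberField L] :
    Multiplicative (Pr L →₀ ℤ) →* (FractionalIdeal (𝓞 L)⁰ L)ˣ where
  toFun d := d.toAdd.prod fun P n => FractionalIdeal.mk0 L (pz P) ^ n
  map_one' := by simp
  map_mul' a b := by
    rw [toAdd_mul, Finsupp.prod_add_index' (fun _ => zpow_zero _) fun _ _ _ => zpow_add _ _ _]

theorem count_fi (d : Pr L →₀ ℤ) (P : Pr L) :
    FractionalIdeal.count L P (fi L (Multiplicative.ofAdd d) : FractionalIdeal (𝓞 L)⁰ L) = d P := by
  rw [← FractionalIdeal.count_finsuppProd L P d]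
  congr 1
  simp only [fi, MonoidHom.coe_mk, OneHom.coe_mk, toAdd_ofAdd, Finsupp.prod, Units.coe_prod,
    Units.val_zpow_eq_zpow_val, FractionalIdeal.coe_mk0, pz]

theorem eq_of_count {I J : FractionalIdeal (𝓞 L)⁰ L} (hI : I ≠ 0) (hJ : J ≠ 0)
    (h : ∀ P : Pr L, FractionalIdeal.count L P I = FractionalIdeal.count L P J) : I = J := by
  rw [← FractionalIdeal.finprod_heightOneSpectrum_factorization' L hI,
    ← FractionalIdeal.finprod_heightOneSpectrum_factorization' L hJ]
  exact finprod_congr fun P => by rw [h P]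

end AppP

open AppP in
theorem p_App : S_App := by
  intro L _ _ S D
  obtain ⟨m, hm, h1⟩ := exists_nat D.support fun P => (-D P).toNat
  have hm' : (m : L) ≠ 0 := by simpa using hm
  obtain ⟨x, hx, h2⟩ := exists_nat (S ∪ D.support ∪ (dv (m : L)).support)
    fun P => (D P + val P (m : L)).toNat
  have hx' : (x : L) ≠ 0 := by simpa using hx
  have h3 : ∀ P, 0 ≤ D P + val P (m : L) := fun P => by
    by_cases h : P ∈ D.support
    · rw [h1 P h]; omega
    · rw [Finsupp.notMem_support_iff.1 h, zero_add]; exact val_nonneg P m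
  have h4 : ∀ P ∈ S ∪ D.support ∪ (dv (m : L)).support, val P ((x : L) / m) = D P := fun P hP => by
    rw [val_div P hx' hm', h2 P hP, Int.toNat_of_nonneg (h3 P), add_sub_cancel_right]
  refine ⟨(x : L) / m, div_ne_zero hx' hm', fun P => ?_,
    fun P hP => h4 P (mem_union_left _ (mem_union_left _ hP))⟩
  by_cases h : P ∈ S ∪ D.support ∪ (dv (m : L)).support
  · exact (h4 P h).ge
  · simp only [mem_union, Finsupp.mem_support_iff, dv_apply, not_or, not_not] at h
    rw [val_div P hx' hm', h.1.2, h.2, sub_zero]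
    exact val_nonneg P x

open AppP in
theorem p_Div : S_Div := by
  intro K _ _
  refine ⟨(ClassGroup.mk K).comp (fi K), fun c => ?_, fun p => ?_, fun d => ?_⟩
  · refine ClassGroup.induction K (P := fun c => ∃ d, (ClassGroup.mk K).comp (fi K) d = c)
      (fun I => ?_) c
    refine ⟨Multiplicative.ofAdd (Finsupp.ofSupportFinite
      (fun P => FractionalIdeal.count K P I.1) (FractionalIdeal.finite_factors (K := K) I.1)), ?_⟩
    rw [MonoidHom.comp_apply]
    congr 1
    exact Units.ext (eq_of_count (Units.ne_zero _) (Units.ne_zero _) fun P => count_fi _ P)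
  · rw [MonoidHom.comp_apply, ← ClassGroup.mk_mk0 K]
    congr 1
    change (Finsupp.single p (1 : ℤ)).prod (fun P n => FractionalIdeal.mk0 K (pz P) ^ n) = _
    rw [Finsupp.prod_single_index (zpow_zero _), zpow_one]
  · rw [MonoidHom.comp_apply, ClassGroup.mk_eq_one_iff, FractionalIdeal.isPrincipal_iff]
    constructor
    · rintro ⟨a, ha⟩
      refine ⟨a, fun h => Units.ne_zero _ (by rw [ha, h, FractionalIdeal.spanSingleton_zero]), ?_⟩
      ext P
      rw [dv_apply, val, ← ha, count_fi]
    · rintro ⟨a, ha, rfl⟩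
      exact ⟨a, eq_of_count (Units.ne_zero _) (FractionalIdeal.spanSingleton_ne_zero_iff.2 ha)
        fun P => count_fi _ P⟩

end Pool.Agent.P.MP_44bffd_co.PB
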