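import Pool.Agent.P.MP_44bffd_co.PB.DA
import Pool.Agent.P.MP_44bffd_co.LS.Lot
import Pool.Agent.P.MP_44bffd_co.LS.Abs

/-! Arrays with prescribed line sums and the presence lottery. -/

namespace Pool.Agent.P.MP_44bffd_co.PB

open Finset
open scoped Classical

namespace ArrP

theorem ite_ex {ι C : Type} [Fintype ι] (τ : ι → C) (hτ : Function.Injective τ) (x : C) (w : ℕ) :
    (if ∃ k, x = τ k then w else 0) = ∑ k, if x = τ k then w else 0 := by
  split_ifs with h
  · obtain ⟨k, rfl⟩ := h
    rw [sum_eq_single k]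
    · simp
    · intro j _ hj
      exact if_neg fun h => hj (hτ h).symm
    · simp
  · exact (sum_eq_zero fun k _ => if_neg fun h1 => h ⟨k, h1⟩).symm

theorem bits (δ K : ℕ) (h : δ < 2 ^ K) :
    ∑ k : Fin K, (if δ.testBit k = true then 2 ^ (k : ℕ) else 0) = δ := by
  have := LS.AbsP.sum_bits δ K
  rwa [Nat.mod_eq_of_lt h, ← Fin.sum_univ_eq_sum_range
    (fun k => if δ.testBit k = true then 2 ^ k else 0) K] at this

theorem exists_W (K : ℕ) : ∃ W, Vt K = ∑ k : Fin K, 2 ^ (k : ℕ) + W :=
  Nat.exists_eq_add_of_le (by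
    unfold Vt
    rw [Fintype.sum_option]
    exact (sum_le_sum fun k _ => Nat.le_add_left _ _).trans (Nat.le_add_left _ _))

end ArrP

open ArrP

theorem p_Arr (h : S_Mult) : S_Arr := by
  intro K r c C _ n hK hc hs hn
  obtain ⟨m, hm1, -, hm2⟩ := h K r 0 c C n hK hs (by simpa using hn)
  have : NeZero c := ⟨hc.ne'⟩
  have hΦ : ∀ β : Fin r → Option (Fin K), ∃ Φ : ZMod c → C,
      ∀ κ (w : ℕ), ∑ x, (if Φ x = κ then w else 0) = w * m β κ := fun β =>
    LS.LotP.exists_fibres (A := ZMod c) (m β) (by rw [ZMod.card, hm1])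
  choose Φ hΦ using hΦ
  refine ⟨Option (Fin K) × ZMod c, inferInstance, fun b => nu K b.1,
    fun β => Φ (fun j => (β j).1) (∑ j, (β j).2), ?_, fun b => nu_bd K b.1, ?_⟩
  · rw [Fintype.card_prod, Fintype.card_option, Fintype.card_fin, ZMod.card]
  · intro β i κ
    rw [Fintype.sum_prod_type, ← hm2 (fun j => (β j).1) i κ]
    refine sum_congr rfl fun τ _ => ?_
    rw [← hΦ _ κ (nu K τ)]
    refine Eq.trans (sum_congr rfl fun z _ => ?_)
      (Equiv.sum_comp (Equiv.addRight (∑ j ∈ univ.erase i, (β j).2)) _)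
    have e1 : (fun j => (Function.update β i (τ, z) j).1) =
        Function.update (fun j => (β j).1) i τ := by
      funext j
      by_cases h : j = i
      · subst h; simp
      · simp [Function.update_of_ne h]
    have e2 : ∑ j, (Function.update β i (τ, z) j).2 = z + ∑ j ∈ univ.erase i, (β j).2 := by
      rw [← add_sum_erase univ _ (mem_univ i), Function.update_self]
      congr 1
      exact sum_congr rfl fun j hj => by rw [Function.update_of_ne (ne_of_mem_erase hj)]
    simp only [e1, e2, Equiv.coe_addRight]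
    congr

theorem p_Pres (h : S_Arr) : S_Pres := by
  intro K hK
  obtain ⟨W, hW⟩ := exists_W K
  obtain ⟨a, ha⟩ : ∃ a, a = 2 * (K + 3) ^ 2 := ⟨_, rfl⟩
  obtain ⟨n, hn0, hn1⟩ : ∃ n : Option (Fin K × Bool) → ℕ, n none = a * Vt K + W ∧
      ∀ k b, n (some (k, b)) = a * Vt K + if b = true then 2 ^ (k : ℕ) else 0 :=
    ⟨fun x => x.elim (a * Vt K + W) fun y => a * Vt K + if y.2 = true then 2 ^ (y.1 : ℕ) else 0,
      rfl, fun _ _ => rfl⟩
  obtain ⟨B, _, ν, π, h1, h2, h3⟩ := h K 2 (2 * K * a + a + 1) (Option (Fin K × Bool)) n hK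
    (by omega) (by
      simp only [Fintype.sum_option, Fintype.sum_prod_type, Fintype.sum_bool, hn0, hn1,
        sum_add_distrib, if_true, Bool.false_eq_true, if_false, sum_const, card_univ,
        Fintype.card_fin, smul_eq_mul, add_zero, Fintype.card_prod, Fintype.card_bool]
      nlinarith)
    (by
      rintro (_ | ⟨k, b⟩)
      · rw [hn0, ← ha]; omega
      · rw [hn1, ← ha]; omega)
  have key : ∀ δ, δ < 2 ^ K → ∀ (β : Fin 2 → B) (i : Fin 2),
      ∑ s, (if ∃ k : Fin K, π (Function.update β i s) = some (k, δ.testBit k) then ν s else 0) =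
        K * (a * Vt K) + δ := by
    intro δ hδ β i
    have hτ : Function.Injective fun k : Fin K => some (k, δ.testBit k) := fun k j e =>
      congrArg Prod.fst (Option.some.inj e)
    have e : ∀ s, (if ∃ k : Fin K, π (Function.update β i s) = some (k, δ.testBit k) then ν s
        else 0) = ∑ k : Fin K, if π (Function.update β i s) = some (k, δ.testBit k) then ν s
        else 0 := fun s => by convert ite_ex _ hτ (π (Function.update β i s)) (ν s)
    simp only [e]
    rw [sum_comm]
    have e' : ∀ k : Fin K, ∑ s, (if π (Function.update β i s) = some (k, δ.testBit k) then ν s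
        else 0) = n (some (k, δ.testBit k)) := fun k => by convert h3 β i _
    simp only [e', hn1, sum_add_distrib, bits δ K hδ, sum_const, card_univ, Fintype.card_fin,
      smul_eq_mul]
  refine ⟨B, inferInstance, Fintype.card_pos_iff.1 (by rw [h1]; positivity), ν, K * (a * Vt K),
    fun δ s s' => ∃ k : Fin K, π ![s, s'] = some (k, δ.testBit k), ?_, h2, ?_,
    fun δ hδ => ⟨fun s' => ?_, fun s => ?_⟩⟩
  · rw [h1, ha]
    have e : (K + 3) ^ 4 = (K + 3) ^ 2 * (K + 3) ^ 2 := by ring
    have : K + 1 ≤ (K + 3) ^ 2 := by nlinarith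
    have h4 : (K + 1) * (2 * K + 1) ≤ 2 * (K + 3) ^ 2 := by nlinarith
    rw [e]
    nlinarith
  · have h4 : Vt K ≤ (K + 3) * 2 ^ K := by
      have := Vt_add K
      nlinarith [Nat.zero_le (2 ^ K)]
    calc K * (a * Vt K) ≤ (K + 3) * (a * ((K + 3) * 2 ^ K)) := by gcongr; omega
      _ = _ := by rw [ha]; ring
  · convert key δ hδ ![s', s'] 0 using 4 with s
    have : Function.update ![s', s'] 0 s = ![s, s'] := by
      funext j; fin_cases j <;> simp
    rw [this]
  · convert key δ hδ ![s, s] 1 using 4 with s'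
    have : Function.update ![s, s] 1 s' = ![s, s'] := by
      funext j; fin_cases j <;> simp
    rw [this]

end Pool.Agent.P.MP_44bffd_co.PB
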