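import Pool.Agent.P.MP_44bffd_co.PB.DB
import Pool.Agent.P.MP_44bffd_co.LS.Kum

/-! The real quadratic base field and the first floor of the tower. -/

namespace Pool.Agent.P.MP_44bffd_co.PB

open NumberField Polynomial IntermediateField Finset
open scoped Classical

namespace BasP

/-- The primes whose square roots are adjoined. -/
def pr : Fin 8 → ℕ := ![5, 13, 17, 29, 37, 41, 53, 61]

/-- The discriminant of the base field. -/
def Dd : ℕ := 73 * (5 * 13 * 17 * 29 * 37 * 41 * 53 * 61)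

theorem pr_prime (i : Fin 8) : (pr i).Prime := by
  fin_cases i <;> simp only [pr] <;> norm_num

theorem sq_dvd {p m : ℕ} (hp : p.Prime) (h : IsSquare (p * m)) : p ∣ m := by
  obtain ⟨r, hr⟩ := h
  obtain ⟨c, rfl⟩ : p ∣ r := (or_self_iff.1 (hp.dvd_mul.1 (hr ▸ dvd_mul_right p m)))
  refine ⟨c * c, Nat.eq_of_mul_eq_mul_left hp.pos ?_⟩
  rw [hr]
  ring

theorem not_sq (S : Finset (Fin 8)) (hS : S.Nonempty) : ¬ IsSquare (∏ i ∈ S, pr i) := by
  intro h
  obtain ⟨i, hi⟩ := hS
  rw [← mul_prod_erase S pr hi] at h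
  obtain ⟨j, h1, h2⟩ := ((pr_prime i).prime.dvd_finsetProd_iff _).1 (sq_dvd (pr_prime i) h)
  have h3 : ∀ i j, pr i ∣ pr j → j = i := by decide
  exact ne_of_mem_erase h1 (h3 i j h2)

theorem not_sq' (S : Finset (Fin 8)) : ¬ IsSquare (Dd * ∏ i ∈ S, pr i) := by
  intro h
  have hp : Nat.Prime 73 := by norm_num
  rw [Dd, mul_assoc] at h
  rcases hp.dvd_mul.1 (sq_dvd hp h) with h1 | h1
  · norm_num at h1
  · obtain ⟨j, -, h2⟩ := (hp.prime.dvd_finsetProd_iff _).1 h1
    have h3 : ∀ j, ¬ 73 ∣ pr j := by decide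
    exact h3 j h2

theorem two_le {K : Type} [Field K] [NumberField K] {δ : K} {m : ℤ} (h : δ ^ 2 = 1 + 4 * m)
    (hK : ∀ z : K, ∃ a b : ℚ, z = a + b * δ) (p : Pr K) : val p (2 : K) ≤ 1 := by
  by_contra c
  have h2 : (2 : 𝓞 K) ∈ p.asIdeal ^ 2 := (le_val_iff p (x := 2) two_ne_zero 2).1 (by
    change ((2 : ℕ) : ℤ) ≤ val p (2 : K)
    omega)
  have hf : (X ^ 2 - X - C m : ℤ[X]).Monic := by monicity!
  have e : aeval ((1 + δ) / 2) (X ^ 2 - X - C m : ℤ[X]) = 0 := by
    simp only [map_sub, map_pow, aeval_X, eq_intCast, map_intCast]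
    linear_combination h / 4
  set ω : 𝓞 K := ⟨(1 + δ) / 2, _, hf, e⟩ with hω
  have hω' : algebraMap (𝓞 K) K ω = (1 + δ) / 2 := rfl
  have e' : ω ^ 2 - ω - m = 0 := by
    apply RingOfIntegers.coe_injective
    simp only [map_sub, map_pow, hω', map_intCast, map_zero]
    linear_combination h / 4
  have a1 := aeval_derivative_mem_differentIdeal ℤ ℚ K ω (by
    rw [eq_top_iff]
    intro z _
    obtain ⟨a, b, rfl⟩ := hK z
    have : (a : K) + b * δ = algebraMap ℚ K (a - b) + algebraMap ℚ K (2 * b) *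
        algebraMap (𝓞 K) K ω := by
      simp only [hω', eq_ratCast]
      push_cast
      ring
    rw [this]
    exact add_mem (Subalgebra.algebraMap_mem _ _) (mul_mem (Subalgebra.algebraMap_mem _ _)
      (Algebra.subset_adjoin rfl)))
  obtain ⟨g, hg⟩ : minpoly ℤ ω ∣ X ^ 2 - X - C m :=
    minpoly.isIntegrallyClosed_dvd (RingOfIntegers.isIntegral ω) (by simpa using e')
  have a2 : 2 * ω - 1 ∈ differentIdeal ℤ (𝓞 K) := by
    have a3 := congrArg (fun f : ℤ[X] => aeval ω (derivative f)) hg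
    simp only [derivative_mul, map_add, map_mul, minpoly.aeval, zero_mul, add_zero] at a3
    have a4 : aeval ω (derivative (X ^ 2 - X - C m : ℤ[X])) = 2 * ω - 1 := by
      simp [map_ofNat]
    rw [← a4, a3]
    exact Ideal.mul_mem_right _ _ a1
  have : (Ideal.span {(2 : ℤ)}).IsMaximal :=
    PrincipalIdealRing.isMaximal_of_irreducible Int.prime_two.irreducible
  have a3 := pow_sub_one_dvd_differentIdeal ℤ (p := Ideal.span {(2 : ℤ)}) p.asIdeal 2 (by simp) (by
    rw [Ideal.dvd_iff_le, Ideal.map_span, Set.image_singleton, Ideal.span_singleton_le_iff_mem]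
    simpa using h2)
  rw [show 2 - 1 = 1 from rfl, pow_one, Ideal.dvd_iff_le] at a3
  have a4 : (2 : 𝓞 K) ∈ p.asIdeal := Ideal.pow_le_self two_ne_zero h2
  refine p.isPrime.ne_top ((Ideal.eq_top_iff_one _).2 ?_)
  have := sub_mem (Ideal.mul_mem_right ω _ a4) (a3 a2)
  simpa using this

theorem real {K : Type} [Field K] [NumberField K] {δ : K} {D : ℕ} (h : δ ^ 2 = D)
    (hK : ∀ z : K, ∃ a b : ℚ, z = a + b * δ) : IsTotallyReal K := by
  refine ⟨fun v => InfinitePlace.isReal_iff.2 (ComplexEmbedding.isReal_iff.2 ?_)⟩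
  have a1 : v.embedding δ ^ 2 = ((Real.sqrt D : ℝ) : ℂ) ^ 2 := by
    rw [← map_pow, h, ← Complex.ofReal_pow, Real.sq_sqrt (Nat.cast_nonneg D)]
    simp
  have a2 : starRingEnd ℂ (v.embedding δ) = v.embedding δ := by
    rcases sq_eq_sq_iff_eq_or_eq_neg.1 a1 with e | e <;> simp [e]
  ext z
  obtain ⟨a, b, rfl⟩ := hK z
  simp [ComplexEmbedding.conjugate_coe_eq, a2]

theorem ev {L : Type} [Field L] [NumberField L] {δ : L} {p q : ℕ} (hp : p ≠ 0) (hq : q ≠ 0)
    (h : Nat.Coprime p q) (e : δ ^ 2 = p * q) : Ev (p : L) := by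
  intro P
  have a1 := val_pow P δ 2
  rw [e, val_mul P (Nat.cast_ne_zero.2 hp) (Nat.cast_ne_zero.2 hq)] at a1
  by_cases c : (p : 𝓞 L) ∈ P.asIdeal
  · have a2 : (q : 𝓞 L) ∉ P.asIdeal := fun d => by
      obtain ⟨a, b, hab⟩ := (Nat.isCoprime_iff_coprime.2 h).map (Int.castRingHom (𝓞 L))
      refine P.isPrime.ne_top ((Ideal.eq_top_iff_one _).2 ?_)
      rw [← hab]
      exact add_mem (Ideal.mul_mem_left _ _ (by simpa using c))
        (Ideal.mul_mem_left _ _ (by simpa using d))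
    have a3 : val P (q : L) = 0 := (val_eq_zero_iff P (x := q) (Nat.cast_ne_zero.2 hq)).2 a2
    exact ⟨val P δ, by omega⟩
  · have a3 : val P (p : L) = 0 := (val_eq_zero_iff P (x := p) (Nat.cast_ne_zero.2 hp)).2 c
    rw [a3]
    exact Even.zero

end BasP

open BasP LS.KumP

theorem p_Bas : S_Bas := by
  have hr : Real.sqrt Dd ^ 2 = algebraMap ℚ ℝ Dd := by
    rw [Real.sq_sqrt (Nat.cast_nonneg _)]
    simp
  have hD : ¬ IsSquare (Dd : ℚ) := by
    rw [Rat.isSquare_natCast_iff]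
    simpa using not_sq' ∅
  have := adjoin.finiteDimensional (integral hr)
  have : NumberField ℚ⟮Real.sqrt Dd⟯ := NumberField.of_module_finite ℚ _
  set δ : ℚ⟮Real.sqrt Dd⟯ := ⟨Real.sqrt Dd, mem_adjoin_simple_self ℚ _⟩ with hδ
  have h1 : δ ^ 2 = Dd := Subtype.ext (by simp [hδ])
  have hK : ∀ z : ℚ⟮Real.sqrt Dd⟯, ∃ a b : ℚ, z = a + b * δ := fun z => by
    obtain ⟨a, b, e⟩ := form hr z.2
    exact ⟨a, b, Subtype.ext (by simpa using e)⟩
  refine ⟨ℚ⟮Real.sqrt Dd⟯, inferInstance, inferInstance, fun i => pr i, δ, ⟨rank_two hr hD,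
    two_le (m := (Dd / 4 : ℕ)) (by
      rw [h1]
      norm_num [Dd]) hK, fun S hS h => ?_, by simp [pr]⟩, real h1 hK, fun i =>
    ⟨pr i, Dd / pr i, rfl, by revert i; decide, by revert i; decide, by revert i; decide, ?_⟩⟩
  · rcases sq_desc (v := ((∏ i ∈ S, pr i : ℕ) : ℚ)) hr hD (by simpa using h) with e | e
    · exact not_sq S hS (Rat.isSquare_natCast_iff.1 e)
    · rw [← Nat.cast_mul] at e
      exact not_sq' S (Rat.isSquare_natCast_iff.1 e)
  · rw [h1, ← Nat.cast_mul, Nat.mul_div_cancel' (by revert i; decide)]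

theorem p_Start (h1 : S_Bas) (h2 : S_AdjF) (h3 : S_AdjU) : S_Start := by
  obtain ⟨K, _, _, u, δ, hB, hR, hu⟩ := h1
  have key : ∀ n : ℕ, ∃ (j : ℕ) (L : Type) (_ : Field L) (_ : NumberField L) (_ : Algebra K L),
      IsGalois K L ∧ Module.finrank K L = 2 ^ j ∧ IsTotallyReal L ∧ Unr (L ≃ₐ[K] L) L ∧
      ∀ i : Fin 8, i.val < n → IsSquare (algebraMap K L (u i)) := by
    intro n
    induction n with
    | zero =>
      exact ⟨0, K, inferInstance, inferInstance, inferInstance, inferInstance, by simp, hR,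
        fun g hg => (hg (AlgEquiv.ext fun x => g.commutes x)).elim, fun i hi => by omega⟩
    | succ n ih =>
      obtain ⟨j, L, _, _, _, a1, a2, a3, a4, a5⟩ := ih
      by_cases c : ∀ i : Fin 8, i.val < n + 1 → IsSquare (algebraMap K L (u i))
      · exact ⟨j, L, _, inferInstance, _, a1, a2, a3, a4, c⟩
      push Not at c
      obtain ⟨i, hi, c⟩ := c
      have hn : i.val = n := by
        by_contra d
        exact c (a5 i (by omega))
      obtain ⟨p, q, b1, b2, b3, b4, b5⟩ := hu i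
      have e : algebraMap K L (u i) = p := by rw [b1, map_natCast]
      have p0 : p ≠ 0 := by omega
      rw [e] at c
      obtain ⟨M, _, _, _, _, _, w, d1, d2, d3, d4, d5⟩ := h2 K L (p : L)
        ⟨Nat.cast_ne_zero.2 p0, fun g => ⟨1, by simp⟩⟩ c (fun φ => by
          rw [map_natCast]
          exact Nat.cast_pos.2 (Nat.pos_of_ne_zero p0))
      refine ⟨j + 1, M, _, inferInstance, _, d1, ?_, d3, h3 K L M p w (Nat.cast_ne_zero.2 p0) a4
        (ev (δ := algebraMap K L δ) p0 b3.ne' b4 (by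
          rw [← map_pow, b5, map_mul, map_natCast, map_natCast]))
        ⟨1, (p / 4 : ℕ), one_ne_zero, ?_⟩ d4 d5, fun k hk => ?_⟩
      · rw [← Module.finrank_mul_finrank K L M, a2, d2, pow_succ]
      · have : p = 1 + 4 * (p / 4) := by omega
        rw [one_pow, mul_one]
        refine (congrArg (Nat.cast : ℕ → L) this).trans ?_
        generalize p / 4 = m
        simp
      · rw [IsScalarTower.algebraMap_apply K L M]
        by_cases d : k.val < n
        · exact (a5 k d).map (algebraMap L M)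
        · rw [show k = i from Fin.ext (by omega), e, ← d4]
          exact ⟨w, sq w⟩
  obtain ⟨j, L, _, _, _, a1, a2, a3, a4, a5⟩ := key 8
  exact ⟨K, _, inferInstance, u, j, hB, L, _, inferInstance, _, a1, a2, a3, a4,
    fun i => a5 i i.2⟩

end Pool.Agent.P.MP_44bffd_co.PB
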