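import Pool.Agent.P.MP_44bffd_co.PB.DB
import Pool.Agent.P.MP_44bffd_co.LS.Base
import Pool.Agent.P.MP_44bffd_co.LS.Vec
import Pool.Agent.P.MP_44bffd_co.LS.Count
import Pool.Agent.P.MP_44bffd_co.LS.Mink
import Pool.Agent.P.MP_44bffd_co.LS.Graph
import Pool.Agent.P.MP_44bffd_co.LS.Dy
import Pool.Agent.P.MP_44bffd_co.LS.Pot
import Pool.Agent.P.MP_44bffd_co.LS.Near

/-! The dense base with a bounded root discriminant. -/

namespace Pool.Agent.P.MP_44bffd_co.PB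

theorem p_Base (h1 : S_Tow) (h2 : S_CM5) : S_Base := by
  obtain ⟨n₀, ρ, hρ, hT⟩ := h1
  obtain ⟨J, hJ⟩ : ∃ J, J = LS.Tm (4 * ρ) + 2 * (4 * ρ) + 5 := ⟨_, rfl⟩
  refine ⟨36 * 3 ^ 9 * 8 * J * (2 * (172 + 6 * J) + n₀) + 144, by omega,
    fun L e D Γ e1 _ hD hΓ hΓD => ?_⟩
  obtain ⟨n, n1, n2, hR⟩ := hT (43 * e + 99 + 30 + 6 * J)
  obtain ⟨a₁, a₂, a1, a2, hBi⟩ := LS.BaseP.dense (LS.p_Vec LS.p_Count LS.p_Mink) LS.p_Graph
    LS.p_Dy LS.p_Pot (s := 43 * e + 99) (x := J) (h2 _ _ hR) (by omega) hJ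
    Nat.lt_two_pow_self.le (by omega) (by omega)
  refine LS.BaseP.half LS.p_Near hBi a1 a2 hD ?_ hΓ hΓD
  have c1 : n ≤ (2 * (172 + 6 * J) + n₀) * e := by
    have b1 : (2 * (129 + 6 * J) + n₀) * 1 ≤ (2 * (129 + 6 * J) + n₀) * e :=
      Nat.mul_le_mul_left _ e1
    nlinarith
  have c2 := Nat.mul_le_mul_left (36 * 3 ^ 9 * 8 * J) c1
  calc 36 * (3 ^ 9 * (8 * n * J)) + 43 * e + 101
      = 36 * 3 ^ 9 * 8 * J * n + (43 * e + 101) := by ring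
    _ ≤ 36 * 3 ^ 9 * 8 * J * ((2 * (172 + 6 * J) + n₀) * e) + 144 * e :=
        Nat.add_le_add c2 (by omega)
    _ = _ := by ring

end Pool.Agent.P.MP_44bffd_co.PB
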