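import Pool.Agent.P.MP_44bffd_co.PB.DB

/-! Invariant divisors modulo norms and principal divisors form a group of order at most two. -/

namespace Pool.Agent.P.MP_44bffd_co.PB

open Finset NumberField
open scoped Classical

namespace ClsP

theorem sep {A : Type} [AddCommGroup A] (H : AddSubgroup A) (h2 : ∀ x, x + x ∈ H) {d : A}
    (hd : d ∉ H) : ∃ φ : A →+ ZMod 2, (∀ x ∈ H, φ x = 0) ∧ φ d ≠ 0 := by
  have h3 : ∀ y : A ⧸ H, (2 : ℕ) • y = 0 := by
    intro y
    obtain ⟨x, rfl⟩ := QuotientAddGroup.mk_surjective y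
    rw [two_nsmul, ← QuotientAddGroup.mk_add, QuotientAddGroup.eq_zero_iff]
    exact h2 x
  let : Module (ZMod 2) (A ⧸ H) := AddCommGroup.zmodModule h3
  have h4 : (QuotientAddGroup.mk d : A ⧸ H) ≠ 0 := by
    rwa [Ne, QuotientAddGroup.eq_zero_iff]
  obtain ⟨f, hf⟩ := Module.Projective.exists_dual_ne_zero (ZMod 2) h4
  refine ⟨f.toAddMonoidHom.comp (QuotientAddGroup.mk' H), fun x hx => ?_, hf⟩
  have h5 : (QuotientAddGroup.mk x : A ⧸ H) = 0 := (QuotientAddGroup.eq_zero_iff x).2 hx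
  show f (QuotientAddGroup.mk x) = 0
  rw [h5, map_zero]

theorem sep2 {A : Type} [AddCommGroup A] (H : AddSubgroup A) (h2 : ∀ x, x + x ∈ H) {d e : A}
    (hd : d ∉ H) (hde : d - e ∉ H) :
    ∃ φ : A →+ ZMod 2, (∀ x ∈ H, φ x = 0) ∧ φ d ≠ 0 ∧ φ e = 0 := by
  let H' : AddSubgroup A :=
    { carrier := {x | x ∈ H ∨ x - e ∈ H}
      zero_mem' := Or.inl H.zero_mem
      add_mem' := by
        rintro x y (hx | hx) (hy | hy)
        · exact Or.inl (H.add_mem hx hy)
        · exact Or.inr (by have := H.add_mem hx hy; rwa [← add_sub_assoc] at this)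
        · exact Or.inr (by
            have := H.add_mem hx hy
            rwa [show x - e + y = x + y - e by abel] at this)
        · exact Or.inl (by
            have := H.add_mem (H.add_mem hx hy) (h2 e)
            rwa [show x - e + (y - e) + (e + e) = x + y by abel] at this)
      neg_mem' := by
        rintro x (hx | hx)
        · exact Or.inl (H.neg_mem hx)
        · exact Or.inr (by
            have := H.sub_mem (H.neg_mem hx) (h2 e)
            rwa [show -(x - e) - (e + e) = -x - e by abel] at this) }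
  obtain ⟨φ, h3, h4⟩ := sep H' (fun x => Or.inl (h2 x)) (d := d) (fun h => h.elim hd hde)
  exact ⟨φ, fun x hx => h3 x (Or.inl hx), h4,
    h3 e (Or.inr (by rw [sub_self]; exact H.zero_mem))⟩

theorem desc {A C : Type} [AddCommGroup A] [CommGroup C] (cl : Multiplicative A →* C)
    (hs : Function.Surjective cl) (φ : A →+ ZMod 2)
    (hk : ∀ x, cl (Multiplicative.ofAdd x) = 1 → φ x = 0) :
    ∃ χ : C →* ℤˣ, ∀ x, χ (cl (Multiplicative.ofAdd x)) = if φ x = 0 then 1 else -1 := by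
  have h1 : ∀ a b : ZMod 2, (if a + b = 0 then 1 else -1 : ℤˣ) =
      (if a = 0 then 1 else -1) * (if b = 0 then 1 else -1) := by decide
  let ψ : Multiplicative A →* ℤˣ := MonoidHom.mk' (fun x => if φ x.toAdd = 0 then 1 else -1)
    (fun x y => by rw [toAdd_mul, map_add]; exact h1 _ _)
  have h2 : cl.ker ≤ ψ.ker := by
    intro x hx
    show (if φ x.toAdd = 0 then 1 else -1 : ℤˣ) = 1
    rw [if_pos (hk x.toAdd hx)]
  refine ⟨cl.liftOfSurjective hs ⟨ψ, h2⟩, fun x => ?_⟩
  exact MonoidHom.liftOfRightInverse_comp_apply cl _ _ ⟨ψ, h2⟩ _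

end ClsP

theorem p_Cls (h1 : S_Div) (h2 : S_SI) (h3 : S_Inert) : S_Cls := by
  intro G K L _ _ _ _ _ _ _ _ _ _ τ hτ hG hE D D' hD hD'
  have hinv : ∀ {F : Pr L →₀ ℤ}, (∀ P, F (τ • P) = F P) → ∃ d : Pr K →₀ ℤ, ext L d = F := by
    intro F hF
    refine exists_ext (G := G) K fun g P => ?_
    rcases hG g with rfl | rfl
    · rw [one_smul]
    · exact hF P
  obtain ⟨d, rfl⟩ := hinv hD
  obtain ⟨d', rfl⟩ := hinv hD'
  have hττ : τ * τ = 1 := by
    rcases hG (τ * τ) with h | h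
    · exact h
    · exact absurd (mul_eq_left.1 h) hτ
  let H : AddSubgroup (Pr K →₀ ℤ) :=
    { carrier := {x | Nm τ (ext L x)}
      zero_mem' := ⟨0, 1, one_ne_zero, smul_one τ, fun P => by simp [val_one]⟩
      add_mem' := by
        rintro x y ⟨B, a, ha, ha', hB⟩ ⟨B', b, hb, hb', hB'⟩
        refine ⟨B + B', a * b, mul_ne_zero ha hb, by rw [smul_mul', ha', hb'], fun P => ?_⟩
        rw [map_add, Finsupp.add_apply, hB, hB', val_mul P ha hb, Finsupp.add_apply,
          Finsupp.add_apply]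
        ring
      neg_mem' := by
        rintro x ⟨B, a, ha, ha', hB⟩
        refine ⟨-B, a⁻¹, inv_ne_zero ha, by rw [smul_inv'', ha'], fun P => ?_⟩
        rw [map_neg, Finsupp.neg_apply, hB, val_inv, Finsupp.neg_apply, Finsupp.neg_apply]
        ring }
  have hH : ∀ x, x ∈ H ↔ Nm τ (ext L x) := fun _ => Iff.rfl
  have h2x : ∀ x, x + x ∈ H := fun x => ⟨ext L x, 1, one_ne_zero, smul_one τ, fun P => by
    rw [map_add, Finsupp.add_apply, val_one, add_zero, ext_apply, ext_apply, und_smul]⟩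
  by_contra hc
  have c1 : d ∉ H := fun h => hc (Or.inl h)
  have c2 : d' ∉ H := fun h => hc (Or.inr (Or.inl h))
  have c3 : d - d' ∉ H := fun h => hc (Or.inr (Or.inr (by rw [← map_sub]; exact h)))
  have c4 : d' - d ∉ H := fun h => c3 (by have := H.neg_mem h; rwa [neg_sub] at this)
  obtain ⟨cl, hs, hp, hk⟩ := h1 K
  have hker : ∀ x, cl (Multiplicative.ofAdd x) = 1 → x ∈ H := by
    intro x hx
    obtain ⟨a, ha, rfl⟩ := (hk x).1 hx
    refine ⟨0, algebraMap K L a, (map_ne_zero _).2 ha, smul_algebraMap τ a, fun P => ?_⟩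
    rw [hE P a]; simp
  obtain ⟨φ₁, a1, b1, e1⟩ := ClsP.sep2 H h2x c1 c3
  obtain ⟨φ₂, a2, b2, e2⟩ := ClsP.sep2 H h2x c2 c4
  obtain ⟨χ₁, k1⟩ := ClsP.desc cl hs φ₁ fun x hx => a1 x (hker x hx)
  obtain ⟨χ₂, k2⟩ := ClsP.desc cl hs φ₂ fun x hx => a2 x (hker x hx)
  have hne : (1 : ℤˣ) ≠ -1 := by decide
  refine h2 K L (und K) χ₁ χ₂ (fun h => ?_) (fun h => ?_) (fun h => ?_) fun p => ?_
  · have := k1 d
    rw [h, if_neg b1] at this
    exact hne this
  · have := k2 d'
    rw [h, if_neg b2] at this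
    exact hne this
  · have h4 : (χ₁ * χ₂) (cl (Multiplicative.ofAdd d)) = 1 := by rw [h]; rfl
    rw [MonoidHom.mul_apply, k1, k2, if_neg b1, if_pos e2, mul_one] at h4
    exact hne h4.symm
  obtain ⟨P, rfl⟩ := und_surj (L := L) K p
  have hov : ∀ Q, und K Q = und K P → Q = P ∨ Q = τ • P := by
    intro Q hQ
    obtain ⟨g, hg⟩ := (und_trans (G := G)).1 hQ.symm
    rcases hG g with rfl | rfl
    · exact Or.inl (by rw [← hg, one_smul])
    · exact Or.inr hg.symm
  refine ⟨P, τ • P, fun Q hQ => ⟨hov Q hQ, hQ ▸ (h3 G K L τ hτ hG hE Q).1⟩, ?_⟩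
  by_cases hP : τ • P = P
  · refine Or.inr ⟨hP.symm, fun Q hQ => ?_⟩
    have : Q = P := (hov Q hQ).elim id fun h => h.trans hP
    rw [this]
    exact (h3 G K L τ hτ hG hE P).2 hP
  · have hm : Finsupp.single (und K P) (1 : ℤ) ∈ H := by
      refine ⟨Finsupp.single P 1, 1, one_ne_zero, smul_one τ, fun Q => ?_⟩
      rw [val_one, add_zero, ext_apply, Finsupp.single_apply, Finsupp.single_apply,
        Finsupp.single_apply]
      by_cases hQ : und K P = und K Q
      · rw [if_pos hQ]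
        rcases hov Q hQ.symm with rfl | rfl
        · rw [if_pos rfl, if_neg (Ne.symm hP), add_zero]
        · rw [if_neg (Ne.symm hP), smul_smul, hττ, one_smul, if_pos rfl, zero_add]
      · rw [if_neg hQ, if_neg (fun h => hQ (by rw [h])),
          if_neg (fun h => hQ (by rw [h, und_smul])), add_zero]
    refine Or.inl ⟨?_, ?_⟩
    · rw [← hp, k1, if_pos (a1 _ hm)]
    · rw [← hp, k2, if_pos (a2 _ hm)]

end Pool.Agent.P.MP_44bffd_co.PB
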