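import Pool.Agent.P.MP_44bffd_co.PB.DB

/-! Comparison of the sums over principal ideals inside a given ideal. -/

namespace Pool.Agent.P.MP_44bffd_co.PB

open Finset NumberField Filter Topology
open scoped Classical nonZeroDivisors

namespace CmpP

variable {K : Type} [Field K] [NumberField K]

/-- the nonzero principal ideals inside `J` -/
def PI (J : Ideal (𝓞 K)) : Set (Ideal (𝓞 K))⁰ :=
  {I | (I : Ideal (𝓞 K)).IsPrincipal ∧ (I : Ideal (𝓞 K)) ≤ J}

theorem Zp_eq (J : Ideal (𝓞 K)) (s : ℝ) : Zp J s = ∑' I : PI J, nm s (I : (Ideal (𝓞 K))⁰) := by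
  rw [tsum_subtype (PI J) (nm s)]
  refine tsum_congr fun I => ?_
  by_cases h : I ∈ PI J
  · rw [Set.indicator_of_mem h]
    exact if_pos h
  · rw [Set.indicator_of_notMem h]
    exact if_neg h

omit [NumberField K] in
theorem exists_gen (J : Ideal (𝓞 K)) : ∃ g : PI J → 𝓞 K,
    ∀ I, Ideal.span {g I} = ((I : (Ideal (𝓞 K))⁰) : Ideal (𝓞 K)) := by
  have h : ∀ I : PI J, ∃ x : 𝓞 K, Ideal.span {x} = ((I : (Ideal (𝓞 K))⁰) : Ideal (𝓞 K)) :=
    fun I => let ⟨x, hx⟩ := I.2.1; ⟨x, hx.symm⟩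
  exact ⟨fun I => (h I).choose, fun I => (h I).choose_spec⟩

/-- a sum over the elements of `J` regrouped by the ideals they generate -/
theorem regroup (J : Ideal (𝓞 K)) {F : 𝓞 K → ℕ → ℝ} {τ s : ℝ} (h0 : ∀ x j, 0 ≤ F x j)
    (hz : ∀ j, F 0 j = 0) (hs : Summable (nm (K := K) s))
    (hF : ∀ x : 𝓞 K, x ≠ 0 → HasSum (fun q : (𝓞 K)ˣ × ℕ => F ((q.1 : 𝓞 K) * x) q.2)
      (τ * (Ideal.absNorm (Ideal.span {x}) : ℝ) ^ (-s))) :
    HasSum (fun j => ∑' x : J, F x j) (τ * Zp J s) := by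
  obtain ⟨g, hg⟩ := exists_gen J
  have hg0 : ∀ I, g I ≠ 0 := fun I h => nonZeroDivisors.coe_ne_zero (I : (Ideal (𝓞 K))⁰) (by
    rw [← hg I, h, Ideal.span_singleton_eq_bot.2 rfl, Submodule.zero_eq_bot])
  have hgJ : ∀ I, g I ∈ J := fun I => I.2.2 (hg I ▸ Ideal.mem_span_singleton_self _)
  let φ : PI J × ((𝓞 K)ˣ × ℕ) → ℕ × J := fun p =>
    (p.2.2, ⟨p.2.1 * g p.1, J.mul_mem_left _ (hgJ _)⟩)
  let f : ℕ × J → ℝ := fun p => F p.2 p.1
  have hφ : Function.Injective φ := by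
    rintro ⟨I, u, j⟩ ⟨I', u', j'⟩ h
    obtain ⟨h1, h2⟩ := Prod.ext_iff.1 h
    replace h2 : (u : 𝓞 K) * g I = u' * g I' := congrArg Subtype.val h2
    have h3 : I = I' := by
      apply Subtype.ext
      apply Subtype.ext
      rw [← hg, ← hg, ← Ideal.span_singleton_mul_left_unit u.isUnit, h2,
        Ideal.span_singleton_mul_left_unit u'.isUnit]
    subst h3
    exact Prod.ext rfl (Prod.ext (Units.ext (mul_right_cancel₀ (hg0 I) h2)) h1)
  have hout : ∀ p, p ∉ Set.range φ → f p = 0 := by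
    rintro ⟨j, x, hx⟩ hp
    by_cases h : x = 0
    · subst h
      exact hz j
    · exfalso
      let I : PI J := ⟨⟨Ideal.span {x}, mem_nonZeroDivisors_of_ne_zero
        fun e => h (Ideal.span_singleton_eq_bot.1 e)⟩, ⟨x, rfl⟩,
        (Ideal.span_singleton_le_iff_mem J).2 hx⟩
      obtain ⟨u, hu⟩ := Ideal.span_singleton_eq_span_singleton.1 (hg I)
      exact hp ⟨(I, u, j), Prod.ext rfl (Subtype.ext ((mul_comm _ _).trans hu))⟩
  have hfib : ∀ I : PI J, HasSum (fun q => (f ∘ φ) (I, q)) (τ * nm s (I : (Ideal (𝓞 K))⁰)) :=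
    fun I => by
      have := hF (g I) (hg0 I)
      rw [hg] at this
      exact this
  have hI : HasSum (fun I : PI J => τ * nm s (I : (Ideal (𝓞 K))⁰)) (τ * Zp J s) := by
    rw [Zp_eq]
    exact (hs.subtype (PI J)).hasSum.mul_left τ
  have hsum : Summable (f ∘ φ) := by
    refine (summable_prod_of_nonneg fun p => h0 _ _).2 ⟨fun I => (hfib I).summable, ?_⟩
    exact hI.summable.congr fun I => (hfib I).tsum_eq.symm
  have h1 : HasSum (f ∘ φ) (τ * Zp J s) := by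
    rw [← (hsum.hasSum.prod_fiberwise hfib).unique hI]
    exact hsum.hasSum
  have h2 : HasSum f (τ * Zp J s) := (hφ.hasSum_iff hout).1 h1
  exact h2.prod_fiberwise fun j => (h2.summable.prod_factor j).hasSum

end CmpP

open CmpP in
theorem p_Cmp (h1 : S_Fun) (h2 : S_Part) (h3 : S_Lat) (h4 : S_Zeta) : S_Cmp := by
  intro K _ _ _ J hJ
  obtain ⟨κ, _, c, τ, hτ, hc, hP⟩ := h2 K
  obtain ⟨R, Λ, hΛ, hnn, hR, hL⟩ := h1 _ κ c hc
  obtain ⟨C, hC, hC'⟩ := h3 K J R hJ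
  set n := Module.finrank ℚ K with hn
  have hn0 : (0 : ℝ) < n := by exact_mod_cast Module.finrank_pos
  have hr : Real.exp (-1 / n) < 1 :=
    Real.exp_lt_one_iff.2 (div_neg_of_neg_of_pos (by norm_num) hn0)
  refine ⟨C * Λ * (1 - Real.exp (-1 / n))⁻¹ / τ, fun s hs1 hs2 => ?_⟩
  have key : ∀ J' : Ideal (𝓞 K), HasSum (fun j : ℕ => Real.exp (-s * j) *
      ∑' x : J', Ph c s ((Real.exp (j / n))⁻¹ • em (x : 𝓞 K))) (τ * Zp J' s) := fun J' => by
    have := regroup J' (F := fun x j => Real.exp (-s * j) * Ph c s (Real.exp (-(j : ℝ) / n) • em x))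
      (fun x j => mul_nonneg (Real.exp_pos _).le (hnn _ _)) (fun j => ?_) ((h4 K).1 s hs1) (hP s)
    · simpa only [tsum_mul_left, neg_div, Real.exp_neg] using this
    · obtain ⟨w⟩ : Nonempty (InfinitePlace K) := inferInstance
      rw [Ph, if_neg fun h => h w (by simp [em]), mul_zero]
  have hd := ((key J).mul_left (Ideal.absNorm J : ℝ)).sub (key ⊤)
  have hg := (hasSum_geometric_of_lt_one (Real.exp_pos _).le hr).mul_left (C * Λ)
  have hb := hd.norm_le_of_bounded hg fun j => ?_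
  · rw [Real.norm_eq_abs, mul_left_comm, ← mul_sub, abs_mul, abs_of_pos hτ] at hb
    rw [le_div_iff₀ hτ, mul_comm]
    exact hb
  · have ht : 1 ≤ Real.exp (j / n) := Real.one_le_exp (by positivity)
    have h5 := hC' (Ph c s) Λ _ hΛ ht (hR s) (hL s hs1.le hs2)
    have e1 : ∑' x : (⊤ : Ideal (𝓞 K)), Ph c s ((Real.exp (j / n))⁻¹ • em (x : 𝓞 K)) =
        ∑' x : 𝓞 K, Ph c s ((Real.exp (j / n))⁻¹ • em x) :=
      (Submodule.topEquiv (R := 𝓞 K) (M := 𝓞 K)).toEquiv.tsum_eq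
        fun x => Ph c s ((Real.exp (j / n))⁻¹ • em x)
    rw [Real.norm_eq_abs, mul_left_comm, ← mul_sub, abs_mul, abs_of_pos (Real.exp_pos _), e1]
    refine (mul_le_mul_of_nonneg_left h5 (Real.exp_pos _).le).trans ?_
    have e2 : Real.exp (-s * j) * (C * Λ * Real.exp (j / n) ^ n / Real.exp (j / n)) =
        C * Λ * Real.exp (-s * j + n * (j / n) - j / n) := by
      rw [Real.exp_sub, Real.exp_add, Real.exp_nat_mul]
      ring
    rw [e2, ← Real.exp_nat_mul]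
    refine mul_le_mul_of_nonneg_left (Real.exp_le_exp.2 ?_) (mul_nonneg hC hΛ)
    have e3 : (n : ℝ) * (j / n) = j := by field_simp
    have e4 : (j : ℝ) * (-1 / n) = -(j / n) := by ring
    have e5 : (0 : ℝ) ≤ j := Nat.cast_nonneg j
    rw [e3, e4]
    nlinarith

end Pool.Agent.P.MP_44bffd_co.PB
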