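import Pool.Agent.P.MP_44bffd_co.PB.DB

/-! Cocycles from relations, homomorphisms from generators, and the inequality of Golod and
Shafarevich in terms of cocycles. -/

namespace Pool.Agent.P.MP_44bffd_co.PB

open Finset
open scoped Classical

namespace CocP

variable {ι G : Type} [Group G]

theorem sh_apply (g : G) (v : Fr ι G) (q : ι × G) : sh g v q = v (q.1, g⁻¹ * q.2) := rfl

theorem sh_one (v : Fr ι G) : sh (1 : G) v = v := funext fun q => by
  rw [sh_apply, inv_one, one_mul]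

theorem sh_sh (g h : G) (v : Fr ι G) : sh g (sh h v) = sh (g * h) v := funext fun q => by
  rw [sh_apply, sh_apply, sh_apply, mul_inv_rev, mul_assoc]

theorem mem_Au {N : Submodule (ZMod 2) (Fr ι G)} (g : G) {v : Fr ι G} (hv : v ∈ N) :
    sh g v - v ∈ Au N := Submodule.subset_span ⟨g, v, hv, rfl⟩

theorem Au_le {N M : Submodule (ZMod 2) (Fr ι G)} (h : ∀ (g : G), ∀ v ∈ N, sh g v - v ∈ M) :
    Au N ≤ M := Submodule.span_le.2 (by
  rintro _ ⟨g, v, hv, rfl⟩
  exact h g v hv)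

theorem Au_le_self {N : Submodule (ZMod 2) (Fr ι G)} (h : ∀ (g : G), ∀ v ∈ N, sh g v ∈ N) :
    Au N ≤ N := Au_le fun g v hv => N.sub_mem (h g v hv) hv

theorem Au_kill {N : Submodule (ZMod 2) (Fr ι G)} (Φ : Fr ι G →ₗ[ZMod 2] ZMod 2)
    (h : ∀ (g : G), ∀ v ∈ N, Φ (sh g v) = Φ v) : ∀ v ∈ Au N, Φ v = 0 :=
  Au_le (M := LinearMap.ker Φ) fun g v hv => by rw [LinearMap.mem_ker, map_sub, h g v hv, sub_self]

theorem Au_top_stab (g : G) : ∀ v ∈ Au (⊤ : Submodule (ZMod 2) (Fr ι G)),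
    sh g v ∈ Au (⊤ : Submodule (ZMod 2) (Fr ι G)) := fun v hv => by
  have := Submodule.add_mem _ (mem_Au g (Submodule.mem_top (x := v))) hv
  rwa [sub_add_cancel] at this

/-- the basis vectors of the group algebra -/
noncomputable def dl (g : G) : Fr Unit G := Pi.single ((), g) 1

theorem sh_dl (g h : G) : sh g (dl h) = dl (g * h) := funext fun q => by
  obtain ⟨⟨⟩, x⟩ := q
  rw [sh_apply, dl, dl, Pi.single_apply, Pi.single_apply]
  simp only [Prod.mk.injEq, true_and, inv_mul_eq_iff_eq_mul]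

theorem dl_mem (g : G) : dl g - dl 1 ∈ Au (⊤ : Submodule (ZMod 2) (Fr Unit G)) := by
  have := mem_Au g (Submodule.mem_top (x := dl (1 : G)))
  rwa [sh_dl, mul_one] at this

variable [Fintype G]

/-- the functional with prescribed values on the basis -/
def fn (a : G → ZMod 2) : Fr Unit G →ₗ[ZMod 2] ZMod 2 where
  toFun v := ∑ x, v ((), x) * a x
  map_add' v w := by simp [add_mul, sum_add_distrib]
  map_smul' c v := by simp [mul_sum, mul_assoc]

omit [Group G] in
theorem fn_apply (a : G → ZMod 2) (v : Fr Unit G) : fn a v = ∑ x, v ((), x) * a x := rfl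

omit [Group G] in
theorem fn_dl (a : G → ZMod 2) (g : G) : fn a (dl g) = a g := by
  simp [fn_apply, dl, Pi.single_apply]

theorem fn_sh (a : G → ZMod 2) (g : G) (v : Fr Unit G) :
    fn a (sh g v) = fn (fun x => a (g * x)) v := by
  rw [fn_apply, fn_apply, ← Equiv.sum_comp (Equiv.mulLeft g)]
  simp [sh_apply]

theorem sum_zero {v : Fr Unit G} (hv : v ∈ Au (⊤ : Submodule (ZMod 2) (Fr Unit G))) :
    ∑ x, v ((), x) = 0 := by
  simpa [fn_apply] using Au_kill (fn fun _ => 1) (fun g v _ => fn_sh _ g v) v hv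

omit [Group G] in
theorem expand (v : Fr Unit G) : ∑ x, v ((), x) • dl x = v := funext fun q => by
  obtain ⟨⟨⟩, y⟩ := q
  simp [dl, Finset.sum_apply, Pi.single_apply]

/-- coordinates on a quotient of two submodules -/
theorem coords {V : Type} [AddCommGroup V] [Module (ZMod 2) V] [Module.Finite (ZMod 2) V]
    {N M : Submodule (ZMod 2) V} (h : N ≤ M) {r : ℕ}
    (hr : Module.finrank (ZMod 2) M = r + Module.finrank (ZMod 2) N) :
    ∃ (p : V →ₗ[ZMod 2] (Fin r → ZMod 2)) (b : Fin r → V), (∀ i, b i ∈ M) ∧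
      (∀ i, p (b i) = Pi.single i 1) ∧ (∀ v ∈ N, p v = 0) ∧
      ∀ v ∈ M, v - ∑ i, p v i • b i ∈ N := by
  have h1 := (N.submoduleOf M).finrank_quotient_add_finrank
  rw [(Submodule.submoduleOfEquivOfLe h).finrank_eq] at h1
  let e : (M ⧸ N.submoduleOf M) ≃ₗ[ZMod 2] (Fin r → ZMod 2) :=
    LinearEquiv.ofFinrankEq _ _ (by rw [Module.finrank_fin_fun]; omega)
  obtain ⟨p, hp⟩ := LinearMap.exists_extend (e.toLinearMap ∘ₗ (N.submoduleOf M).mkQ)
  have hp' : ∀ v : M, p v = e ((N.submoduleOf M).mkQ v) := fun v => LinearMap.congr_fun hp v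
  have h0 : ∀ v ∈ M, p v = 0 ↔ v ∈ N := fun v hv => by
    rw [hp' ⟨v, hv⟩, e.map_eq_zero_iff, Submodule.mkQ_apply, Submodule.Quotient.mk_eq_zero]
    rfl
  choose b hb using fun i => (e.surjective.comp (N.submoduleOf M).mkQ_surjective) (Pi.single i 1)
  have hb' : ∀ i, p (b i) = Pi.single i 1 := fun i => (hp' _).trans (hb i)
  refine ⟨p, fun i => b i, fun i => (b i).2, hb', fun v hv => (h0 v (h hv)).2 hv, fun v hv => ?_⟩
  refine (h0 _ (M.sub_mem hv (M.sum_mem fun i _ => M.smul_mem _ (b i).2))).1 ?_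
  rw [map_sub, map_sum, sub_eq_zero]
  funext j
  simp [hb', Finset.sum_apply, Pi.single_apply]

theorem two (x : ZMod 2) : x + x = 0 := by
  revert x
  decide

end CocP

open CocP

theorem p_Coc : S_Coc := by
  intro G _ _ d f hf hr hk
  have h1 : ∀ g : G, ∃ m, f m = dl g - dl 1 ∧ (g = 1 → m = 0) := fun g => by
    by_cases hg : g = 1
    · exact ⟨0, by rw [hg, map_zero, sub_self], fun _ => rfl⟩
    · obtain ⟨m, hm⟩ := hr.ge (dl_mem g)
      exact ⟨m, hm, fun e => (hg e).elim⟩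
  choose m hm hm1 using h1
  have m1 : m 1 = 0 := hm1 1 rfl
  have hw : ∀ g h, m g + sh g (m h) - m (g * h) ∈ LinearMap.ker f := fun g h => by
    rw [LinearMap.mem_ker, map_sub, map_add, hf, hm, hm, hm, map_sub, sh_dl, sh_dl, mul_one]
    abel
  refine ⟨fun g h => m g + sh g (m h) - m (g * h), fun φ hφ => ?_⟩
  have inv : ∀ (g : G), ∀ v ∈ LinearMap.ker f, φ (sh g v) = φ v := fun g v hv => by
    rw [← sub_eq_zero, ← map_sub]
    exact hφ _ (mem_Au g hv)
  refine ⟨⟨fun h => ?_, fun g => ?_, fun g h k => ?_⟩, ?_⟩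
  · simp [m1, sh_one]
  · simp [m1]
  · beta_reduce
    rw [← inv g _ (hw h k), map_sub (sh g), map_add (sh g), sh_sh, mul_assoc, ← map_add,
      ← map_add]
    congr 1
    abel
  · rintro ⟨e, he⟩ v hv
    have e1 : e 1 = 0 := by
      have := he 1 1
      simp only [m1, mul_one, map_zero, add_zero, sub_zero, two, zero_add] at this
      exact this.symm
    let Φ : Fr (Fin d) G →ₗ[ZMod 2] ZMod 2 := φ + fn (fun x => e x - φ (m x)) ∘ₗ f
    have hΦ : ∀ y, Φ y = φ y + fn (fun x => e x - φ (m x)) (f y) := fun _ => rfl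
    have k0 : ∀ y ∈ LinearMap.ker f, Φ y = φ y := fun y hy => by
      rw [hΦ, LinearMap.mem_ker.1 hy, map_zero, add_zero]
    have k1 : ∀ (g : G), ∀ y ∈ LinearMap.ker f, Φ (sh g y) = Φ y := fun g y hy => by
      rw [k0 y hy, k0 _ (by rw [LinearMap.mem_ker, hf, LinearMap.mem_ker.1 hy, map_zero]),
        inv g y hy]
    have k2 : ∀ g h : G, Φ (sh g (m h)) = Φ (m h) := fun g h => by
      have := he g h
      simp only [map_sub, map_add] at this
      rw [hΦ, hΦ, hf, hm, map_sub, sh_dl, sh_dl, mul_one, map_sub, map_sub, fn_dl, fn_dl, fn_dl,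
        fn_dl, e1, m1, map_zero]
      linear_combination this + two (e (g * h))
    rw [← k0 v hv]
    refine Au_kill Φ (fun g y _ => ?_) v (hk hv)
    have hy : y - ∑ x, f y ((), x) • m x ∈ LinearMap.ker f := by
      rw [LinearMap.mem_ker, map_sub, map_sum]
      simp only [map_smul, hm, smul_sub, sum_sub_distrib]
      rw [expand, ← sum_smul, sum_zero (hr.le ⟨y, rfl⟩), zero_smul, sub_zero, sub_self]
    have := k1 g _ hy
    simp only [map_sub, map_sum, map_smul, k2] at this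
    exact sub_left_injective this

theorem p_HomLe : S_HomLe := by
  intro G _ _ d hd
  obtain ⟨p, b, hb, -, -, h⟩ := coords (Au_le_self Au_top_stab) hd
  have h1 : ∀ χ ∈ Homs G, ∀ v ∈ Au (⊤ : Submodule (ZMod 2) (Fr Unit G)),
      fn χ v = ∑ i, p v i • fn χ (b i) := fun χ hχ v hv => by
    have := Au_kill (fn χ) (fun g u hu => ?_) _ (h v hv)
    · simpa only [map_sub, map_sum, map_smul, sub_eq_zero] using this
    · rw [fn_sh, fn_apply, fn_apply]
      simp only [hχ g, mul_add, sum_add_distrib]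
      rw [← sum_mul, sum_zero hu, zero_mul, zero_add]
  have h2 : ∀ χ ∈ Homs G, ∀ g, χ g = fn χ (dl g - dl 1) := fun χ hχ g => by
    have := hχ 1 1
    rw [mul_one, two] at this
    rw [map_sub, fn_dl, fn_dl, this, sub_zero]
  have h3 := Set.ncard_le_ncard_of_injOn (s := Homs G) (t := Set.univ)
    (fun χ (i : Fin d) => fn χ (b i)) (fun _ _ => Set.mem_univ _) (fun χ hχ χ' hχ' e => by
      funext g
      rw [h2 χ hχ, h2 χ' hχ', h1 χ hχ _ (dl_mem g), h1 χ' hχ' _ (dl_mem g)]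
      exact sum_congr rfl fun i _ => congrArg _ (congrFun e i))
  simpa [Set.ncard_univ] using h3

theorem p_GS (h1 : S_Cover) (h2 : S_Ineq) (h3 : S_HomLe) (h4 : S_Coc) : S_GS := by
  intro G _ _ d hG hd hH
  obtain ⟨d', f, hf, hr, hk, hd'⟩ := h1 Unit G (Au ⊤) hG Au_top_stab
  have hdd : d ≤ d' := (pow_le_pow_iff_right₀ one_lt_two).1 (hH.trans (h3 G d' hd'))
  have st : ∀ (g : G), ∀ v ∈ LinearMap.ker f, sh g v ∈ LinearMap.ker f := fun g v hv => by
    rw [LinearMap.mem_ker, hf, LinearMap.mem_ker.1 hv, map_zero]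
  obtain ⟨r, ψ, hψ, hr', -, hr''⟩ := h1 (Fin d') G (LinearMap.ker f) hG st
  obtain ⟨w, hw⟩ := h4 G d' f hf hr hk
  obtain ⟨p, b, hb, hb', hp, -⟩ := coords (Au_le_self st) hr''
  let φ : (Fin r → ZMod 2) → Fr (Fin d') G →ₗ[ZMod 2] ZMod 2 := fun x =>
    ∑ i, x i • LinearMap.proj i ∘ₗ p
  have hφ : ∀ x v, φ x v = ∑ i, x i * p v i := fun x v => by simp [φ]
  have h0 : ∀ x, ∀ v ∈ Au (LinearMap.ker f), φ x v = 0 := fun x v hv => by simp [hφ, hp v hv]
  refine ⟨r, fun x g h => φ x (w g h),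
    (Nat.pow_le_pow_left hdd 2).trans_lt (h2 G d' r f ψ hf hψ hr hr' hk (hd.trans hdd)),
    fun x => (hw _ (h0 x)).1, fun x y ⟨e, he⟩ => funext fun i => ?_⟩
  have h5 := (hw _ (h0 (x + y))).2 ⟨e, fun g h => by
    rw [← he]
    simp only [hφ, Pi.add_apply, add_mul, sum_add_distrib]⟩ (b i) (hb i)
  simp only [hφ, hb', Pi.single_apply, mul_ite, mul_one, mul_zero, sum_ite_eq', mem_univ, if_true,
    Pi.add_apply] at h5
  linear_combination h5 - two (y i)

end Pool.Agent.P.MP_44bffd_co.PB
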