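import Pool.Agent.P.MP_44bffd_co.PB.DB

/-! Sign cocycles split in the multiplicative group, and many invariant classes modulo squares. -/

namespace Pool.Agent.P.MP_44bffd_co.PB

namespace CohP

variable {G L : Type} [Group G] [Field L] [MulSemiringAction G L]

theorem two (x : ZMod 2) : x = 0 ∨ x = 1 := by revert x; decide

theorem sg_zero : sg L 0 = 1 := if_pos rfl

theorem sg_one : sg L 1 = -1 := if_neg one_ne_zero

theorem sg_add (x y : ZMod 2) : sg L (x + y) = sg L x * sg L y := by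
  have h : (1 : ZMod 2) + 1 = 0 := rfl
  rcases two x with rfl | rfl <;> rcases two y with rfl | rfl <;> simp [h, sg_zero, sg_one]

theorem sg_sq (x : ZMod 2) : sg L x * sg L x = 1 := by
  rcases two x with rfl | rfl <;> simp [sg_zero, sg_one]

theorem sg_ne (x : ZMod 2) : sg L x ≠ 0 := left_ne_zero_of_mul_eq_one (sg_sq x)

theorem smul_sg (g : G) (x : ZMod 2) : g • sg L x = sg L x := by
  rcases two x with rfl | rfl <;> simp [sg_zero, sg_one]

theorem sg_inj [CharZero L] {x y : ZMod 2} (h : sg L x = sg L y) : x = y := by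
  rcases two x with rfl | rfl <;> rcases two y with rfl | rfl <;> try rfl
  all_goals
    rw [sg_zero, sg_one] at h
    norm_num at h

theorem val_sg [NumberField L] (P : Pr L) (a : L) (x : ZMod 2) : val P (a * sg L x) = val P a := by
  rcases two x with rfl | rfl <;> simp [sg_zero, sg_one, val_neg]

/-- The extension of `G` by the multiplicative group defined by a sign cocycle. -/
@[ext] structure Ex (L : Type) [Field L] (c : {c : G → G → ZMod 2 // Coc c}) : Type where
  a : L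
  x : G
  ne : a ≠ 0

variable {c : {c : G → G → ZMod 2 // Coc c}}

noncomputable instance : Mul (Ex L c) :=
  ⟨fun p q => ⟨p.a * p.x • q.a * sg L (c.1 p.x q.x), p.x * q.x,
    mul_ne_zero (mul_ne_zero p.ne (smul_ne _ q.ne)) (sg_ne _)⟩⟩

instance : One (Ex L c) := ⟨⟨1, 1, one_ne_zero⟩⟩

noncomputable instance : Inv (Ex L c) :=
  ⟨fun p => ⟨p.x⁻¹ • p.a⁻¹ * sg L (c.1 p.x⁻¹ p.x), p.x⁻¹,
    mul_ne_zero (smul_ne _ (inv_ne_zero p.ne)) (sg_ne _)⟩⟩

theorem mul_a (p q : Ex L c) : (p * q).a = p.a * p.x • q.a * sg L (c.1 p.x q.x) := rfl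

theorem mul_x (p q : Ex L c) : (p * q).x = p.x * q.x := rfl

noncomputable instance : Group (Ex L c) :=
  Group.ofLeftAxioms
    (fun p q r => Ex.ext (by
      have h := congrArg (sg L) (c.2.2.2 p.x q.x r.x)
      rw [sg_add, sg_add] at h
      simp only [mul_a, mul_x, smul_mul', smul_sg, mul_smul]
      linear_combination (-(p.a * p.x • q.a * p.x • q.x • r.a)) * h) (mul_assoc _ _ _))
    (fun p => Ex.ext (by
      change 1 * (1 : G) • p.a * sg L (c.1 1 p.x) = p.a
      rw [c.2.1, sg_zero, one_smul, one_mul, mul_one]) (one_mul _))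
    (fun p => Ex.ext (by
      change p.x⁻¹ • p.a⁻¹ * sg L (c.1 p.x⁻¹ p.x) * p.x⁻¹ • p.a * sg L (c.1 p.x⁻¹ p.x) = 1
      rw [mul_right_comm (p.x⁻¹ • p.a⁻¹), ← smul_mul', inv_mul_cancel₀ p.ne, smul_one, one_mul,
        sg_sq]) (inv_mul_cancel _))

/-- The projection. -/
noncomputable def pj : Ex L c →* G where
  toFun p := p.x
  map_one' := rfl
  map_mul' _ _ := rfl

/-- The inclusion. -/
noncomputable def io : Lˣ →* Ex L c where
  toFun a := ⟨a, 1, a.ne_zero⟩
  map_one' := rfl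
  map_mul' a b := Ex.ext (by
    change (a : L) * b = a * (1 : G) • (b : L) * sg L (c.1 1 1)
    rw [c.2.1, sg_zero, one_smul, mul_one]) (one_mul _).symm

end CohP

open CohP in
theorem p_Coh (h1 : S_H90) (h2 : S_Split) : S_Coh := by
  intro G L _ _ _ _ _ _ hG hN c hc
  obtain ⟨s, hs⟩ := h2 G L (Ex L ⟨c, hc⟩) pj io (fun p => dv p.a) hG hN
    (fun g => ⟨⟨1, g, one_ne_zero⟩, rfl⟩) (fun a b h => Units.ext (congrArg Ex.a h))
    (fun p => ⟨fun h => ⟨Units.mk0 p.a p.ne, Ex.ext rfl h.symm⟩, by rintro ⟨a, rfl⟩; rfl⟩)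
    (fun p a a' h => mul_inv_eq_of_eq_mul (Ex.ext (by
      change p.a * p.x • (a : L) * sg L (c p.x 1) = a' * (1 : G) • p.a * sg L (c 1 p.x)
      rw [hc.1, hc.2.1, one_smul, h, mul_comm p.a]
      rfl) ((mul_one _).trans (one_mul _).symm)))
    (fun p q P => by
      change val P (p.a * p.x • q.a * sg L _) = val P p.a + val (p.x⁻¹ • P) q.a
      rw [val_sg, val_mul P p.ne (smul_ne _ q.ne), ← val_smul p.x (p.x⁻¹ • P), smul_inv_smul])
    (fun _ _ => rfl)
  have hx : ∀ g, (s g).x = g := hs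
  have hb : ∀ g h, (s (g * h)).a = (s g).a * g • (s h).a * sg L (c g h) := fun g h => by
    rw [map_mul, mul_a, hx, hx]
  obtain ⟨μ, hμ, hμ'⟩ := h1 G L (fun g => (s g).a ^ 2) (fun g => pow_ne_zero 2 (s g).ne)
    fun g h => by
      rw [hb, smul_pow', mul_pow, mul_pow, sq (sg L _), sg_sq, mul_one]
  refine ⟨fun g => (s g).a, μ, hμ, fun g => (s g).ne, fun g h => ?_, hμ'⟩
  beta_reduce
  rw [hb, mul_comm (sg L _), mul_assoc _ (sg L _), sg_sq, mul_one]

open CohP in
theorem p_Many (h1 : S_GS) (h2 : S_Coh) : S_Many := by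
  intro G L _ _ _ _ _ _ d hG hN hd hH
  obtain ⟨r, c, hr, hc, hinj⟩ := h1 G d hG hd hH
  choose b μ hμ hb hbc hbμ using fun x => h2 G L hG hN (c x) (hc x)
  refine ⟨r, μ, hr, fun x => ⟨hμ x, fun g => ⟨b x g, hbμ x g⟩⟩, fun x y a ha hga ⟨z, hz⟩ => ?_⟩
  have hz0 : z ≠ 0 := by
    rintro rfl
    exact mul_ne_zero (mul_ne_zero (hμ x) (hμ y)) ha (hz.trans (mul_zero _))
  have h3 : ∀ g : G, ∃ e, g • z = sg L e * (b x g * b y g * z) := fun g => by
    have h4 := congrArg (g • ·) hz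
    simp only [smul_mul', hbμ, hga] at h4
    have h5 : (g • z) ^ 2 = (b x g * b y g * z) ^ 2 := by
      linear_combination (b x g * b y g) ^ 2 * hz - h4
    rcases sq_eq_sq_iff_eq_or_eq_neg.1 h5 with h | h
    · exact ⟨0, by rw [sg_zero, one_mul, h]⟩
    · exact ⟨1, by rw [sg_one, neg_one_mul, h]⟩
  choose e he using h3
  refine hinj x y ⟨e, fun g h => ?_⟩
  have h4 : sg L (e (g * h)) = sg L (e g + e h + (c x g h + c y g h)) := by
    have h5 := he (g * h)
    rw [mul_smul, he h] at h5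
    simp only [smul_mul', smul_sg, he g] at h5
    refine mul_right_cancel₀ (mul_ne_zero (mul_ne_zero (hb x (g * h)) (hb y (g * h))) hz0) ?_
    rw [← h5, sg_add, sg_add, sg_add]
    linear_combination (sg L (e g) * sg L (e h) * z * (b y g * g • b y h)) * hbc x g h +
      (sg L (e g) * sg L (e h) * z * sg L (c x g h) * b x (g * h)) * hbc y g h
  rw [sg_inj h4, ← add_assoc, CharTwo.add_self_eq_zero, zero_add]

end Pool.Agent.P.MP_44bffd_co.PB
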