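import Pool.Agent.P.MP_44bffd_co.PB.DA

/-! Joint control of two columns by a balanced family of arrays. -/

namespace Pool.Agent.P.MP_44bffd_co.PB

open Finset
open scoped Classical

theorem p_Ctrl : S_Ctrl := by
  intro B C A _ _ _ _ _ ν n μ α σ p e hF hν hμ he
  obtain ⟨h1, h2, h3, h4⟩ := hF
  obtain ⟨R, hR1, hR2⟩ := h4 p
  obtain ⟨a0⟩ := ‹Nonempty A›
  set s : ℝ := ∑ b, e b with hs
  set M : ℝ := ∑ a, μ a with hM
  set n0 : ℝ := ∑ l, (n l : ℝ) with hn0
  have hσ : 0 ≤ σ := (abs_nonneg _).trans (he p)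
  have hB : (1 : ℝ) ≤ Fintype.card B := by exact_mod_cast Fintype.card_pos
  have hM1 : 1 ≤ M :=
    (hμ a0).trans (single_le_sum (f := μ) (fun a _ => zero_le_one.trans (hμ a)) (mem_univ a0))
  have hM0 : M ≠ 0 := by positivity
  have hνn : ∑ q, (ν q : ℝ) = n0 := by
    have : ∑ l, n l = ∑ q, ν q := by
      rw [← sum_congr rfl fun l _ => h1 a0 p l, sum_comm]
      simp
    rw [hn0]; exact_mod_cast this.symm
  have hn0p : 0 < n0 := by
    rw [← hνn]
    exact sum_pos (fun q _ => by exact_mod_cast hν q) univ_nonempty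
  have hnle : ∀ κ, (n κ : ℝ) ≤ n0 := fun κ =>
    single_le_sum (f := fun l => (n l : ℝ)) (fun l _ => Nat.cast_nonneg _) (mem_univ κ)
  have habs : ∀ g : B → Prop, |∑ b, if g b then e b else 0| ≤ Fintype.card B * σ := by
    intro g
    refine (abs_sum_le_sum_abs _ _).trans ?_
    refine (sum_le_card_nsmul _ _ σ fun b _ => ?_).trans (by simp)
    split_ifs
    · exact he b
    · simpa using hσ
  have hsabs : |s| ≤ Fintype.card B * σ := by simpa using habs fun _ => True
  have h3' : ∀ q p' κ, (∑ a, if α a q p' = κ then μ a else 0) = M * n κ / n0 := by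
    intro q p' κ
    rw [eq_div_iff hn0p.ne']; exact h3 q p' κ
  let T : A → B → C → ℝ := fun a' q κ =>
    (∑ p', if α a' p' q = κ then e p' else 0) - s * n κ / n0
  have Tb : ∀ a' q κ, |T a' q κ| ≤ 2 * Fintype.card B * σ := by
    intro a' q κ
    have a := habs fun p' => α a' p' q = κ
    have b : |s * n κ / n0| ≤ Fintype.card B * σ := by
      rw [mul_div_assoc, abs_mul]
      refine (mul_le_of_le_one_right (abs_nonneg _) ?_).trans hsabs
      rw [abs_of_nonneg (by positivity)]
      exact (div_le_one hn0p).2 (hnle κ)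
    exact (abs_sub _ _).trans (by linarith)
  have Trow : ∀ a' q, ∑ κ, T a' q κ = 0 := by
    intro a' q
    simp only [T, sum_sub_distrib]
    rw [sum_comm, ← sum_div, ← mul_sum, ← hn0, mul_div_cancel_right₀ _ hn0p.ne']
    simp [hs]
  have Tcol : ∀ a' κ, ∑ q, (ν q : ℝ) * T a' q κ = 0 := by
    intro a' κ
    simp only [T, mul_sub, sum_sub_distrib, mul_sum]
    rw [sum_comm, ← sum_mul, hνn, mul_div_cancel₀ _ hn0p.ne', hs, sum_mul, sub_eq_zero]
    refine sum_congr rfl fun p' _ => ?_
    rw [← h2 a' p' κ]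
    push_cast
    rw [mul_sum]
    refine sum_congr rfl fun q _ => ?_
    split_ifs <;> ring
  have Tμ : ∑ a', μ a' • T a' = 0 := by
    funext q κ
    simp only [Finset.sum_apply, Pi.smul_apply, smul_eq_mul, Pi.zero_apply, T, mul_sub, sum_sub_distrib,
      mul_sum]
    rw [sum_comm, ← sum_mul, ← hM, sub_eq_zero]
    have : ∀ p', ∑ a', μ a' * (if α a' p' q = κ then e p' else 0) = e p' * (M * n κ / n0) := by
      intro p'
      rw [← h3' p' q κ, mul_sum]
      refine sum_congr rfl fun a' _ => ?_
      split_ifs <;> ring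
    rw [sum_congr rfl fun p' _ => this p', ← sum_mul, ← hs]
    ring
  have fμ : ∀ a, ∑ a', μ a' * R (T a') a = 0 := by
    intro a
    have := congrFun (congrArg R Tμ) a
    simpa only [map_sum, map_smul, map_zero, Finset.sum_apply, Pi.smul_apply, smul_eq_mul,
      Pi.zero_apply] using this
  have fb : ∀ a a', |R (T a') a / M| ≤ 2 * (Fintype.card B : ℝ) ^ 2 * σ := by
    intro a a'
    rw [abs_div, abs_of_pos (by linarith : 0 < M)]
    refine (div_le_self (abs_nonneg _) hM1).trans ((hR1 _ _ (Tb a') a).trans_eq ?_)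
    ring
  have key : ∀ b b' q κ, ∑ a, ∑ a', (if α a q p = κ then
      μ a * μ a' * (s / M ^ 2 + R (T b') a / M + R (T a') b / M) else 0) =
      ∑ p', if α b' p' q = κ then e p' else 0 := by
    intro b b' q κ
    have inner : ∀ a, ∑ a', (if α a q p = κ then
        μ a * μ a' * (s / M ^ 2 + R (T b') a / M + R (T a') b / M) else 0) =
        (if α a q p = κ then μ a else 0) * (s / M) +
          (if α a q p = κ then μ a * R (T b') a else 0) := by
      intro a
      split_ifs
      · have : ∀ a', μ a * μ a' * (s / M ^ 2 + R (T b') a / M + R (T a') b / M) =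
            μ a * (s / M ^ 2 + R (T b') a / M) * μ a' + μ a / M * (μ a' * R (T a') b) := by
          intro a'; ring
        rw [sum_congr rfl fun a' _ => this a', sum_add_distrib, ← mul_sum, ← mul_sum, fμ, ← hM]
        field_simp
        ring
      · simp
    rw [sum_congr rfl fun a _ => inner a, sum_add_distrib, ← sum_mul, h3',
      hR2 _ (Trow b') (Tcol b')]
    simp only [T]
    field_simp
    ring
  refine ⟨fun a a' b b' => s / M ^ 2 + R (T b') a / M + R (T a') b / M, ?_, key, ?_⟩
  · intro a a' b b'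
    have x := fb a b'
    have y := fb b a'
    have z : |s / M ^ 2| ≤ (Fintype.card B : ℝ) ^ 2 * σ := by
      rw [abs_div, abs_of_pos (by positivity : 0 < M ^ 2)]
      refine (div_le_self (abs_nonneg _) (one_le_pow₀ hM1)).trans (hsabs.trans ?_)
      exact mul_le_mul_of_nonneg_right (by nlinarith) hσ
    exact (abs_add_three _ _ _).trans (by linarith)
  · intro a a' q κ
    rw [← key a a' q κ]
    refine sum_congr rfl fun b _ => sum_congr rfl fun b' _ => ?_
    split_ifs
    · ring
    · rfl

end Pool.Agent.P.MP_44bffd_co.PB
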