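import Pool.Agent.P.MP_44bffd_co.LS.Defs

/-! Statements of the steps of the exact regularisation in a bounded box power. -/

namespace Pool.Agent.P.MP_44bffd_co.PB

open Finset
open scoped Classical

/-! ### Lotteries with comparable weights -/

/-- The weights of the atoms. -/
def nu (K : ℕ) : Option (Fin K) → ℕ
  | none => 2 ^ K
  | some k => 2 ^ K + 2 ^ (k : ℕ)

/-- The total weight of the atoms. -/
def Vt (K : ℕ) : ℕ := ∑ b, nu K b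

theorem nu_bd (K : ℕ) (b : Option (Fin K)) : 2 ^ K ≤ nu K b ∧ nu K b ≤ 2 * 2 ^ K := by
  cases b with
  | none => simp only [nu]; omega
  | some k =>
    have : 2 ^ (k : ℕ) ≤ 2 ^ K := Nat.pow_le_pow_right (by norm_num) k.2.le
    exact ⟨Nat.le_add_right _ _, by simp only [nu]; omega⟩

theorem Vt_add (K : ℕ) : Vt K + 1 = (K + 2) * 2 ^ K := by
  have h : ∀ n : ℕ, ∑ k : Fin n, 2 ^ (k : ℕ) + 1 = 2 ^ n := by
    intro n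
    induction n with
    | zero => simp
    | succ n ih =>
      rw [Fin.sum_univ_castSucc]
      simp only [Fin.val_castSucc, Fin.val_last]
      omega
  have h1 := h K
  simp only [Vt, Fintype.sum_option, nu, sum_add_distrib, sum_const, card_univ, Fintype.card_fin,
    smul_eq_mul]
  nlinarith

def S_Uni : Prop := ∀ K : ℕ, 1 ≤ K →
  ∃ (u : Option (Fin K) → Option (Fin K) → ℤ) (o : Option (Fin K) → ℤ),
    (∀ b, ∑ j, o j * u j b = 1) ∧ (∀ j, ∑ b, (nu K b : ℤ) * u j b = if j = none then 1 else 0) ∧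
    ∀ b, ∑ j, |u j b| ≤ K + 3

/-- Multiplicities of the classes in the cells of an `r`-dimensional array. -/
def Mult {C : Type} [Fintype C] (K r s c : ℕ) (n : C → ℕ)
    (m : (Fin r → Option (Fin K)) → C → ℕ) : Prop :=
  (∀ β, ∑ κ, m β κ = c) ∧ (∀ β κ, s ≤ m β κ) ∧
    ∀ β (i : Fin r) κ, ∑ b, nu K b * m (Function.update β i b) κ = n κ

def S_Mult : Prop := ∀ (K r s c : ℕ) (C : Type) [Fintype C] (n : C → ℕ), 1 ≤ K →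
  ∑ κ, n κ = c * Vt K → (∀ κ, (2 * (K + 3) ^ r + s) * Vt K ≤ n κ) → ∃ m, Mult K r s c n m

def S_Arr : Prop := ∀ (K r c : ℕ) (C : Type) [Fintype C] (n : C → ℕ), 1 ≤ K → 0 < c →
  ∑ κ, n κ = c * Vt K → (∀ κ, 2 * (K + 3) ^ r * Vt K ≤ n κ) →
  ∃ (B : Type) (_ : Fintype B) (ν : B → ℕ) (π : (Fin r → B) → C), Fintype.card B = (K + 1) * c ∧
    (∀ b, 2 ^ K ≤ ν b ∧ ν b ≤ 2 * 2 ^ K) ∧ LS.Lines ν n π

/-- A two-dimensional lottery whose lines have the mass `T + δ`. -/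
def Pres {B : Type} [Fintype B] (ν : B → ℕ) (T K : ℕ) (sel : ℕ → B → B → Prop) : Prop :=
  ∀ δ, δ < 2 ^ K → (∀ s', ∑ s, (if sel δ s s' then ν s else 0) = T + δ) ∧
    ∀ s, ∑ s', (if sel δ s s' then ν s' else 0) = T + δ

def S_Pres : Prop := ∀ K : ℕ, 1 ≤ K → ∃ (B : Type) (_ : Fintype B) (_ : Nonempty B) (ν : B → ℕ)
  (T : ℕ) (sel : ℕ → B → B → Prop), Fintype.card B ≤ 5 * (K + 3) ^ 4 ∧
    (∀ b, 2 ^ K ≤ ν b ∧ ν b ≤ 2 * 2 ^ K) ∧ T ≤ 2 * (K + 3) ^ 4 * 2 ^ K ∧ Pres ν T K sel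

def S_Fib : Prop := ∀ (X C : Type) [Fintype X] [Fintype C] (m : C → ℕ) (S : Finset X) (f : X → C),
  ∑ κ, m κ = Fintype.card X → (∀ κ, (S.filter fun x => f x = κ).card ≤ m κ) →
  ∃ Φ : X → C, (∀ x ∈ S, Φ x = f x) ∧ ∀ κ, (univ.filter fun x => Φ x = κ).card = m κ

/-- Short relations between the weights. -/
def Rel {B Γ : Type} [Fintype B] (ν : B → ℕ) (z : Γ → B → ℤ) : Prop :=
  (∀ γ b, z γ b = 1 ∨ z γ b = 0 ∨ z γ b = -1) ∧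
    (∀ γ, (univ.filter fun b => z γ b ≠ 0).card ≤ 5) ∧ ∀ γ, ∑ b, (ν b : ℤ) * z γ b = 0

def S_Span : Prop := ∀ (K c : ℕ) [NeZero c], 1 ≤ K → 3 ≤ c →
  ∃ (Γ : Type) (_ : Fintype Γ) (_ : Nonempty Γ) (z : Γ → Option (Fin K) × ZMod c → ℤ)
    (a : Γ → (Option (Fin K) × ZMod c → ℝ) →ₗ[ℝ] ℝ), Fintype.card Γ ≤ 2 * ((K + 1) * c) ∧
    Rel (fun b : Option (Fin K) × ZMod c => nu K b.1) z ∧
    (∀ γ y (σ : ℝ), (∀ b, |y b| ≤ σ) → |a γ y| ≤ ((K + 1) * c : ℕ) * σ) ∧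
    ∀ y : Option (Fin K) × ZMod c → ℝ, ∑ b, (nu K b.1 : ℝ) * y b = 0 →
      ∀ b, y b = ∑ γ, a γ y * z γ b

/-- The indicator of an equation. -/
noncomputable def ind {C : Type} (a b : C) : ℤ := if a = b then 1 else 0

def S_FamA : Prop := ∀ (K c : ℕ) [NeZero c] (C Γ : Type) [Fintype C] (n : C → ℕ)
  (m : (Fin 3 → Option (Fin K)) → C → ℕ) (z : Γ → Option (Fin K) × ZMod c → ℤ), 30 ≤ c →
  Mult K 3 10 c n m → Rel (fun b : Option (Fin K) × ZMod c => nu K b.1) z →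
  ∀ (p : Option (Fin K) × ZMod c) (γ : Γ), ∃ p' : Option (Fin K) × ZMod c,
    p' ≠ p ∧ ∀ (δ : Option (Fin K)) (κ κ' : C), ∃ α : ZMod c → Bool → Option (Fin K) × ZMod c →
      Option (Fin K) × ZMod c → C,
      (∀ η t q' l, ∑ q, (if α η t q q' = l then nu K q.1 else 0) = n l) ∧
      (∀ η t q l, ∑ q', (if α η t q q' = l then nu K q'.1 else 0) = n l) ∧
      (∀ q q' l, (univ.filter fun η => α η false q q' = l).card = m ![q.1, q'.1, δ] l) ∧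
      (∀ η q q', η ≠ 0 → α η true q q' = α η false q q') ∧
      ∀ q q' l, ind (α 0 true q q') l - ind (α 0 false q q') l =
        z γ q * (ind κ' l - ind κ l) * (ind q' p - ind q' p')

/-- A weighted family of doubly balanced arrays that controls every column. -/
def Fam {B C A : Type} [Fintype B] [Fintype C] [Fintype A] (ν : B → ℕ) (n : C → ℕ) (μ : A → ℝ)
    (α : A → B → B → C) (Λ : ℝ) : Prop :=
  (∀ a p κ, ∑ q, (if α a q p = κ then ν q else 0) = n κ) ∧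
  (∀ a q κ, ∑ p, (if α a q p = κ then ν p else 0) = n κ) ∧
  (∀ q p κ, (∑ a, if α a q p = κ then μ a else 0) * ∑ l, (n l : ℝ) = (∑ a, μ a) * n κ) ∧
  ∀ p, ∃ R : (B → C → ℝ) →ₗ[ℝ] (A → ℝ),
    (∀ T (σ : ℝ), (∀ q κ, |T q κ| ≤ σ) → ∀ a, |R T a| ≤ Λ * σ) ∧
    ∀ T, (∀ q, ∑ κ, T q κ = 0) → (∀ κ, ∑ q, (ν q : ℝ) * T q κ = 0) →
      ∀ q κ, ∑ a, (if α a q p = κ then μ a * R T a else 0) = T q κ

def S_Fam : Prop := ∀ (K c : ℕ) (C : Type) [Fintype C] [Nonempty C], 1 ≤ K → 30 ≤ c →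
  ∃ (B A : Type) (_ : Fintype B) (_ : Fintype A) (_ : Nonempty B) (_ : Nonempty A) (ν : B → ℕ)
    (μ : A → ℝ), Fintype.card B = (K + 1) * c ∧
    Fintype.card A ≤ 4 * Fintype.card B ^ 3 * Fintype.card C ^ 2 ∧
    (∀ b, 2 ^ K ≤ ν b ∧ ν b ≤ 2 * 2 ^ K) ∧ (∀ a, 1 ≤ μ a ∧ μ a ≤ 2) ∧
    ∀ n : C → ℕ, ∑ κ, n κ = c * Vt K → (∀ κ, (2 * (K + 3) ^ 3 + 10) * Vt K ≤ n κ) →
      ∃ α : A → B → B → C, Fam ν n μ α (Fintype.card B)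

def S_Ctrl : Prop := ∀ (B C A : Type) [Fintype B] [Fintype C] [Fintype A] [Nonempty B] [Nonempty A]
  (ν : B → ℕ) (n : C → ℕ) (μ : A → ℝ) (α : A → B → B → C) (σ : ℝ) (p : B) (e : B → ℝ),
  Fam ν n μ α (Fintype.card B) → (∀ b, 0 < ν b) → (∀ a, 1 ≤ μ a) → (∀ b, |e b| ≤ σ) →
  ∃ h : A → A → A → A → ℝ, (∀ a a' b b', |h a a' b b'| ≤ 5 * (Fintype.card B : ℝ) ^ 2 * σ) ∧
    (∀ b b' q κ, ∑ a, ∑ a', (if α a q p = κ then μ a * μ a' * h a a' b b' else 0) =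
      ∑ p', if α b' p' q = κ then e p' else 0) ∧
    ∀ a a' q κ, ∑ b, ∑ b', (if α b q p = κ then μ b * μ b' * h a a' b b' else 0) =
      ∑ p', if α a' p' q = κ then e p' else 0

/-! ### Labelled graphs -/

/-- Every vertex has `N κ` neighbours with label `κ` up to `ε`. -/
def RV {V C : Type} (G : UG V) (ξ : V → C) (N : C → ℝ) (ε : ℝ) : Prop :=
  ∀ v ∈ G.s, ∀ κ, |(G.cnt v (fun w => ξ w = κ) : ℝ) - N κ| ≤ ε

/-- Labelled graphs for all alphabets with at most `q` letters and all weights of size `2 ^ K`. -/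
def TV (q K : ℕ) (ε : ℝ) (g : ℕ) : Prop := ∀ (C : Type) [Fintype C] [Nonempty C] (N : C → ℝ),
  Fintype.card C ≤ q → (∀ κ, 2 ^ K ≤ N κ ∧ N κ ≤ 8 * 2 ^ K) →
  ∃ (V : Type) (G : UG V) (ξ : V → C), G.s.card ≤ 2 ^ g ∧ RV G ξ N ε

theorem TV.mono {q q' K g g' : ℕ} {ε ε' : ℝ} (h : TV q K ε g) (h1 : q' ≤ q) (h2 : ε ≤ ε')
    (h3 : g ≤ g') : TV q' K ε' g' := by
  intro C _ _ N a b
  obtain ⟨V, G, ξ, c, d⟩ := h C N (a.trans h1) b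
  exact ⟨V, G, ξ, c.trans (Nat.pow_le_pow_right (by norm_num) h3),
    fun v hv κ => (d v hv κ).trans h2⟩

def S_Geo : Prop := ∀ (V V' C : Type) (G : UG V) (W : UG V') (pres : V → V' → V' → Prop)
  (S O : V → V → V' → V' → C),
  (∃ x ∈ G.s, ∃ a ∈ W.s, ∃ b ∈ W.s, G.col x = !W.col b ∧ pres x a b) →
  ∃ (U : Type) (H : UG U) (ξ : U → C), H.s.card ≤ G.s.card ^ 2 * W.s.card ^ 2 ∧
    ∀ v ∈ H.s, ∃ x ∈ G.s, ∃ z ∈ G.s, ∃ a ∈ W.s, ∃ b ∈ W.s,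
      (∀ κ, H.cnt v (fun w => ξ w = κ) = G.cnt x (fun y => O y z a b = κ) +
        W.cnt a (fun a' => pres x a' b ∧ S z x a' b = κ)) ∨
      ∀ κ, H.cnt v (fun w => ξ w = κ) = G.cnt x (fun y => S y z a b = κ) +
        W.cnt b (fun b' => pres x a b' ∧ O z x a b' = κ)

def S_Num : Prop := ∀ (V V' B C A B' : Type) [Fintype B] [Fintype C] [Fintype A] [Fintype B']
  [Nonempty B] [Nonempty A] [Nonempty B'] (G : UG V) (W : UG V') (p : V → B) (ty : V' → A × A × B')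
  (ν : B → ℕ) (n : C → ℕ) (μ : A → ℝ) (α : A → B → B → C) (ν' : B' → ℕ) (T K : ℕ)
  (sel : ℕ → B' → B' → Prop) (σ ε : ℝ), Fam ν n μ α (Fintype.card B) →
  (∀ a, 1 ≤ μ a ∧ μ a ≤ 2) → Pres ν' T K sel → RV G p (fun b => ν b) σ → (∀ b, σ < ν b) →
  RV W ty (fun t => μ t.1 * μ t.2.1 * ν' t.2.2) ε → (∀ s, ε < ν' s) →
  10 * (Fintype.card B : ℝ) ^ 2 * σ + 2 ≤ 2 ^ K →
  ∃ (U : Type) (H : UG U) (ξ : U → C), H.s.card ≤ G.s.card ^ 2 * W.s.card ^ 2 ∧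
    RV H ξ (fun κ => n κ * (1 + (T + 2 ^ K / 2) * (∑ a, μ a) ^ 2 / ∑ l, (n l : ℝ)))
      ((Fintype.card A : ℝ) ^ 2 * (Fintype.card B' * ε + 4))

def S_Del : Prop := ∀ (V C : Type) [Nonempty C] (G : UG V) (ξ : V → Option C) (N : C → ℝ) (ε : ℝ),
  (∀ v ∈ G.s, ∀ κ, |(G.cnt v (fun w => ξ w = some κ) : ℝ) - N κ| ≤ ε) → (∀ κ, ε < N κ) →
  ∃ (H : UG V) (ξ' : V → C), H.s.card ≤ G.s.card ∧ RV H ξ' N ε

def S_Step : Prop := ∀ (q K t K' b Q g g' : ℕ) (σ ε : ℝ), 1 ≤ q → 1 ≤ K → 1 ≤ K' →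
  100 * (K + 3) ^ 4 ≤ 2 ^ t → 9 * q * 4 ^ t ≤ b → 200 * b ^ 10 * (K' + 3) ^ 4 ≤ Q →
  Q * 2 ^ K' ≤ 2 ^ (K + t) → 0 ≤ σ → σ < 2 ^ K → 10 * (b : ℝ) ^ 2 * σ + 2 ≤ 2 ^ K' → 0 ≤ ε →
  ε + 1 ≤ 2 ^ K' → TV b K σ g → TV Q K' ε g' → TV q (K + t) (Q * (ε + 1)) (2 * g + 2 * g')

def S_Wgen : Prop := ∀ (c L q K t r u b : ℕ), LS.HX c L → 1 ≤ c → 1 ≤ q → 1 ≤ K → 1 ≤ r →
  4 * (K + t) ≤ L → 4 * (K + 3) ^ (r + 1) ≤ 2 ^ t → 9 * q * 4 ^ t ≤ b → K + t + 3 ≤ 2 ^ r * u →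
  20 * (6000 * b * r * c * (K + t) * 2 ^ u) ≤ 2 ^ K →
  TV q (K + t) ((6000 * b * r * c * (K + t) * 2 ^ u : ℕ) : ℝ) (4 * c * r ^ 2 * (K + t))

def S_Rec : Prop := ∀ c L l m : ℕ, LS.HX c L → 1 ≤ c → c ≤ 2 ^ l → 3 ≤ l → ∀ J w : ℕ, l ^ 2 ≤ w →
  200 * 128 ^ J * w ≤ m → 4 ^ J * (2 * m) + 3 ≤ 2 ^ l → 4 * (4 ^ J * (2 * m)) ≤ L →
  ∃ E : ℕ, E + 2 * w ≤ 10 * 128 ^ J * w ∧ TV (2 ^ w) (4 ^ J * (2 * m)) (2 ^ E)
    (144 * c * (4 ^ J * (2 * m)) + 2 ^ J * (4 * c * l ^ 2 * (2 * m)))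

def S_Abs : Prop := ∀ (K E g : ℕ), 1 ≤ K → TV (4 * K) K (2 ^ E) g → ∀ D g₀ : ℕ,
  Nr D (2 ^ K - 1) g₀ → Nr (D + (K * 2 ^ K + K * 2 ^ E)) (2 * K * 2 ^ E) (2 * g₀ + g)

def S_Fin : Prop := ∀ c : ℕ, 1 ≤ c → (∀ L, LS.HX c L) → ∃ C : ℕ, ∀ d : ℕ, 2 ≤ d →
  ∃ (V : Type) (G : UG V), G.s.card ≤ d ^ C ∧ ∀ v ∈ G.s, G.deg v = d

end Pool.Agent.P.MP_44bffd_co.PB
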