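import Mathlib

/-! Orders of elements of a number field at its primes, and the action of automorphisms. -/

namespace Pool.Agent.P.MP_44bffd_co.PB

open NumberField IsDedekindDomain
open scoped nonZeroDivisors Pointwise

/-- The nonzero primes of the ring of integers. -/
abbrev Pr (L : Type) [Field L] : Type := HeightOneSpectrum (𝓞 L)

variable {L : Type} [Field L] [NumberField L]

/-- The order of `a` at the prime `P` (zero for `a = 0`). -/
noncomputable def val (P : Pr L) (a : L) : ℤ :=
  FractionalIdeal.count L P (FractionalIdeal.spanSingleton (𝓞 L)⁰ a)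

theorem val_zero (P : Pr L) : val P (0 : L) = 0 := by
  rw [val, FractionalIdeal.spanSingleton_zero, FractionalIdeal.count_zero]

theorem val_mul (P : Pr L) {a b : L} (ha : a ≠ 0) (hb : b ≠ 0) :
    val P (a * b) = val P a + val P b := by
  unfold val
  rw [← FractionalIdeal.spanSingleton_mul_spanSingleton, FractionalIdeal.count_mul]
  · rwa [Ne, FractionalIdeal.spanSingleton_eq_zero_iff]
  · rwa [Ne, FractionalIdeal.spanSingleton_eq_zero_iff]

theorem val_one (P : Pr L) : val P (1 : L) = 0 := by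
  have := val_mul P (one_ne_zero (α := L)) one_ne_zero
  rw [one_mul] at this
  omega

theorem val_inv (P : Pr L) (a : L) : val P a⁻¹ = -val P a := by
  rcases eq_or_ne a 0 with rfl | ha
  · simp [val_zero]
  have := val_mul P ha (inv_ne_zero ha)
  rw [mul_inv_cancel₀ ha, val_one] at this
  omega

theorem val_div (P : Pr L) {a b : L} (ha : a ≠ 0) (hb : b ≠ 0) :
    val P (a / b) = val P a - val P b := by
  rw [div_eq_mul_inv, val_mul P ha (inv_ne_zero hb), val_inv, sub_eq_add_neg]

theorem val_pow (P : Pr L) (a : L) (n : ℕ) : val P (a ^ n) = n * val P a := by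
  unfold val
  rw [← FractionalIdeal.spanSingleton_pow, FractionalIdeal.count_pow]

theorem val_neg (P : Pr L) (a : L) : val P (-a) = val P a := by
  rcases eq_or_ne a 0 with rfl | ha
  · simp
  have h1 := val_pow P (-a) 2
  rw [neg_sq, val_pow] at h1
  push_cast at h1
  omega

theorem val_fin (a : L) : {P : Pr L | val P a ≠ 0}.Finite :=
  FractionalIdeal.finite_factors (K := L) _

theorem le_val_iff (P : Pr L) {x : 𝓞 L} (hx : x ≠ 0) (n : ℕ) :
    (n : ℤ) ≤ val P (x : L) ↔ x ∈ P.asIdeal ^ n := by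
  classical
  have h0 : Ideal.span {x} ≠ 0 := by simpa using hx
  have e : FractionalIdeal.spanSingleton (𝓞 L)⁰ (x : L) = (Ideal.span {x} : Ideal (𝓞 L)) :=
    (FractionalIdeal.coeIdeal_span_singleton x).symm
  rw [val, e, FractionalIdeal.count_coe L P h0, Nat.cast_le,
    ← Associates.prime_pow_dvd_iff_le (Associates.mk_ne_zero.2 h0) P.associates_irreducible,
    ← Associates.mk_pow, Associates.mk_le_mk_iff_dvd, Ideal.dvd_span_singleton]

theorem val_nonneg (P : Pr L) (x : 𝓞 L) : 0 ≤ val P (x : L) := by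
  rcases eq_or_ne x 0 with rfl | hx
  · simp [val_zero]
  · simpa using (le_val_iff P hx 0).2 (by simp)

theorem val_eq_zero_iff (P : Pr L) {x : 𝓞 L} (hx : x ≠ 0) : val P (x : L) = 0 ↔ x ∉ P.asIdeal := by
  have h1 := le_val_iff P hx 1
  have h2 := val_nonneg P x
  rw [pow_one] at h1
  rw [← h1]
  push_cast
  omega

theorem exists_int {a : L} (h : ∀ P : Pr L, 0 ≤ val P a) : ∃ x : 𝓞 L, (x : L) = a := by
  rcases eq_or_ne a 0 with rfl | ha
  · exact ⟨0, by simp⟩
  obtain ⟨x, y, hy, rfl⟩ := IsFractionRing.div_surjective (A := 𝓞 L) a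
  have hy0 : y ≠ 0 := nonZeroDivisors.ne_zero hy
  have hx0 : x ≠ 0 := by rintro rfl; simp at ha
  have hx' : (x : L) ≠ 0 := by simpa using hx0
  have hy' : (y : L) ≠ 0 := by simpa using hy0
  apply HeightOneSpectrum.mem_integers_of_valuation_le_one (R := 𝓞 L) L
  intro P
  have h1 : val P (y : L) ≤ val P (x : L) := by
    have := h P
    rw [show algebraMap (𝓞 L) L x / algebraMap (𝓞 L) L y = (x : L) / (y : L) from rfl,
      val_div P hx' hy'] at this
    omega
  obtain ⟨n, hn⟩ := Int.eq_ofNat_of_zero_le (val_nonneg P y)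
  have h2 : x ∈ P.asIdeal ^ n := (le_val_iff P hx0 n).1 (hn ▸ h1)
  have h3 : y ∉ P.asIdeal ^ (n + 1) := by
    rw [← le_val_iff P hy0, hn]
    push_cast
    omega
  rw [← P.intValuation_le_pow_iff_mem] at h2 h3
  rw [map_div₀, P.valuation_of_algebraMap, P.valuation_of_algebraMap,
    div_le_one₀ (zero_lt_iff.2 (P.intValuation_ne_zero y hy0))]
  refine h2.trans ?_
  rw [not_le, ← WithZero.exp_log (P.intValuation_ne_zero y hy0), WithZero.exp_lt_exp] at h3
  rw [← WithZero.exp_log (P.intValuation_ne_zero y hy0), WithZero.exp_le_exp]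
  push_cast at h3
  omega

theorem exists_unit {a : L} (ha : a ≠ 0) (h : ∀ P : Pr L, val P a = 0) :
    ∃ u : (𝓞 L)ˣ, ((u : 𝓞 L) : L) = a := by
  obtain ⟨x, hx⟩ := exists_int (a := a) fun P => (h P).ge
  obtain ⟨y, hy⟩ := exists_int (a := a⁻¹) fun P => by rw [val_inv, h P]; simp
  have e : x * y = 1 := by
    apply RingOfIntegers.coe_injective
    rw [map_mul, map_one]
    exact (show (x : L) * (y : L) = 1 by rw [hx, hy, mul_inv_cancel₀ ha])
  exact ⟨⟨x, y, e, by rw [mul_comm, e]⟩, hx⟩

theorem val_unit (P : Pr L) (u : (𝓞 L)ˣ) : val P ((u : 𝓞 L) : L) = 0 :=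
  (val_eq_zero_iff P u.ne_zero).2 fun h => P.isPrime.ne_top (Ideal.eq_top_of_isUnit_mem _ h u.isUnit)

theorem exists_val_eq_one (P : Pr L) : ∃ x : 𝓞 L, x ≠ 0 ∧ val P (x : L) = 1 := by
  obtain ⟨x, h1, h2⟩ := Ideal.exists_mem_pow_notMem_pow_succ P.asIdeal P.ne_bot P.isPrime.ne_top 1
  have hx : x ≠ 0 := by rintro rfl; exact h2 (zero_mem _)
  rw [← le_val_iff P hx] at h1 h2
  push_cast at h1 h2
  exact ⟨x, hx, by omega⟩

/-- The divisor of `a`. -/
noncomputable def dv (a : L) : Pr L →₀ ℤ :=
  Finsupp.ofSupportFinite (fun P => val P a) (val_fin a)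

@[simp] theorem dv_apply (a : L) (P : Pr L) : dv a P = val P a := rfl

section Action

variable {G : Type} [Group G] [MulSemiringAction G L]

omit [NumberField L] in
theorem coe_smul (g : G) (x : 𝓞 L) : ((g • x : 𝓞 L) : L) = g • (x : L) := rfl

theorem smul_ne {R : Type} [Ring R] [MulSemiringAction G R] (g : G) {x : R} (hx : x ≠ 0) :
    g • x ≠ 0 := fun h => hx (by rw [← inv_smul_smul g x, h, smul_zero])

noncomputable instance : MulAction G (Pr L) where
  smul g P := ⟨g • P.asIdeal, by have := P.isPrime; infer_instance, fun h => P.ne_bot (by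
    have h2 := congrArg (fun I : Ideal (𝓞 L) => g⁻¹ • I) h
    simpa using h2)⟩
  one_smul P := HeightOneSpectrum.ext (one_smul G P.asIdeal)
  mul_smul g h P := HeightOneSpectrum.ext (mul_smul g h P.asIdeal)

omit [NumberField L] in
theorem smul_asIdeal (g : G) (P : Pr L) : (g • P).asIdeal = g • P.asIdeal := rfl

omit [NumberField L] in
theorem smul_mem_smul (g : G) (P : Pr L) (x : 𝓞 L) : g • x ∈ (g • P).asIdeal ↔ x ∈ P.asIdeal :=
  Ideal.smul_mem_pointwise_smul_iff

theorem val_smul (g : G) (P : Pr L) (a : L) : val (g • P) (g • a) = val P a := by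
  have key : ∀ x : 𝓞 L, x ≠ 0 → val (g • P) (g • (x : L)) = val P (x : L) := by
    intro x hx
    have hx' : g • x ≠ 0 := smul_ne g hx
    have h : ∀ n : ℕ, (n : ℤ) ≤ val (g • P) (g • (x : L)) ↔ (n : ℤ) ≤ val P (x : L) := by
      intro n
      rw [← coe_smul, le_val_iff _ hx', le_val_iff _ hx, smul_asIdeal, ← smul_pow',
        Ideal.smul_mem_pointwise_smul_iff]
    obtain ⟨n, hn⟩ := Int.eq_ofNat_of_zero_le (val_nonneg P x)
    obtain ⟨m, hm⟩ := Int.eq_ofNat_of_zero_le (val_nonneg (g • P) (g • x))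
    rw [coe_smul] at hm
    have h1 := (h n).2 hn.ge
    have h2 := (h m).1 hm.ge
    omega
  rcases eq_or_ne a 0 with rfl | ha
  · simp [val_zero]
  obtain ⟨x, y, hy, rfl⟩ := IsFractionRing.div_surjective (A := 𝓞 L) a
  have hy0 : y ≠ 0 := nonZeroDivisors.ne_zero hy
  have hx0 : x ≠ 0 := by rintro rfl; simp at ha
  have hx' : (x : L) ≠ 0 := by simpa using hx0
  have hy' : (y : L) ≠ 0 := by simpa using hy0
  rw [show algebraMap (𝓞 L) L x / algebraMap (𝓞 L) L y = (x : L) / (y : L) from rfl,
    smul_div₀', val_div _ (smul_ne g hx') (smul_ne g hy'), val_div _ hx' hy', key x hx0,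
    key y hy0]

end Action

/-- The prime of the smaller field below `P`. -/
noncomputable def und (K : Type) [Field K] [NumberField K] [Algebra K L] (P : Pr L) : Pr K :=
  P.under (𝓞 K)

omit [NumberField L] in
theorem mem_und (K : Type) [Field K] [NumberField K] [Algebra K L] (P : Pr L) (x : 𝓞 K) :
    x ∈ (und K P).asIdeal ↔ algebraMap (𝓞 K) (𝓞 L) x ∈ P.asIdeal := Iff.rfl

omit [NumberField L] in
theorem und_surj (K : Type) [Field K] [NumberField K] [Algebra K L] :
    Function.Surjective (und K : Pr L → Pr K) := fun ⟨p, _, hp⟩ => by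
  obtain ⟨P, hP, rfl⟩ := p.exists_ideal_over_prime_of_isIntegral_of_isDomain (S := 𝓞 L) (by
    rw [(RingHom.injective_iff_ker_eq_bot (algebraMap (𝓞 K) (𝓞 L))).1
      (FaithfulSMul.algebraMap_injective _ _)]
    exact bot_le)
  exact ⟨⟨P, hP, fun h => hp (by
    rw [h]; exact Ideal.comap_bot_of_injective _ (FaithfulSMul.algebraMap_injective _ _))⟩, rfl⟩

theorem und_fin (K : Type) [Field K] [NumberField K] [Algebra K L] (p : Pr K) :
    {P : Pr L | und K P = p}.Finite := by
  have := p.isMaximal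
  refine Set.Finite.of_finite_image (f := fun P : Pr L => P.asIdeal)
    ((IsDedekindDomain.primesOver_finite p.asIdeal (𝓞 L)).subset ?_)
    fun _ _ _ _ h => HeightOneSpectrum.ext h
  rintro _ ⟨P, hP, rfl⟩
  exact ⟨P.isPrime, ⟨by rw [← hP]; rfl⟩⟩

theorem und_trans {G K : Type} [Group G] [Finite G] [MulSemiringAction G L] [Field K]
    [NumberField K] [Algebra K L] [IsGaloisGroup G K L] {P Q : Pr L} :
    und K P = und K Q ↔ ∃ g : G, g • P = Q := by
  constructor
  · intro h
    have := P.isPrime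
    have := Q.isPrime
    obtain ⟨g, hg⟩ := Algebra.IsInvariant.exists_smul_of_under_eq (𝓞 K) (𝓞 L) G P.asIdeal Q.asIdeal
      (congrArg HeightOneSpectrum.asIdeal h)
    exact ⟨g, HeightOneSpectrum.ext hg.symm⟩
  · rintro ⟨g, rfl⟩
    ext x
    rw [mem_und, mem_und, ← smul_mem_smul g P, smul_algebraMap]

/-- The pull-back of a divisor of the smaller field. -/
noncomputable def ext (L : Type) [Field L] [NumberField L] {K : Type} [Field K] [NumberField K]
    [Algebra K L] : (Pr K →₀ ℤ) →+ (Pr L →₀ ℤ) where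
  toFun d := Finsupp.ofSupportFinite (fun P => d (und K P)) (by
    refine ((d.support.finite_toSet).biUnion fun p _ => und_fin (L := L) K p).subset fun P hP => ?_
    exact Set.mem_biUnion (x := und K P) (Finsupp.mem_support_iff.2 hP) rfl)
  map_zero' := by ext P; rfl
  map_add' a b := by ext P; rfl

@[simp] theorem ext_apply {K : Type} [Field K] [NumberField K] [Algebra K L] (d : Pr K →₀ ℤ)
    (P : Pr L) : ext L d P = d (und K P) := rfl

theorem ext_inj (K : Type) [Field K] [NumberField K] [Algebra K L] :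
    Function.Injective (ext L : (Pr K →₀ ℤ) → (Pr L →₀ ℤ)) := by
  intro a b h
  ext p
  obtain ⟨P, rfl⟩ := und_surj (L := L) K p
  rw [← ext_apply, h, ext_apply]

theorem exists_ext {G : Type} (K : Type) [Group G] [Finite G] [MulSemiringAction G L] [Field K]
    [NumberField K] [Algebra K L] [IsGaloisGroup G K L] {D : Pr L →₀ ℤ}
    (h : ∀ (g : G) (P : Pr L), D (g • P) = D P) : ∃ d : Pr K →₀ ℤ, ext L d = D := by
  classical
  choose r hr using und_surj (L := L) K
  refine ⟨Finsupp.onFinset (D.support.image (und K)) (fun p => D (r p)) fun p hp =>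
    Finset.mem_image.2 ⟨r p, Finsupp.mem_support_iff.2 hp, hr p⟩, ?_⟩
  ext P
  obtain ⟨g, hg⟩ := (und_trans (G := G)).1 (hr (und K P))
  rw [ext_apply, Finsupp.onFinset_apply, ← h g, hg]

theorem und_smul {G : Type} (K : Type) [Group G] [Finite G] [MulSemiringAction G L] [Field K]
    [NumberField K] [Algebra K L] [IsGaloisGroup G K L] (g : G) (P : Pr L) :
    und K (g • P) = und K P := ((und_trans (G := G)).2 ⟨g, rfl⟩).symm

end Pool.Agent.P.MP_44bffd_co.PB
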