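import Pool.Agent.P.MP_44bffd_co.LS.Defs
import Pool.Agent.P.MP_44bffd_co.PB.Val

/-! Statements of the steps towards an infinite unramified tower of totally real fields. -/

namespace Pool.Agent.P.MP_44bffd_co.PB

open Finset NumberField Filter Topology
open scoped Classical nonZeroDivisors

/-! ### Primes, classes, unramified extensions -/

/-- All inertia groups are trivial. -/
def Unr (G L : Type) [Group G] [Field L] [MulSemiringAction G L] : Prop :=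
  ∀ g : G, g ≠ 1 → ∀ P : Pr L, ∃ x : 𝓞 L, g • x - x ∉ P.asIdeal

/-- All ramification indices are one. -/
def E1 (K L : Type) [Field K] [NumberField K] [Field L] [NumberField L] [Algebra K L] : Prop :=
  ∀ (P : Pr L) (a : K), val P (algebraMap K L a) = val (und K P) a

/-- A prime as a nonzero ideal. -/
def pz {K : Type} [Field K] (p : Pr K) : (Ideal (𝓞 K))⁰ :=
  ⟨p.asIdeal, mem_nonZeroDivisors_of_ne_zero p.ne_bot⟩

/-- The norm of a prime. -/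
noncomputable def np {K : Type} [Field K] [NumberField K] (p : Pr K) : ℕ := Ideal.absNorm p.asIdeal

/-- The term `N(I) ^ (-s)`. -/
noncomputable def nm {K : Type} [Field K] [NumberField K] (s : ℝ) (I : (Ideal (𝓞 K))⁰) : ℝ :=
  (Ideal.absNorm (I : Ideal (𝓞 K)) : ℝ) ^ (-s)

def S_App : Prop := ∀ (L : Type) [Field L] [NumberField L] (S : Finset (Pr L)) (D : Pr L →₀ ℤ),
  ∃ z : L, z ≠ 0 ∧ (∀ P, D P ≤ val P z) ∧ ∀ P ∈ S, val P z = D P

def S_Div : Prop := ∀ (K : Type) [Field K] [NumberField K],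
  ∃ cl : Multiplicative (Pr K →₀ ℤ) →* ClassGroup (𝓞 K), Function.Surjective cl ∧
    (∀ p, cl (Multiplicative.ofAdd (Finsupp.single p 1)) = ClassGroup.mk0 (pz p)) ∧
    ∀ d, cl (Multiplicative.ofAdd d) = 1 ↔ ∃ a : K, a ≠ 0 ∧ dv a = d

def S_Desc : Prop := ∀ (G K L : Type) [Group G] [Finite G] [Field K] [NumberField K] [Field L]
  [NumberField L] [Algebra K L] [MulSemiringAction G L] [IsGaloisGroup G K L], Unr G L → E1 K L

def S_Disc : Prop := ∀ (G K L : Type) [Group G] [Finite G] [Field K] [NumberField K] [Field L]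
  [NumberField L] [Algebra K L] [MulSemiringAction G L] [IsGaloisGroup G K L], Unr G L →
  (discr L).natAbs ≤ (discr K).natAbs ^ Module.finrank K L

/-! ### Bounded `L`-series -/

/-- A smooth bump whose integer translates sum to one. -/
noncomputable def bp (t : ℝ) : ℝ := Real.smoothTransition (t + 1) - Real.smoothTransition t

/-- The smooth weight. -/
noncomputable def Ph {ι κ : Type} [Fintype ι] [Fintype κ] (c : κ → (ι → ℝ) →ₗ[ℝ] ℝ) (s : ℝ)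
    (y : ι → ℝ) : ℝ :=
  if ∀ w, y w ≠ 0 then bp (∑ w, Real.log (y w)) * (∏ i, bp (c i fun w => Real.log (y w))) *
    Real.exp (-s * ∑ w, Real.log (y w)) else 0

/-- The real Minkowski embedding. -/
noncomputable def em {K : Type} [Field K] (x : 𝓞 K) : InfinitePlace K → ℝ :=
  fun w => (w.embedding (x : K)).re

def S_Fun : Prop := ∀ (ι κ : Type) [Fintype ι] [Fintype κ] (c : κ → (ι → ℝ) →ₗ[ℝ] ℝ),
  (∀ v : ι → ℝ, ∑ w, v w = 0 → (∀ i, c i v = 0) → v = 0) →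
  ∃ R Λ : ℝ, 0 ≤ Λ ∧ (∀ s y, 0 ≤ Ph c s y) ∧ (∀ s y, Ph c s y ≠ 0 → ‖y‖ ≤ R) ∧
    ∀ s, 1 ≤ s → s ≤ 2 → ∀ y y', |Ph c s y - Ph c s y'| ≤ Λ * ‖y - y'‖

def S_Part : Prop := ∀ (K : Type) [Field K] [NumberField K] [IsTotallyReal K],
  ∃ (κ : Type) (_ : Fintype κ) (c : κ → (InfinitePlace K → ℝ) →ₗ[ℝ] ℝ) (τ : ℝ), 0 < τ ∧
    (∀ v : InfinitePlace K → ℝ, ∑ w, v w = 0 → (∀ i, c i v = 0) → v = 0) ∧
    ∀ (s : ℝ) (x : 𝓞 K), x ≠ 0 → HasSum (fun q : (𝓞 K)ˣ × ℕ => Real.exp (-s * q.2) *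
      Ph c s (Real.exp (-(q.2 : ℝ) / Module.finrank ℚ K) • em ((q.1 : 𝓞 K) * x)))
      (τ * (Ideal.absNorm (Ideal.span {x}) : ℝ) ^ (-s))

def S_Lat : Prop := ∀ (K : Type) [Field K] [NumberField K] [IsTotallyReal K]
  (J : Ideal (𝓞 K)) (R : ℝ), J ≠ ⊥ → ∃ C : ℝ, 0 ≤ C ∧
    ∀ (F : (InfinitePlace K → ℝ) → ℝ) (Λ t : ℝ), 0 ≤ Λ → 1 ≤ t → (∀ y, F y ≠ 0 → ‖y‖ ≤ R) →
      (∀ y y', |F y - F y'| ≤ Λ * ‖y - y'‖) →
      |(Ideal.absNorm J : ℝ) * (∑' x : J, F (t⁻¹ • em (x : 𝓞 K))) - ∑' x : 𝓞 K, F (t⁻¹ • em x)| ≤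
        C * Λ * t ^ Module.finrank ℚ K / t

def S_Zeta : Prop := ∀ (K : Type) [Field K] [NumberField K],
  (∀ s : ℝ, 1 < s → Summable (nm (K := K) s)) ∧
    ∃ ρ : ℝ, 0 < ρ ∧ Tendsto (fun s : ℝ => (s - 1) * ∑' I, nm (K := K) s I) (𝓝[>] 1) (𝓝 ρ)

/-- The sum of `N(I) ^ (-s)` over the nonzero principal ideals contained in `J`. -/
noncomputable def Zp {K : Type} [Field K] [NumberField K] (J : Ideal (𝓞 K)) (s : ℝ) : ℝ :=
  ∑' I : (Ideal (𝓞 K))⁰, if (I : Ideal (𝓞 K)).IsPrincipal ∧ (I : Ideal (𝓞 K)) ≤ J then nm s I else 0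

def S_Cmp : Prop := ∀ (K : Type) [Field K] [NumberField K] [IsTotallyReal K] (J : Ideal (𝓞 K)),
  J ≠ ⊥ → ∃ C : ℝ, ∀ s : ℝ, 1 < s → s ≤ 2 → |(Ideal.absNorm J : ℝ) * Zp J s - Zp (K := K) ⊤ s| ≤ C

def S_LB : Prop := ∀ (K : Type) [Field K] [NumberField K] [IsTotallyReal K]
  (χ : ClassGroup (𝓞 K) →* ℤˣ), χ ≠ 1 → ∃ C : ℝ, ∀ᶠ s : ℝ in 𝓝[>] 1,
    |∑' I : (Ideal (𝓞 K))⁰, ((χ (ClassGroup.mk0 I) : ℤ) : ℝ) * nm s I| ≤ C

def S_Euler : Prop := ∀ (K : Type) [Field K] [NumberField K] (f : (Ideal (𝓞 K))⁰ →* ℝ),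
  Summable f → (∀ p : Pr K, |f (pz p)| < 1) →
  Tendsto (fun T : Finset (Pr K) => ∏ p ∈ T, (1 - f (pz p))⁻¹) atTop (𝓝 (∑' I, f I))

def S_SI : Prop := ∀ (K L : Type) [Field K] [NumberField K] [IsTotallyReal K] [Field L]
  [NumberField L] (π : Pr L → Pr K) (χ₁ χ₂ : ClassGroup (𝓞 K) →* ℤˣ), χ₁ ≠ 1 → χ₂ ≠ 1 →
  χ₁ * χ₂ ≠ 1 → (∀ p : Pr K, ∃ P₁ P₂ : Pr L, (∀ P, π P = p → (P = P₁ ∨ P = P₂) ∧ np p ≤ np P) ∧
    ((χ₁ (ClassGroup.mk0 (pz p)) = 1 ∧ χ₂ (ClassGroup.mk0 (pz p)) = 1) ∨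
      (P₁ = P₂ ∧ ∀ P, π P = p → np p ^ 2 ≤ np P))) → False

/-! ### The norm theorem for unramified quadratic extensions -/

def S_Inert : Prop := ∀ (G K L : Type) [Group G] [Finite G] [Field K] [NumberField K] [Field L]
  [NumberField L] [Algebra K L] [MulSemiringAction G L] [IsGaloisGroup G K L] (τ : G), τ ≠ 1 →
  (∀ g : G, g = 1 ∨ g = τ) → E1 K L → ∀ P : Pr L,
    np (und K P) ≤ np P ∧ (τ • P = P → np (und K P) ^ 2 ≤ np P)

/-- `D` is a norm up to a principal divisor of a fixed element. -/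
def Nm {G L : Type} [Group G] [Field L] [NumberField L] [MulSemiringAction G L] (τ : G)
    (D : Pr L →₀ ℤ) : Prop :=
  ∃ (B : Pr L →₀ ℤ) (a : L), a ≠ 0 ∧ τ • a = a ∧ ∀ P, D P = B P + B (τ • P) + val P a

def S_Cls : Prop := ∀ (G K L : Type) [Group G] [Finite G] [Field K] [NumberField K] [Field L]
  [NumberField L] [IsTotallyReal K] [Algebra K L] [MulSemiringAction G L] [IsGaloisGroup G K L]
  (τ : G), τ ≠ 1 → (∀ g : G, g = 1 ∨ g = τ) → E1 K L → ∀ D D' : Pr L →₀ ℤ,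
    (∀ P, D (τ • P) = D P) → (∀ P, D' (τ • P) = D' P) → Nm τ D ∨ Nm τ D' ∨ Nm τ (D - D')

/-- The Herbrand quotient of the involution `u` is at most one half. -/
def Hb {E : Type} [AddCommGroup E] (u : E →+ E) : Prop :=
  (AddMonoidHom.id E + u).range.relIndex (AddMonoidHom.id E - u).ker ≠ 0 ∧
  (AddMonoidHom.id E - u).range.relIndex (AddMonoidHom.id E + u).ker ≠ 0 ∧
  2 * (AddMonoidHom.id E + u).range.relIndex (AddMonoidHom.id E - u).ker ≤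
    (AddMonoidHom.id E - u).range.relIndex (AddMonoidHom.id E + u).ker

def S_Herb : Prop := ∀ (E : Type) [AddCommGroup E] [Module.Finite ℤ E] (u : E →+ E) (ω : E) (n : ℕ),
  (∀ x, u (u x) = x) → u ω = ω → ω + ω = 0 → (∀ x, x + x ≠ ω) →
  (∀ (x : E) (m : ℕ), 0 < m → m • x = 0 → x = 0 ∨ x = ω) → Module.finrank ℤ E = 2 * n + 1 →
  Module.finrank ℤ (AddMonoidHom.id E - u).ker = n → Hb u

def S_URank : Prop := ∀ (G K L : Type) [Group G] [Finite G] [Field K] [NumberField K] [Field L]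
  [NumberField L] [IsTotallyReal L] [Algebra K L] [MulSemiringAction G L] [IsGaloisGroup G K L]
  (τ : G), τ ≠ 1 → (∀ g : G, g = 1 ∨ g = τ) → ∀ u : Additive (𝓞 L)ˣ →+ Additive (𝓞 L)ˣ,
    (∀ x, (((u x).toMul : (𝓞 L)ˣ) : 𝓞 L) = τ • ((x.toMul : (𝓞 L)ˣ) : 𝓞 L)) → Hb u

def S_Amb : Prop := ∀ (E A I : Type) [AddCommGroup E] [AddCommGroup A] [AddCommGroup I]
  (u : E →+ E) (t : A →+ A) (s : I →+ I) (ι : E →+ A) (v : A →+ I),
  (∀ a, t (t a) = a) → (∀ D, s (s D) = D) → (∀ x, ι (u x) = t (ι x)) → (∀ a, v (t a) = s (v a)) →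
  Function.Injective ι → (∀ a, v a = 0 ↔ ∃ x, ι x = a) → Hb u →
  (∀ a, a + t a = 0 → ∃ b, a = b - t b) →
  (∃ R : Finset I, ∀ D, ∃ r ∈ R, ∃ a, D = r + v a) →
  (∃ R : Finset I, ∀ D, s D = D → ∃ r ∈ R, ∃ a, t a = a ∧ D = r + v a) →
  (∀ D D', s D = D → s D' = D' → (∃ B a, t a = a ∧ D = B + s B + v a) ∨
    (∃ B a, t a = a ∧ D' = B + s B + v a) ∨ ∃ B a, t a = a ∧ D - D' = B + s B + v a) →
  ∀ a D, t a = a → v a = D + s D → ∃ b, a = b + t b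

def S_HNF : Prop := ∀ (G K L : Type) [Group G] [Finite G] [Field K] [NumberField K] [Field L]
  [NumberField L] [IsTotallyReal L] [Algebra K L] [MulSemiringAction G L] [IsGaloisGroup G K L]
  (τ : G), τ ≠ 1 → (∀ g : G, g = 1 ∨ g = τ) → E1 K L → ∀ (a : L) (D : Pr L →₀ ℤ), a ≠ 0 →
    τ • a = a → (∀ P, val P a = D P + D (τ • P)) → ∃ b : L, a = b * τ • b

/-- The norm theorem for all quadratic layers between fixed fields. -/
def HN (G L : Type) [Group G] [Field L] [NumberField L] [MulSemiringAction G L] : Prop :=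
  ∀ (H : Subgroup G) (g : G), g ∉ H → g * g ∈ H → (∀ h ∈ H, g * h * g⁻¹ ∈ H) →
    ∀ (a : L) (D : Pr L →₀ ℤ), a ≠ 0 → (∀ h ∈ H, h • a = a) → g • a = a →
      (∀ h ∈ H, ∀ P, D (h • P) = D P) → (∀ P, val P a = D P + D (g • P)) →
      ∃ b : L, (∀ h ∈ H, h • b = b) ∧ a = b * g • b

def S_HNL : Prop := ∀ (G L : Type) [Group G] [Finite G] [Field L] [NumberField L] [IsTotallyReal L]
  [MulSemiringAction G L] [FaithfulSMul G L], Unr G L → HN G L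

/-! ### Splitting of two-cocycles -/

def S_H90 : Prop := ∀ (G L : Type) [Group G] [Finite G] [Field L] [MulSemiringAction G L]
  [FaithfulSMul G L] (z : G → L), (∀ g, z g ≠ 0) → (∀ g h, z (g * h) = z g * g • z h) →
  ∃ b : L, b ≠ 0 ∧ ∀ g : G, g • b = z g * b

def S_Perm : Prop := ∀ (G X : Type) [Group G] [Finite G] [MulAction G X] (z : G → X →₀ ℤ),
  (∀ g h p, z (g * h) p = z g p + z h (g⁻¹ • p)) →
  ∃ B : X →₀ ℤ, ∀ g p, z g p = B (g⁻¹ • p) - B p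

def S_Split : Prop := ∀ (G L Γ : Type) [Group G] [Finite G] [Field L] [NumberField L]
  [MulSemiringAction G L] [FaithfulSMul G L] [Group Γ] (π : Γ →* G) (ι : Lˣ →* Γ)
  (D : Γ → Pr L →₀ ℤ), IsPGroup 2 G → HN G L → Function.Surjective π → Function.Injective ι →
  (∀ γ, π γ = 1 ↔ ∃ a, ι a = γ) →
  (∀ (γ : Γ) (a a' : Lˣ), (a' : L) = π γ • (a : L) → γ * ι a * γ⁻¹ = ι a') →
  (∀ γ γ' P, D (γ * γ') P = D γ P + D γ' ((π γ)⁻¹ • P)) → (∀ a P, D (ι a) P = val P (a : L)) →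
  ∃ s : G →* Γ, ∀ g, π (s g) = g

/-- The sign of a residue. -/
def sg (L : Type) [Field L] (x : ZMod 2) : L := if x = 0 then 1 else -1

/-- Normalised two-cocycles. -/
def Coc {G : Type} [Group G] (c : G → G → ZMod 2) : Prop :=
  (∀ h, c 1 h = 0) ∧ (∀ g, c g 1 = 0) ∧ ∀ g h k, c h k + c g (h * k) = c (g * h) k + c g h

def S_Coh : Prop := ∀ (G L : Type) [Group G] [Finite G] [Field L] [NumberField L]
  [MulSemiringAction G L] [FaithfulSMul G L], IsPGroup 2 G → HN G L →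
  ∀ c : G → G → ZMod 2, Coc c → ∃ (b : G → L) (μ : L), μ ≠ 0 ∧ (∀ g, b g ≠ 0) ∧
    (∀ g h, b g * g • b h = sg L (c g h) * b (g * h)) ∧ ∀ g : G, g • μ = b g ^ 2 * μ

/-! ### The inequality of Golod and Shafarevich -/

/-- The free module on `ι` over the group algebra. -/
abbrev Fr (ι G : Type) : Type := ι × G → ZMod 2

/-- Left translation. -/
def sh {ι G : Type} [Group G] (g : G) : Fr ι G →ₗ[ZMod 2] Fr ι G :=
  LinearMap.funLeft (ZMod 2) (ZMod 2) fun q : ι × G => (q.1, g⁻¹ * q.2)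

/-- The product of a submodule with the augmentation ideal. -/
def Au {ι G : Type} [Group G] (N : Submodule (ZMod 2) (Fr ι G)) : Submodule (ZMod 2) (Fr ι G) :=
  Submodule.span (ZMod 2) {w | ∃ g : G, ∃ v ∈ N, w = sh g v - v}

/-- Equivariant maps. -/
def Eqv {ι κ G : Type} [Group G] (f : Fr ι G →ₗ[ZMod 2] Fr κ G) : Prop :=
  ∀ (g : G) v, f (sh g v) = sh g (f v)

/-- The homomorphisms to the group of order two. -/
def Homs (G : Type) [Group G] : Set (G → ZMod 2) := {χ | ∀ g h, χ (g * h) = χ g + χ h}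

def S_Nak : Prop := ∀ (ι G : Type) [Fintype ι] [Group G] [Fintype G]
  (N M : Submodule (ZMod 2) (Fr ι G)), IsPGroup 2 G → (∀ (g : G), ∀ v ∈ N, sh g v ∈ N) →
  (∀ (g : G), ∀ v ∈ M, sh g v ∈ M) → N ≤ M → M ≤ N ⊔ Au M → M ≤ N

def S_Cover : Prop := ∀ (ι G : Type) [Fintype ι] [Group G] [Fintype G]
  (M : Submodule (ZMod 2) (Fr ι G)), IsPGroup 2 G → (∀ (g : G), ∀ v ∈ M, sh g v ∈ M) →
  ∃ (r : ℕ) (f : Fr (Fin r) G →ₗ[ZMod 2] Fr ι G), Eqv f ∧ LinearMap.range f = M ∧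
    LinearMap.ker f ≤ Au ⊤ ∧
    Module.finrank (ZMod 2) M = r + Module.finrank (ZMod 2) (Au M)

def S_Ineq : Prop := ∀ (G : Type) [Group G] [Fintype G] (d r : ℕ)
  (f : Fr (Fin d) G →ₗ[ZMod 2] Fr Unit G) (ψ : Fr (Fin r) G →ₗ[ZMod 2] Fr (Fin d) G), Eqv f →
  Eqv ψ → LinearMap.range f = Au ⊤ → LinearMap.range ψ = LinearMap.ker f →
  LinearMap.ker f ≤ Au ⊤ → 2 ≤ d → d ^ 2 < 4 * r

def S_HomLe : Prop := ∀ (G : Type) [Group G] [Fintype G] (d : ℕ),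
  Module.finrank (ZMod 2) (Au (⊤ : Submodule (ZMod 2) (Fr Unit G))) =
    d + Module.finrank (ZMod 2) (Au (Au (⊤ : Submodule (ZMod 2) (Fr Unit G)))) →
  (Homs G).ncard ≤ 2 ^ d

def S_Coc : Prop := ∀ (G : Type) [Group G] [Fintype G] (d : ℕ)
  (f : Fr (Fin d) G →ₗ[ZMod 2] Fr Unit G), Eqv f → LinearMap.range f = Au ⊤ →
  LinearMap.ker f ≤ Au ⊤ → ∃ w : G → G → Fr (Fin d) G,
    ∀ φ : Fr (Fin d) G →ₗ[ZMod 2] ZMod 2, (∀ v ∈ Au (LinearMap.ker f), φ v = 0) →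
      Coc (fun g h => φ (w g h)) ∧
      ((∃ e : G → ZMod 2, ∀ g h, φ (w g h) = e g + e h + e (g * h)) →
        ∀ v ∈ LinearMap.ker f, φ v = 0)

def S_GS : Prop := ∀ (G : Type) [Group G] [Fintype G] (d : ℕ), IsPGroup 2 G → 2 ≤ d →
  2 ^ d ≤ (Homs G).ncard → ∃ (r : ℕ) (c : (Fin r → ZMod 2) → G → G → ZMod 2), d ^ 2 < 4 * r ∧
    (∀ x, Coc (c x)) ∧
    ∀ x y, (∃ e : G → ZMod 2, ∀ g h, c x g h + c y g h = e g + e h + e (g * h)) → x = y

/-! ### Kummer theory -/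

/-- The class of `μ` modulo squares is invariant. -/
def Mu (G : Type) {L : Type} [Group G] [Field L] [MulSemiringAction G L] (μ : L) : Prop :=
  μ ≠ 0 ∧ ∀ g : G, ∃ b : L, g • μ = b ^ 2 * μ

/-- The divisor of `μ` is even. -/
def Ev {L : Type} [Field L] [NumberField L] (μ : L) : Prop := ∀ P : Pr L, Even (val P μ)

/-- Totally positive. -/
def Pos {L : Type} [Field L] (μ : L) : Prop := ∀ φ : L →+* ℝ, 0 < φ μ

/-- Congruent to one modulo four up to a square. -/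
def Prim {L : Type} [Field L] (μ : L) : Prop :=
  ∃ (z : L) (y : 𝓞 L), z ≠ 0 ∧ μ * z ^ 2 = 1 + 4 * (y : L)

def S_Many : Prop := ∀ (G L : Type) [Group G] [Fintype G] [Field L] [NumberField L]
  [MulSemiringAction G L] [FaithfulSMul G L] (d : ℕ), IsPGroup 2 G → HN G L → 2 ≤ d →
  2 ^ d ≤ (Homs G).ncard → ∃ (r : ℕ) (μ : (Fin r → ZMod 2) → L), d ^ 2 < 4 * r ∧
    (∀ x, Mu G (μ x)) ∧
    ∀ x y (a : L), a ≠ 0 → (∀ g : G, g • a = a) → IsSquare (μ x * μ y * a) → x = y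

def S_Hom : Prop := ∀ (G K L : Type) [Group G] [Finite G] [Field K] [NumberField K] [Field L]
  [NumberField L] [Algebra K L] [MulSemiringAction G L] [IsGaloisGroup G K L] (u : Fin 8 → K),
  (∀ i, IsSquare (algebraMap K L (u i))) →
  (∀ S : Finset (Fin 8), S.Nonempty → ¬ IsSquare (∏ i ∈ S, u i)) → 2 ^ 8 ≤ (Homs G).ncard

def S_Sign : Prop := ∀ (G K L : Type) [Group G] [Finite G] [Field K] [NumberField K] [Field L]
  [NumberField L] [Algebra K L] [MulSemiringAction G L] [IsGaloisGroup G K L],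
  Module.finrank ℚ K = 2 → ∃ (O : Type) (_ : Fintype O) (o : L → O), Fintype.card O ≤ 4 ∧
    ∀ μ μ' : L, Mu G μ → Mu G μ' → o μ = o μ' → Pos (μ * μ')

def S_Tr : Prop := ∀ (G K L : Type) [Group G] [Fintype G] [Field K] [NumberField K] [Field L]
  [NumberField L] [Algebra K L] [MulSemiringAction G L] [IsGaloisGroup G K L], Unr G L →
  ∃ θ : 𝓞 L, ∑ g : G, g • θ = 1

def S_Odd : Prop := ∀ (L : Type) [Field L] [NumberField L], (∀ P : Pr L, val P (2 : L) ≤ 1) →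
  ∃ N : ℕ, Odd N ∧ ∀ x : 𝓞 L, (∀ P : Pr L, (2 : 𝓞 L) ∈ P.asIdeal → x ∉ P.asIdeal) →
    ∃ y : 𝓞 L, x ^ N = 1 + 2 * y

def S_Lam : Prop := ∀ (G K L : Type) [Group G] [Fintype G] [Field K] [NumberField K] [Field L]
  [NumberField L] [Algebra K L] [MulSemiringAction G L] [IsGaloisGroup G K L] (θ : 𝓞 L),
  Module.finrank ℚ K = 2 → (∀ P : Pr L, val P (2 : L) ≤ 1) → ∑ g : G, g • θ = 1 →
  ∃ (O : Type) (_ : Fintype O) (o : L → O), Fintype.card O ≤ 4 ∧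
    ∀ μ μ' : L, Mu G μ → Mu G μ' → Ev μ → Ev μ' → o μ = o μ' → Prim (μ * μ')

def S_KC : Prop := ∀ (G K L O X : Type) [Group G] [Finite G] [Field K] [NumberField K] [Field L]
  [NumberField L] [Algebra K L] [MulSemiringAction G L] [IsGaloisGroup G K L] [Fintype O]
  [Fintype X] (o : L → O) (μ : X → L), E1 K L →
  (∀ a b : L, Mu G a → Mu G b → Ev a → Ev b → o a = o b → IsSquare (a * b)) →
  (∀ x, Mu G (μ x)) →
  (∀ x y (a : K), a ≠ 0 → IsSquare (μ x * μ y * algebraMap K L a) → x = y) →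
  Fintype.card X ≤ Fintype.card O ^ 2 * (Homs G).ncard

def S_AdjF : Prop := ∀ (K L : Type) [Field K] [NumberField K] [Field L] [NumberField L]
  [Algebra K L] [IsGalois K L] [IsTotallyReal L] (ν : L), Mu (L ≃ₐ[K] L) ν → ¬ IsSquare ν → Pos ν →
  ∃ (M : Type) (_ : Field M) (_ : NumberField M) (_ : Algebra L M) (_ : Algebra K M)
    (_ : IsScalarTower K L M) (w : M), IsGalois K M ∧ Module.finrank L M = 2 ∧ IsTotallyReal M ∧
    w ^ 2 = algebraMap L M ν ∧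
    ∀ σ : M ≃ₐ[K] M, (∀ a : L, σ (algebraMap L M a) = algebraMap L M a) → σ = 1 ∨ σ w = -w

def S_AdjU : Prop := ∀ (K L M : Type) [Field K] [NumberField K] [Field L] [NumberField L] [Field M]
  [NumberField M] [Algebra K L] [Algebra L M] [Algebra K M] [IsScalarTower K L M] [IsGalois K L]
  (ν : L) (w : M), ν ≠ 0 → Unr (L ≃ₐ[K] L) L → Ev ν → Prim ν → w ^ 2 = algebraMap L M ν →
  (∀ σ : M ≃ₐ[K] M, (∀ a : L, σ (algebraMap L M a) = algebraMap L M a) → σ = 1 ∨ σ w = -w) →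
  Unr (M ≃ₐ[K] M) M

/-- A floor of the tower. -/
def St (K : Type) [Field K] [NumberField K] (u : Fin 8 → K) (j : ℕ) : Prop :=
  ∃ (L : Type) (_ : Field L) (_ : NumberField L) (_ : Algebra K L), IsGalois K L ∧
    Module.finrank K L = 2 ^ j ∧ IsTotallyReal L ∧ Unr (L ≃ₐ[K] L) L ∧
    ∀ i, IsSquare (algebraMap K L (u i))

/-- The base field. -/
def Bas (K : Type) [Field K] [NumberField K] (u : Fin 8 → K) : Prop :=
  Module.finrank ℚ K = 2 ∧ (∀ p : Pr K, val p (2 : K) ≤ 1) ∧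
    (∀ S : Finset (Fin 8), S.Nonempty → ¬ IsSquare (∏ i ∈ S, u i)) ∧ u 0 = 5

def S_Up : Prop := ∀ (K : Type) [Field K] [NumberField K] (u : Fin 8 → K) (j : ℕ), Bas K u →
  St K u j → St K u (j + 1)

def S_Bas : Prop := ∃ (K : Type) (_ : Field K) (_ : NumberField K) (u : Fin 8 → K) (δ : K),
  Bas K u ∧ IsTotallyReal K ∧
    ∀ i, ∃ p q : ℕ, u i = p ∧ p % 4 = 1 ∧ 0 < q ∧ Nat.Coprime p q ∧ δ ^ 2 = p * q

def S_Start : Prop := ∃ (K : Type) (_ : Field K) (_ : NumberField K) (u : Fin 8 → K) (j : ℕ),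
  Bas K u ∧ St K u j

/-- A number field of degree `n` and root discriminant at most `ρ` with a real embedding and a
square root of the golden ratio. -/
def RG (n ρ : ℕ) : Prop := ∃ (K : Type) (_ : Field K) (_ : NumberField K) (_ : K →+* ℝ) (α : K),
  (2 * α ^ 2 - 1) ^ 2 = 5 ∧ Module.finrank ℚ K = n ∧ (discr K).natAbs ≤ ρ ^ n

def S_Tow : Prop := ∃ n₀ ρ : ℕ, 1 ≤ ρ ∧ ∀ t : ℕ, ∃ n, t ≤ n ∧ n ≤ 2 * t + n₀ ∧ RG n ρ

def S_CM5 : Prop := ∀ n ρ : ℕ, RG n ρ → LS.CM (2 * n) (4 * ρ)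

def S_Base : Prop := ∃ c : ℕ, 1 ≤ c ∧ ∀ L, LS.HX c L

end Pool.Agent.P.MP_44bffd_co.PB
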