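import Pool.Agent.P.MP_44bffd_co.PB.DB

/-! Trivial inertia groups give ramification index one and no growth of the root discriminant. -/

namespace Pool.Agent.P.MP_44bffd_co.PB

open NumberField IsDedekindDomain

namespace DescP

variable {G K L : Type} [Group G] [Finite G] [Field K] [NumberField K] [Field L]
  [NumberField L] [Algebra K L] [MulSemiringAction G L] [IsGaloisGroup G K L]

theorem e_one (h : Unr G L) (P : Pr L) : P.asIdeal.ramificationIdx (𝓞 K) = 1 := by
  have := P.isPrime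
  have := (und K P).isMaximal
  have : P.asIdeal.LiesOver (und K P).asIdeal := ⟨rfl⟩
  have : Finite (𝓞 K ⧸ (und K P).asIdeal) :=
    Ring.HasFiniteQuotients.finiteQuotient (und K P).ne_bot
  have h1 : P.asIdeal.inertia G = ⊥ := by
    rw [eq_bot_iff]
    intro g hg
    by_contra h2
    obtain ⟨x, hx⟩ := h g h2 P
    exact hx (hg x)
  rw [← Ideal.ramificationIdxIn_eq_ramificationIdx (und K P).asIdeal P.asIdeal G,
    ← Ideal.card_inertia_eq_ramificationIdxIn (G := G) (und K P).asIdeal P.asIdeal, h1]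
  simp

theorem val_int (h : Unr G L) (P : Pr L) (x : 𝓞 K) (hx : x ≠ 0) :
    val P (algebraMap K L x) = val (und K P) (x : K) := by
  have := P.isPrime
  have : P.asIdeal.LiesOver (und K P).asIdeal := ⟨rfl⟩
  have hx' : algebraMap (𝓞 K) (𝓞 L) x ≠ 0 :=
    (map_ne_zero_iff _ (FaithfulSMul.algebraMap_injective _ _)).2 hx
  have e : algebraMap K L x = ((algebraMap (𝓞 K) (𝓞 L) x : 𝓞 L) : L) := rfl
  have h1 := HeightOneSpectrum.intValuation_liesOver (und K P) P x
  rw [Ideal.ramificationIdx'_eq_ramificationIdx _ _ (und K P).ne_bot, e_one h P, pow_one] at h1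
  have h2 : ∀ n : ℕ, (n : ℤ) ≤ val P (algebraMap K L x) ↔ (n : ℤ) ≤ val (und K P) (x : K) := by
    intro n
    rw [e, le_val_iff _ hx', le_val_iff _ hx, ← HeightOneSpectrum.intValuation_le_pow_iff_mem,
      ← HeightOneSpectrum.intValuation_le_pow_iff_mem, h1]
  obtain ⟨n, hn⟩ := Int.eq_ofNat_of_zero_le (val_nonneg (und K P) x)
  obtain ⟨m, hm⟩ := Int.eq_ofNat_of_zero_le (val_nonneg P (algebraMap (𝓞 K) (𝓞 L) x))
  rw [← e] at hm
  have h3 := (h2 n).2 hn.ge
  have h4 := (h2 m).1 hm.ge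
  omega

end DescP

open DescP

theorem p_Desc : S_Desc := by
  intro G K L _ _ _ _ _ _ _ _ _ h P a
  rcases eq_or_ne a 0 with rfl | ha
  · simp [val_zero]
  obtain ⟨x, y, hy, rfl⟩ := IsFractionRing.div_surjective (A := 𝓞 K) a
  have hy0 : y ≠ 0 := nonZeroDivisors.ne_zero hy
  have hx0 : x ≠ 0 := by rintro rfl; simp at ha
  have hx' : (x : K) ≠ 0 := by simpa using hx0
  have hy' : (y : K) ≠ 0 := by simpa using hy0
  rw [show algebraMap (𝓞 K) K x / algebraMap (𝓞 K) K y = (x : K) / (y : K) from rfl, map_div₀,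
    val_div _ ((map_ne_zero _).2 hx') ((map_ne_zero _).2 hy'), val_div _ hx' hy', val_int h P x hx0,
    val_int h P y hy0]

attribute [local instance] FractionRing.liftAlgebra in
theorem p_Disc : S_Disc := by
  intro G K L _ _ _ _ _ _ _ _ _ h
  have h1 : differentIdeal (𝓞 K) (𝓞 L) = ⊤ := by
    by_contra h1
    obtain ⟨M, hM, hle⟩ := Ideal.exists_le_maximal _ h1
    have h0 : M ≠ ⊥ := fun h2 => differentIdeal_ne_bot (eq_bot_iff.2 (h2 ▸ hle))
    let P : Pr L := ⟨M, hM.isPrime, h0⟩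
    have := (und K P).isMaximal
    have : (M.under (𝓞 K)).IsMaximal := (und K P).isMaximal
    have : Finite (𝓞 K ⧸ M.under (𝓞 K)) := Ring.HasFiniteQuotients.finiteQuotient (und K P).ne_bot
    have h2 : Algebra.IsUnramifiedAt (𝓞 K) M :=
      Ideal.ramificationIdx_eq_one_iff.1 (e_one (K := K) h P)
    exact not_dvd_differentIdeal_iff.2 h2 (Ideal.dvd_iff_le.2 hle)
  rw [natAbs_discr_eq_absNorm_differentIdeal_mul_natAbs_discr_pow K (𝓞 K) L (𝓞 L), h1]
  simp

end Pool.Agent.P.MP_44bffd_co.PB
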