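import Pool.Agent.P.MP_44bffd_co.PB.DB

/-! The Euler product over the primes of a number field. -/

namespace Pool.Agent.P.MP_44bffd_co.PB

open Finset NumberField Filter Topology
open scoped Classical nonZeroDivisors

namespace EulerP

variable {K : Type} [Field K] [NumberField K] (f : (Ideal (𝓞 K))⁰ →* ℝ)

/-- The part of `f` on the ideals without prime factors in `T`. -/
noncomputable def cp (T : Finset (Pr K)) (I : (Ideal (𝓞 K))⁰) : ℝ :=
  if ∀ p ∈ T, ¬ p.asIdeal ∣ (I : Ideal (𝓞 K)) then f I else 0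

omit [NumberField K] in
theorem norm_cp (T : Finset (Pr K)) (I : (Ideal (𝓞 K))⁰) : ‖cp f T I‖ ≤ ‖f I‖ := by
  rw [cp]
  split_ifs
  · exact le_rfl
  · rw [norm_zero]
    exact norm_nonneg _

theorem cp_mul {T : Finset (Pr K)} {p : Pr K} (hp : p ∉ T) (J : (Ideal (𝓞 K))⁰) :
    cp f T (pz p * J) = f (pz p) * cp f T J := by
  have h : (∀ q ∈ T, ¬ q.asIdeal ∣ ((pz p * J : (Ideal (𝓞 K))⁰) : Ideal (𝓞 K))) ↔
      ∀ q ∈ T, ¬ q.asIdeal ∣ (J : Ideal (𝓞 K)) := by
    refine forall₂_congr fun q hq => not_congr ?_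
    rw [Submonoid.coe_mul, q.prime.dvd_mul, or_iff_right]
    intro h
    have h1 : p.asIdeal = q.asIdeal :=
      p.isMaximal.eq_of_le q.isPrime.ne_top (Ideal.le_of_dvd h)
    exact hp (IsDedekindDomain.HeightOneSpectrum.ext h1 ▸ hq)
  rw [cp, cp, map_mul, mul_ite, mul_zero]
  exact if_congr h rfl rfl

variable {f}

theorem step (hf : Summable f) {T : Finset (Pr K)} {p : Pr K} (hp : p ∉ T) :
    (1 - f (pz p)) * ∑' I, cp f T I = ∑' I, cp f (insert p T) I := by
  have hs : ∀ T, Summable (cp f T) := fun T => hf.norm.of_norm_bounded (norm_cp f T)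
  have hi : Function.Injective fun J : (Ideal (𝓞 K))⁰ => pz p * J := fun J J' h =>
    Subtype.ext (mul_left_cancel₀ p.ne_bot (congrArg Subtype.val h))
  have h1 : ∑' J, (cp f T (pz p * J) - cp f (insert p T) (pz p * J)) =
      ∑' I, (cp f T I - cp f (insert p T) I) := by
    refine hi.tsum_eq (f := fun I => cp f T I - cp f (insert p T) I) fun I hI => ?_
    by_contra h
    refine hI (sub_eq_zero.2 (if_congr ?_ rfl rfl))
    rw [forall_mem_insert, and_iff_right]
    rintro ⟨J, hJ⟩
    have h0 : J ≠ 0 := right_ne_zero_of_mul (hJ ▸ nonZeroDivisors.coe_ne_zero I)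
    exact h ⟨⟨J, mem_nonZeroDivisors_of_ne_zero h0⟩, Subtype.ext hJ.symm⟩
  have h2 : ∀ J, cp f T (pz p * J) - cp f (insert p T) (pz p * J) = f (pz p) * cp f T J :=
    fun J => by
      rw [cp_mul f hp, cp.eq_1 f (insert p T), if_neg, sub_zero]
      exact fun h => h p (mem_insert_self _ _) (dvd_mul_right _ _)
  rw [tsum_congr h2, tsum_mul_left, (hs _).tsum_sub (hs _)] at h1
  linarith

theorem prod_mul (hf : Summable f) (T : Finset (Pr K)) :
    (∏ p ∈ T, (1 - f (pz p))) * ∑' I, f I = ∑' I, cp f T I := by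
  induction T using Finset.induction_on with
  | empty => simp [cp]
  | insert p T hp ih => rw [prod_insert hp, mul_assoc, ih, step hf hp]

theorem lim (hf : Summable f) :
    Tendsto (fun T : Finset (Pr K) => ∑' I, cp f T I) atTop (𝓝 1) := by
  have h := tendsto_tsum_of_dominated_convergence (𝓕 := atTop) (f := cp f)
    (g := fun I => if I = 1 then (1 : ℝ) else 0) hf.norm (fun I => ?_)
    (Eventually.of_forall (norm_cp f))
  · rwa [tsum_ite_eq] at h
  · split_ifs with h
    · refine tendsto_const_nhds.congr fun T => ?_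
      rw [h, cp, if_pos, map_one]
      exact fun p _ hp => p.prime.not_dvd_one hp
    · have h1 : ¬ IsUnit (I : Ideal (𝓞 K)) := fun hu =>
        h (Subtype.ext (Ideal.isUnit_iff.1 hu |>.trans Ideal.one_eq_top.symm))
      obtain ⟨P, hP, hd⟩ := WfDvdMonoid.exists_irreducible_factor h1 (nonZeroDivisors.coe_ne_zero I)
      let p : Pr K := ⟨P, Ideal.isPrime_of_prime hP.prime, hP.ne_zero⟩
      refine tendsto_const_nhds.congr' ?_
      filter_upwards [eventually_ge_atTop {p}] with T hT
      rw [cp, if_neg fun h' => h' p (hT (mem_singleton_self p)) hd]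

end EulerP

open EulerP

theorem p_Euler : S_Euler := by
  intro K _ _ f hf h1
  have h2 := (lim hf).inv₀ one_ne_zero |>.const_mul (∑' I, f I)
  rw [inv_one, mul_one] at h2
  refine h2.congr' ?_
  filter_upwards [(lim hf).eventually_ne one_ne_zero] with T hT
  have h3 : ∏ p ∈ T, (1 - f (pz p)) ≠ 0 :=
    prod_ne_zero_iff.2 fun p _ => (sub_pos.2 (lt_of_abs_lt (h1 p))).ne'
  rw [← prod_mul hf] at hT ⊢
  rw [prod_inv_distrib, mul_inv, mul_left_comm, mul_inv_cancel₀ (right_ne_zero_of_mul hT), mul_one]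

end Pool.Agent.P.MP_44bffd_co.PB
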