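import Pool.Agent.P.MP_44bffd_co.PB.DA

/-! The controlling family of doubly balanced arrays. -/

namespace Pool.Agent.P.MP_44bffd_co.PB

open Finset
open scoped Classical

namespace FamP

lemma ite_ind {C : Type} (a b : C) (x : ℝ) : (if a = b then x else 0) = (ind a b : ℝ) * x := by
  unfold ind; split_ifs <;> simp

lemma sum_ind {C : Type} [Fintype C] (l : C) (f : C → ℝ) : ∑ κ, (ind κ l : ℝ) * f κ = f l := by
  simp [ind]

lemma abs_ind {C : Type} (a b : C) : |(ind a b : ℝ)| ≤ 1 := by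
  unfold ind; split_ifs <;> simp

lemma two_sum {Z C : Type} [Fintype Z] [Zero Z] (α : Z → Bool → C) (l : C) (M : ℕ) (D : ℤ)
    (h1 : (univ.filter fun η => α η false = l).card = M) (h2 : ∀ η, η ≠ 0 → α η true = α η false)
    (h3 : ind (α 0 true) l - ind (α 0 false) l = D) :
    ∑ η, ∑ t, (ind (α η t) l : ℝ) = 2 * M + D := by
  have e1 : ∑ η, (ind (α η false) l : ℝ) = M := by
    rw [← h1, ← sum_boole]
    exact sum_congr rfl fun η _ => by unfold ind; split_ifs <;> simp
  have e2 : ∑ η, ((ind (α η true) l : ℝ) - ind (α η false) l) = D := by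
    rw [sum_eq_single 0 (fun η _ h => by rw [h2 η h, sub_self]) (fun h => absurd (mem_univ _) h),
      ← h3]
    push_cast; rfl
  rw [← e1, ← e2, mul_sum, ← sum_add_distrib]
  exact sum_congr rfl fun η _ => by rw [Fintype.sum_bool]; ring

lemma flip_sum {C : Type} [Fintype C] (l : C) (f : C → ℝ) :
    ∑ κ, ∑ κ', ((ind κ' l : ℝ) - ind κ l) * f κ' = Fintype.card C * f l - ∑ κ', f κ' := by
  have e : ∀ κ, ∑ κ', ((ind κ' l : ℝ) - ind κ l) * f κ' = f l - ind κ l * ∑ κ', f κ' := by
    intro κ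
    rw [← sum_ind l f, mul_sum, ← sum_sub_distrib]
    exact sum_congr rfl fun _ _ => by ring
  simp only [e, sum_sub_distrib, sum_const, card_univ, nsmul_eq_mul]
  rw [sum_ind l fun _ => ∑ κ', f κ']

lemma flip_zero {C : Type} [Fintype C] (l : C) (u v : ℝ) :
    ∑ κ, ∑ κ', u * ((ind κ' l : ℝ) - ind κ l) * v = 0 := by
  have h := flip_sum l fun _ => u * v
  rw [sum_const, card_univ, nsmul_eq_mul, sub_self] at h
  rw [← h]
  exact sum_congr rfl fun _ _ => sum_congr rfl fun _ _ => by ring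

/-- The sign of a bit. -/
def sg : Bool → ℝ
  | true => 1
  | false => -1

lemma abs_sg (t : Bool) : |sg t| = 1 := by cases t <;> simp [sg]

/-- A column of a matrix. -/
def col {B C : Type} (κ : C) : (B → C → ℝ) →ₗ[ℝ] (B → ℝ) where
  toFun T q := T q κ
  map_add' _ _ := rfl
  map_smul' _ _ := rfl

end FamP

open FamP

theorem p_Fam (h1 : S_Mult) (h2 : S_Span) (h3 : S_FamA) : S_Fam := by
  intro K c C _ _ hK hc
  have : NeZero c := ⟨by omega⟩
  obtain ⟨Γ, _, _, z, a, hΓ, hz, ha, hsp⟩ := h2 K c hK (by omega)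
  have hB : Fintype.card (Option (Fin K) × ZMod c) = (K + 1) * c := by simp [ZMod.card]
  have hP : (0 : ℝ) < 2 ^ K := by positivity
  refine ⟨Option (Fin K) × ZMod c,
    Option (Fin K) × ((Option (Fin K) × ZMod c) × Γ × C × C) × ZMod c × Bool,
    inferInstance, inferInstance, inferInstance, inferInstance, fun b => nu K b.1,
    fun x => (nu K x.1 : ℝ) / 2 ^ K, hB, ?_, fun b => nu_bd K b.1, fun x => ?_, fun n hn hn' => ?_⟩
  · rw [hB]
    simp only [Fintype.card_prod, Fintype.card_option, Fintype.card_fin, ZMod.card,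
      Fintype.card_bool]
    calc _ = 2 * ((K + 1) * c) ^ 2 * Fintype.card C ^ 2 * Fintype.card Γ := by ring
      _ ≤ 2 * ((K + 1) * c) ^ 2 * Fintype.card C ^ 2 * (2 * ((K + 1) * c)) := by gcongr
      _ = _ := by ring
  · obtain ⟨b1, b2⟩ := nu_bd K x.1
    rw [le_div_iff₀ hP, div_le_iff₀ hP, one_mul]
    exact ⟨by exact_mod_cast b1, by exact_mod_cast b2⟩
  obtain ⟨m, hm⟩ := h1 K 3 10 c C n hK hn hn'
  choose p' hp' α0 a1 a2 a3 a4 a5 using h3 K c C Γ n m z hc hm hz
  refine ⟨fun x => α0 x.2.1.1 x.2.1.2.1 x.1 x.2.1.2.2.1 x.2.1.2.2.2 x.2.2.1 x.2.2.2,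
    fun x p κ => a1 _ _ _ _ _ _ _ _ _, fun x q κ => a2 _ _ _ _ _ _ _ _ _, fun q p l => ?_,
    fun p => ?_⟩
  · set N := Fintype.card ((Option (Fin K) × ZMod c) × Γ × C × C) with hN
    have e1 : ∀ δ, ∑ x : (Option (Fin K) × ZMod c) × Γ × C × C, ∑ η, ∑ t,
        (ind (α0 x.1 x.2.1 δ x.2.2.1 x.2.2.2 η t q p) l : ℝ) = N * (2 * m ![q.1, p.1, δ] l) := by
      intro δ
      rw [sum_congr rfl fun x _ => two_sum (fun η t => α0 x.1 x.2.1 δ x.2.2.1 x.2.2.2 η t q p) l _ _
        (a3 _ _ _ _ _ _ _ _) (fun η h => a4 _ _ _ _ _ _ _ _ h) (a5 _ _ _ _ _ _ _ _),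
        sum_add_distrib, sum_const, card_univ, nsmul_eq_mul, add_eq_left]
      simp only [Fintype.sum_prod_type (α₂ := Γ × C × C), Fintype.sum_prod_type (α₂ := C × C),
        Fintype.sum_prod_type (α₂ := C)]
      push_cast
      exact sum_eq_zero fun p1 _ => sum_eq_zero fun γ _ => flip_zero l _ _
    have e2 : ∑ δ, (nu K δ : ℝ) * m ![q.1, p.1, δ] l = n l := by
      have h := hm.2.2 ![q.1, p.1, none] 2 l
      have e : ∀ δ : Option (Fin K), Function.update ![q.1, p.1, none] 2 δ = ![q.1, p.1, δ] := by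
        intro δ; ext1 i; fin_cases i <;> simp
      simp only [e] at h
      exact_mod_cast h
    have e3 : ∑ x : Option (Fin K) × ((Option (Fin K) × ZMod c) × Γ × C × C) × ZMod c × Bool,
        (if α0 x.2.1.1 x.2.1.2.1 x.1 x.2.1.2.2.1 x.2.1.2.2.2 x.2.2.1 x.2.2.2 q p = l then
          (nu K x.1 : ℝ) / 2 ^ K else 0) = 2 * N * n l / 2 ^ K := by
      rw [← e2, mul_sum, sum_div, Fintype.sum_prod_type]
      refine sum_congr rfl fun δ _ => ?_
      rw [Fintype.sum_prod_type]
      simp only [ite_ind, Fintype.sum_prod_type (α₂ := Bool), ← sum_mul]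
      rw [e1 δ]; ring
    have e4 : ∑ x : Option (Fin K) × ((Option (Fin K) × ZMod c) × Γ × C × C) × ZMod c × Bool,
        (nu K x.1 : ℝ) / 2 ^ K = (Vt K : ℝ) * (N * (c * 2)) / 2 ^ K := by
      rw [Fintype.sum_prod_type]
      simp only [sum_const, card_univ, nsmul_eq_mul]
      rw [Fintype.card_prod, ← hN, Fintype.card_prod, ZMod.card, Fintype.card_bool, ← mul_sum,
        ← sum_div]
      unfold Vt
      push_cast; ring
    have e5 : ∑ l, (n l : ℝ) = c * Vt K := by exact_mod_cast hn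
    rw [e3, e4, e5]; ring
  · have hC : (1 : ℝ) ≤ Fintype.card C := by exact_mod_cast Fintype.card_pos
    refine ⟨LinearMap.pi fun x => ((ind x.1 none : ℝ) * ind x.2.1.1 p * ind x.2.2.1 0 * sg x.2.2.2 /
      Fintype.card C) • (a x.2.1.2.1 ∘ₗ col x.2.1.2.2.2), fun T σ hT x => ?_,
      fun T hT hT' q l => ?_⟩
    · have b1 := ha x.2.1.2.1 (col x.2.1.2.2.2 T) σ fun b => hT b _
      have b2 : |(ind x.1 none : ℝ) * ind x.2.1.1 p * ind x.2.2.1 0 * sg x.2.2.2 /
          Fintype.card C| ≤ 1 := by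
        rw [abs_div, abs_mul, abs_sg, mul_one, abs_mul, abs_mul, abs_of_pos (by linarith : (0 : ℝ) <
          Fintype.card C), div_le_one (by linarith)]
        exact (mul_le_one₀ (mul_le_one₀ (abs_ind _ _) (abs_nonneg _) (abs_ind _ _)) (abs_nonneg _)
          (abs_ind _ _)).trans hC
      rw [LinearMap.pi_apply, LinearMap.smul_apply, LinearMap.comp_apply, smul_eq_mul, abs_mul, hB]
      exact (mul_le_of_le_one_left (abs_nonneg _) b2).trans b1
    · have e0 : ∀ γ, ∑ κ', a γ (col κ' T) = 0 := by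
        intro γ
        rw [← map_sum, show ∑ κ', col κ' T = 0 from funext fun b => by
          rw [Finset.sum_apply]; exact hT b, map_zero]
      have e1 : ∀ γ κ κ', ∑ t, (ind (α0 p γ none κ κ' 0 t q p) l : ℝ) * sg t =
          z γ q * ((ind κ' l : ℝ) - ind κ l) := by
        intro γ κ κ'
        have h := a5 p γ none κ κ' q p l
        have i1 : ind p p = 1 := if_pos rfl
        have i2 : ind p (p' p γ) = 0 := if_neg (hp' p γ).symm
        rw [i1, i2, sub_zero, mul_one] at h
        rw [Fintype.sum_bool]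
        simp only [sg, mul_one, mul_neg]
        exact_mod_cast h
      simp only [ite_ind, LinearMap.pi_apply, LinearMap.smul_apply, LinearMap.comp_apply,
        smul_eq_mul]
      rw [Fintype.sum_prod_type, sum_eq_single none (fun δ _ h => sum_eq_zero fun x _ => by
        simp [ind, h]) (fun h => absurd (mem_univ _) h), Fintype.sum_prod_type,
        Fintype.sum_prod_type, sum_eq_single p (fun p1 _ h => sum_eq_zero fun x _ =>
          sum_eq_zero fun y _ => by simp [ind, h]) (fun h => absurd (mem_univ _) h),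
        show T q l = col l T q from rfl, hsp (col l T) (hT' l) q, Fintype.sum_prod_type]
      refine sum_congr rfl fun γ _ => ?_
      have e2 : ∀ x : C × C, ∑ y : ZMod c × Bool, (ind (α0 p γ none x.1 x.2 y.1 y.2 q p) l : ℝ) *
          ((nu K none : ℝ) / 2 ^ K * ((ind (none : Option (Fin K)) none : ℝ) * ind p p * ind y.1 0 *
            sg y.2 / Fintype.card C * a γ (col x.2 T))) =
          ((ind x.2 l : ℝ) - ind x.1 l) * a γ (col x.2 T) * (z γ q / Fintype.card C) := by
        intro x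
        rw [Fintype.sum_prod_type, sum_eq_single 0 (fun η _ h => sum_eq_zero fun t _ => by
          simp [ind, h]) (fun h => absurd (mem_univ _) h)]
        have i0 : (nu K none : ℝ) / 2 ^ K = 1 := by
          simp only [nu]; push_cast; exact div_self hP.ne'
        have i1 : ∀ {D : Type} (d : D), (ind d d : ℝ) = 1 := fun d => by simp [ind]
        simp only [i0, i1, one_mul]
        calc _ = (∑ t, (ind (α0 p γ none x.1 x.2 0 t q p) l : ℝ) * sg t) *
              (a γ (col x.2 T) / Fintype.card C) := by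
              rw [sum_mul]; exact sum_congr rfl fun t _ => by ring
          _ = _ := by rw [e1]; ring
      rw [sum_congr rfl fun x _ => e2 x, ← sum_mul, Fintype.sum_prod_type,
        flip_sum l fun κ' => a γ (col κ' T), e0, sub_zero]
      field_simp

end Pool.Agent.P.MP_44bffd_co.PB
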