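import Pool.Agent.P.MP_44bffd_co.PB.DA

/-! Arrays with a prescribed flip of two columns. -/

namespace Pool.Agent.P.MP_44bffd_co.PB

open Finset
open scoped Classical

namespace FamAP

theorem exists_j {K c : ℕ} [NeZero c] (hc : 30 ≤ c) (S : Finset (Option (Fin K) × ZMod c))
    (hS : S.card ≤ 5) (a : ZMod c) :
    ∃ j : ZMod c, j ≠ a ∧ ∀ q ∈ S, ∀ q' ∈ S, j ≠ q.2 + a - q'.2 := by
  set T : Finset (ZMod c) := insert a ((S ×ˢ S).image fun x => x.1.2 + a - x.2.2) with hT
  have h1 : T.card ≤ 26 := by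
    have h2 := card_insert_le a ((S ×ˢ S).image fun x => x.1.2 + a - x.2.2)
    have h3 : ((S ×ˢ S).image fun x => x.1.2 + a - x.2.2).card ≤ (S ×ˢ S).card := card_image_le
    rw [card_product] at h3
    have h4 : S.card * S.card ≤ 5 * 5 := Nat.mul_le_mul hS hS
    rw [hT]
    omega
  have h5 : T.card < (univ : Finset (ZMod c)).card := by
    rw [card_univ, ZMod.card]
    omega
  obtain ⟨j, -, hj⟩ := exists_mem_notMem_of_card_lt_card h5
  refine ⟨j, fun h => hj ?_, fun q hq q' hq' h => hj ?_⟩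
  · rw [h, hT]
    exact mem_insert_self _ _
  · rw [hT]
    exact mem_insert_of_mem (mem_image.2 ⟨(q, q'), mem_product.2 ⟨hq, hq'⟩, h.symm⟩)

theorem card_shift {c : ℕ} [NeZero c] {C : Type} (Φ : ZMod c → C) (a : ZMod c) (l : C) :
    (univ.filter fun x => Φ (a + x) = l).card = (univ.filter fun x => Φ x = l).card := by
  rw [card_filter, card_filter]
  exact Equiv.sum_comp (Equiv.addLeft a) fun x => if Φ x = l then 1 else 0

theorem sum_shift {c : ℕ} [NeZero c] {C : Type} (Φ : ZMod c → C) (a : ZMod c) (l : C) (w : ℕ) :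
    ∑ x, (if Φ (a + x) = l then w else 0) = w * (univ.filter fun x => Φ x = l).card := by
  rw [← card_shift Φ a l, card_filter, mul_sum]
  refine sum_congr rfl fun x _ => ?_
  split_ifs <;> simp

theorem upd0 {X : Type} (a b d e : X) :
    Function.update (![a, b, d] : Fin 3 → X) 0 e = ![e, b, d] := by
  funext i
  fin_cases i <;> simp

theorem upd1 {X : Type} (a b d e : X) :
    Function.update (![a, b, d] : Fin 3 → X) 1 e = ![a, e, d] := by
  funext i
  fin_cases i <;> simp

/-- The prescribed values. -/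
noncomputable def fv {K c : ℕ} {C : Type} (z : Option (Fin K) × ZMod c → ℤ) (a j : ZMod c)
    (κ κ' : C) (b : Option (Fin K)) (x : ZMod c) : C :=
  if z (b, x - a) = 1 then κ else if z (b, x - a) = -1 then κ' else
    if z (b, x - j) = 1 then κ' else κ

theorem exists_Phi (h : S_Fib) {K c : ℕ} [NeZero c] {C : Type} [Fintype C] (m : C → ℕ)
    (hm : ∑ κ, m κ = c) (hm' : ∀ κ, 10 ≤ m κ) (S : Finset (Option (Fin K) × ZMod c))
    (hS : S.card ≤ 5) (a j : ZMod c) (f : ZMod c → C) :
    ∃ Φ : ZMod c → C, (∀ q ∈ S, Φ (q.2 + a) = f (q.2 + a)) ∧ (∀ q ∈ S, Φ (q.2 + j) = f (q.2 + j)) ∧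
      ∀ κ, (univ.filter fun x => Φ x = κ).card = m κ := by
  have h1 := h (ZMod c) C m ((S.image fun q => q.2 + a) ∪ S.image fun q => q.2 + j) f
    (by rw [hm, ZMod.card]) (fun κ => by
      refine le_trans (card_filter_le _ _) (le_trans (card_union_le _ _) ?_)
      have h2 : (S.image fun q => q.2 + a).card ≤ S.card := card_image_le
      have h3 : (S.image fun q => q.2 + j).card ≤ S.card := card_image_le
      have h4 := hm' κ
      omega)
  obtain ⟨Φ, h2, h3⟩ := h1
  refine ⟨Φ, fun q hq => h2 _ ?_, fun q hq => h2 _ ?_, fun κ => ?_⟩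
  · exact mem_union_left _ (mem_image_of_mem _ hq)
  · exact mem_union_right _ (mem_image_of_mem _ hq)
  · convert h3 κ

theorem ind_self {C : Type} (a : C) : ind a a = 1 := by simp [ind]

theorem ind_ne {C : Type} {a b : C} (h : a ≠ b) : ind a b = 0 := by simp [ind, h]

theorem cast_ite {C : Type} (a l : C) (w : ℕ) :
    ((if a = l then w else 0 : ℕ) : ℤ) = w * ind a l := by
  unfold ind
  split_ifs <;> simp

end FamAP

open FamAP in
theorem p_FamA (h : S_Fib) : S_FamA := by
  intro K c _ C Γ _ n m z hc hM hR p γ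
  obtain ⟨hm1, hm2, hm3⟩ := hM
  obtain ⟨hz1, hz2, hz3⟩ := hR
  set S : Finset (Option (Fin K) × ZMod c) := univ.filter fun b => z γ b ≠ 0 with hS
  have hS5 : S.card ≤ 5 := by convert hz2 γ
  have hmem : ∀ q, q ∈ S ↔ z γ q ≠ 0 := fun q => by simp [hS]
  obtain ⟨j, hj1, hj2⟩ := exists_j hc S hS5 p.2
  have hpp : ((p.1, j) : Option (Fin K) × ZMod c) ≠ p := fun e => hj1 (congrArg Prod.snd e)
  refine ⟨(p.1, j), hpp, fun δ κ κ' => ?_⟩
  have hΦ : ∀ b b' : Option (Fin K), ∃ Φ : ZMod c → C,
      (∀ q ∈ S, Φ (q.2 + p.2) = fv (z γ) p.2 j κ κ' b (q.2 + p.2)) ∧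
      (∀ q ∈ S, Φ (q.2 + j) = fv (z γ) p.2 j κ κ' b (q.2 + j)) ∧
      ∀ l, (univ.filter fun x => Φ x = l).card = m ![b, b', δ] l := fun b b' =>
    exists_Phi h (m ![b, b', δ]) (hm1 _) (hm2 _) S hS5 p.2 j _
  choose Φ hΦ1 hΦ2 hΦ3 using hΦ
  set β : ZMod c → Option (Fin K) × ZMod c → Option (Fin K) × ZMod c → C :=
    fun η q q' => Φ q.1 q'.1 (q.2 + q'.2 + η) with hβ
  have hrow : ∀ η q l, ∑ q', (if β η q q' = l then nu K q'.1 else 0) = n l := by
    intro η q l
    rw [Fintype.sum_prod_type, ← hm3 ![q.1, none, δ] 1 l]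
    refine sum_congr rfl fun b _ => ?_
    rw [upd1, ← hΦ3, ← sum_shift (Φ q.1 b) (q.2 + η) l (nu K b)]
    refine sum_congr rfl fun x _ => ?_
    have e : q.2 + x + η = q.2 + η + x := by ring
    simp only [hβ, e]
  have hcol : ∀ η q' l, ∑ q, (if β η q q' = l then nu K q.1 else 0) = n l := by
    intro η q' l
    rw [Fintype.sum_prod_type, ← hm3 ![none, q'.1, δ] 0 l]
    refine sum_congr rfl fun b _ => ?_
    rw [upd0, ← hΦ3, ← sum_shift (Φ b q'.1) (q'.2 + η) l (nu K b)]
    refine sum_congr rfl fun x _ => ?_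
    have e : x + q'.2 + η = q'.2 + η + x := by ring
    simp only [hβ, e]
  have hsw : ∀ q' : Option (Fin K) × ZMod c, (Equiv.swap p (p.1, j) q').1 = q'.1 := by
    intro q'
    rw [Equiv.swap_apply_def]
    split_ifs with h1 h2
    · rw [h1]
    · rw [h2]
    · rfl
  set α : ZMod c → Bool → Option (Fin K) × ZMod c → Option (Fin K) × ZMod c → C :=
    fun η t q q' => if t = true ∧ η = 0 ∧ z γ q ≠ 0 then β η q (Equiv.swap p (p.1, j) q')
      else β η q q' with hα
  have hf : ∀ η q q', α η false q q' = β η q q' := fun η q q' => by simp [hα]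
  have hP : ∀ q, z γ q ≠ 0 → β 0 q p = if z γ q = 1 then κ else κ' := by
    intro q hq
    have e1 : β 0 q p = Φ q.1 p.1 (q.2 + p.2) := by simp [hβ]
    rw [e1, hΦ1 _ _ q ((hmem q).2 hq)]
    have e2 : ((q.1, q.2 + p.2 - p.2) : Option (Fin K) × ZMod c) = q := by simp
    unfold fv
    rw [e2]
    rcases hz1 γ q with h1 | h1 | h1
    · simp [h1]
    · exact absurd h1 hq
    · simp [h1]
  have hP' : ∀ q, z γ q ≠ 0 → β 0 q (p.1, j) = if z γ q = 1 then κ' else κ := by
    intro q hq
    have e1 : β 0 q (p.1, j) = Φ q.1 p.1 (q.2 + j) := by simp [hβ]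
    rw [e1, hΦ2 _ _ q ((hmem q).2 hq)]
    have e2 : ((q.1, q.2 + j - j) : Option (Fin K) × ZMod c) = q := by simp
    have e3 : z γ (q.1, q.2 + j - p.2) = 0 := by
      by_contra h0
      exact hj2 _ ((hmem _).2 h0) q ((hmem q).2 hq) (by ring)
    unfold fv
    rw [e2, e3]
    simp
  have hflip : ∀ q q' l, ind (α 0 true q q') l - ind (α 0 false q q') l =
      z γ q * (ind κ' l - ind κ l) * (ind q' p - ind q' (p.1, j)) := by
    intro q q' l
    rw [hf]
    by_cases hq : z γ q = 0
    · have e : α 0 true q q' = β 0 q q' := by simp [hα, hq]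
      rw [e, hq]
      simp
    · have e : α 0 true q q' = β 0 q (Equiv.swap p (p.1, j) q') := by simp [hα, hq]
      rw [e]
      by_cases h1 : q' = p
      · rw [h1, Equiv.swap_apply_left, hP q hq, hP' q hq, ind_self, ind_ne hpp.symm]
        rcases hz1 γ q with h2 | h2 | h2
        · simp [h2]
        · exact absurd h2 hq
        · simp [h2]
      · by_cases h3 : q' = (p.1, j)
        · rw [h3, Equiv.swap_apply_right, hP q hq, hP' q hq, ind_self, ind_ne hpp]
          rcases hz1 γ q with h2 | h2 | h2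
          · simp [h2]
          · exact absurd h2 hq
          · simp [h2]
        · rw [Equiv.swap_apply_of_ne_of_ne h1 h3, ind_ne h1, ind_ne h3]
          simp
  have h4 : ∀ η q q', η ≠ 0 → α η true q q' = α η false q q' := by
    intro η q q' hη
    simp [hα, hη]
  refine ⟨α, fun η t q' l => ?_, fun η t q l => ?_, fun q q' l => ?_, h4, hflip⟩
  · have hfalse : ∑ q, (if α η false q q' = l then nu K q.1 else 0) = n l := by
      simp only [hf]
      exact hcol η q' l
    cases t with
    | false => exact hfalse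
    | true =>
      by_cases hη : η = 0
      · subst hη
        have e1 : ((∑ q, (if α 0 false q q' = l then nu K q.1 else 0) : ℕ) : ℤ) = n l := by
          rw [hfalse]
        have e2 : ((∑ q, (if α 0 true q q' = l then nu K q.1 else 0) : ℕ) : ℤ) = n l := by
          rw [← e1, Nat.cast_sum, Nat.cast_sum]
          simp only [cast_ite]
          have e3 : ∀ q : Option (Fin K) × ZMod c, (nu K q.1 : ℤ) * ind (α 0 true q q') l =
              (nu K q.1 : ℤ) * ind (α 0 false q q') l + (nu K q.1 : ℤ) * z γ q *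
                ((ind κ' l - ind κ l) * (ind q' p - ind q' (p.1, j))) := by
            intro q
            have := hflip q q' l
            linear_combination (nu K q.1 : ℤ) * this
          simp only [e3, sum_add_distrib, ← sum_mul]
          rw [hz3 γ]
          simp
        exact_mod_cast e2
      · simp only [h4 η _ q' hη]
        exact hfalse
  · by_cases hc' : t = true ∧ η = 0 ∧ z γ q ≠ 0
    · have e : ∀ q', α η t q q' = β η q (Equiv.swap p (p.1, j) q') := fun q' => by
        simp only [hα]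
        rw [if_pos hc']
      simp only [e]
      rw [← hrow η q l, ← Equiv.sum_comp (Equiv.swap p (p.1, j))
        fun q' => if β η q q' = l then nu K q'.1 else 0]
      simp only [hsw]
    · have e : ∀ q', α η t q q' = β η q q' := fun q' => by
        simp only [hα]
        rw [if_neg hc']
      simp only [e]
      exact hrow η q l
  · simp only [hf]
    rw [← hΦ3, ← card_shift (Φ q.1 q'.1) (q.2 + q'.2) l]

end Pool.Agent.P.MP_44bffd_co.PB
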