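import Pool.Agent.P.MP_44bffd_co.PB.DA
import Pool.Agent.P.MP_44bffd_co.LS.Iter

/-! The final choice of the parameters. -/

namespace Pool.Agent.P.MP_44bffd_co.PB

open Finset
open scoped Classical

namespace FinP

theorem thr {l : ℕ} (h : 2006 ≤ l) : 2 ^ 107 * l ^ 112 ≤ 2 ^ l := by
  have h1 : l ^ 224 ≤ 224 ^ 224 * 2 ^ l :=
    (Nat.pow_le_pow_left (Nat.le_succ l) 224).trans (LS.IterP.pow_le 224 l (by norm_num))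
  have h2 : 224 ^ 224 ≤ (2 ^ 8) ^ 224 := Nat.pow_le_pow_left (by norm_num) _
  have h3 : 2 ^ 2006 ≤ 2 ^ l := Nat.pow_le_pow_right (by norm_num) h
  apply le_of_pow_le_pow_left₀ two_ne_zero (by positivity)
  calc (2 ^ 107 * l ^ 112) ^ 2 = (2 ^ 107) ^ 2 * l ^ 224 := by rw [mul_pow, ← pow_mul l]
    _ ≤ (2 ^ 107) ^ 2 * ((2 ^ 8) ^ 224 * 2 ^ l) :=
        Nat.mul_le_mul_left _ (h1.trans (Nat.mul_le_mul_right _ h2))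
    _ = 2 ^ 2006 * 2 ^ l := by rw [← mul_assoc, ← pow_mul, ← pow_mul, ← pow_add]
    _ ≤ 2 ^ l * 2 ^ l := Nat.mul_le_mul_right _ h3
    _ = _ := (sq _).symm

theorem two_le {a b : ℕ} (h : a ≤ b) : 2 ^ a ≤ 2 ^ b := Nat.pow_le_pow_right (by norm_num) h

theorem scale (hR : S_Rec) {c L l : ℕ} (hX : ∀ L, LS.HX c L) (hc : 1 ≤ c) (hcl : c ≤ 2 ^ l)
    (hl : 4 ≤ l) (h1 : L + 3 ≤ 2 ^ l) (h2 : 2 ^ 105 * l ^ 112 ≤ L) :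
    ∃ K E : ℕ, 3 * K ≤ 2 * L ∧ 7 * L ≤ 12 * K ∧ E + l + 2 ≤ K ∧ E + l + 2 ≤ 2 ^ 15 * l ^ 16 ∧
      TV (4 * K) K (2 ^ E) (148 * (c * L)) := by
  obtain ⟨J, j1, j2⟩ := exists_pow_between (l ^ 2)
  have l2 : 4 * l ≤ l ^ 2 := by nlinarith
  obtain ⟨x, hx⟩ : ∃ x, x = 2 ^ J := ⟨_, rfl⟩
  have e4 : 4 ^ J = x ^ 2 := by rw [hx, ← pow_mul, mul_comm, pow_mul]; norm_num
  have e7 : 128 ^ J = x ^ 7 := by rw [hx, ← pow_mul, mul_comm, pow_mul]; norm_num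
  rw [← hx] at j1 j2
  have x3 : x ≤ 3 * l ^ 2 := by omega
  have x1 : 1 ≤ x := by omega
  have l1 : 1 ≤ l := by omega
  have x7 : x ^ 7 * l ^ 2 ≤ 3 ^ 7 * l ^ 16 := by
    calc x ^ 7 * l ^ 2 ≤ (3 * l ^ 2) ^ 7 * l ^ 2 := by gcongr
      _ = _ := by ring
  have x9 : 200 * x ^ 7 * l ^ 2 * (3 * x ^ 2) ≤ L := by
    calc 200 * x ^ 7 * l ^ 2 * (3 * x ^ 2) ≤ 200 * (3 * l ^ 2) ^ 7 * l ^ 2 * (3 * (3 * l ^ 2) ^ 2) := by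
          gcongr
      _ = (600 * 3 ^ 9) * l ^ 20 := by ring
      _ ≤ 2 ^ 105 * l ^ 112 :=
          Nat.mul_le_mul (by norm_num) (Nat.pow_le_pow_right l1 (by norm_num))
      _ ≤ L := h2
  obtain ⟨m, hm⟩ : ∃ m, m = L / (3 * x ^ 2) := ⟨_, rfl⟩
  have p0 : 0 < 3 * x ^ 2 := by positivity
  have m1 : 200 * x ^ 7 * l ^ 2 ≤ m := hm ▸ (Nat.le_div_iff_mul_le p0).2 x9
  have m2 : 3 * x ^ 2 * m ≤ L := hm ▸ Nat.mul_div_le _ _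
  have m3 : L < 3 * x ^ 2 * (m + 1) := hm ▸ Nat.lt_mul_div_succ _ p0
  have y7 : 1 ≤ x ^ 7 := Nat.one_le_pow _ _ x1
  have y2 : 1 ≤ x ^ 2 := Nat.one_le_pow _ _ x1
  have m4 : 200 * l ^ 2 ≤ m := le_trans (by nlinarith) m1
  have m5 : 24 * x ^ 2 ≤ L := by
    have : x ^ 2 * 8 ≤ x ^ 2 * m := Nat.mul_le_mul_left _ (by omega)
    nlinarith
  have m6 : m ≤ x ^ 2 * m := Nat.le_mul_of_pos_left _ y2
  have eK : x ^ 2 * (2 * m) = 2 * (x ^ 2 * m) := by ring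
  have e3 : 3 * x ^ 2 * m = 3 * (x ^ 2 * m) := by ring
  have e3' : 3 * x ^ 2 * (m + 1) = 3 * (x ^ 2 * m) + 3 * x ^ 2 := by ring
  obtain ⟨E, E1, E2⟩ := hR c (4 * (4 ^ J * (2 * m))) l m (hX _) hc hcl (by omega) J (l ^ 2) le_rfl
    (by rwa [e7]) (by rw [e4]; omega) le_rfl
  rw [e7] at E1
  rw [e4, ← hx] at E2
  have E3 : 10 * x ^ 7 * l ^ 2 = 10 * (x ^ 7 * l ^ 2) := by ring
  have E4 : 200 * x ^ 7 * l ^ 2 = 200 * (x ^ 7 * l ^ 2) := by ring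
  have l16 : l ^ 2 ≤ l ^ 16 := Nat.pow_le_pow_right l1 (by norm_num)
  refine ⟨x ^ 2 * (2 * m), E, by omega, by omega, by omega, by omega, E2.mono ?_ le_rfl ?_⟩
  · have : 2 ^ (l + 2) ≤ 2 ^ l ^ 2 := two_le (by omega)
    rw [pow_add] at this
    omega
  · have a1 : x * (4 * c * l ^ 2 * (2 * m)) ≤ 4 * (c * (x ^ 2 * (2 * m))) := by
      calc x * (4 * c * l ^ 2 * (2 * m)) ≤ x * (4 * c * x * (2 * m)) := by gcongr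
        _ = _ := by ring
    have a2 : c * (x ^ 2 * (2 * m)) ≤ c * L := Nat.mul_le_mul_left _ (by omega)
    rw [mul_assoc 144]
    omega

theorem big (hR : S_Rec) (hA : S_Abs) (hO : LS.S_Round) {c L l d : ℕ} (hX : ∀ L, LS.HX c L)
    (hc : 1 ≤ c) (hcl : c ≤ 2 ^ l) (hl : 4 ≤ l) (h1 : L + 3 ≤ 2 ^ l) (h2 : 2 ^ 105 * l ^ 112 ≤ L)
    (hd : d ≤ 2 ^ L) (hd2 : 2 ^ L ≤ 2 * d) :
    ∃ (V : Type) (G : UG V), G.s.card ≤ 2 ^ (2 ^ 41 * (c * L)) ∧ ∀ v ∈ G.s, G.deg v = d := by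
  obtain ⟨K, E, k1, k2, k3, k4, hT⟩ := scale hR hX hc hcl hl h1 h2
  have l1 : 1 ≤ l := by omega
  have hL : 1000 * l ≤ L := by
    have : l ≤ l ^ 112 := Nat.le_self_pow (by norm_num) l
    omega
  have hm : 1 ≤ c * L := Nat.mul_le_mul hc (show 1 ≤ L by omega)
  have cL : c * L ≤ 2 ^ (2 * l) := by
    rw [two_mul, pow_add]; exact Nat.mul_le_mul hcl (by omega)
  obtain ⟨K₁, hK₁⟩ : ∃ K₁, K₁ = E + l + 2 := ⟨_, rfl⟩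
  rw [← hK₁] at k3 k4
  have q1 : 1 ≤ K₁ := by omega
  have q7 : K₁ ^ 7 ≤ L := by
    calc K₁ ^ 7 ≤ (2 ^ 15 * l ^ 16) ^ 7 := by gcongr
      _ = 2 ^ 105 * l ^ 112 := by ring
      _ ≤ L := h2
  have q3 : K₁ ^ 3 ≤ L := (Nat.pow_le_pow_right q1 (by norm_num)).trans q7
  obtain ⟨r, r1, r2, r3, r4⟩ := LS.IterP.log_r q1
  obtain ⟨T, t1, t2⟩ := hO c (11 * K₁) K₁ r (hX _) hc q1 le_rfl r1 r2
  obtain ⟨L', rfl⟩ : ∃ L', L = L' + 3 := ⟨L - 3, by omega⟩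
  have pL : 2 ^ (L' + 3) = 8 * 2 ^ L' := by ring
  have s1 : K * 2 ^ K + K * 2 ^ E ≤ 2 ^ L' := by
    have a1 : 2 ^ E ≤ 2 ^ K := two_le (by omega)
    calc K * 2 ^ K + K * 2 ^ E ≤ 2 ^ l * 2 ^ K + 2 ^ l * 2 ^ K := by gcongr <;> omega
      _ = 2 ^ (1 + l + K) := by ring
      _ ≤ _ := two_le (by omega)
  have s2 : T ≤ 2 ^ L' := by
    calc T ≤ 8 * 2 ^ l * 2 ^ K :=
          t1.trans (Nat.mul_le_mul (Nat.mul_le_mul_left _ (by omega)) (two_le k3))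
      _ = 2 ^ (3 + l + K) := by ring
      _ ≤ _ := two_le (by omega)
  have s3 : 10 ^ 4 * (5 * (c * (L' + 3))) ≤ 2 ^ L' := by
    have a1 : 2 ^ (16 + 2 * l) ≤ 2 ^ L' := two_le (by omega)
    rw [pow_add] at a1
    omega
  obtain ⟨K', rfl⟩ : ∃ K', K = K' + 1 := ⟨K - 1, by omega⟩
  have pK : 2 ^ (K' + 1) = 2 * 2 ^ K' := by ring
  have pK1 : 2 ≤ 2 ^ K' := Nat.le_self_pow (by omega) 2
  have s4 : 980 * (c * (L' + 3)) * d < (2 ^ (K' + 1) - 2 + 1) ^ 2 := by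
    calc 980 * (c * (L' + 3)) * d ≤ 2 ^ 10 * 2 ^ (2 * l) * 2 ^ (L' + 3) := by
          gcongr; norm_num
      _ = 2 ^ (10 + 2 * l + (L' + 3)) := by ring
      _ ≤ 2 ^ (K' * 2) := two_le (by omega)
      _ = (2 ^ K') ^ 2 := pow_mul _ _ _
      _ < _ := Nat.pow_lt_pow_left (by omega) (by norm_num)
  have n0 := LS.IterP.first (D := d - T - ((K' + 1) * 2 ^ (K' + 1) + (K' + 1) * 2 ^ E))
    (K₀ := K' + 1) (hX _) hc (by omega) hd (by omega) (by omega) s4 (by omega)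
  have n1 := hA (K' + 1) E _ (by omega) hT _ _ n0
  have n2 := t2 _ _ (n1.mono (σ' := 2 ^ K₁ - 1) (by
    have a1 : 2 * (K' + 1) * 2 ^ E + 1 ≤ 2 ^ K₁ := by
      have b1 : 2 * (K' + 1) * 2 ^ E ≤ 2 * 2 ^ l * 2 ^ E := by gcongr; omega
      have b2 : 2 ^ K₁ = 2 * (2 * 2 ^ l * 2 ^ E) := by rw [hK₁]; ring
      have b3 : 0 < 2 * 2 ^ l * 2 ^ E := by positivity
      omega
    rw [le_sub_iff_add_le]
    exact_mod_cast a1) le_rfl)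
  rw [show d - T - ((K' + 1) * 2 ^ (K' + 1) + (K' + 1) * 2 ^ E) +
    ((K' + 1) * 2 ^ (K' + 1) + (K' + 1) * 2 ^ E) + T = d by omega] at n2
  obtain ⟨s, hsd⟩ : ∃ s, s = 10 ^ 9 * c * K₁ ^ 7 * 2 ^ (8 * K₁ / 2 ^ r) := ⟨_, rfl⟩
  rw [← hsd] at n2
  obtain ⟨j, j1, j2⟩ := exists_pow_between (2 * s)
  obtain ⟨V, G, g1, g2⟩ := finish (s := s) n2 (by linarith) j1
  refine ⟨V, G, g1.trans (two_le ?_), g2⟩
  have b2 : s ≤ 2 ^ 38 * (c * (L' + 3)) := by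
    calc s ≤ 10 ^ 9 * c * (L' + 3) * 2 ^ 8 := by rw [hsd]; gcongr; norm_num
      _ = (10 ^ 9 * 2 ^ 8) * (c * (L' + 3)) := by ring
      _ ≤ _ := by gcongr; norm_num
  have b3 : 11 * c * r ^ 2 * K₁ ≤ 11 * (c * (L' + 3)) := by
    calc 11 * c * r ^ 2 * K₁ ≤ 11 * c * K₁ ^ 2 * K₁ := by gcongr
      _ = 11 * (c * K₁ ^ 3) := by ring
      _ ≤ _ := by gcongr
  omega

end FinP

theorem p_Fin (hR : S_Rec) (hA : S_Abs) (hO : LS.S_Round) : S_Fin := by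
  intro c hc hX
  obtain ⟨l₀, hl₀⟩ : ∃ l₀, l₀ = 2006 + c := ⟨_, rfl⟩
  refine ⟨2 ^ 42 * c + (4 * 2 ^ 2 ^ l₀ + 1), fun d hd => ?_⟩
  obtain ⟨a, a1, a2, a3⟩ : ∃ a, 2 ^ a ≤ d ∧ d < 2 ^ (a + 1) ∧ 1 ≤ a :=
    ⟨Nat.log 2 d, Nat.pow_log_le_self 2 (by omega), Nat.lt_pow_succ_log_self (by norm_num) _,
      Nat.log_pos (by norm_num : 1 < 2) hd⟩
  obtain ⟨l, l1, l2⟩ := exists_pow_between (a + 1 + 3)
  by_cases hs : l < l₀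
  · obtain ⟨j, j1, j2⟩ := exists_pow_between (2 * d)
    obtain ⟨V, G, h1, h2⟩ := finish (s := d) (nr_point d) (by linarith) j1
    refine ⟨V, G, h1.trans ?_, h2⟩
    have b1 : 2 ^ l ≤ 2 ^ l₀ := FinP.two_le hs.le
    have b2 : 2 ^ (a + 1) ≤ 2 ^ 2 ^ l₀ := FinP.two_le (by omega)
    exact (FinP.two_le (by omega)).trans (Nat.pow_le_pow_left hd _)
  · have b1 := FinP.thr (l := l) (by omega)
    have b2 : l < 2 ^ l := Nat.lt_two_pow_self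
    have b3 : 2 ^ 107 * l ^ 112 = 4 * (2 ^ 105 * l ^ 112) := by ring
    obtain ⟨V, G, h1, h2⟩ := FinP.big hR hA hO (L := a + 1) (l := l) (d := d) hX hc (by omega)
      (by omega) l1 (by omega) a2.le (by rw [pow_succ]; omega)
    refine ⟨V, G, h1.trans ?_, h2⟩
    calc 2 ^ (2 ^ 41 * (c * (a + 1))) ≤ 2 ^ (a * (2 ^ 42 * c)) := FinP.two_le (by nlinarith)
      _ = (2 ^ a) ^ (2 ^ 42 * c) := pow_mul _ _ _
      _ ≤ d ^ (2 ^ 42 * c) := Nat.pow_le_pow_left a1 _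
      _ ≤ _ := Nat.pow_le_pow_right (by omega) (by omega)

end Pool.Agent.P.MP_44bffd_co.PB
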