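import Pool.Agent.P.MP_44bffd_co.PB.DB

/-! The smooth weight has compact support and is uniformly Lipschitz. -/

namespace Pool.Agent.P.MP_44bffd_co.PB

open Finset Filter Topology
open scoped Classical

namespace FunP

theorem bp_nonneg (t : ℝ) : 0 ≤ bp t :=
  sub_nonneg.2 (Real.smoothTransition.monotone (by linarith))

theorem bp_supp {t : ℝ} (h : bp t ≠ 0) : |t| ≤ 1 := by
  by_contra hc
  refine h ?_
  unfold bp
  rcases lt_abs.1 (not_le.1 hc) with h1 | h1
  · rw [Real.smoothTransition.one_of_one_le h1.le,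
      Real.smoothTransition.one_of_one_le (by linarith), sub_self]
  · rw [Real.smoothTransition.zero_of_nonpos (by linarith),
      Real.smoothTransition.zero_of_nonpos (by linarith), sub_self]

theorem bp_cd : ContDiff ℝ 1 bp :=
  ((Real.smoothTransition.contDiff (n := 1)).comp (contDiff_id.add contDiff_const)).sub
    (Real.smoothTransition.contDiff (n := 1))

variable {ι κ : Type} [Fintype ι] [Fintype κ] (c : κ → (ι → ℝ) →ₗ[ℝ] ℝ)

theorem exists_bound (hc : ∀ v : ι → ℝ, ∑ w, v w = 0 → (∀ i, c i v = 0) → v = 0) :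
    ∃ B : ℝ, ∀ v : ι → ℝ, |∑ w, v w| ≤ 1 → (∀ i, |c i v| ≤ 1) → ∀ w, |v w| ≤ B := by
  let f : (ι → ℝ) →ₗ[ℝ] ℝ × (κ → ℝ) := (∑ w, LinearMap.proj w).prod (LinearMap.pi c)
  have e1 : ∀ v, (f v).1 = ∑ w, v w := fun v => by simp [f]
  have e2 : ∀ v i, (f v).2 i = c i v := fun v i => rfl
  obtain ⟨B, -, hB⟩ := f.exists_antilipschitzWith (LinearMap.ker_eq_bot'.2 fun v hv =>
    hc v (by rw [← e1, hv]; rfl) fun i => by rw [← e2, hv]; rfl)
  refine ⟨B, fun v h1 h2 w => (norm_le_pi_norm v w).trans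
    ((ZeroHomClass.bound_of_antilipschitz f hB v).trans (mul_le_of_le_one_right B.2 ?_))⟩
  rw [Prod.norm_def, max_le_iff, e1, pi_norm_le_iff_of_nonneg zero_le_one]
  exact ⟨h1, h2⟩

theorem ph_supp (hc : ∀ v : ι → ℝ, ∑ w, v w = 0 → (∀ i, c i v = 0) → v = 0) :
    ∃ r R : ℝ, 0 < r ∧ 0 < R ∧ ∀ s y, Ph c s y ≠ 0 → ∀ w, r ≤ |y w| ∧ |y w| ≤ R := by
  obtain ⟨B, hB⟩ := exists_bound c hc
  refine ⟨Real.exp (-B), Real.exp B, Real.exp_pos _, Real.exp_pos _, fun s y h w => ?_⟩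
  unfold Ph at h
  split_ifs at h with h0
  · have h1 := left_ne_zero_of_mul h
    have h2 := abs_le.1 (hB (fun w => Real.log (y w)) (bp_supp (left_ne_zero_of_mul h1))
      (fun i => bp_supp (prod_ne_zero_iff.1 (right_ne_zero_of_mul h1) i (mem_univ i))) w)
    rw [← Real.exp_log_eq_abs (h0 w)]
    exact ⟨Real.exp_le_exp.2 h2.1, Real.exp_le_exp.2 h2.2⟩
  · exact absurd rfl h

theorem ph_cd {r : ℝ} (r0 : 0 < r) (hr : ∀ s y, Ph c s y ≠ 0 → ∀ w, r ≤ |y w|) :
    ContDiff ℝ 1 fun q : ℝ × (ι → ℝ) => Ph c q.1 q.2 := by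
  refine contDiff_iff_contDiffAt.2 fun q => ?_
  have cw : ∀ w, ContDiff ℝ 1 fun q : ℝ × (ι → ℝ) => q.2 w := fun w => by fun_prop
  by_cases h0 : ∀ w, q.2 w ≠ 0
  · have l1 : ∀ w, ContDiffAt ℝ 1 (fun q : ℝ × (ι → ℝ) => Real.log (q.2 w)) q := fun w =>
      (cw w).contDiffAt.log (h0 w)
    have l2 : ContDiffAt ℝ 1 (fun q : ℝ × (ι → ℝ) => ∑ w, Real.log (q.2 w)) q :=
      ContDiffAt.sum fun w _ => l1 w
    have l3 : ∀ i, ContDiffAt ℝ 1 (fun q : ℝ × (ι → ℝ) => bp (c i fun w => Real.log (q.2 w))) q :=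
      fun i => bp_cd.contDiffAt.comp q
        ((LinearMap.toContinuousLinearMap (c i)).contDiff.contDiffAt.comp q (contDiffAt_pi.2 l1))
    refine (((bp_cd.contDiffAt.comp q l2).mul
      (contDiffAt_prod (t := univ) fun i _ => l3 i)).mul
      (contDiffAt_fst.neg.mul l2).exp).congr_of_eventuallyEq ?_
    filter_upwards [eventually_all.2 fun w => (cw w).continuous.continuousAt.eventually_ne (h0 w)]
      with p hp
    exact if_pos hp
  · obtain ⟨w, hw⟩ := not_forall.1 h0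
    refine (contDiffAt_const (c := (0 : ℝ))).congr_of_eventuallyEq ?_
    have : ∀ᶠ p : ℝ × (ι → ℝ) in 𝓝 q, |p.2 w| < r :=
      (cw w).continuous.abs.continuousAt.eventually_lt continuousAt_const
        (by rw [not_not.1 hw, abs_zero]; exact r0)
    filter_upwards [this] with p hp
    by_contra h
    exact (hr _ _ h w).not_gt hp

end FunP

open FunP in
theorem p_Fun : S_Fun := by
  intro ι κ _ _ c hc
  obtain ⟨r, R, r0, R0, h⟩ := ph_supp c hc
  have hR : ∀ s y, Ph c s y ≠ 0 → ‖y‖ ≤ R := fun s y hy =>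
    (pi_norm_le_iff_of_nonneg R0.le).2 fun w => (h s y hy w).2
  have sT := Real.smoothTransition.contDiff (n := 1)
  have cd : ContDiff ℝ 1 fun q : ℝ × (ι → ℝ) =>
      Real.smoothTransition q.1 * Real.smoothTransition (3 - q.1) * Ph c q.1 q.2 :=
    ((sT.comp contDiff_fst).mul (sT.comp (contDiff_const.sub contDiff_fst))).mul
      (ph_cd c r0 fun s y hy w => (h s y hy w).1)
  obtain ⟨Λ, hΛ⟩ := cd.lipschitzWith_of_hasCompactSupport (HasCompactSupport.intro
    ((isCompact_Icc (a := (0 : ℝ)) (b := 3)).prod (isCompact_closedBall (0 : ι → ℝ) R))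
    fun q hq => by
      by_contra hn
      have h1 := left_ne_zero_of_mul hn
      have h2 := Real.smoothTransition.zero_iff_nonpos.not.1 (left_ne_zero_of_mul h1)
      have h3 := Real.smoothTransition.zero_iff_nonpos.not.1 (right_ne_zero_of_mul h1)
      exact hq ⟨⟨by linarith, by linarith⟩,
        mem_closedBall_zero_iff.2 (hR _ _ (right_ne_zero_of_mul hn))⟩) one_ne_zero
  refine ⟨R, Λ, Λ.2, fun s y => ?_, hR, fun s s1 s2 y y' => ?_⟩
  · unfold Ph
    split_ifs
    · exact mul_nonneg (mul_nonneg (bp_nonneg _) (prod_nonneg fun i _ => bp_nonneg _))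
        (Real.exp_pos _).le
    · exact le_rfl
  · have := hΛ.dist_le_mul (s, y) (s, y')
    rw [Real.smoothTransition.one_of_one_le s1,
      Real.smoothTransition.one_of_one_le (by linarith : 1 ≤ 3 - s)] at this
    simpa [Real.dist_eq, dist_eq_norm] using this

end Pool.Agent.P.MP_44bffd_co.PB
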