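import Pool.Agent.P.MP_44bffd_co.PB.DA
import Pool.Agent.P.MP_44bffd_co.LS.Link

/-! The geometric step: a subgraph of a box product of four graphs, and deletion of a label. -/

namespace Pool.Agent.P.MP_44bffd_co.PB

open Finset
open scoped Classical

namespace GeoP

open LS.LinkP

variable {V V' C : Type} (G : UG V) (W : UG V') (pres : V → V' → V' → Prop)
  (S O : V → V → V' → V' → C)

/-- The condition on the frozen coordinate. -/
def Pz (z : V) (a b : V') : Prop := G.col z = !W.col b ∧ pres z a b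

/-- The label in terms of the active and the frozen coordinate. -/
noncomputable def lbl (x z : V) (a b : V') : C :=
  if G.col x = G.col z then S x z a b else O x z a b

/-- The vertices of the new graph. -/
def Pv (v : (V × V) × (V' × V')) : Prop :=
  if W.col v.2.1 = W.col v.2.2 then Pz G W pres v.1.2 v.2.1 v.2.2
  else Pz G W pres v.1.1 v.2.1 v.2.2

/-- The labels of the new graph. -/
noncomputable def xi (v : (V × V) × (V' × V')) : C :=
  if W.col v.2.1 = W.col v.2.2 then lbl G S O v.1.1 v.1.2 v.2.1 v.2.2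
  else lbl G S O v.1.2 v.1.1 v.2.1 v.2.2

theorem core {x z : V} {a b : V'} (hx : x ∈ G.s) (hz : z ∈ G.s) (hb : b ∈ W.s)
    (h : Pz G W pres z a b) :
    (∀ κ, G.cnt x (fun y => Pz G W pres z a b ∧ lbl G S O y z a b = κ) +
      G.cnt z (fun y => Pz G W pres y a b ∧ lbl G S O x y a b = κ) +
      (W.cnt a (fun a' => Pz G W pres x a' b ∧ lbl G S O z x a' b = κ) +
        W.cnt b (fun b' => Pz G W pres x a b' ∧ lbl G S O z x a b' = κ)) =
      G.cnt x (fun y => O y z a b = κ) + W.cnt a (fun a' => pres x a' b ∧ S z x a' b = κ)) ∨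
    ∀ κ, G.cnt x (fun y => Pz G W pres z a b ∧ lbl G S O y z a b = κ) +
      G.cnt z (fun y => Pz G W pres y a b ∧ lbl G S O x y a b = κ) +
      (W.cnt a (fun a' => Pz G W pres x a' b ∧ lbl G S O z x a' b = κ) +
        W.cnt b (fun b' => Pz G W pres x a b' ∧ lbl G S O z x a b' = κ)) =
      G.cnt x (fun y => S y z a b = κ) + W.cnt b (fun b' => pres x a b' ∧ O z x a b' = κ) := by
  have h0 : ∀ κ, G.cnt z (fun y => Pz G W pres y a b ∧ lbl G S O x y a b = κ) = 0 := fun κ =>
    G.cnt_zero z fun y hy e h' => by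
      have h1 := h'.1.1
      rw [col_adj G hz hy e, h.1] at h1
      simp at h1
  by_cases hc : G.col x = G.col z
  · refine Or.inl fun κ => ?_
    rw [h0, add_zero, W.cnt_zero b fun b' hb' e h' => by
        have h1 := h'.1.1
        rw [col_adj W hb hb' e, hc, h.1] at h1
        simp at h1, add_zero,
      G.cnt_congr x (q := fun y => O y z a b = κ) fun y hy e => by
        simp [lbl, h, col_adj G hx hy e, hc],
      W.cnt_congr a (q := fun a' => pres x a' b ∧ S z x a' b = κ) fun a' _ _ => by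
        simp [lbl, Pz, hc, h.1]]
  · refine Or.inr fun κ => ?_
    have hc' : G.col x = W.col b := by
      have := h.1
      revert hc this
      cases G.col x <;> cases G.col z <;> cases W.col b <;> simp
    rw [h0, add_zero, W.cnt_zero a fun a' _ _ h' => hc (h'.1.1.trans h.1.symm), zero_add,
      G.cnt_congr x (q := fun y => S y z a b = κ) fun y hy e => by
        simp [lbl, h, col_adj G hx hy e, hc', h.1],
      W.cnt_congr b (q := fun b' => pres x a b' ∧ O z x a b' = κ) fun b' hb' e => by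
        simp [lbl, Pz, hc', h.1, col_adj W hb hb' e]]

end GeoP

open GeoP LS.LinkP

theorem p_Geo : S_Geo := by
  rintro V V' C G W pres S O ⟨x₀, hx₀, a₀, ha₀, b₀, hb₀, h₀⟩
  have hne : ∃ v ∈ ((G.prod G).prod (W.prod W)).s, Pv G W pres v :=
    ⟨((x₀, x₀), (a₀, b₀)), by simp [UG.mem_prod, hx₀, ha₀, hb₀], by
      simp only [Pv, ite_self]
      exact h₀⟩
  refine ⟨_, ((G.prod G).prod (W.prod W)).sub (Pv G W pres) hne, xi G W S O, ?_, ?_⟩
  · refine (UG.card_sub _ _ _).trans ?_
    rw [UG.card_prod, UG.card_prod, UG.card_prod]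
    exact le_of_eq (by ring)
  · rintro ⟨⟨x₁, x₂⟩, a, b⟩ hv
    rw [UG.mem_sub, UG.mem_prod] at hv
    obtain ⟨⟨hx, hab⟩, hp⟩ := hv
    obtain ⟨h1, h2⟩ := (UG.mem_prod _ _ _).1 hx
    obtain ⟨ha, hb⟩ := (UG.mem_prod _ _ _).1 hab
    simp only at h1 h2 ha hb hx hab
    have key : ∀ κ, (((G.prod G).prod (W.prod W)).sub (Pv G W pres) hne).cnt ((x₁, x₂), (a, b))
        (fun w => xi G W S O w = κ) =
        G.cnt x₁ (fun y => Pv G W pres ((y, x₂), (a, b)) ∧ xi G W S O ((y, x₂), (a, b)) = κ) +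
        G.cnt x₂ (fun y => Pv G W pres ((x₁, y), (a, b)) ∧ xi G W S O ((x₁, y), (a, b)) = κ) +
        (W.cnt a (fun y => Pv G W pres ((x₁, x₂), (y, b)) ∧ xi G W S O ((x₁, x₂), (y, b)) = κ) +
        W.cnt b (fun y => Pv G W pres ((x₁, x₂), (a, y)) ∧ xi G W S O ((x₁, x₂), (a, y)) = κ)) :=
      fun κ => by
        rw [sub_cnt, UG.prod_cnt _ _ _ hx _ hab, UG.prod_cnt _ _ _ h1 _ h2,
          UG.prod_cnt _ _ _ ha _ hb]
    by_cases hc : W.col a = W.col b
    · have hz : Pz G W pres x₂ a b := by simpa [Pv, hc] using hp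
      refine ⟨x₁, h1, x₂, h2, a, ha, b, hb, ?_⟩
      have e : ∀ κ, (((G.prod G).prod (W.prod W)).sub (Pv G W pres) hne).cnt ((x₁, x₂), (a, b))
          (fun w => xi G W S O w = κ) =
          G.cnt x₁ (fun y => Pz G W pres x₂ a b ∧ lbl G S O y x₂ a b = κ) +
          G.cnt x₂ (fun y => Pz G W pres y a b ∧ lbl G S O x₁ y a b = κ) +
          (W.cnt a (fun a' => Pz G W pres x₁ a' b ∧ lbl G S O x₂ x₁ a' b = κ) +
            W.cnt b (fun b' => Pz G W pres x₁ a b' ∧ lbl G S O x₂ x₁ a b' = κ)) := fun κ => by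
        rw [key]
        congr 2
        · exact G.cnt_congr _ fun y _ _ => by simp [Pv, xi, hc]
        · exact G.cnt_congr _ fun y _ _ => by simp [Pv, xi, hc]
        · exact W.cnt_congr _ fun y hy e => by simp [Pv, xi, hc, col_adj W ha hy e]
        · exact W.cnt_congr _ fun y hy e => by simp [Pv, xi, hc, col_adj W hb hy e]
      simp only [e]
      exact core G W pres S O h1 h2 hb hz
    · have hz : Pz G W pres x₁ a b := by simpa [Pv, hc] using hp
      have hc' : W.col a = !W.col b := by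
        revert hc
        cases W.col a <;> cases W.col b <;> simp
      refine ⟨x₂, h2, x₁, h1, a, ha, b, hb, ?_⟩
      have e : ∀ κ, (((G.prod G).prod (W.prod W)).sub (Pv G W pres) hne).cnt ((x₁, x₂), (a, b))
          (fun w => xi G W S O w = κ) =
          G.cnt x₂ (fun y => Pz G W pres x₁ a b ∧ lbl G S O y x₁ a b = κ) +
          G.cnt x₁ (fun y => Pz G W pres y a b ∧ lbl G S O x₂ y a b = κ) +
          (W.cnt a (fun a' => Pz G W pres x₂ a' b ∧ lbl G S O x₁ x₂ a' b = κ) +
            W.cnt b (fun b' => Pz G W pres x₂ a b' ∧ lbl G S O x₁ x₂ a b' = κ)) := fun κ => by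
        rw [key, add_comm (G.cnt x₁ _)]
        congr 2
        · exact G.cnt_congr _ fun y _ _ => by simp [Pv, xi, hc]
        · exact G.cnt_congr _ fun y _ _ => by simp [Pv, xi, hc]
        · exact W.cnt_congr _ fun y hy e => by simp [Pv, xi, hc', col_adj W ha hy e]
        · exact W.cnt_congr _ fun y hy e => by simp [Pv, xi, hc', col_adj W hb hy e]
      simp only [e]
      exact core G W pres S O h2 h1 hb hz

theorem p_Del : S_Del := by
  intro V C _ G ξ N ε h hε
  have hne : ∃ v ∈ G.s, ξ v ≠ none := by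
    obtain ⟨v, hv⟩ := G.ne
    obtain ⟨κ⟩ := ‹Nonempty C›
    by_contra hn
    have h0 : G.cnt v (fun w => ξ w = some κ) = 0 :=
      G.cnt_zero v fun w hw _ e => hn ⟨w, hw, by simp [e]⟩
    have h1 := h v hv κ
    rw [h0, Nat.cast_zero, zero_sub, abs_neg] at h1
    exact absurd ((le_abs_self _).trans h1) (not_le.2 (hε κ))
  refine ⟨G.sub (fun w => ξ w ≠ none) hne, fun w => (ξ w).getD (Classical.arbitrary C),
    UG.card_sub _ _ _, fun v hv κ => ?_⟩
  rw [sub_cnt, G.cnt_congr v (q := fun w => ξ w = some κ) fun w _ _ => by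
    cases e : ξ w <;> simp [e]]
  exact h v ((UG.mem_sub _ _ _ v).1 hv).1 κ

end Pool.Agent.P.MP_44bffd_co.PB
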