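import Pool.Agent.P.MP_44bffd_co.PB.DB

/-! The norm theorem for an unramified quadratic extension of totally real fields. -/

namespace Pool.Agent.P.MP_44bffd_co.PB

open Finset NumberField
open scoped Classical

namespace HNFP

theorem reps (h : S_Div) (K : Type) [Field K] [NumberField K] :
    ∃ R : Finset (Pr K →₀ ℤ), ∀ D, ∃ r ∈ R, ∃ a : K, a ≠ 0 ∧ D = r + dv a := by
  obtain ⟨cl, hs, -, hk⟩ := h K
  choose σ hσ using hs
  refine ⟨univ.image fun c => (σ c).toAdd, fun D => ⟨_, mem_image_of_mem _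
    (mem_univ (cl (Multiplicative.ofAdd D))), ?_⟩⟩
  obtain ⟨a, a0, ha⟩ := (hk (D - (σ (cl (Multiplicative.ofAdd D))).toAdd)).1 (by
    rw [ofAdd_sub, ofAdd_toAdd, map_div, hσ, div_self'])
  exact ⟨a, a0, by rw [ha, add_sub_cancel]⟩

theorem h90 {G L : Type} [Group G] [Field L] [MulSemiringAction G L] [FaithfulSMul G L] {τ : G}
    (h1 : τ ≠ 1) (h2 : τ * τ = 1) {a : L} (ha : a * τ • a = 1) :
    ∃ b : L, b ≠ 0 ∧ a * τ • b = b := by
  by_cases h : 1 + a = 0
  · obtain ⟨z, hz⟩ : ∃ z : L, τ • z ≠ z := by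
      by_contra hc
      exact h1 (eq_of_smul_eq_smul (α := L) fun z => by
        rw [one_smul]
        exact not_not.1 fun hz => hc ⟨z, hz⟩)
    refine ⟨z - τ • z, sub_ne_zero.2 hz.symm, ?_⟩
    rw [smul_sub, ← mul_smul, h2, one_smul]
    linear_combination (τ • z - z) * h
  · refine ⟨1 + a, h, ?_⟩
    rw [smul_add, smul_one]
    linear_combination ha

/-- The action on the units. -/
def act {G : Type} (R : Type) [Group G] [CommRing R] [MulSemiringAction G R] (τ : G) :
    Additive Rˣ →+ Additive Rˣ :=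
  MonoidHom.toAdditive (Units.map (MulSemiringAction.toRingHom G R τ : R →* R))

theorem act_val {G R : Type} [Group G] [CommRing R] [MulSemiringAction G R] (τ : G)
    (x : Additive Rˣ) : ((act R τ x).toMul : R) = τ • (x.toMul : R) := rfl

theorem ext_val {R : Type} [CommRing R] {x y : Additive Rˣ} (h : (x.toMul : R) = y.toMul) :
    x = y := Additive.toMul.injective (Units.ext h)

variable (L : Type) [Field L] [NumberField L]

/-- The action on divisors. -/
noncomputable def sw {G : Type} [Group G] [MulSemiringAction G L] (τ : G) :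
    (Pr L →₀ ℤ) →+ (Pr L →₀ ℤ) :=
  (Finsupp.domCongr (MulAction.toPerm τ).symm).toAddMonoidHom

omit [NumberField L] in
theorem sw_apply {G : Type} [Group G] [MulSemiringAction G L] (τ : G) (D : Pr L →₀ ℤ) (P : Pr L) :
    sw L τ D P = D (τ • P) := rfl

/-- The inclusion of the units. -/
noncomputable def io : Additive (𝓞 L)ˣ →+ Additive Lˣ :=
  MonoidHom.toAdditive (Units.map (algebraMap (𝓞 L) L : 𝓞 L →* L))

omit [NumberField L] in
theorem io_val (x : Additive (𝓞 L)ˣ) : ((io L x).toMul : L) = ((x.toMul : 𝓞 L) : L) := rfl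

/-- The divisor map. -/
noncomputable def dm : Additive Lˣ →+ (Pr L →₀ ℤ) where
  toFun a := dv (a.toMul : L)
  map_zero' := Finsupp.ext fun P => val_one P
  map_add' a b := Finsupp.ext fun P => val_mul P a.toMul.ne_zero b.toMul.ne_zero

theorem dm_apply (a : Additive Lˣ) (P : Pr L) : dm L a P = val P (a.toMul : L) := rfl

end HNFP

open HNFP in
theorem p_HNF (h1 : S_Div) (h2 : S_Cls) (h3 : S_URank) (h4 : S_Amb) : S_HNF := by
  intro G K L _ _ _ _ _ _ _ _ _ _ τ τ1 hG hE a D a0 ha hD
  have := IsTotallyReal.of_algebra K L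
  have : FaithfulSMul G L := IsGaloisGroup.faithful K
  have τ2 : τ * τ = 1 := (hG (τ * τ)).resolve_right fun h => τ1 (mul_eq_left.1 h)
  have nm : ∀ D : Pr L →₀ ℤ, Nm τ D →
      ∃ B a, act L τ a = a ∧ D = B + sw L τ B + dm L a := by
    rintro D ⟨B, a, a0, ha, hD⟩
    exact ⟨B, Additive.ofMul (Units.mk0 a a0), ext_val ha, Finsupp.ext hD⟩
  obtain ⟨b, hb⟩ := h4 _ _ _ (act (𝓞 L) τ) (act L τ) (sw L τ) (io L) (dm L)
    (fun a => ext_val (by rw [act_val, act_val, ← mul_smul, τ2, one_smul]))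
    (fun D => Finsupp.ext fun P => by rw [sw_apply, sw_apply, ← mul_smul, τ2, one_smul])
    (fun x => ext_val rfl)
    (fun a => Finsupp.ext fun P => by
      rw [sw_apply, dm_apply, dm_apply, act_val, ← val_smul τ (τ • P), ← mul_smul, τ2, one_smul])
    (fun x y h => ext_val (RingOfIntegers.coe_injective (by
      have := congrArg (fun z : Additive Lˣ => (z.toMul : L)) h
      exact this)))
    (fun a => ⟨fun h => by
      obtain ⟨u, hu⟩ := exists_unit a.toMul.ne_zero fun P => DFunLike.congr_fun h P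
      exact ⟨Additive.ofMul u, ext_val hu⟩, by
      rintro ⟨x, rfl⟩
      exact Finsupp.ext fun P => val_unit P x.toMul⟩)
    (h3 G K L τ τ1 hG _ (act_val τ))
    (fun a h => by
      obtain ⟨b, b0, hb⟩ := h90 τ1 τ2 (a := (a.toMul : L))
        (congrArg (fun z : Additive Lˣ => (z.toMul : L)) h)
      exact ⟨Additive.ofMul (Units.mk0 b b0), eq_sub_of_add_eq (ext_val hb)⟩)
    (by
      obtain ⟨R, hR⟩ := reps h1 L
      refine ⟨R, fun D => ?_⟩
      obtain ⟨r, hr, a, a0, h⟩ := hR D
      exact ⟨r, hr, Additive.ofMul (Units.mk0 a a0), h⟩)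
    (by
      obtain ⟨R, hR⟩ := reps h1 K
      refine ⟨R.image (ext L), fun D hD => ?_⟩
      obtain ⟨d, rfl⟩ := exists_ext (G := G) K (D := D) fun g P => by
        rcases hG g with rfl | rfl
        · rw [one_smul]
        · exact DFunLike.congr_fun hD P
      obtain ⟨r, hr, a, a0, rfl⟩ := hR d
      refine ⟨_, mem_image_of_mem _ hr,
        Additive.ofMul (Units.mk0 (algebraMap K L a) ((map_ne_zero _).2 a0)),
        ext_val (smul_algebraMap τ a), ?_⟩
      rw [map_add]
      exact congrArg _ (Finsupp.ext fun P => (hE P a).symm))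
    (fun D D' hD hD' => (h2 G K L τ τ1 hG hE D D' (DFunLike.congr_fun hD)
      (DFunLike.congr_fun hD')).imp (nm _) (Or.imp (nm _) (nm _)))
    (Additive.ofMul (Units.mk0 a a0)) D (ext_val ha) (Finsupp.ext hD)
  exact ⟨(b.toMul : L), congrArg (fun z : Additive Lˣ => (z.toMul : L)) hb⟩

end Pool.Agent.P.MP_44bffd_co.PB
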