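import Pool.Agent.P.MP_44bffd_co.PB.DB

/-! The norm theorem for the quadratic layers between fixed fields. -/

namespace Pool.Agent.P.MP_44bffd_co.PB

open NumberField

namespace HNLP

theorem E1_mid {K K' L : Type} [Field K] [NumberField K] [Field K'] [NumberField K'] [Field L]
    [NumberField L] [Algebra K K'] [Algebra K' L] [Algebra K L] [IsScalarTower K K' L]
    (h1 : E1 K L) (h2 : E1 K' L) : E1 K K' := by
  intro p a
  obtain ⟨P, rfl⟩ := und_surj (L := L) K' p
  have e : und K (und K' P) = und K P := by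
    ext x
    rw [mem_und, mem_und, mem_und, ← IsScalarTower.algebraMap_apply]
  rw [← h2 P, ← IsScalarTower.algebraMap_apply, h1 P, e]

/-- The group generated by an involution. -/
def two {A : Type} [Group A] (τ : A) (h : τ * τ = 1) : Subgroup A where
  carrier := {x | x = 1 ∨ x = τ}
  one_mem' := Or.inl rfl
  mul_mem' := by
    rintro _ _ (rfl | rfl) (rfl | rfl)
    · exact Or.inl (mul_one _)
    · exact Or.inr (one_mul _)
    · exact Or.inr (mul_one _)
    · exact Or.inl h
  inv_mem' := by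
    rintro _ (rfl | rfl)
    · exact Or.inl inv_one
    · exact Or.inr (inv_eq_of_mul_eq_one_right h)

theorem core (h2 : S_HNF) {K K' : Type} [Field K] [NumberField K] [Field K'] [NumberField K']
    [IsTotallyReal K'] [Algebra K K'] (e1 : E1 K K') (τ : RingAut K') (h0 : τ ≠ 1)
    (hτ : τ * τ = 1) (hK : ∀ x : K', τ x = x ↔ ∃ y : K, algebraMap K K' y = x) (a : K')
    (D : Pr K' →₀ ℤ) (ha : a ≠ 0) (hτa : τ a = a) (hD : ∀ P, val P a = D P + D (τ • P)) :
    ∃ b : K', a = b * τ b := by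
  have hfin : Finite (two τ hτ) :=
    Set.Finite.to_subtype (s := {x | x = 1 ∨ x = τ}) ((Set.finite_singleton τ).insert 1)
  have hfix : ∀ (σ : two τ hτ) (y : K), σ • algebraMap K K' y = algebraMap K K' y := by
    rintro ⟨_, rfl | rfl⟩ y
    · rfl
    · exact (hK _).2 ⟨y, rfl⟩
  have hG : IsGaloisGroup (two τ hτ) K K' :=
    { faithful := inferInstance
      commutes := ⟨fun σ y x => by
        rw [Algebra.smul_def, Algebra.smul_def, smul_mul', hfix]⟩
      isInvariant := ⟨fun x hx => (hK x).1 (hx ⟨τ, Or.inr rfl⟩)⟩ }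
  exact h2 (two τ hτ) K K' ⟨τ, Or.inr rfl⟩ (fun h => h0 (congrArg Subtype.val h))
    (fun σ => σ.2.imp Subtype.ext Subtype.ext) e1 a D ha hτa hD

variable {G : Type} [Group G]

theorem conj' {H : Subgroup G} {g : G} (h1 : g * g ∈ H) (h2 : ∀ h ∈ H, g * h * g⁻¹ ∈ H) :
    ∀ h ∈ H, g⁻¹ * h * g ∈ H := by
  intro h hh
  have := H.mul_mem (H.mul_mem (H.inv_mem h1) (h2 h hh)) h1
  rwa [show (g * g)⁻¹ * (g * h * g⁻¹) * (g * g) = g⁻¹ * h * g by group] at this

variable {L : Type} [Field L] [MulSemiringAction G L]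

theorem mem_fix (H : Subgroup G) (x : L) : x ∈ FixedPoints.subfield H L ↔ ∀ h ∈ H, h • x = x :=
  ⟨fun hx h hh => hx ⟨h, hh⟩, fun hx h => hx h.1 h.2⟩

theorem mem_fix_sup (H : Subgroup G) (g : G) (x : L) :
    x ∈ FixedPoints.subfield (H ⊔ Subgroup.zpowers g : Subgroup G) L ↔
      (∀ h ∈ H, h • x = x) ∧ g • x = x := by
  rw [mem_fix]
  change H ⊔ Subgroup.zpowers g ≤ MulAction.stabilizer G x ↔ _
  rw [sup_le_iff, Subgroup.zpowers_le]
  rfl

theorem smul_fix {H : Subgroup G} {g : G} (h : ∀ h ∈ H, g⁻¹ * h * g ∈ H) {x : L}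
    (hx : x ∈ FixedPoints.subfield H L) : g • x ∈ FixedPoints.subfield H L := by
  rw [mem_fix] at hx ⊢
  intro k hk
  have := congrArg (fun y => g • y) (hx _ (h k hk))
  simpa only [smul_smul, ← mul_assoc, mul_inv_cancel, one_mul] using this

/-- The restriction of `g` to the fixed field of `H`. -/
def res {H : Subgroup G} {g : G} (h1 : g * g ∈ H) (h : ∀ h ∈ H, g⁻¹ * h * g ∈ H) :
    RingAut (FixedPoints.subfield H L) where
  toFun x := ⟨g • (x : L), smul_fix h x.2⟩
  invFun x := ⟨g • (x : L), smul_fix h x.2⟩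
  left_inv x := Subtype.ext (by
    change g • g • (x : L) = x
    rw [smul_smul, (mem_fix H _).1 x.2 _ h1])
  right_inv x := Subtype.ext (by
    change g • g • (x : L) = x
    rw [smul_smul, (mem_fix H _).1 x.2 _ h1])
  map_mul' x y := Subtype.ext (smul_mul' g (x : L) (y : L))
  map_add' x y := Subtype.ext (smul_add g (x : L) (y : L))

theorem mem_of_fix [Finite G] [FaithfulSMul G L] {H : Subgroup G} {g : G}
    (h : ∀ x ∈ FixedPoints.subfield H L, g • x = x) : g ∈ H := by
  rw [← IsGaloisGroup.fixingSubgroup_range_algebraMap' G (FixedPoints.subfield G L) L H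
    (FixedPoints.subfield H L), mem_fixingSubgroup_iff]
  rintro _ ⟨x, rfl⟩
  exact h x x.2

theorem unr_sub (h : Unr G L) (H : Subgroup G) : Unr H L := fun g hg P =>
  h g (fun e => hg (Subtype.ext e)) P

theorem und_res {A K' : Type} [Group A] [Field K'] [NumberField K'] [NumberField L] [Algebra K' L]
    [MulSemiringAction A K'] (τ : A) (g : G)
    (h : ∀ x : K', algebraMap K' L (τ • x) = g • algebraMap K' L x) (P : Pr L) :
    τ • und K' P = und K' (g • P) := by
  ext x
  obtain ⟨y, rfl⟩ : ∃ y, x = τ • y := ⟨τ⁻¹ • x, (smul_inv_smul τ x).symm⟩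
  have e : algebraMap (𝓞 K') (𝓞 L) (τ • y) = g • algebraMap (𝓞 K') (𝓞 L) y :=
    RingOfIntegers.coe_injective (h y)
  rw [smul_mem_smul, mem_und, mem_und, e, smul_mem_smul]

end HNLP

open HNLP

theorem p_HNL (h1 : S_Desc) (h2 : S_HNF) : S_HNL := by
  intro G L _ _ _ _ _ _ _ hU H g hg hgg hc a D ha haH hag hDH hD
  have hc' := conj' hgg hc
  have hle : FixedPoints.subfield (H ⊔ Subgroup.zpowers g : Subgroup G) L ≤
      FixedPoints.subfield H L := fun x hx => (mem_fix H x).2 ((mem_fix_sup H g x).1 hx).1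
  let _ : Algebra (FixedPoints.subfield (H ⊔ Subgroup.zpowers g : Subgroup G) L)
      (FixedPoints.subfield H L) := (Subfield.inclusion hle).toAlgebra
  have _ : IsScalarTower (FixedPoints.subfield (H ⊔ Subgroup.zpowers g : Subgroup G) L)
      (FixedPoints.subfield H L) L := IsScalarTower.of_algebraMap_eq fun _ => rfl
  have e1 : E1 (FixedPoints.subfield H L) L := h1 H _ L (unr_sub hU H)
  have e2 : E1 (FixedPoints.subfield (H ⊔ Subgroup.zpowers g : Subgroup G) L) L :=
    h1 (H ⊔ Subgroup.zpowers g : Subgroup G) _ L (unr_sub hU _)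
  obtain ⟨d, rfl⟩ := exists_ext (G := H) (FixedPoints.subfield H L) (D := D)
    fun h P => hDH h.1 h.2 P
  obtain ⟨b, hb⟩ := core h2 (E1_mid e2 e1) (res hgg hc') (fun h => hg (mem_of_fix (L := L)
      fun x hx => by exact congrArg Subtype.val (DFunLike.congr_fun h ⟨x, hx⟩)))
    (RingEquiv.ext fun x => (res hgg hc').left_inv x)
    (fun x => ⟨fun h => ⟨⟨x, (mem_fix_sup H g _).2
        ⟨(mem_fix H _).1 x.2, congrArg Subtype.val h⟩⟩, rfl⟩,
      fun ⟨y, hy⟩ => hy ▸ Subtype.ext ((mem_fix_sup H g _).1 y.2).2⟩)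
    ⟨a, (mem_fix H a).2 haH⟩ d (fun h => ha (congrArg Subtype.val h)) (Subtype.ext hag)
    (fun p => by
      obtain ⟨P, rfl⟩ := und_surj (L := L) (FixedPoints.subfield H L) p
      rw [und_res (res hgg hc') g (fun _ => rfl) P, ← e1 P]
      exact hD P)
  exact ⟨b, (mem_fix H _).1 b.2, congrArg Subtype.val hb⟩

end Pool.Agent.P.MP_44bffd_co.PB
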