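import Pool.Agent.P.MP_44bffd_co.PB.DB

/-! The Herbrand quotient of an involution. -/

namespace Pool.Agent.P.MP_44bffd_co.PB

open AddSubgroup

namespace HerbP

theorem idx (B : Type) [AddCommGroup B] [Module.Finite ℤ B] (ω : B) (h2 : ω + ω = 0)
    (h3 : ∀ x, x + x ≠ ω) (h4 : ∀ (x : B) (m : ℕ), 0 < m → m • x = 0 → x = 0 ∨ x = ω) :
    (nsmulAddMonoidHom (α := B) 2).range.index = 2 ^ (Module.finrank ℤ B + 1) := by
  obtain ⟨T, hT⟩ : ∃ T : Submodule ℤ B, T = Submodule.torsion ℤ B := ⟨_, rfl⟩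
  have hm : ∀ x, x ∈ T ↔ x = 0 ∨ x = ω := by
    intro x
    rw [hT]
    constructor
    · rintro ⟨⟨a, ha⟩, h⟩
      have ha0 : a ≠ 0 := nonZeroDivisors.ne_zero ha
      refine h4 x a.natAbs (Int.natAbs_pos.2 ha0) ?_
      rw [natAbs_nsmul_eq_zero]
      exact h
    · rintro (rfl | rfl)
      · exact zero_mem _
      · exact ⟨⟨2, mem_nonZeroDivisors_of_ne_zero two_ne_zero⟩, (two_smul ℤ x).trans h2⟩
  have hω : ω ≠ 0 := fun h => h3 0 (by rw [h, add_zero])
  have : Module.IsTorsionFree ℤ (B ⧸ T) := by rw [hT]; infer_instance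
  have h5 := index_range_nsmul (B ⧸ T) 2
  rw [finrank_quotient_eq_of_le_torsion hT.le] at h5
  have h6 : (nsmulAddMonoidHom (α := B ⧸ T) 2).range =
      (nsmulAddMonoidHom (α := B) 2).range.map T.mkQ.toAddMonoidHom := by
    ext y
    constructor
    · rintro ⟨z, rfl⟩
      obtain ⟨x, rfl⟩ := T.mkQ_surjective z
      exact ⟨2 • x, ⟨x, rfl⟩, map_nsmul T.mkQ 2 x⟩
    · rintro ⟨_, ⟨x, rfl⟩, rfl⟩
      exact ⟨T.mkQ x, (map_nsmul T.mkQ 2 x).symm⟩
  have h7 : T.mkQ.toAddMonoidHom.range = ⊤ := AddMonoidHom.range_eq_top.2 T.mkQ_surjective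
  have h8 : T.mkQ.toAddMonoidHom.ker = T.toAddSubgroup := by
    ext x
    exact Submodule.Quotient.mk_eq_zero T
  rw [h6, index_map, h7, index_top, mul_one, h8] at h5
  have h9 : (nsmulAddMonoidHom (α := B) 2).range.addSubgroupOf T.toAddSubgroup = ⊥ := by
    rw [eq_bot_iff]
    rintro ⟨x, hx⟩ ⟨y, hy⟩
    rcases (hm x).1 hx with rfl | rfl
    · exact zero_mem _
    · exact absurd ((two_nsmul y).symm.trans hy) (h3 y)
  have h10 : Nat.card T.toAddSubgroup = 2 := by
    refine (Nat.card_eq_two_iff' (0 : T.toAddSubgroup)).2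
      ⟨⟨ω, (hm ω).2 (Or.inr rfl)⟩, fun h => hω (congrArg Subtype.val h), fun y hy => ?_⟩
    exact Subtype.ext (((hm y).1 y.2).resolve_left fun h => hy (Subtype.ext h))
  rw [← relIndex_mul_index (le_sup_left (b := T.toAddSubgroup)), h5, relIndex_sup_left, relIndex, h9,
    index_bot, h10, pow_succ']

variable {E : Type} [AddCommGroup E]

theorem idx' [Module.Finite ℤ E] (ω : E) (h2 : ω + ω = 0)
    (h3 : ∀ x, x + x ≠ ω) (h4 : ∀ (x : E) (m : ℕ), 0 < m → m • x = 0 → x = 0 ∨ x = ω)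
    (S : AddSubgroup E) (hS : ω ∈ S) :
    (S.map (nsmulAddMonoidHom (α := E) 2)).relIndex S = 2 ^ (Module.finrank ℤ S + 1) := by
  have : Module.Finite ℤ S := inferInstanceAs (Module.Finite ℤ S.toIntSubmodule)
  rw [relIndex, addSubgroupOf_map_nsmulAddMonoidHom_eq_range]
  exact idx S ⟨ω, hS⟩ (Subtype.ext h2) (fun x h => h3 x (congrArg Subtype.val h))
    fun x m hm h => (h4 x m hm (congrArg Subtype.val h)).imp Subtype.ext Subtype.ext

theorem chain (M N : E →+ E) (h1 : ∀ x, M (N x) = 0) (h2 : ∀ x, M x + N x = 2 • x) :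
    (M.ker ⊔ N.ker).index * N.range.relIndex M.ker =
      (M.ker.map (nsmulAddMonoidHom (α := E) 2)).relIndex M.ker := by
  have e : M.ker.map (nsmulAddMonoidHom (α := E) 2) = M.ker.map N := by
    have : ∀ x ∈ M.ker, nsmulAddMonoidHom (α := E) 2 x = N x := fun x hx => by
      have h3 := h2 x
      rw [AddMonoidHom.mem_ker.1 hx, zero_add] at h3
      exact h3.symm
    ext y
    exact exists_congr fun x => and_congr_right fun hx => by rw [this x hx]
  rw [e, ← relIndex_mul_relIndex (M.ker.map N) N.range M.ker (map_le_range _ _)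
    (by rintro _ ⟨x, rfl⟩; exact h1 x)]
  congr 1
  rw [AddMonoidHom.range_eq_map, relIndex_map_map, top_sup_eq, relIndex_top_right]

theorem rank_le [Module.Finite ℤ E] (M N : E →+ E) (h1 : ∀ x, N (M x) = 0) :
    Module.finrank ℤ E ≤ Module.finrank ℤ N.ker + Module.finrank ℤ M.ker := by
  have h2 := (LinearMap.ker M.toIntLinearMap).finrank_quotient_add_finrank
  rw [M.toIntLinearMap.quotKerEquivRange.finrank_eq] at h2
  have h3 : Module.finrank ℤ (LinearMap.range M.toIntLinearMap) ≤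
      Module.finrank ℤ N.ker.toIntSubmodule :=
    Submodule.finrank_mono (by rintro _ ⟨x, rfl⟩; exact h1 x)
  rw [← h2]
  exact Nat.add_le_add h3 le_rfl

end HerbP

open HerbP

theorem p_Herb : S_Herb := by
  intro E _ _ u ω n h1 h2 h3 h4 h5 h6 h7
  have a1 : ∀ x, (AddMonoidHom.id E - u) ((AddMonoidHom.id E + u) x) = 0 := fun x => by
    simp [h1, add_comm]
  have a2 : ∀ x, (AddMonoidHom.id E + u) ((AddMonoidHom.id E - u) x) = 0 := fun x => by
    simp [h1]
  have a3 : ∀ x, (AddMonoidHom.id E - u) x + (AddMonoidHom.id E + u) x = 2 • x := fun x => by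
    simp [two_nsmul]
  have b1 := HerbP.chain _ _ a1 a3
  have b2 := HerbP.chain _ _ a2 fun x => (add_comm _ _).trans (a3 x)
  have b3 := HerbP.rank_le _ _ a2
  rw [idx' ω h3 h4 h5 _ (by simp [AddMonoidHom.mem_ker, h2]), h7] at b1
  rw [idx' ω h3 h4 h5 _ (by simp [AddMonoidHom.mem_ker, h2, h3]), sup_comm] at b2
  rw [h6, h7] at b3
  unfold Hb
  generalize (AddMonoidHom.id E + u).range.relIndex (AddMonoidHom.id E - u).ker = a at *
  generalize (AddMonoidHom.id E - u).range.relIndex (AddMonoidHom.id E + u).ker = b at *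
  generalize ((AddMonoidHom.id E - u).ker ⊔ (AddMonoidHom.id E + u).ker).index = c at *
  generalize Module.finrank ℤ (AddMonoidHom.id E + u).ker = r at *
  have c1 : c * a ≠ 0 := by rw [b1]; positivity
  have c2 : c * b ≠ 0 := by rw [b2]; positivity
  refine ⟨right_ne_zero_of_mul c1, right_ne_zero_of_mul c2,
    Nat.le_of_mul_le_mul_left ?_ (Nat.pos_of_ne_zero (left_ne_zero_of_mul c1))⟩
  rw [mul_left_comm, b1, b2, ← pow_succ']
  exact Nat.pow_le_pow_right (by norm_num) (by omega)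

end Pool.Agent.P.MP_44bffd_co.PB
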