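import Pool.Agent.P.MP_44bffd_co.PB.DB

/-! Characters from square roots, and signs at the real places. -/

namespace Pool.Agent.P.MP_44bffd_co.PB

open Finset NumberField
open scoped Classical symmDiff

namespace HomP

variable {G K L : Type} [Group G] [Field K] [Field L] [Algebra K L] [MulSemiringAction G L]

lemma pm [SMulCommClass G K L] {y : L} {a : K} (h : algebraMap K L a = y * y) (g : G) :
    g • y = y ∨ g • y = -y := by
  refine mul_self_eq_mul_self_iff.1 ?_
  rw [← smul_mul', ← h, smul_algebraMap]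

/-- the character of a square root -/
noncomputable def chi (G : Type) {L : Type} [Group G] [Field L] [MulSemiringAction G L] (y : L)
    (g : G) : ZMod 2 := if g • y = y then 0 else 1

lemma chi_mem {y : L} (h0 : -y ≠ y) (h : ∀ g : G, g • y = y ∨ g • y = -y) : chi G y ∈ Homs G := by
  intro g g'
  unfold chi
  rw [mul_smul]
  rcases h g with h1 | h1 <;> rcases h g' with h2 | h2
  · simp [h1, h2]
  · simp [h1, h2, h0]
  · simp [h1, h2, h0]
  · rw [h2, smul_neg, h1, neg_neg, if_pos rfl, if_neg h0]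
    rfl

lemma fixed {y z : L} (hy : ∀ g : G, g • y = y ∨ g • y = -y) (hz : ∀ g : G, g • z = z ∨ g • z = -z)
    (h : chi G y = chi G z) (g : G) : g • (y * z) = y * z := by
  have e := congrFun h g
  unfold chi at e
  rw [smul_mul']
  by_cases h1 : g • y = y <;> by_cases h2 : g • z = z
  · rw [h1, h2]
  · simp [h1, h2] at e
  · simp [h1, h2] at e
  · rw [(hy g).resolve_left h1, (hz g).resolve_left h2, neg_mul_neg]

lemma prod_symmDiff {ι : Type} [DecidableEq ι] (u : ι → K) (S T : Finset ι) :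
    (∏ i ∈ S, u i) * ∏ i ∈ T, u i = (∏ i ∈ S ∆ T, u i) * (∏ i ∈ S ∩ T, u i) ^ 2 := by
  have h1 : (∏ i ∈ S \ T, u i) * ∏ i ∈ S ∩ T, u i = ∏ i ∈ S, u i := by
    rw [← prod_union (disjoint_sdiff_inter S T), sdiff_union_inter]
  have h2 : (∏ i ∈ T \ S, u i) * ∏ i ∈ S ∩ T, u i = ∏ i ∈ T, u i := by
    rw [inter_comm, ← prod_union (disjoint_sdiff_inter T S), sdiff_union_inter]
  have h3 : ∏ i ∈ S ∆ T, u i = (∏ i ∈ S \ T, u i) * ∏ i ∈ T \ S, u i := by
    rw [symmDiff_def, sup_eq_union, prod_union disjoint_sdiff_sdiff]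
  rw [h3, ← h1, ← h2]
  ring

end HomP

open HomP in
theorem p_Hom : S_Hom := by
  intro G K L _ _ _ _ _ _ _ _ hG u hu hS
  choose y hy using hu
  have hu0 : ∀ i, u i ≠ 0 := fun i h => hS {i} (singleton_nonempty i) (by simp [h])
  have hY : ∀ S : Finset (Fin 8),
      algebraMap K L (∏ i ∈ S, u i) = (∏ i ∈ S, y i) * ∏ i ∈ S, y i := fun S => by
    rw [map_prod, ← prod_mul_distrib]
    exact prod_congr rfl fun i _ => hy i
  have hne : ∀ S : Finset (Fin 8), -∏ i ∈ S, y i ≠ ∏ i ∈ S, y i := fun S h => by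
    have h0 : ∏ i ∈ S, y i = 0 := by linear_combination (-1 / 2 : L) * h
    have h1 := hY S
    rw [h0, mul_zero, map_eq_zero] at h1
    exact prod_ne_zero_iff.2 (fun i _ => hu0 i) h1
  have hinj : Function.Injective fun S : Finset (Fin 8) => chi G (∏ i ∈ S, y i) := by
    intro S T h
    by_contra hST
    obtain ⟨t, ht⟩ := hG.isInvariant.isInvariant _ (fixed (pm (hY S)) (pm (hY T)) h)
    have e : (∏ i ∈ S, u i) * ∏ i ∈ T, u i = t * t := (algebraMap K L).injective (by
      rw [map_mul, map_mul, hY, hY, ht]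
      ring)
    rw [prod_symmDiff] at e
    have h0 : ∏ i ∈ S ∩ T, u i ≠ 0 := prod_ne_zero_iff.2 fun i _ => hu0 i
    refine hS (S ∆ T) (symmDiff_nonempty.2 hST) ⟨t / ∏ i ∈ S ∩ T, u i, ?_⟩
    field_simp
    linear_combination e
  have := Set.ncard_le_ncard_of_injOn (s := (Set.univ : Set (Finset (Fin 8)))) (t := Homs G)
    (fun S => chi G (∏ i ∈ S, y i)) (fun S _ => chi_mem (hne S) (pm (hY S))) hinj.injOn
  rwa [Set.ncard_univ, Nat.card_eq_fintype_card, Fintype.card_finset, Fintype.card_fin] at this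

theorem p_Sign : S_Sign := by
  intro G K L _ _ _ _ _ _ _ _ hG hK
  have := IsGaloisGroup.isGalois G K L
  let dn : (L →+* ℝ) → (K →+* ℂ) := fun φ => (Complex.ofRealHom.comp φ).comp (algebraMap K L)
  let o : L → (K →+* ℂ) → Bool := fun μ ψ =>
    if h : ∃ φ, dn φ = ψ then decide (0 < h.choose μ) else true
  refine ⟨(K →+* ℂ) → Bool, inferInstance, o, ?_, fun μ μ' hμ hμ' h φ => ?_⟩
  · rw [Fintype.card_fun, Embeddings.card K ℂ, hK]
    rfl
  · have hex : ∃ φ', dn φ' = dn φ := ⟨φ, rfl⟩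
    have e := congrFun h (dn φ)
    simp only [o, dif_pos hex, decide_eq_decide] at e
    obtain ⟨σ, hσ⟩ := ComplexEmbedding.exists_comp_symm_eq_of_comp_eq (k := K) _ _ hex.choose_spec
    obtain ⟨g, hg⟩ := (IsGaloisGroup.mulEquivAlgEquiv G K L).surjective σ.symm
    have h1 : ∀ x, φ x = hex.choose (g • x) := fun x => by
      have e1 := RingHom.congr_fun hσ x
      have e2 : g • x = σ.symm x := by rw [← hg]; rfl
      rw [e2]
      exact Complex.ofReal_injective e1.symm
    generalize hex.choose = φ0 at e h1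
    obtain ⟨b, hb⟩ := hμ.2 g
    obtain ⟨b', hb'⟩ := hμ'.2 g
    have n1 : φ μ ≠ 0 := (map_ne_zero φ).2 hμ.1
    have n2 : φ μ' ≠ 0 := (map_ne_zero φ).2 hμ'.1
    have m1 : φ0 μ ≠ 0 := (map_ne_zero φ0).2 hμ.1
    have m2 : φ0 μ' ≠ 0 := (map_ne_zero φ0).2 hμ'.1
    have hp : 0 < φ0 μ * φ0 μ' := by
      by_cases h2 : 0 < φ0 μ
      · exact mul_pos h2 (e.1 h2)
      · exact mul_pos_of_neg_of_neg (lt_of_le_of_ne (not_lt.1 h2) m1)
          (lt_of_le_of_ne (not_lt.1 fun h3 => h2 (e.2 h3)) m2)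
    refine lt_of_le_of_ne ?_ (by rw [map_mul]; exact (mul_ne_zero n1 n2).symm)
    rw [map_mul, h1, h1, hb, hb', map_mul, map_mul, map_pow, map_pow]
    nlinarith [mul_nonneg (mul_nonneg (sq_nonneg (φ0 b)) (sq_nonneg (φ0 b'))) hp.le]

end Pool.Agent.P.MP_44bffd_co.PB
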