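import Pool.Agent.P.MP_44bffd_co.PB.Coc

/-! The numerical inequality of Golod and Shafarevich. -/

namespace Pool.Agent.P.MP_44bffd_co.PB

open Finset CocP Module
open scoped Classical

namespace IneqP

variable {ι κ G : Type} [Group G]

theorem Au_mono {N M : Submodule (ZMod 2) (Fr ι G)} (h : N ≤ M) : Au N ≤ Au M :=
  Au_le fun g _ hv => mem_Au g (h hv)

theorem map_Au {f : Fr ι G →ₗ[ZMod 2] Fr κ G} (hf : Eqv f) (N : Submodule (ZMod 2) (Fr ι G)) :
    (Au N).map f = Au (N.map f) := by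
  refine le_antisymm (Submodule.map_le_iff_le_comap.2 (Au_le fun g v hv => ?_)) (Au_le ?_)
  · rw [Submodule.mem_comap, map_sub, hf]
    exact mem_Au g ⟨v, hv, rfl⟩
  · rintro g _ ⟨v, hv, rfl⟩
    exact ⟨_, mem_Au g hv, by rw [map_sub, hf]⟩

variable (ι G) in
/-- the filtration by the powers of the augmentation ideal -/
def T : ℕ → Submodule (ZMod 2) (Fr ι G)
  | 0 => ⊤
  | n + 1 => Au (T n)

theorem map_T {f : Fr ι G →ₗ[ZMod 2] Fr κ G} (hf : Eqv f) (n : ℕ) : (T ι G n).map f ≤ T κ G n := by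
  induction n with
  | zero => exact le_top
  | succ n ih => exact (map_Au hf _).le.trans (Au_mono ih)

theorem map_T' {f : Fr ι G →ₗ[ZMod 2] Fr κ G} (hf : Eqv f) (h : LinearMap.range f ≤ Au ⊤) (n : ℕ) :
    (T ι G n).map f ≤ T κ G (n + 1) := by
  induction n with
  | zero => exact (Submodule.map_top f).le.trans h
  | succ n ih => exact (map_Au hf _).le.trans (Au_mono ih)

theorem map_T'' {f : Fr ι G →ₗ[ZMod 2] Fr κ G} (hf : Eqv f) (h : LinearMap.range f = Au ⊤) (n : ℕ) :
    (T ι G n).map f = T κ G (n + 1) := by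
  induction n with
  | zero => exact (Submodule.map_top f).trans h
  | succ n ih => exact (map_Au hf _).trans (congrArg Au ih)

/-- a component -/
def cp (i : ι) : Fr ι G →ₗ[ZMod 2] Fr Unit G :=
  LinearMap.funLeft (ZMod 2) (ZMod 2) fun q : Unit × G => (i, q.2)

/-- the inclusion of a component -/
noncomputable def ic (i : ι) : Fr Unit G →ₗ[ZMod 2] Fr ι G where
  toFun u q := if q.1 = i then u ((), q.2) else 0
  map_add' u v := funext fun q => by by_cases h : q.1 = i <;> simp [h]
  map_smul' c u := funext fun q => by by_cases h : q.1 = i <;> simp [h]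

theorem finrank_T [Fintype ι] [Fintype G] (n : ℕ) :
    finrank (ZMod 2) (T ι G n) = Fintype.card ι * finrank (ZMod 2) (T Unit G n) := by
  have h1 : ∀ i : ι, ∀ v ∈ T ι G n, cp i v ∈ T Unit G n := fun i v hv =>
    map_T (f := cp i) (fun _ _ => rfl) n ⟨v, hv, rfl⟩
  have h2 : ∀ i : ι, ∀ u ∈ T Unit G n, ic i u ∈ T ι G n := fun i u hu =>
    map_T (f := ic i) (fun _ _ => rfl) n ⟨u, hu, rfl⟩
  let e : T ι G n →ₗ[ZMod 2] (ι → T Unit G n) := LinearMap.pi fun i => (cp i).restrict (h1 i)
  have he : Function.Bijective e := by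
    refine ⟨fun v w h => Subtype.ext (funext fun q => ?_), fun u => ?_⟩
    · exact congrFun (congrArg Subtype.val (congrFun h q.1)) ((), q.2)
    · refine ⟨⟨∑ i, ic i (u i), Submodule.sum_mem _ fun i _ => h2 i _ (u i).2⟩,
        funext fun j => Subtype.ext (funext fun q => ?_)⟩
      change (∑ i, ic i (u i).1) (j, q.2) = (u j).1 q
      rw [Finset.sum_apply]
      change ∑ i, (if j = i then (u i).1 ((), q.2) else 0) = _
      rw [sum_ite_eq, if_pos (mem_univ j)]
  rw [(LinearEquiv.ofBijective e he).finrank_eq, finrank_pi_fintype, sum_const, card_univ,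
    smul_eq_mul]

theorem rank_null {V W : Type} [AddCommGroup V] [Module (ZMod 2) V] [Module.Finite (ZMod 2) V]
    [AddCommGroup W] [Module (ZMod 2) W] (f : V →ₗ[ZMod 2] W) (S : Submodule (ZMod 2) V) :
    finrank (ZMod 2) (S.map f) + finrank (ZMod 2) (S ⊓ LinearMap.ker f : Submodule (ZMod 2) V) =
      finrank (ZMod 2) S := by
  rw [← LinearMap.finrank_range_add_finrank_ker (f.domRestrict S), LinearMap.range_domRestrict,
    LinearMap.ker_domRestrict, ← Submodule.map_comap_subtype, Submodule.finrank_map_subtype_eq]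

theorem num (a : ℕ → ℕ) (d r : ℕ) (hd : 2 ≤ d) (h0 : ∀ n, a n ≤ a 0) (h1 : a 1 < a 0)
    (h : ∀ m, a (m + 2) + d * a 0 + r * a m ≤ d * a (m + 1) + a 1 + r * a 0) : d ^ 2 < 4 * r := by
  by_contra hr
  have hr' : 4 * (r : ℤ) ≤ (d : ℤ) ^ 2 := by exact_mod_cast not_lt.1 hr
  have hd' : (2 : ℤ) ≤ d := by exact_mod_cast hd
  obtain ⟨b, hb⟩ : ∃ b : ℕ → ℤ, ∀ n, b n = a 0 - a n := ⟨_, fun _ => rfl⟩
  have b0 : ∀ n, 0 ≤ b n := fun n => by
    have := h0 n
    rw [hb]
    omega
  have hu : ∀ n, 2 + d * b n ≤ 2 * b (n + 1) := by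
    intro n
    induction n with
    | zero =>
      rw [hb, hb, sub_self, mul_zero, zero_add]
      omega
    | succ n ih =>
      have h2 : (a (n + 2) : ℤ) + d * a 0 + r * a n ≤ d * a (n + 1) + a 1 + r * a 0 := by
        exact_mod_cast h n
      have h3 : d * b (n + 1) + 1 ≤ r * b n + b (n + 1 + 1) := by
        rw [hb, hb, hb]
        have : (a 1 : ℤ) + 1 ≤ a 0 := by exact_mod_cast h1
        linarith
      nlinarith [mul_le_mul_of_nonneg_right hr' (b0 n), mul_le_mul_of_nonneg_left ih (by omega :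
        (0 : ℤ) ≤ d)]
  have hn : ∀ n : ℕ, (n : ℤ) ≤ b n := by
    intro n
    induction n with
    | zero => exact b0 0
    | succ n ih =>
      have := hu n
      have := mul_le_mul_of_nonneg_right hd' (b0 n)
      push_cast
      linarith
  have := hn (a 0 + 1)
  rw [hb] at this
  omega

end IneqP

open IneqP

theorem p_Ineq : S_Ineq := by
  intro G _ _ d r f ψ hf hψ hr hr' hk hd
  refine num (fun n => finrank (ZMod 2) (T Unit G n)) d r hd
    (fun n => Submodule.finrank_mono le_top) (Submodule.finrank_lt_finrank_of_lt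
      (lt_top_iff_ne_top.2 fun e => ?_)) fun m => ?_
  · have := sum_zero (v := dl (1 : G)) (e.ge Submodule.mem_top)
    simp [dl, Pi.single_apply] at this
  · have e1 := rank_null f (T (Fin d) G (m + 1))
    have e2 := rank_null f (T (Fin d) G 0)
    have e3 := rank_null ψ (T (Fin r) G m)
    have e4 := rank_null ψ (T (Fin r) G 0)
    have e5 : finrank (ZMod 2) ((T (Fin r) G m).map ψ) ≤ finrank (ZMod 2)
        (T (Fin d) G (m + 1) ⊓ LinearMap.ker f : Submodule (ZMod 2) _) :=
      Submodule.finrank_mono (le_inf (map_T' hψ (hr'.le.trans hk) m)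
        (LinearMap.map_le_range.trans hr'.le))
    have e6 : finrank (ZMod 2) (T (Fin r) G m ⊓ LinearMap.ker ψ : Submodule (ZMod 2) _) ≤
        finrank (ZMod 2) (T (Fin r) G 0 ⊓ LinearMap.ker ψ : Submodule (ZMod 2) _) :=
      Submodule.finrank_mono (inf_le_inf_right _ le_top)
    have e7 : (T (Fin r) G 0).map ψ = T (Fin d) G 0 ⊓ LinearMap.ker f :=
      (Submodule.map_top ψ).trans (hr'.trans (top_inf_eq _).symm)
    rw [map_T'' hf hr, finrank_T (ι := Fin d), Fintype.card_fin] at e1 e2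
    rw [finrank_T (ι := Fin r), Fintype.card_fin] at e3 e4
    rw [e7] at e4
    have e8 : finrank (ZMod 2) (T Unit G (m + 2)) + _ = _ := e1
    have e9 : finrank (ZMod 2) (T Unit G 1) + _ = _ := e2
    linarith

end Pool.Agent.P.MP_44bffd_co.PB
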