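import Pool.Agent.P.MP_44bffd_co.PB.DB

/-! Inert primes, Hilbert's theorem 90, and cocycles with values in permutation modules. -/

namespace Pool.Agent.P.MP_44bffd_co.PB

open NumberField IsDedekindDomain

theorem p_Inert : S_Inert := by
  intro G K L _ _ _ _ _ _ _ _ _ τ hτ hG hE P
  have := P.isPrime
  have := (und K P).isMaximal
  have hl : P.asIdeal.LiesOver (und K P).asIdeal := ⟨rfl⟩
  refine ⟨?_, fun hP => ?_⟩
  · rw [np, np, Ideal.absNorm_eq_pow_inertiaDeg'_of_liesOver P.asIdeal (und K P).asIdeal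
      (und K P).isPrime (und K P).ne_bot]
    exact Nat.le_self_pow (Ideal.inertiaDeg'_pos _ _).ne' _
  have hI : (und K P).asIdeal.map (algebraMap (𝓞 K) (𝓞 L)) = P.asIdeal := by
    obtain ⟨J, hJ⟩ : P.asIdeal ∣ (und K P).asIdeal.map (algebraMap (𝓞 K) (𝓞 L)) :=
      Ideal.dvd_iff_le.2 (Ideal.map_le_iff_le_comap.2 le_rfl)
    by_cases h : J = ⊤
    · rw [hJ, h, Ideal.mul_top]
    exfalso
    obtain ⟨Q, hQ, hJQ⟩ := Ideal.exists_le_maximal J h
    obtain ⟨x, hx0, hx⟩ := exists_val_eq_one (und K P)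
    have hx0' : algebraMap (𝓞 K) (𝓞 L) x ≠ 0 := by simpa using hx0
    have hle : (und K P).asIdeal ≤ Q.comap (algebraMap (𝓞 K) (𝓞 L)) :=
      Ideal.map_le_iff_le_comap.1 (hJ.le.trans (Ideal.mul_le_right.trans hJQ))
    have hxp : x ∈ (und K P).asIdeal := by
      have := (le_val_iff (und K P) hx0 1).1 (by simpa using hx.ge)
      rwa [pow_one] at this
    let Q' : Pr L := ⟨Q, hQ.isPrime, fun e => hx0' (by
      have : algebraMap (𝓞 K) (𝓞 L) x ∈ Q := hle hxp
      rwa [e, Ideal.mem_bot] at this)⟩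
    have e1 : und K P = und K Q' := HeightOneSpectrum.ext
      ((und K P).isMaximal.eq_of_le (und K Q').isPrime.ne_top hle)
    obtain ⟨g, hg⟩ := (und_trans (G := G)).1 e1
    have e2 : Q' = P := by
      rcases hG g with rfl | rfl
      · rw [← hg, one_smul]
      · rw [← hg, hP]
    have e3 : Q = P.asIdeal := congrArg HeightOneSpectrum.asIdeal e2
    have h2 : algebraMap (𝓞 K) (𝓞 L) x ∈ P.asIdeal ^ 2 := by
      have := Ideal.mem_map_of_mem (algebraMap (𝓞 K) (𝓞 L)) hxp
      rw [hJ] at this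
      rw [pow_two]
      exact Ideal.mul_mono_right (e3 ▸ hJQ) this
    have h3 := (le_val_iff P hx0' 2).2 h2
    have h4 := hE P x
    rw [hx] at h4
    have h5 : ((algebraMap (𝓞 K) (𝓞 L) x : 𝓞 L) : L) = algebraMap K L x := rfl
    rw [h5, h4] at h3
    norm_num at h3
  have hc : 2 ≤ Nat.card G := by
    have : Nontrivial G := ⟨τ, 1, hτ⟩
    exact Finite.one_lt_card
  rw [np, np, ← hI, Ideal.absNorm_algebraMap, ← IsFractionRing.finrank_eq (𝓞 K) K (𝓞 L) L,
    ← IsGaloisGroup.card_eq_finrank G K L]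
  exact Nat.pow_le_pow_right (Nat.pos_of_ne_zero fun e =>
    (und K P).ne_bot (Ideal.absNorm_eq_zero_iff.1 e)) hc

theorem p_H90 : S_H90 := by
  intro G L _ _ _ _ _ z h0 hz
  have := Fintype.ofFinite G
  have hi : Function.Injective fun g : G => (MulSemiringAction.toRingHom G L g : L →* L) :=
    fun g h e => eq_of_smul_eq_smul (α := L) fun x => DFunLike.congr_fun e x
  have hli := (linearIndependent_monoidHom L L).comp _ hi
  obtain ⟨x, hx⟩ : ∃ x : L, ∑ h : G, z h * h • x ≠ 0 := by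
    by_contra hn
    push Not at hn
    refine h0 1 (Fintype.linearIndependent_iff.1 hli z (funext fun x => ?_) 1)
    rw [Finset.sum_apply]
    exact hn x
  refine ⟨(∑ h : G, z h * h • x)⁻¹, inv_ne_zero hx, fun g => ?_⟩
  have e : z g * g • ∑ h : G, z h * h • x = ∑ h : G, z h * h • x := by
    rw [Finset.smul_sum, Finset.mul_sum, ← Equiv.sum_comp (Equiv.mulLeft g) fun h => z h * h • x]
    refine Finset.sum_congr rfl fun h _ => ?_
    rw [Equiv.coe_mulLeft, hz, smul_mul', mul_smul, mul_assoc]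
  rw [smul_inv'', ← e, mul_inv, ← mul_assoc, mul_inv_cancel₀ (h0 g), one_mul, e]

theorem p_Perm : S_Perm := by
  intro G X _ _ _ z hz
  have := Fintype.ofFinite G
  have hn : (Fintype.card G : ℤ) ≠ 0 := Nat.cast_ne_zero.2 Fintype.card_ne_zero
  have key : ∀ g p, (∑ h, z h) p = Fintype.card G * z g p + (∑ h, z h) (g⁻¹ • p) := by
    intro g p
    rw [Finsupp.finsetSum_apply, Finsupp.finsetSum_apply,
      ← Equiv.sum_comp (Equiv.mulLeft g) fun h => z h p]
    simp only [Equiv.coe_mulLeft, hz, Finset.sum_add_distrib, Finset.sum_const, Finset.card_univ,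
      nsmul_eq_mul]
  refine ⟨(∑ h, z h).mapRange (fun y => -(y / Fintype.card G)) (by simp), fun g p => ?_⟩
  rw [Finsupp.mapRange_apply, Finsupp.mapRange_apply, key g p, add_comm,
    Int.add_mul_ediv_left _ _ hn]
  ring

end Pool.Agent.P.MP_44bffd_co.PB
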