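import Pool.Agent.P.MP_44bffd_co.PB.DB

/-! Counting invariant square classes. -/

namespace Pool.Agent.P.MP_44bffd_co.PB

open Finset NumberField
open scoped Classical nonZeroDivisors

namespace KCP

variable {G K L : Type} [Group G] [Finite G] [Field K] [NumberField K] [Field L] [NumberField L]
  [Algebra K L] [MulSemiringAction G L] [IsGaloisGroup G K L]

omit [Finite G] [NumberField L] in
theorem mu_mul {a b : L} (ha : Mu G a) (hb : Mu G b) : Mu G (a * b) :=
  ⟨mul_ne_zero ha.1 hb.1, fun g => by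
    obtain ⟨c, hc⟩ := ha.2 g
    obtain ⟨d, hd⟩ := hb.2 g
    exact ⟨c * d, by rw [smul_mul', hc, hd]; ring⟩⟩

omit [Finite G] [NumberField K] [NumberField L] in
theorem mu_alg {a : K} (ha : a ≠ 0) : Mu G (algebraMap K L a) :=
  ⟨(map_ne_zero _).2 ha, fun g => ⟨1, by rw [smul_algebraMap, one_pow, one_mul]⟩⟩

variable (K) in
/-- the parity of the divisor comes from the base field -/
theorem exists_par {μ : L} (h : Mu G μ) :
    ∃ d : Pr K →₀ ℤ, ∀ P : Pr L, d (und K P) = val P μ % 2 := by
  obtain ⟨d, hd⟩ := exists_ext (G := G) K (D := (dv μ).mapRange (· % 2) (by simp)) fun g P => by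
    obtain ⟨b, hb⟩ := h.2 g
    have hb0 : b ≠ 0 := by
      rintro rfl
      exact smul_ne g h.1 (by rw [hb]; simp)
    have h1 := val_smul g P μ
    rw [hb, val_mul _ (pow_ne_zero _ hb0) h.1, val_pow] at h1
    simp only [Finsupp.mapRange_apply, dv_apply]
    push_cast at h1
    omega
  exact ⟨d, fun P => by rw [← ext_apply, hd, Finsupp.mapRange_apply, dv_apply]⟩

/-- representatives of the fibres of a map -/
theorem exists_rep {X Y : Type} (q : X → Y) :
    ∃ r : X → X, (∀ x, q (r x) = q x) ∧ ∀ x y, q x = q y → r x = r y := by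
  rcases isEmpty_or_nonempty X with h | h
  · exact ⟨id, fun _ => rfl, fun x => h.elim x⟩
  · exact ⟨fun x => Function.invFun q (q x), fun x => Function.invFun_eq ⟨x, rfl⟩,
      fun x y e => by simp only [e]⟩

variable {O X : Type} [Fintype O] [Fintype X] {o : L → O}
  {cl : Multiplicative (Pr K →₀ ℤ) →* ClassGroup (𝓞 K)}

theorem card_X {μ : X → L} (hs : Function.Surjective cl)
    (hk : ∀ d, cl (Multiplicative.ofAdd d) = 1 ↔ ∃ a : K, a ≠ 0 ∧ dv a = d) (hE : E1 K L)
    (ho : ∀ a b : L, Mu G a → Mu G b → Ev a → Ev b → o a = o b → IsSquare (a * b))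
    (hμ : ∀ x, Mu G (μ x))
    (hi : ∀ x y (a : K), a ≠ 0 → IsSquare (μ x * μ y * algebraMap K L a) → x = y) :
    Fintype.card X ≤
      (powMonoidHom 2 : ClassGroup (𝓞 K) →* ClassGroup (𝓞 K)).range.index * Fintype.card O := by
  set H := (powMonoidHom 2 : ClassGroup (𝓞 K) →* ClassGroup (𝓞 K)).range
  choose d hd using fun x => exists_par K (hμ x)
  let q : X → ClassGroup (𝓞 K) ⧸ H := fun x => QuotientGroup.mk (cl (Multiplicative.ofAdd (d x)))
  obtain ⟨r, hr, hr'⟩ := exists_rep q
  have key : ∀ x, ∃ a : K, a ≠ 0 ∧ Ev (μ x * μ (r x) * algebraMap K L a) := fun x => by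
    obtain ⟨c, hc⟩ := QuotientGroup.eq.1 (hr x)
    obtain ⟨e, rfl⟩ := hs c
    obtain ⟨a, ha, hda⟩ := (hk (d x - d (r x) - 2 • e.toAdd)).1 (by
      rw [ofAdd_sub, ofAdd_sub, ofAdd_nsmul, ofAdd_toAdd, map_div, map_div, map_pow, div_eq_one,
        div_eq_mul_inv, mul_comm]
      exact hc.symm)
    refine ⟨a, ha, fun P => ?_⟩
    have h1 := DFunLike.congr_fun hda (und K P)
    simp only [dv_apply, Finsupp.sub_apply, Finsupp.smul_apply, hd, nsmul_eq_mul] at h1
    rw [val_mul _ (mul_ne_zero (hμ _).1 (hμ _).1) ((map_ne_zero _).2 ha),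
      val_mul _ (hμ _).1 (hμ _).1, hE, h1, Int.even_iff]
    push_cast
    omega
  choose a ha hev using key
  have hinj : Function.Injective fun x => (q x, o (μ x * μ (r x) * algebraMap K L (a x))) := by
    intro x y hxy
    obtain ⟨h1, h2⟩ := Prod.ext_iff.1 hxy
    obtain ⟨z, hz⟩ := ho _ _ (mu_mul (mu_mul (hμ _) (hμ _)) (mu_alg (ha x)))
      (mu_mul (mu_mul (hμ _) (hμ _)) (mu_alg (ha y))) (hev x) (hev y) h2
    rw [← hr' x y h1] at hz
    refine hi x y (a x * a y) (mul_ne_zero (ha x) (ha y)) ⟨z / μ (r x), ?_⟩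
    have := (hμ (r x)).1
    rw [map_mul]
    field_simp
    linear_combination hz
  have := Nat.card_le_card_of_injective _ hinj
  rwa [Nat.card_prod, Nat.card_eq_fintype_card, Nat.card_eq_fintype_card (α := O)] at this

omit [Finite G] [NumberField L] in
theorem sign_hom {z : L} (hz : z ≠ 0) (h : ∀ g : G, g • z = z ∨ g • z = -z) [CharZero L] :
    (fun g : G => if g • z = z then (0 : ZMod 2) else 1) ∈ Homs G := by
  have hn : -z ≠ z := fun e => hz (by linear_combination (-1 / 2 : L) * e)
  intro g k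
  simp only [mul_smul]
  rcases h g with h1 | h1 <;> rcases h k with h2 | h2 <;>
    simp only [h1, h2, smul_neg, neg_neg, hn, if_true, if_false] <;> decide

theorem card_ker (hs : Function.Surjective cl)
    (hk : ∀ d, cl (Multiplicative.ofAdd d) = 1 ↔ ∃ a : K, a ≠ 0 ∧ dv a = d) (hE : E1 K L)
    (ho : ∀ a b : L, Mu G a → Mu G b → Ev a → Ev b → o a = o b → IsSquare (a * b)) :
    Nat.card (powMonoidHom 2 : ClassGroup (𝓞 K) →* ClassGroup (𝓞 K)).ker ≤
      Fintype.card O * (Homs G).ncard := by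
  set H := (powMonoidHom 2 : ClassGroup (𝓞 K) →* ClassGroup (𝓞 K)).ker
  have hH : ∀ c : H, (c : ClassGroup (𝓞 K)) ^ 2 = 1 := fun c => c.2
  choose e he using fun c : H => hs c
  have key : ∀ c : H, ∃ a : K, a ≠ 0 ∧ dv a = 2 • (e c).toAdd := fun c =>
    (hk _).1 (by rw [ofAdd_nsmul, ofAdd_toAdd, map_pow, he, hH])
  choose a ha hda using key
  have hv : ∀ c p, val p (a c) = 2 * (e c).toAdd p := fun c p => by
    simpa using DFunLike.congr_fun (hda c) p
  have hev : ∀ c, Ev (algebraMap K L (a c)) := fun c P => by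
    rw [hE, hv]
    exact even_two_mul _
  obtain ⟨r, hr, hr'⟩ := exists_rep fun c => o (algebraMap K L (a c))
  choose z hz using fun c => ho _ _ (mu_alg (ha c)) (mu_alg (ha (r c))) (hev c) (hev _) (hr c).symm
  have hz0 : ∀ c, z c ≠ 0 := fun c h => mul_ne_zero ((map_ne_zero (algebraMap K L)).2 (ha c))
    ((map_ne_zero _).2 (ha (r c))) (by rw [hz, h, mul_zero])
  have hpm : ∀ c (g : G), g • z c = z c ∨ g • z c = -z c := fun c g =>
    mul_self_eq_mul_self_iff.1 (by
      rw [← smul_mul', ← hz, smul_mul', smul_algebraMap, smul_algebraMap])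
  have hinj : Function.Injective fun c : H =>
      (o (algebraMap K L (a c)), (⟨_, sign_hom (hz0 c) (hpm c)⟩ : Homs G)) := by
    intro c c' hcc
    obtain ⟨h1, h2⟩ := Prod.ext_iff.1 hcc
    have h3 : ∀ g : G, g • (z c * z c') = z c * z c' := fun g => by
      have h4 : (if g • z c = z c then (0 : ZMod 2) else 1) = if g • z c' = z c' then 0 else 1 :=
        congrFun (congrArg Subtype.val h2) g
      rw [smul_mul']
      by_cases h5 : g • z c = z c <;> by_cases h6 : g • z c' = z c'
      · rw [h5, h6]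
      · rw [if_pos h5, if_neg h6] at h4
        exact absurd h4 (by decide)
      · rw [if_neg h5, if_pos h6] at h4
        exact absurd h4 (by decide)
      · rw [(hpm c g).resolve_left h5, (hpm c' g).resolve_left h6, neg_mul_neg]
    obtain ⟨t, ht⟩ := Algebra.IsInvariant.isInvariant (A := K) _ h3
    have ht0 : t ≠ 0 := by
      rintro rfl
      exact mul_ne_zero (hz0 c) (hz0 c') (by rw [← ht, map_zero])
    have h7 : t ^ 2 = a c * a c' * a (r c) ^ 2 := by
      apply (algebraMap K L).injective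
      have h8 := hz c'
      rw [← hr' c c' h1] at h8
      rw [map_pow, ht, map_mul, map_mul, map_pow]
      linear_combination -(z c' * z c') * hz c -
        algebraMap K L (a c) * algebraMap K L (a (r c)) * h8
    have h9 := (hk ((e c).toAdd + (e c').toAdd + 2 • (e (r c)).toAdd)).2 ⟨t, ht0, by
      ext p
      have h10 := congrArg (val p) h7
      rw [val_mul _ (mul_ne_zero (ha _) (ha _)) (pow_ne_zero _ (ha _)), val_mul _ (ha _) (ha _),
        val_pow, val_pow, hv, hv, hv] at h10
      simp only [dv_apply, Finsupp.add_apply, Finsupp.smul_apply, nsmul_eq_mul]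
      push_cast at h10 ⊢
      omega⟩
    rw [ofAdd_add, ofAdd_add, ofAdd_nsmul, ofAdd_toAdd, ofAdd_toAdd, ofAdd_toAdd, map_mul, map_mul,
      map_pow, he, he, he, hH, mul_one] at h9
    apply Subtype.ext
    have h11 := hH c'
    rw [sq] at h11
    exact mul_right_cancel (h9.trans h11.symm)
  have := Nat.card_le_card_of_injective _ hinj
  rwa [Nat.card_prod, Nat.card_eq_fintype_card (α := O), Nat.card_coe_set_eq] at this

end KCP

open KCP in
theorem p_KC (h : S_Div) : S_KC := by
  intro G K L O X _ _ _ _ _ _ _ _ _ _ _ o μ hE ho hμ hi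
  obtain ⟨cl, hs, -, hk⟩ := h K
  have h1 := card_X hs hk hE ho hμ hi
  have h2 := card_ker hs hk hE ho
  rw [Subgroup.index_range] at h1
  calc _ ≤ _ := h1
    _ ≤ Fintype.card O * (Homs G).ncard * Fintype.card O := Nat.mul_le_mul_right _ h2
    _ = _ := by ring

end Pool.Agent.P.MP_44bffd_co.PB
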