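import Pool.Agent.P.MP_44bffd_co.PB.DB

/-! The `L`-series of a nontrivial class character stays bounded near `s = 1`. -/

namespace Pool.Agent.P.MP_44bffd_co.PB

open Finset NumberField Filter Topology
open scoped Classical nonZeroDivisors

namespace LBP

variable {K : Type} [Field K] [NumberField K]

/-- The sum of `N(I) ^ (-s)` over one class. -/
noncomputable def Zc (c : ClassGroup (𝓞 K)) (s : ℝ) : ℝ :=
  ∑' I : (Ideal (𝓞 K))⁰, if ClassGroup.mk0 I = c then nm s I else 0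

theorem nm_nonneg (s : ℝ) (I : (Ideal (𝓞 K))⁰) : 0 ≤ nm s I :=
  Real.rpow_nonneg (Nat.cast_nonneg _) _

theorem nm_mul (s : ℝ) (I J : (Ideal (𝓞 K))⁰) : nm s (I * J) = nm s I * nm s J := by
  simp only [nm, Submonoid.coe_mul, map_mul, Nat.cast_mul]
  exact Real.mul_rpow (Nat.cast_nonneg _) (Nat.cast_nonneg _)

theorem one_le_norm (J : (Ideal (𝓞 K))⁰) : (1 : ℝ) ≤ Ideal.absNorm (J : Ideal (𝓞 K)) := by
  exact_mod_cast Nat.one_le_iff_ne_zero.2 (Ideal.absNorm_ne_zero_of_nonZeroDivisors J)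

theorem summable_ite {s : ℝ} (h : Summable (nm (K := K) s)) (p : (Ideal (𝓞 K))⁰ → Prop)
    [DecidablePred p] : Summable fun I => if p I then nm s I else 0 :=
  Summable.of_nonneg_of_le (fun I => by split_ifs; exacts [nm_nonneg s I, le_rfl])
    (fun I => by split_ifs; exacts [le_rfl, nm_nonneg s I]) h

theorem split {s : ℝ} (h : Summable (nm (K := K) s)) (a : ClassGroup (𝓞 K) → ℝ) :
    ∑' I : (Ideal (𝓞 K))⁰, a (ClassGroup.mk0 I) * nm s I = ∑ c, a c * Zc c s := by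
  have h1 : ∀ I : (Ideal (𝓞 K))⁰, a (ClassGroup.mk0 I) * nm s I =
      ∑ c, a c * if ClassGroup.mk0 I = c then nm s I else 0 := fun I => by
    simp only [mul_ite, mul_zero, Finset.sum_ite_eq, Finset.mem_univ, if_true]
  simp only [h1, Zc]
  rw [Summable.tsum_finsetSum fun c _ => (summable_ite h _).mul_left (a c)]
  exact Finset.sum_congr rfl fun c _ => tsum_mul_left

theorem zp_eq {c : ClassGroup (𝓞 K)} {J : (Ideal (𝓞 K))⁰} (hJ : ClassGroup.mk0 J = c⁻¹) (s : ℝ) :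
    Zp (J : Ideal (𝓞 K)) s = nm s J * Zc c s := by
  have hi : Function.Injective fun I : (Ideal (𝓞 K))⁰ => J * I := fun I I' h =>
    Subtype.ext (mul_left_cancel₀ (nonZeroDivisors.coe_ne_zero J) (congrArg Subtype.val h))
  rw [Zp, ← hi.tsum_eq, Zc, ← tsum_mul_left]
  · refine tsum_congr fun I => ?_
    have h1 : ((J * I : (Ideal (𝓞 K))⁰) : Ideal (𝓞 K)).IsPrincipal ↔ ClassGroup.mk0 I = c := by
      rw [← ClassGroup.mk0_eq_one_iff (J * I).2, Subtype.coe_eta, map_mul, hJ, inv_mul_eq_one,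
        eq_comm]
    have h2 : ((J * I : (Ideal (𝓞 K))⁰) : Ideal (𝓞 K)) ≤ J := Ideal.mul_le_left
    simp only [h1, h2, and_true, nm_mul, mul_ite, mul_zero]
  · intro I hI
    have h1 : (I : Ideal (𝓞 K)) ≤ J := by
      by_contra h
      exact hI (if_neg fun h' => h h'.2)
    obtain ⟨I', e⟩ := Ideal.dvd_iff_le.2 h1
    refine ⟨⟨I', mem_nonZeroDivisors_of_ne_zero fun h => ?_⟩, Subtype.ext e.symm⟩
    exact nonZeroDivisors.coe_ne_zero I (by rw [e, h, mul_zero])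

theorem zp_bd {s : ℝ} (h : Summable (nm (K := K) s)) :
    0 ≤ Zp (K := K) ⊤ s ∧ Zp (K := K) ⊤ s ≤ ∑' I, nm (K := K) s I := by
  unfold Zp
  refine ⟨tsum_nonneg fun I => ?_, Summable.tsum_le_tsum (fun I => ?_) (summable_ite h _) h⟩
  · split_ifs
    exacts [nm_nonneg s I, le_rfl]
  · split_ifs
    exacts [le_rfl, nm_nonneg s I]

theorem arith {N s C B z y : ℝ} (hN : 1 ≤ N) (h1 : 1 < s) (h2 : s ≤ 2) (hy : 0 ≤ y)
    (hB : (s - 1) * y ≤ B) (h : |N * (N ^ (-s) * z) - y| ≤ C) : |z - y| ≤ N * C + N * B := by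
  have hN0 : 0 < N := by linarith
  have e1 : N ^ (s - 1) * (N * (N ^ (-s) * z)) = z := by
    rw [Real.rpow_sub_one hN0.ne', Real.rpow_neg hN0.le]
    have := (Real.rpow_pos_of_pos hN0 s).ne'
    field_simp
  have e2 : 1 ≤ N ^ (s - 1) := Real.one_le_rpow hN (by linarith)
  have e3 : N ^ (s - 1) ≤ 1 + (s - 1) * (N - 1) := by
    have := rpow_one_add_le_one_add_mul_self (s := N - 1) (p := s - 1) (by linarith) (by linarith)
      (by linarith)
    rwa [add_sub_cancel] at this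
  have e4 : N ^ (s - 1) ≤ N := by nlinarith
  have hC : 0 ≤ C := (abs_nonneg _).trans h
  obtain ⟨w, hw⟩ : ∃ w, w = N * (N ^ (-s) * z) := ⟨_, rfl⟩
  obtain ⟨q, hq⟩ : ∃ q, q = N ^ (s - 1) := ⟨_, rfl⟩
  rw [← hw] at h e1
  rw [← hq] at e1 e2 e3 e4
  have e5 : z - y = q * (w - y) + (q - 1) * y := by rw [← e1]; ring
  have e6 : |q * (w - y)| ≤ N * C := by
    rw [abs_mul, abs_of_nonneg (by linarith : 0 ≤ q)]
    exact mul_le_mul e4 h (abs_nonneg _) hN0.le
  have e7 : |(q - 1) * y| ≤ N * B := by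
    rw [abs_of_nonneg (mul_nonneg (by linarith) hy)]
    have a1 : (q - 1) * y ≤ (s - 1) * N * y :=
      mul_le_mul_of_nonneg_right (by nlinarith) hy
    have a2 : N * ((s - 1) * y) ≤ N * B := mul_le_mul_of_nonneg_left hB hN0.le
    nlinarith
  rw [e5]
  exact (abs_add_le _ _).trans (add_le_add e6 e7)

theorem cls_bd [IsTotallyReal K] (h1 : S_Cmp) (h2 : S_Zeta) (c : ClassGroup (𝓞 K)) :
    ∃ C : ℝ, ∀ᶠ s : ℝ in 𝓝[>] 1, |Zc c s - Zp (K := K) ⊤ s| ≤ C := by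
  obtain ⟨J, hJ⟩ := ClassGroup.mk0_surjective c⁻¹
  obtain ⟨C, hC⟩ := h1 K J (nonZeroDivisors.coe_ne_zero J)
  obtain ⟨hs, ρ, -, hρ⟩ := h2 K
  refine ⟨Ideal.absNorm (J : Ideal (𝓞 K)) * C + Ideal.absNorm (J : Ideal (𝓞 K)) * (ρ + 1), ?_⟩
  filter_upwards [hρ.eventually (Iic_mem_nhds (lt_add_one ρ)),
    Ioc_mem_nhdsGT (one_lt_two (α := ℝ))] with s a b
  have e := hC s b.1 b.2
  rw [zp_eq hJ] at e
  exact arith (one_le_norm J) b.1 b.2 (zp_bd (hs s b.1)).1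
    ((mul_le_mul_of_nonneg_left (zp_bd (hs s b.1)).2 (by linarith [b.1])).trans a) e

end LBP

open LBP in
theorem p_LB (h1 : S_Cmp) (h2 : S_Zeta) : S_LB := by
  intro K _ _ _ χ hχ
  choose C hC using cls_bd (K := K) h1 h2
  have h0 : ∑ c, ((χ c : ℤ) : ℝ) = 0 := by
    have := sum_hom_units_eq_zero ((Units.coeHom ℤ).comp χ) fun h => hχ (by
      ext c
      simpa using DFunLike.congr_fun h c)
    exact_mod_cast this
  refine ⟨∑ c, C c, ?_⟩
  filter_upwards [eventually_all.2 hC, self_mem_nhdsWithin] with s a b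
  rw [split ((h2 K).1 s b) fun c => ((χ c : ℤ) : ℝ)]
  have e : ∑ c, ((χ c : ℤ) : ℝ) * Zc c s =
      ∑ c, ((χ c : ℤ) : ℝ) * (Zc c s - Zp (K := K) ⊤ s) := by
    simp only [mul_sub, Finset.sum_sub_distrib, ← Finset.sum_mul, h0, zero_mul, sub_zero]
  rw [e]
  refine (Finset.abs_sum_le_sum_abs _ _).trans (Finset.sum_le_sum fun c _ => ?_)
  have : |((χ c : ℤ) : ℝ)| = 1 := by
    rcases Int.units_eq_one_or (χ c) with h | h <;> simp [h]
  rw [abs_mul, this, one_mul]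
  exact a c

end Pool.Agent.P.MP_44bffd_co.PB
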