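import Pool.Agent.P.MP_44bffd_co.PB.DB

/-! The obstruction to being congruent to one modulo four takes at most four values. -/

namespace Pool.Agent.P.MP_44bffd_co.PB

open Finset NumberField
open scoped Classical

namespace LamP

variable {L : Type} [Field L] [NumberField L]

/-- Prime to two. -/
def Od (x : 𝓞 L) : Prop := ∀ P : Pr L, (2 : 𝓞 L) ∈ P.asIdeal → x ∉ P.asIdeal

theorem app (h1 : S_App) (D : Pr L →₀ ℤ) :
    ∃ z : L, z ≠ 0 ∧ (∀ P, D P ≤ val P z) ∧ ∀ P : Pr L, (2 : 𝓞 L) ∈ P.asIdeal → val P z = D P := by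
  obtain ⟨z, h0, h2, h3⟩ := h1 L (val_fin (2 : L)).toFinset D
  refine ⟨z, h0, h2, fun P hP => h3 P ((Set.Finite.mem_toFinset _).2 fun e => ?_)⟩
  exact (val_eq_zero_iff P (x := 2) two_ne_zero).1 e hP

theorem od_of_val {x : 𝓞 L} (hx : (x : L) ≠ 0)
    (h : ∀ P : Pr L, (2 : 𝓞 L) ∈ P.asIdeal → val P (x : L) = 0) : Od x := fun P hP =>
  (val_eq_zero_iff P fun e => hx (by rw [e]; rfl)).1 (h P hP)

omit [NumberField L] in
theorem od_one (y : 𝓞 L) : Od (1 + 2 * y) := fun P hP h =>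
  P.isPrime.ne_top ((Ideal.eq_top_iff_one _).2
    ((Ideal.add_mem_iff_left _ (Ideal.mul_mem_right y _ hP)).1 h))

theorem one_ne (y : 𝓞 L) : (1 + 2 * y : 𝓞 L) ≠ 0 := by
  rintro e
  have h4 : (2 : 𝓞 L) * -y = 1 := by linear_combination -e
  have h5 : IsUnit ((2 : ℕ) : 𝓞 L) := by
    rw [Nat.cast_ofNat]
    exact IsUnit.of_mul_eq_one _ h4
  have h6 := Ideal.absNorm_span_natCast (S := 𝓞 L) 2
  rw [Ideal.span_singleton_eq_top.2 h5, Ideal.absNorm_top, RingOfIntegers.rank] at h6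
  exact absurd h6.symm (Nat.one_lt_two_pow (Module.finrank_pos (R := ℚ) (M := L)).ne').ne'

/-- normal form -/
theorem norm (h1 : S_App) {N : ℕ} (hN : Odd N) (h2 : ∀ x : 𝓞 L, Od x → ∃ y, x ^ N = 1 + 2 * y)
    {μ : L} (h0 : μ ≠ 0) (he : Ev μ) : ∃ (z : L) (y : 𝓞 L), z ≠ 0 ∧ μ * z ^ 2 = 1 + 2 * (y : L) := by
  obtain ⟨z, hz, h3, h4⟩ := app h1 (-(dv μ).mapRange (· / 2) (by simp))
  have hv : ∀ P, val P (μ * z ^ 2) = val P μ + 2 * val P z := fun P => by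
    rw [val_mul P h0 (pow_ne_zero 2 hz), val_pow]
    rfl
  simp only [Finsupp.neg_apply, Finsupp.mapRange_apply, dv_apply] at h3 h4
  obtain ⟨u, hu⟩ := exists_int (a := μ * z ^ 2) fun P => by
    obtain ⟨k, hk⟩ := he P
    have := h3 P
    rw [hv]
    omega
  have hu0 : (u : L) ≠ 0 := hu ▸ mul_ne_zero h0 (pow_ne_zero 2 hz)
  obtain ⟨y, hy⟩ := h2 u (od_of_val hu0 fun P hP => by
    obtain ⟨k, hk⟩ := he P
    have := h4 P hP
    rw [hu, hv]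
    omega)
  obtain ⟨k, rfl⟩ := hN
  refine ⟨z * u ^ k, y, mul_ne_zero hz (pow_ne_zero k hu0), ?_⟩
  have e := congrArg (algebraMap (𝓞 L) L) hy
  simp only [map_pow, map_add, map_one, map_mul, map_ofNat] at e
  change (u : L) ^ _ = 1 + 2 * (y : L) at e
  rw [← e, mul_pow, ← mul_assoc, ← hu]
  ring

/-- the normal form is unique modulo four -/
theorem uniq (h1 : S_App) {N : ℕ} (hN : Odd N) (h2 : ∀ x : 𝓞 L, Od x → ∃ y, x ^ N = 1 + 2 * y)
    {y y' : 𝓞 L} {w : L} (e : (1 + 2 * (y : L)) * w ^ 2 = 1 + 2 * (y' : L)) : 2 ∣ y' - y := by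
  have c1 : ∀ y : 𝓞 L, ((1 + 2 * y : 𝓞 L) : L) = 1 + 2 * (y : L) := fun y => by
    simp only [map_add, map_one, map_mul, map_ofNat]
  have c2 : ∀ y : 𝓞 L, ((1 + 2 * y : 𝓞 L) : L) ≠ 0 := fun y =>
    RingOfIntegers.coe_ne_zero_iff.2 (one_ne y)
  rw [← c1, ← c1] at e
  have hw : w ≠ 0 := by
    rintro rfl
    exact c2 y' (by rw [← e]; ring)
  have hv : ∀ P : Pr L, (2 : 𝓞 L) ∈ P.asIdeal → val P w = 0 := fun P hP => by
    have := congrArg (val P) e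
    rw [val_mul P (c2 y) (pow_ne_zero 2 hw), val_pow,
      (val_eq_zero_iff P (one_ne y)).2 (od_one y P hP),
      (val_eq_zero_iff P (one_ne y')).2 (od_one y' P hP)] at this
    push_cast at this
    omega
  obtain ⟨b, hb, h3, h4⟩ := app h1 ((dv w).mapRange (fun n => max (-n) 0) (by simp))
  simp only [Finsupp.mapRange_apply, dv_apply] at h3 h4
  obtain ⟨β, rfl⟩ := exists_int (a := b) fun P => (le_max_right _ _).trans (h3 P)
  obtain ⟨α, hα⟩ := exists_int (a := β * w) fun P => by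
    have := (le_max_left _ _).trans (h3 P)
    rw [val_mul P hb hw]
    omega
  have hβv : ∀ P : Pr L, (2 : 𝓞 L) ∈ P.asIdeal → val P (β : L) = 0 := fun P hP => by
    rw [h4 P hP, hv P hP]
    rfl
  obtain ⟨s, hs⟩ := h2 β (od_of_val hb hβv)
  obtain ⟨t, ht⟩ := h2 α (od_of_val (hα ▸ mul_ne_zero hb hw) fun P hP => by
    rw [hα, val_mul P hb hw, hβv P hP, hv P hP, add_zero])
  have e1 : (1 + 2 * y) * α ^ 2 = (1 + 2 * y') * β ^ 2 := RingOfIntegers.coe_injective (by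
    rw [map_mul, map_mul, map_pow, map_pow]
    change ((1 + 2 * y : 𝓞 L) : L) * (α : L) ^ 2 = ((1 + 2 * y' : 𝓞 L) : L) * (β : L) ^ 2
    rw [hα, ← e]
    ring)
  have e2 : (1 + 2 * y) ^ N * (1 + 2 * t) ^ 2 = (1 + 2 * y') ^ N * (1 + 2 * s) ^ 2 := by
    rw [← hs, ← ht, ← pow_mul, ← pow_mul, mul_comm N 2, pow_mul, pow_mul, ← mul_pow, ← mul_pow, e1]
  obtain ⟨k, rfl⟩ := hN
  have e3 : ∀ y : 𝓞 L, ∃ c, (1 + 2 * y) ^ (2 * k + 1) = 1 + 2 * y + 4 * c := fun y => by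
    obtain ⟨c, hc⟩ : (4 : 𝓞 L) ∣ ((1 + 2 * y) ^ 2) ^ k - 1 ^ k :=
      Dvd.dvd.trans ⟨y + y ^ 2, by ring⟩ (sub_dvd_pow_sub_pow _ _ k)
    exact ⟨c * (1 + 2 * y), by rw [pow_succ, pow_mul]; linear_combination (1 + 2 * y) * hc⟩
  obtain ⟨c, hc⟩ := e3 y
  obtain ⟨c', hc'⟩ := e3 y'
  rw [hc, hc'] at e2
  refine ⟨c - c' + (1 + 2 * y + 4 * c) * (t + t ^ 2) - (1 + 2 * y' + 4 * c') * (s + s ^ 2),
    mul_left_cancel₀ (two_ne_zero (α := 𝓞 L)) ?_⟩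
  linear_combination -e2

end LamP

theorem p_Lam (h1 : S_App) (h2 : S_Odd) : S_Lam := by
  intro G K L _ _ _ _ _ _ _ _ _ θ hK hv hθ
  obtain ⟨N, hN, h3⟩ := h2 L hv
  have key : ∀ μ : L, Mu G μ → Ev μ → ∃ a : 𝓞 K, ∃ (z : L) (c : 𝓞 L), z ≠ 0 ∧
      μ * z ^ 2 = 1 + 2 * ((algebraMap (𝓞 K) (𝓞 L) a + 2 * c : 𝓞 L) : L) := fun μ hm he => by
    obtain ⟨z, y, hz, e⟩ := LamP.norm h1 hN h3 hm.1 he
    have h4 : ∀ g : G, 2 ∣ g • y - y := fun g => by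
      obtain ⟨b, hb⟩ := hm.2 g
      refine LamP.uniq h1 hN h3 (w := b * g • z / z) ?_
      have e1 := congrArg (fun x : L => g • x) e
      simp only [smul_mul', smul_pow', smul_add, smul_one, hb] at e1
      rw [show g • (2 : L) = 2 from map_ofNat (MulSemiringAction.toRingHom G L g) 2] at e1
      rw [coe_smul, ← e1, ← e]
      field_simp
    obtain ⟨a, ha⟩ := Algebra.IsInvariant.isInvariant (A := 𝓞 K) (G := G) (∑ g : G, g • (θ * y))
      fun h => by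
        rw [smul_sum]
        exact Fintype.sum_equiv (Equiv.mulLeft h) _ _ fun g => (mul_smul h g _).symm
    obtain ⟨c, hc⟩ : 2 ∣ ∑ g : G, g • (θ * y) - y := by
      have e1 : ∑ g : G, g • (θ * y) - y = ∑ g : G, g • θ * (g • y - y) := by
        simp only [mul_sub, sum_sub_distrib, smul_mul', ← sum_mul, hθ, one_mul]
      rw [e1]
      exact dvd_sum fun g _ => (h4 g).mul_left _
    refine ⟨a, z, -c, hz, ?_⟩
    rw [e, ha, show ∑ g : G, g • (θ * y) + 2 * -c = y by linear_combination hc]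
  have hc : Nat.card (𝓞 K ⧸ Ideal.span {((2 : ℕ) : 𝓞 K)}) = 4 := by
    rw [← Submodule.cardQuot_apply, ← Ideal.absNorm_apply, Ideal.absNorm_span_natCast,
      RingOfIntegers.rank, hK]
    rfl
  have : Finite (𝓞 K ⧸ Ideal.span {((2 : ℕ) : 𝓞 K)}) := Nat.finite_of_card_ne_zero (by omega)
  choose! a z c hz e using key
  refine ⟨𝓞 K ⧸ Ideal.span {((2 : ℕ) : 𝓞 K)}, Fintype.ofFinite _,
    fun μ => Ideal.Quotient.mk _ (a μ), (Fintype.card_eq_nat_card.trans hc).le,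
    fun μ μ' hm hm' he he' ho => ?_⟩
  obtain ⟨d, hd⟩ := Ideal.mem_span_singleton'.1 (Ideal.Quotient.eq.1 ho)
  have h5 := congrArg (algebraMap (𝓞 K) (𝓞 L)) hd
  simp only [map_mul, map_sub, Nat.cast_ofNat, map_ofNat] at h5
  obtain ⟨A, hA⟩ : ∃ A, A = algebraMap (𝓞 K) (𝓞 L) (a μ) + 2 * c μ := ⟨_, rfl⟩
  obtain ⟨B, hB⟩ : ∃ B, B = c μ' - c μ - algebraMap (𝓞 K) (𝓞 L) d := ⟨_, rfl⟩
  have e1 := e μ hm he
  have e2 := e μ' hm' he'
  rw [← hA] at e1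
  rw [show algebraMap (𝓞 K) (𝓞 L) (a μ') + 2 * c μ' = A + 2 * B by
    rw [hA, hB]; linear_combination h5] at e2
  refine ⟨z μ * z μ', A + A ^ 2 + B + 2 * A * B, mul_ne_zero (hz μ hm he) (hz μ' hm' he'), ?_⟩
  simp only [map_add, map_mul, map_pow, map_ofNat] at e2 ⊢
  linear_combination (μ' * z μ' ^ 2) * e1 + (1 + 2 * (A : L)) * e2

end Pool.Agent.P.MP_44bffd_co.PB
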