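import Pool.Agent.P.MP_44bffd_co.PB.DB

/-! Comparison of lattice sums over an ideal and over the ring of integers. -/

namespace Pool.Agent.P.MP_44bffd_co.PB

open Finset NumberField
open scoped Classical

namespace LatP

variable {K : Type} [Field K]

theorem em_add (x y : 𝓞 K) : em (x + y) = em x + em y := by
  funext w
  simp [em]

variable [NumberField K]

theorem em_sub [IsTotallyReal K] (x y : 𝓞 K) (w : InfinitePlace K) :
    |em x w - em y w| = w ((x - y : 𝓞 K) : K) := by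
  have hw := IsTotallyReal.isReal w
  rw [← InfinitePlace.norm_embedding_of_isReal hw, Real.norm_eq_abs, em, em,
    ← InfinitePlace.embedding_of_isReal_apply hw, ← InfinitePlace.embedding_of_isReal_apply hw,
    Complex.ofReal_re, Complex.ofReal_re, ← map_sub]
  simp

theorem bx [IsTotallyReal K] {T : ℝ} (hT : 0 ≤ T) : ∃ s : Finset (𝓞 K),
    (∀ x, ‖em x‖ ≤ T → x ∈ s) ∧ (s.card : ℝ) ≤ (2 * T + 3) ^ Module.finrank ℚ K := by
  let f : 𝓞 K → InfinitePlace K → ℤ := fun x w => ⌊em x w⌋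
  have hf : Function.Injective f := fun x y h => by
    by_contra h0
    have h1 : ∀ w : InfinitePlace K, w ((x - y : 𝓞 K) : K) < 1 := fun w => by
      rw [← em_sub]
      exact Int.abs_sub_lt_one_of_floor_eq_floor (congrFun h w)
    obtain ⟨w⟩ : Nonempty (InfinitePlace K) := inferInstance
    exact absurd (InfinitePlace.one_le_of_lt_one (sub_ne_zero.2 h0) (w := w) fun z _ => h1 z)
      (not_le.2 (h1 w))
  let B := Fintype.piFinset fun _ : InfinitePlace K => Icc (-(⌈T⌉₊ : ℤ)) ⌈T⌉₊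
  refine ⟨B.preimage f hf.injOn, fun x hx => ?_, ?_⟩
  · refine mem_preimage.2 (Fintype.mem_piFinset.2 fun w => ?_)
    obtain ⟨h1, h2⟩ := abs_le.1 ((norm_le_pi_norm (em x) w).trans (hx.trans (Nat.le_ceil T)))
    refine mem_Icc.2 ⟨Int.le_floor.2 (by push_cast; exact h1), ?_⟩
    exact_mod_cast (Int.floor_le (em x w)).trans h2
  · have h1 : (B.preimage f hf.injOn).card ≤ B.card :=
      card_le_card_of_injOn f (fun x hx => mem_preimage.1 hx) hf.injOn
    have h2 : Fintype.card (InfinitePlace K) = Module.finrank ℚ K := by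
      rw [InfinitePlace.card_eq_nrRealPlaces_add_nrComplexPlaces,
        ← InfinitePlace.card_add_two_mul_card_eq_rank,
        nrComplexPlaces_eq_zero_iff.2 inferInstance]
    have h3 : B.card = (2 * ⌈T⌉₊ + 1) ^ Module.finrank ℚ K := by
      rw [Fintype.card_piFinset, prod_const, card_univ, h2, Int.card_Icc]
      congr 1
      omega
    refine le_trans (Nat.cast_le.2 (h1.trans h3.le)) ?_
    push_cast
    have := (Nat.ceil_lt_add_one hT).le
    exact pow_le_pow_left₀ (by positivity) (by linarith) _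

theorem shift {O : Type} [AddCommGroup O] (P : O → Prop) (G G' : O → ℝ) (s : Finset O) (δ : ℝ)
    (hδ : 0 ≤ δ) (h : ∀ x, x ∉ s → G x = 0) (h' : ∀ x, x ∉ s → G' x = 0)
    (hd : ∀ x, |G x - G' x| ≤ δ) :
    |∑' x : Subtype P, G x - ∑' x : Subtype P, G' x| ≤ s.card * δ := by
  rw [tsum_eq_sum (s := s.subtype P) fun x hx => h _ fun e => hx (mem_subtype.2 e),
    tsum_eq_sum (s := s.subtype P) fun x hx => h' _ fun e => hx (mem_subtype.2 e),
    ← sum_sub_distrib]
  refine (abs_sum_le_sum_abs _ _).trans ((sum_le_card_nsmul _ _ δ fun x _ => hd x.1).trans ?_)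
  rw [nsmul_eq_mul, card_subtype]
  gcongr
  exact filter_subset _ _

theorem split {O : Type} [CommRing O] (J : Ideal O) [Fintype (O ⧸ J)] (G : O → ℝ)
    (hG : Summable G) : ∑' x, G x = ∑ q : O ⧸ J, ∑' x : J, G (q.out + x) := by
  have hb : Function.Bijective fun p : (O ⧸ J) × J => p.1.out + (p.2 : O) := by
    refine ⟨fun p p' h => ?_, fun y => ⟨(Ideal.Quotient.mk J y, ⟨y - (Ideal.Quotient.mk J y).out,
      Ideal.Quotient.eq.1 (Ideal.Quotient.mk_out _).symm⟩), by simp⟩⟩
    have h1 := congrArg (Ideal.Quotient.mk J) h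
    simp only [map_add, Ideal.Quotient.mk_out, Ideal.Quotient.eq_zero_iff_mem.2 p.2.2,
      Ideal.Quotient.eq_zero_iff_mem.2 p'.2.2, add_zero] at h1
    refine Prod.ext h1 (Subtype.ext ?_)
    simpa only [h1, add_right_inj] using h
  let e := Equiv.ofBijective _ hb
  rw [← e.tsum_eq]
  exact (e.summable_iff.2 hG).tsum_prod.trans (tsum_fintype _)

end LatP

open LatP in
theorem p_Lat : S_Lat := by
  intro K _ _ _ J R hJ
  have : Finite (𝓞 K ⧸ J) := Ideal.finiteQuotientOfFreeOfNeBot J hJ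
  let _ := Fintype.ofFinite (𝓞 K ⧸ J)
  set B : ℝ := ∑ q : 𝓞 K ⧸ J, ‖em q.out‖ with hB
  have hB0 : 0 ≤ B := sum_nonneg fun _ _ => norm_nonneg _
  have hBq : ∀ q : 𝓞 K ⧸ J, ‖em q.out‖ ≤ B := fun q =>
    single_le_sum (f := fun q : 𝓞 K ⧸ J => ‖em q.out‖) (fun _ _ => norm_nonneg _) (mem_univ q)
  refine ⟨Ideal.absNorm J * ((2 * (|R| + B) + 3) ^ Module.finrank ℚ K * B), by positivity,
    fun F Λ t hΛ ht hR hL => ?_⟩
  have ht0 : 0 < t := by linarith
  obtain ⟨s, hs, hc⟩ := bx (K := K) (T := (|R| + B) * t) (by positivity)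
  have h0 : ∀ x : 𝓞 K, F (t⁻¹ • em x) ≠ 0 → ‖em x‖ ≤ |R| * t := fun x hx => by
    have h1 := (hR _ hx).trans (le_abs_self R)
    rwa [norm_smul, norm_inv, Real.norm_of_nonneg ht0.le, inv_mul_le_iff₀ ht0, mul_comm] at h1
  have h1 : ∀ x, x ∉ s → F (t⁻¹ • em x) = 0 := fun x hx => by
    by_contra h
    exact hx (hs x ((h0 x h).trans (by nlinarith)))
  have h2 : ∀ (q : 𝓞 K ⧸ J) x, x ∉ s → F (t⁻¹ • em (q.out + x)) = 0 := fun q x hx => by
    by_contra h
    have h3 := h0 _ h
    have h4 := norm_sub_le (em q.out + em x) (em q.out)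
    rw [add_sub_cancel_left, ← em_add] at h4
    exact hx (hs x (by nlinarith [hBq q]))
  have h3 : ∀ (q : 𝓞 K ⧸ J) x, |F (t⁻¹ • em x) - F (t⁻¹ • em (q.out + x))| ≤ Λ * (B / t) := by
    intro q x
    refine (hL _ _).trans (mul_le_mul_of_nonneg_left ?_ hΛ)
    rw [← smul_sub, em_add, sub_add_cancel_right, norm_smul, norm_neg, norm_inv,
      Real.norm_of_nonneg ht0.le, ← div_eq_inv_mul]
    exact div_le_div_of_nonneg_right (hBq q) ht0.le
  have h4 : (Ideal.absNorm J : ℝ) = (univ : Finset (𝓞 K ⧸ J)).card := by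
    rw [Ideal.absNorm_apply, Submodule.cardQuot_apply, Nat.card_eq_fintype_card, card_univ]
  have h5 : (s.card : ℝ) ≤
      (2 * (|R| + B) + 3) ^ Module.finrank ℚ K * t ^ Module.finrank ℚ K := by
    rw [← mul_pow]
    refine hc.trans ?_
    gcongr
    nlinarith
  rw [split J _ (summable_of_ne_finset_zero h1), h4, ← nsmul_eq_mul, ← sum_const,
    ← sum_sub_distrib]
  refine (abs_sum_le_sum_abs _ _).trans ((sum_le_card_nsmul _ _ _ fun q _ =>
    shift (· ∈ J) _ _ s _ (by positivity) h1 (h2 q) (h3 q)).trans ?_)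
  rw [nsmul_eq_mul]
  refine (mul_le_mul_of_nonneg_left (mul_le_mul_of_nonneg_right h5 (by positivity))
    (by positivity)).trans (le_of_eq ?_)
  ring

end Pool.Agent.P.MP_44bffd_co.PB
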