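import Pool.Agent.P.MP_44bffd_co.PB.DA

/-! Multiplicities of the classes in the cells of an array. -/

namespace Pool.Agent.P.MP_44bffd_co.PB

open Finset
open scoped Classical

namespace MultP

theorem Vt_pos (K : ℕ) : 0 < Vt K := by
  have h1 := Vt_add K
  have h2 : 1 ≤ 2 ^ K := Nat.one_le_two_pow
  nlinarith

theorem exists_F (h : S_Uni) (K : ℕ) (hK : 1 ≤ K) (r : ℕ) :
    ∃ F : ℤ → (Fin r → Option (Fin K)) → ℤ,
      (∀ P β, |(Vt K : ℤ) * F P β - P| ≤ (Vt K : ℤ) * (K + 3) ^ r) ∧
      (∀ P β, (Vt K : ℤ) ∣ P → (Vt K : ℤ) * F P β = P) ∧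
      ∀ P β (i : Fin r), ∑ b, (nu K b : ℤ) * F P (Function.update β i b) = P := by
  obtain ⟨u, o, u1, u2, u3⟩ := h K hK
  have hV : (0 : ℤ) < Vt K := by exact_mod_cast Vt_pos K
  have ho : o none = Vt K := by
    calc o none = ∑ j, o j * ∑ b, (nu K b : ℤ) * u j b := by simp [u2]
      _ = ∑ b, (nu K b : ℤ) * ∑ j, o j * u j b := by
        simp only [mul_sum]
        rw [sum_comm]
        exact sum_congr rfl fun b _ => sum_congr rfl fun j _ => by ring
      _ = Vt K := by simp [u1, Vt]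
  have hP : ∀ (P : ℤ) b, ∑ j, u j b * (P * o j) = P := fun P b => by
    calc _ = P * ∑ j, o j * u j b := by
          rw [mul_sum]
          exact sum_congr rfl fun j _ => by ring
      _ = P := by rw [u1, mul_one]
  induction r with
  | zero =>
    refine ⟨fun P _ => P / Vt K, fun P β => ?_, fun P β h => Int.mul_ediv_cancel' h,
      fun P β i => i.elim0⟩
    have h1 := Int.mul_ediv_add_emod P (Vt K)
    have h2 := Int.emod_nonneg P hV.ne'
    have h3 := Int.emod_lt_of_pos P hV
    rw [abs_le]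
    constructor <;> simp only [pow_zero, mul_one] <;> linarith
  | succ r ih =>
    obtain ⟨F, h1, h2, h3⟩ := ih
    refine ⟨fun P β => ∑ j, u j (β 0) * F (P * o j) (Fin.tail β), fun P β => ?_, fun P β hd => ?_,
      fun P β i => ?_⟩
    · have e : (Vt K : ℤ) * ∑ j, u j (β 0) * F (P * o j) (Fin.tail β) - P =
          ∑ j, u j (β 0) * ((Vt K : ℤ) * F (P * o j) (Fin.tail β) - P * o j) := by
        simp only [mul_sub, sum_sub_distrib, hP, mul_sum]
        congr 1
        exact sum_congr rfl fun j _ => by ring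
      rw [e]
      calc _ ≤ ∑ j, |u j (β 0)| * ((Vt K : ℤ) * (K + 3) ^ r) :=
            (abs_sum_le_sum_abs _ _).trans (sum_le_sum fun j _ => by
              rw [abs_mul]
              exact mul_le_mul_of_nonneg_left (h1 _ _) (abs_nonneg _))
        _ ≤ (K + 3) * ((Vt K : ℤ) * (K + 3) ^ r) := by
            rw [← sum_mul]
            exact mul_le_mul_of_nonneg_right (u3 _) (by positivity)
        _ = _ := by ring
    · rw [mul_sum]
      refine Eq.trans (sum_congr rfl fun j _ => ?_) (hP P (β 0))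
      rw [mul_left_comm, h2 _ _ (hd.mul_right _)]
    · refine Fin.cases ?_ (fun l => ?_) i
      · simp only [Function.update_self, Fin.tail_update_zero, mul_sum, ← mul_assoc]
        rw [sum_comm]
        simp only [← sum_mul, u2, ite_mul, one_mul, zero_mul, sum_ite_eq', mem_univ, if_true]
        apply mul_left_cancel₀ hV.ne'
        rw [h2 _ _ (ho ▸ Dvd.intro_left _ rfl), ho, mul_comm]
      · simp only [Function.update_of_ne (Fin.succ_ne_zero l).symm, Fin.tail_update_succ, mul_sum]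
        rw [sum_comm]
        refine Eq.trans (sum_congr rfl fun j _ => ?_) (hP P (β 0))
        rw [← h3 (P * o j) (Fin.tail β) l, mul_sum, h3]
        exact sum_congr rfl fun b _ => by ring

theorem exists_P {C : Type} [Fintype C] (n : C → ℕ) :
    ∃ (e : C → ℕ) (N : ℕ) (P : ℕ → ℤ), P 0 = 0 ∧ P N = ∑ κ, (n κ : ℤ) ∧
      (∀ κ, P (e κ + 1) = P (e κ) + n κ) ∧ ∀ f : ℕ → ℤ, ∑ κ, f (e κ) = ∑ i ∈ range N, f i := by
  let e := Fintype.equivFin C
  have hf : ∀ f : ℕ → ℤ, ∑ κ, f (e κ) = ∑ i ∈ range (Fintype.card C), f i := fun f => by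
    rw [sum_range]
    exact Equiv.sum_comp e fun i => f i
  refine ⟨fun κ => e κ, Fintype.card C,
    fun i => ∑ j ∈ range i, if h : j < Fintype.card C then (n (e.symm ⟨j, h⟩) : ℤ) else 0, rfl, ?_,
    fun κ => ?_, hf⟩
  · beta_reduce
    rw [← hf]
    simp
  · beta_reduce
    rw [sum_range_succ]
    simp

end MultP

open MultP

theorem p_Mult (h : S_Uni) : S_Mult := by
  intro K r s c C _ n hK hs hn
  obtain ⟨F, h1, h2, h3⟩ := exists_F h K hK r
  obtain ⟨e, N, P, p0, pN, pe, hf⟩ := exists_P n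
  have hV : (0 : ℤ) < Vt K := by exact_mod_cast Vt_pos K
  have hge : ∀ β κ, (s : ℤ) ≤ F (P (e κ + 1)) β - F (P (e κ)) β := fun β κ => by
    have a1 := (abs_le.1 (h1 (P (e κ + 1)) β)).1
    have a2 := (abs_le.1 (h1 (P (e κ)) β)).2
    have a3 : (2 * ((K : ℤ) + 3) ^ r + s) * Vt K ≤ n κ := by exact_mod_cast hn κ
    have a4 := pe κ
    apply le_of_mul_le_mul_left _ hV
    linarith
  have hm : ∀ β κ, ((F (P (e κ + 1)) β - F (P (e κ)) β).toNat : ℤ) =
      F (P (e κ + 1)) β - F (P (e κ)) β := fun β κ =>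
    Int.toNat_of_nonneg ((Nat.cast_nonneg s).trans (hge β κ))
  refine ⟨fun β κ => (F (P (e κ + 1)) β - F (P (e κ)) β).toNat, fun β => ?_, fun β κ => ?_,
    fun β i κ => ?_⟩
  · have c1 : F (P N) β = c := by
      have : P N = Vt K * c := by
        rw [pN, mul_comm]
        exact_mod_cast hs
      apply mul_left_cancel₀ hV.ne'
      rw [h2 _ _ ⟨_, this⟩, this]
    have c2 : F (P 0) β = 0 := by
      apply mul_left_cancel₀ hV.ne'
      rw [h2 _ _ (p0 ▸ dvd_zero _), p0, mul_zero]
    zify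
    simp only [hm]
    rw [hf fun i => F (P (i + 1)) β - F (P i) β, sum_range_sub fun i => F (P i) β, c1, c2, sub_zero]
  · zify
    rw [hm]
    exact hge β κ
  · zify
    simp only [hm, mul_sub, sum_sub_distrib, h3]
    rw [pe, add_sub_cancel_left]

end Pool.Agent.P.MP_44bffd_co.PB
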