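import Pool.Agent.P.MP_44bffd_co.PB.Coc

/-! The lemma of Nakayama for the group algebra of a two-group, and minimal free covers. -/

namespace Pool.Agent.P.MP_44bffd_co.PB

open Finset CocP
open scoped Classical

namespace NakP

variable {ι G : Type} [Group G]

/-- the translation restricted to a stable submodule -/
def rs {M : Submodule (ZMod 2) (Fr ι G)} (hM : ∀ (g : G), ∀ v ∈ M, sh g v ∈ M) (g : G) :
    M →ₗ[ZMod 2] M := (sh g).restrict (hM g)

/-- the functionals on `M` that vanish on `N` -/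
def X (N M : Submodule (ZMod 2) (Fr ι G)) : Type :=
  {φ : M →ₗ[ZMod 2] ZMod 2 // ∀ v : M, v.1 ∈ N → φ v = 0}

/-- the action on these functionals -/
@[reducible] def act {N M : Submodule (ZMod 2) (Fr ι G)} (hN : ∀ (g : G), ∀ v ∈ N, sh g v ∈ N)
    (hM : ∀ (g : G), ∀ v ∈ M, sh g v ∈ M) : MulAction G (X N M) where
  smul g φ := ⟨φ.1 ∘ₗ rs hM g⁻¹, fun v hv => φ.2 _ (hN _ _ hv)⟩
  one_smul φ := Subtype.ext (LinearMap.ext fun v => congrArg φ.1 (Subtype.ext (by
    change sh (1 : G)⁻¹ v.1 = v.1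
    rw [inv_one, sh_one])))
  mul_smul g h φ := Subtype.ext (LinearMap.ext fun v => congrArg φ.1 (Subtype.ext (by
    change sh (g * h)⁻¹ v.1 = sh h⁻¹ (sh g⁻¹ v.1)
    rw [sh_sh, mul_inv_rev])))

theorem sh_single {κ : Type} [DecidableEq (κ × G)] (g h : G) (i : κ) :
    sh g (Pi.single (i, h) 1 : Fr κ G) = Pi.single (i, g * h) 1 := funext fun q => by
  obtain ⟨j, x⟩ := q
  rw [sh_apply, Pi.single_apply, Pi.single_apply]
  exact if_congr (by simp only [Prod.mk.injEq, inv_mul_eq_iff_eq_mul]) rfl rfl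

/-- the equivariant map with prescribed values on the free generators -/
def fr [Fintype G] {r : ℕ} (b : Fin r → Fr ι G) : Fr (Fin r) G →ₗ[ZMod 2] Fr ι G where
  toFun v := ∑ i, ∑ g, v (i, g) • sh g (b i)
  map_add' v w := by simp [add_smul, sum_add_distrib]
  map_smul' c v := by simp [smul_sum, mul_smul]

theorem fr_apply [Fintype G] {r : ℕ} (b : Fin r → Fr ι G) (v : Fr (Fin r) G) :
    fr b v = ∑ i, ∑ g, v (i, g) • sh g (b i) := rfl

theorem fr_eqv [Fintype G] {r : ℕ} (b : Fin r → Fr ι G) : Eqv (fr b) := fun g v => by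
  rw [fr_apply, fr_apply, map_sum]
  refine sum_congr rfl fun i _ => ?_
  rw [map_sum, ← Equiv.sum_comp (Equiv.mulLeft g)]
  simp [sh_apply, sh_sh]

theorem fr_single [Fintype G] {r : ℕ} (b : Fin r → Fr ι G) (i : Fin r) :
    fr b (Pi.single (i, 1) 1) = b i := by
  rw [fr_apply, sum_eq_single i, sum_eq_single 1] <;> simp +contextual [Pi.single_apply, sh_one]

omit [Group G] in
theorem expand2 [Fintype G] {r : ℕ} (v : Fr (Fin r) G) :
    ∑ i, ∑ g, v (i, g) • (Pi.single (i, g) 1 : Fr (Fin r) G) = v := by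
  rw [← Fintype.sum_prod_type' (fun i g => v (i, g) • (Pi.single (i, g) 1 : Fr (Fin r) G))]
  funext q
  simp [Finset.sum_apply, Pi.single_apply]

end NakP

open NakP

theorem p_Nak : S_Nak := by
  intro ι G _ _ _ N M hG hN hM _ hle
  by_contra hne
  obtain ⟨v, hv, hv'⟩ := SetLike.not_le_iff_exists.1 hne
  obtain ⟨ψ, hψ, hψ'⟩ := N.exists_dual_map_eq_bot_of_notMem hv' inferInstance
  have h0 : ∀ u ∈ N, ψ u = 0 := fun u hu => (Submodule.eq_bot_iff _).1 hψ' _ ⟨u, hu, rfl⟩
  let := act hN hM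
  let S : Submodule (ZMod 2) (M →ₗ[ZMod 2] ZMod 2) :=
    { carrier := {φ | ∀ v : M, v.1 ∈ N → φ v = 0}
      add_mem' := fun ha hb v h => by rw [LinearMap.add_apply, ha v h, hb v h, add_zero]
      zero_mem' := fun _ _ => rfl
      smul_mem' := fun c φ ha v h => by rw [LinearMap.smul_apply, ha v h, smul_zero] }
  have : Finite (M →ₗ[ZMod 2] ZMod 2) := Finite.of_injective _ DFunLike.coe_injective
  have : Finite (X N M) := Subtype.finite
  have : Nontrivial S := ⟨⟨ψ ∘ₗ M.subtype, fun u hu => h0 _ hu⟩, 0, fun e =>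
    hψ (LinearMap.congr_fun (congrArg Subtype.val e) ⟨v, hv⟩)⟩
  have hc : 2 ∣ Nat.card (X N M) := by
    change 2 ∣ Nat.card S
    rw [Module.natCard_eq_pow_finrank (K := ZMod 2), Nat.card_zmod]
    exact dvd_pow_self 2 Module.finrank_pos.ne'
  obtain ⟨φ, hφ, hφ0⟩ := hG.exists_fixed_point_of_prime_dvd_card_of_fixed_point (X N M) hc
    (a := ⟨0, fun _ _ => rfl⟩) fun _ => rfl
  obtain ⟨Φ, hΦ⟩ := LinearMap.exists_extend φ.1
  have h1 : ∀ u : M, Φ u = φ.1 u := fun u => LinearMap.congr_fun hΦ u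
  have h2 : N ⊔ Au M ≤ LinearMap.ker Φ := by
    refine sup_le (fun u hu => ?_) (Au_kill Φ fun g u hu => ?_)
    · exact (h1 ⟨u, ‹N ≤ M› hu⟩).trans (φ.2 _ hu)
    · have h3 := LinearMap.congr_fun (congrArg Subtype.val (hφ g⁻¹)) ⟨u, hu⟩
      change φ.1 (rs hM g⁻¹⁻¹ _) = _ at h3
      rw [inv_inv, ← h1, ← h1] at h3
      exact h3
  exact hφ0 (Subtype.ext (LinearMap.ext fun u => ((h1 u).symm.trans (h2 (hle u.2))).symm))

theorem p_Cover (h : S_Nak) : S_Cover := by
  intro ι G _ _ _ M hG hM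
  obtain ⟨r, hr⟩ := Nat.exists_eq_add_of_le' (Submodule.finrank_mono (Au_le_self hM))
  obtain ⟨p, b, hb, hb', hp, hs⟩ := coords (Au_le_self hM) hr
  have hle : LinearMap.range (fr b) ≤ M := by
    rintro _ ⟨v, rfl⟩
    rw [fr_apply]
    exact M.sum_mem fun i _ => M.sum_mem fun g _ => M.smul_mem _ (hM g _ (hb i))
  refine ⟨r, fr b, fr_eqv b, le_antisymm hle (h ι G _ M hG ?_ hM hle fun v hv => ?_),
    fun v hv => ?_, hr⟩
  · rintro g _ ⟨v, rfl⟩
    exact ⟨_, fr_eqv b g v⟩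
  · rw [← add_sub_cancel (∑ i, p v i • b i) v]
    exact Submodule.add_mem_sup (Submodule.sum_mem _ fun i _ =>
      Submodule.smul_mem _ _ ⟨_, fr_single b i⟩) (hs v hv)
  · have h1 : ∀ g i, p (sh g (b i)) = Pi.single i 1 := fun g i => by
      rw [← hb', ← sub_eq_zero, ← map_sub]
      exact hp _ (mem_Au g (hb i))
    have h2 : ∀ j, ∑ g, v (j, g) = 0 := fun j => by
      have := congrFun (congrArg p (LinearMap.mem_ker.1 hv)) j
      rw [fr_apply] at this
      simp only [map_sum, map_smul, h1, ← sum_smul] at this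
      simpa [Finset.sum_apply, Pi.single_apply] using this
    rw [← expand2 v]
    refine Submodule.sum_mem _ fun i _ => ?_
    have h3 : ∑ g, v (i, g) • (Pi.single (i, g) 1 : Fr (Fin r) G) =
        ∑ g, v (i, g) • (sh g (Pi.single (i, 1) 1 : Fr (Fin r) G) - Pi.single (i, 1) 1) := by
      simp only [smul_sub, sum_sub_distrib, sh_single, mul_one]
      rw [← sum_smul, h2, zero_smul, sub_zero]
    rw [h3]
    exact Submodule.sum_mem _ fun g _ => Submodule.smul_mem _ _ (mem_Au g Submodule.mem_top)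

end Pool.Agent.P.MP_44bffd_co.PB
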