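import Pool.Agent.P.MP_44bffd_co.PB.DA
import Pool.Agent.P.MP_44bffd_co.LS.Link
import Pool.Agent.P.MP_44bffd_co.LS.OneW

/-! The counts in the geometric step. -/

namespace Pool.Agent.P.MP_44bffd_co.PB

open Finset
open scoped Classical

namespace NumP

/-- One of the first two components of a type. -/
def cp {A B' : Type} (c : Bool) (t : A × A × B') : A := if c then t.1 else t.2.1

theorem cnt_pos {V : Type} (G : UG V) (x : V) (q : V → Prop) (h : 0 < G.cnt x q) :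
    ∃ w ∈ G.s, G.adj x w ∧ q w := by
  obtain ⟨w, hw⟩ := card_pos.1 h
  exact ⟨w, (mem_filter.1 hw).1, (mem_filter.1 hw).2⟩

theorem big {V B : Type} [Fintype B] (G : UG V) (p : V → B) (ν : B → ℕ) (x : V) (Q : B → Prop)
    (N : ℕ) (h : ∑ q, (if Q q then ν q else 0) = N) :
    (G.cnt x (fun y => Q (p y)) : ℝ) =
      N - ∑ q, if Q q then ((ν q : ℝ) - G.cnt x (fun w => p w = q)) else 0 := by
  rw [LS.OneWP.cnt_fiber G x p Q, ← h]
  push_cast
  rw [← sum_sub_distrib]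
  refine sum_congr rfl fun q _ => ?_
  split_ifs <;> simp

theorem sum_cp {A B' : Type} [Fintype A] [Fintype B'] (μ : A → ℝ) (c : Bool)
    (F : A → A → B' → ℝ) :
    ∑ t : A × A × B', μ t.1 * μ t.2.1 * F (cp c t) (cp (!c) t) t.2.2 =
      ∑ a, ∑ a', μ a * μ a' * ∑ s, F a a' s := by
  simp only [Fintype.sum_prod_type, mul_sum]
  cases c
  · rw [sum_comm]
    simp only [cp, Bool.not_false, if_true, Bool.false_eq_true, if_false]
    exact sum_congr rfl fun a _ => sum_congr rfl fun a' _ => sum_congr rfl fun s _ => by ring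
  · simp [cp]

theorem small {V' A B' : Type} [Fintype A] [Fintype B'] (W : UG V') (ty : V' → A × A × B')
    (μ : A → ℝ) (ν' : B' → ℕ) (T K : ℕ) (ε : ℝ) (hμ : ∀ a, 1 ≤ μ a ∧ μ a ≤ 2)
    (hW : RV W ty (fun t => μ t.1 * μ t.2.1 * ν' t.2.2) ε) {v : V'} (hv : v ∈ W.s) (hε : 0 ≤ ε)
    (c : Bool) (D : A → A → ℕ) (H : A → A → ℝ) (sl : ℕ → B' → Prop) (Q : A → Prop)
    (h1 : ∀ a a', ∑ s, (if sl (D a a') s then ν' s else 0) = T + D a a')
    (h2 : ∀ a a', |(D a a' : ℝ) - (2 ^ K / 2 + H a a')| ≤ 1) :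
    |(W.cnt v (fun w => sl (D (cp c (ty w)) (cp (!c) (ty w))) (ty w).2.2 ∧ Q (cp c (ty w))) : ℝ) -
      ((T + 2 ^ K / 2) * (∑ a, μ a) * (∑ a, if Q a then μ a else 0) +
        ∑ a, ∑ a', if Q a then μ a * μ a' * H a a' else 0)| ≤
      (Fintype.card A : ℝ) ^ 2 * (Fintype.card B' * ε + 4) := by
  set P : A × A × B' → Prop := fun t => sl (D (cp c t) (cp (!c) t)) t.2.2 ∧ Q (cp c t) with hP
  have e1 : (W.cnt v (fun w => P (ty w)) : ℝ) =
      ∑ t, if P t then (W.cnt v (fun w => ty w = t) : ℝ) else 0 := by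
    rw [LS.OneWP.cnt_fiber W v ty P]
    push_cast
    rfl
  have e2 : |(W.cnt v (fun w => P (ty w)) : ℝ) -
      ∑ t : A × A × B', if P t then μ t.1 * μ t.2.1 * ν' t.2.2 else 0| ≤
      (Fintype.card A : ℝ) ^ 2 * (Fintype.card B' * ε) := by
    rw [e1, ← sum_sub_distrib]
    refine (abs_sum_le_sum_abs _ _).trans ((sum_le_card_nsmul _ _ ε fun t _ => ?_).trans ?_)
    · split_ifs
      · exact hW v hv t
      · simpa using hε
    · simp only [card_univ, Fintype.card_prod, nsmul_eq_mul]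
      push_cast
      exact le_of_eq (by ring)
  have e3 : (∑ t : A × A × B', if P t then μ t.1 * μ t.2.1 * ν' t.2.2 else 0) =
      ∑ a, ∑ a', if Q a then μ a * μ a' * (T + D a a') else 0 := by
    have := sum_cp μ c (fun a a' s => if sl (D a a') s ∧ Q a then (ν' s : ℝ) else 0)
    simp only [mul_ite, mul_zero] at this
    refine Eq.trans (sum_congr rfl fun t _ => ?_) (this.trans ?_)
    · simp only [hP]
    · refine sum_congr rfl fun a _ => sum_congr rfl fun a' _ => ?_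
      by_cases hq : Q a
      · have h3 := congrArg (Nat.cast : ℕ → ℝ) (h1 a a')
        push_cast at h3
        simp only [hq, and_true, if_true, h3]
      · simp [hq]
  have e4 : (T + 2 ^ K / 2 : ℝ) * (∑ a, μ a) * (∑ a, if Q a then μ a else 0) =
      ∑ a, ∑ a', if Q a then μ a * μ a' * (T + 2 ^ K / 2) else 0 := by
    rw [mul_sum]
    refine sum_congr rfl fun a _ => ?_
    by_cases hq : Q a
    · simp only [hq, if_true]
      rw [mul_sum, sum_mul]
      exact sum_congr rfl fun a' _ => by ring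
    · simp [hq]
  have e5 : |(∑ a, ∑ a', if Q a then μ a * μ a' * (T + D a a') else 0) -
      ((T + 2 ^ K / 2) * (∑ a, μ a) * (∑ a, if Q a then μ a else 0) +
        ∑ a, ∑ a', if Q a then μ a * μ a' * H a a' else 0)| ≤ (Fintype.card A : ℝ) ^ 2 * 4 := by
    rw [e4, ← sum_add_distrib, ← sum_sub_distrib]
    refine (abs_sum_le_sum_abs _ _).trans
      ((sum_le_card_nsmul _ _ (Fintype.card A * 4 : ℝ) fun a _ => ?_).trans ?_)
    · rw [← sum_add_distrib, ← sum_sub_distrib]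
      refine (abs_sum_le_sum_abs _ _).trans ((sum_le_card_nsmul _ _ 4 fun a' _ => ?_).trans ?_)
      · split_ifs
        · have a1 := hμ a
          have a2 := hμ a'
          have a3 : μ a * μ a' ≤ 4 := by nlinarith
          have a4 : 0 ≤ μ a * μ a' := by nlinarith
          rw [show μ a * μ a' * (T + D a a') - (μ a * μ a' * (T + 2 ^ K / 2) +
            μ a * μ a' * H a a') = μ a * μ a' * (D a a' - (2 ^ K / 2 + H a a')) by ring, abs_mul,
            abs_of_nonneg a4]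
          nlinarith [h2 a a', abs_nonneg ((D a a' : ℝ) - (2 ^ K / 2 + H a a'))]
        · simp
      · simp
    · simp only [card_univ, nsmul_eq_mul]
      exact le_of_eq (by ring)
  rw [e3] at e2
  have := abs_sub_le (W.cnt v (fun w => P (ty w)) : ℝ)
    (∑ a, ∑ a', if Q a then μ a * μ a' * (T + D a a') else 0)
    ((T + 2 ^ K / 2) * (∑ a, μ a) * (∑ a, if Q a then μ a else 0) +
        ∑ a, ∑ a', if Q a then μ a * μ a' * H a a' else 0)
  linarith

theorem flo {K : ℕ} {h : ℝ} (H : 2 * |h| + 2 ≤ 2 ^ K) : 0 < ⌊(2 : ℝ) ^ K / 2 + h⌋₊ ∧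
    ⌊(2 : ℝ) ^ K / 2 + h⌋₊ < 2 ^ K ∧ |(⌊(2 : ℝ) ^ K / 2 + h⌋₊ : ℝ) - (2 ^ K / 2 + h)| ≤ 1 := by
  have a1 := le_abs_self h
  have a2 := neg_abs_le h
  have a3 : (0 : ℝ) ≤ 2 ^ K / 2 + h := by linarith
  have a4 := Nat.floor_le a3
  have a5 := Nat.lt_floor_add_one ((2 : ℝ) ^ K / 2 + h)
  refine ⟨Nat.floor_pos.2 (by linarith), (Nat.floor_lt a3).2 (by push_cast; linarith), ?_⟩
  rw [abs_le]
  constructor <;> linarith

end NumP

open NumP LS.LinkP

theorem p_Num (h1 : S_Geo) (h2 : S_Ctrl) : S_Num := by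
  intro V V' B C A B' _ _ _ _ _ _ _ G W p ty ν n μ α ν' T K sel σ ε hF hμ hP hG hσ hW hε hK
  obtain ⟨b₀⟩ := ‹Nonempty B›
  obtain ⟨a₁⟩ := ‹Nonempty A›
  obtain ⟨x₀, hx₀⟩ := G.ne
  obtain ⟨s₀⟩ := ‹Nonempty B'›
  obtain ⟨w₀, hw₀⟩ := W.ne
  have σ0 : 0 ≤ σ := (abs_nonneg _).trans (hG x₀ hx₀ b₀)
  have ε0 : 0 ≤ ε := (abs_nonneg _).trans (hW w₀ hw₀ (a₁, a₁, s₀))
  have ν0 : ∀ b, 0 < ν b := fun b => by exact_mod_cast σ0.trans_lt (hσ b)
  have hn : (0 : ℝ) < ∑ l, (n l : ℝ) := by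
    have a1 := hF.1 a₁ b₀ (α a₁ b₀ b₀)
    have a2 : ν b₀ ≤ n (α a₁ b₀ b₀) := by
      rw [← a1]
      refine le_trans (by simp) (single_le_sum (f := fun q => if α a₁ q b₀ = α a₁ b₀ b₀ then ν q
        else 0) (fun _ _ => Nat.zero_le _) (mem_univ b₀))
    refine sum_pos' (fun _ _ => Nat.cast_nonneg _) ⟨α a₁ b₀ b₀, mem_univ _, ?_⟩
    exact_mod_cast (ν0 b₀).trans_le a2
  have hc := fun x (hx : x ∈ G.s) => h2 B C A ν n μ α σ (p x)
    (fun b => (ν b : ℝ) - G.cnt x (fun w => p w = b)) hF ν0 (fun a => (hμ a).1)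
    (fun b => by rw [abs_sub_comm]; exact hG x hx b)
  choose! h c1 c2 c3 using hc
  have hd := fun x (hx : x ∈ G.s) a a' b b' =>
    flo (K := K) (h := h x a a' b b') (by linarith [c1 x hx a a' b b'])
  set δ : V → A → A → A → A → ℕ := fun x a a' b b' => ⌊(2 : ℝ) ^ K / 2 + h x a a' b b'⌋₊ with hδ
  obtain ⟨U, H, ξ, k1, k2⟩ := h1 V V' C G W
    (fun x a b => sel (δ x (cp (W.col b) (ty a)) (cp (!W.col b) (ty a)) (cp (W.col a) (ty b))
      (cp (!W.col a) (ty b))) (ty a).2.2 (ty b).2.2)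
    (fun y z a b => α (cp (W.col b) (ty a)) (p y) (p z))
    (fun y z a b => α (cp (W.col a) (ty b)) (p y) (p z)) (by
      obtain ⟨x, hx, ex⟩ := G.both (fun v hv => by
        have a1 := abs_le.1 (hG v hv b₀)
        have a2 : 0 < G.cnt v (fun w => p w = b₀) := by
          have : (0 : ℝ) < G.cnt v (fun w => p w = b₀) := by linarith [a1.1, hσ b₀]
          exact_mod_cast this
        obtain ⟨w, a3, a4, -⟩ := cnt_pos G v _ a2
        rw [deg_eq]
        exact card_pos.2 ⟨w, mem_filter.2 ⟨a3, a4⟩⟩) (!W.col w₀)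
      obtain ⟨d1, d2, -⟩ := hd x hx a₁ a₁ (cp (!W.col w₀) (ty w₀)) (cp (W.col w₀) (ty w₀))
      have a1 := (hP _ d2).1 (ty w₀).2.2
      obtain ⟨s, -, hs⟩ := exists_ne_zero_of_sum_ne_zero (a1.trans_ne (by omega))
      have hs' := (ite_ne_right_iff.1 hs).1
      have a2 := abs_le.1 (hW w₀ hw₀ (a₁, a₁, s))
      have a3 : 0 < W.cnt w₀ (fun w => ty w = (a₁, a₁, s)) := by
        have a4 : 1 ≤ μ a₁ * μ a₁ := by nlinarith [(hμ a₁).1]
        have a5 : (0 : ℝ) ≤ ν' s := Nat.cast_nonneg _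
        have : (0 : ℝ) < W.cnt w₀ (fun w => ty w = (a₁, a₁, s)) := by
          nlinarith [a2.1, hε s]
        exact_mod_cast this
      obtain ⟨a, a4, a5, a6⟩ := cnt_pos W w₀ _ a3
      refine ⟨x, hx, a, a4, w₀, hw₀, ex, ?_⟩
      have a7 : ∀ c, cp c (a₁, a₁, s) = a₁ := fun c => by cases c <;> rfl
      simp only [a6, a7, col_adj W hw₀ a4 a5, Bool.not_not]
      exact hs')
  refine ⟨U, H, ξ, k1, fun v hv κ => ?_⟩
  obtain ⟨x, hx, z, hz, a, ha, b, hb, k⟩ := k2 v hv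
  have e0 : (n κ : ℝ) * (1 + (T + 2 ^ K / 2) * (∑ a, μ a) ^ 2 / ∑ l, (n l : ℝ)) = n κ +
      (T + 2 ^ K / 2) * (∑ a, μ a) * ∑ a', if α a' (p z) (p x) = κ then μ a' else 0 := by
    have a1 := hF.2.2.1 (p z) (p x) κ
    rw [← eq_div_iff hn.ne'] at a1
    rw [a1]
    ring
  rcases k with k | k
  · have a1 := big G p ν x (fun q => α (cp (W.col a) (ty b)) q (p z) = κ) _ (hF.1 _ _ κ)
    have a2 := small W ty μ ν' T K ε hμ hW ha ε0 (W.col b)
      (fun a' a'' => δ x a' a'' (cp (!W.col a) (ty b)) (cp (W.col a) (ty b)))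
      (fun a' a'' => h x a' a'' (cp (!W.col a) (ty b)) (cp (W.col a) (ty b)))
      (fun d s => sel d s (ty b).2.2) (fun a' => α a' (p z) (p x) = κ)
      (fun a' a'' => (hP _ (hd x hx _ _ _ _).2.1).1 _) (fun a' a'' => (hd x hx _ _ _ _).2.2)
    rw [c2 x hx] at a2
    beta_reduce
    rw [k κ, e0, W.cnt_congr a (q := fun w => sel (δ x (cp (W.col b) (ty w))
      (cp (!W.col b) (ty w)) (cp (!W.col a) (ty b)) (cp (W.col a) (ty b))) (ty w).2.2 (ty b).2.2 ∧
      α (cp (W.col b) (ty w)) (p z) (p x) = κ) fun w hw e => by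
        simp only [col_adj W ha hw e, Bool.not_not]]
    push_cast
    rw [a1]
    convert a2 using 2
    ring
  · have a1 := big G p ν x (fun q => α (cp (W.col b) (ty a)) q (p z) = κ) _ (hF.1 _ _ κ)
    have a2 := small W ty μ ν' T K ε hμ hW hb ε0 (W.col a)
      (fun b' b'' => δ x (cp (!W.col b) (ty a)) (cp (W.col b) (ty a)) b' b'')
      (fun b' b'' => h x (cp (!W.col b) (ty a)) (cp (W.col b) (ty a)) b' b'')
      (fun d s => sel d (ty a).2.2 s) (fun b' => α b' (p z) (p x) = κ)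
      (fun b' b'' => (hP _ (hd x hx _ _ _ _).2.1).2 _) (fun b' b'' => (hd x hx _ _ _ _).2.2)
    rw [c3 x hx] at a2
    beta_reduce
    rw [k κ, e0, W.cnt_congr b (q := fun w => sel (δ x (cp (!W.col b) (ty a))
      (cp (W.col b) (ty a)) (cp (W.col a) (ty w)) (cp (!W.col a) (ty w))) (ty a).2.2 (ty w).2.2 ∧
      α (cp (W.col a) (ty w)) (p z) (p x) = κ) fun w hw e => by
        simp only [col_adj W hb hw e, Bool.not_not]]
    push_cast
    rw [a1]
    convert a2 using 2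
    ring

end Pool.Agent.P.MP_44bffd_co.PB
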