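import Pool.Agent.P.MP_44bffd_co.PB.DB

/-! A smooth partition of unity for the action of the units of a totally real field. -/

namespace Pool.Agent.P.MP_44bffd_co.PB

open Finset NumberField NumberField.Units NumberField.Units.dirichletUnitTheorem
open scoped Classical

namespace PartP

lemma bp_nonneg (t : ℝ) : 0 ≤ bp t :=
  sub_nonneg.2 (Real.smoothTransition.monotone (by linarith))

lemma bp_of_le {t : ℝ} (h : t ≤ -1) : bp t = 0 := by
  unfold bp
  rw [Real.smoothTransition.zero_of_nonpos (by linarith),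
    Real.smoothTransition.zero_of_nonpos (by linarith), sub_self]

lemma bp_of_ge {t : ℝ} (h : 1 ≤ t) : bp t = 0 := by
  unfold bp
  rw [Real.smoothTransition.one_of_one_le (by linarith), Real.smoothTransition.one_of_one_le h,
    sub_self]

lemma sum_bp (t : ℝ) (N : ℕ) : ∑ k ∈ range N, bp (t - k) =
    Real.smoothTransition (t + 1) - Real.smoothTransition (t + 1 - N) := by
  induction N with
  | zero => simp
  | succ N ih =>
    rw [sum_range_succ, ih]
    unfold bp
    push_cast
    rw [show t - N + 1 = t + 1 - N by ring, show t + 1 - (N + 1) = t - N by ring]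
    ring

lemma hasSum_nat {t : ℝ} (ht : 0 ≤ t) : HasSum (fun j : ℕ => bp (t - j)) 1 := by
  obtain ⟨N, hN⟩ := exists_nat_ge (t + 1)
  have h : HasSum (fun j : ℕ => bp (t - j)) (∑ j ∈ range N, bp (t - j)) :=
    hasSum_sum_of_ne_finset_zero fun j hj => bp_of_le (by
      have : (N : ℝ) ≤ j := by exact_mod_cast not_lt.1 (mt mem_range.2 hj)
      linarith)
  rwa [sum_bp, Real.smoothTransition.one_of_one_le (by linarith),
    Real.smoothTransition.zero_of_nonpos (by linarith), sub_zero] at h

lemma exists_box (t : ℝ) : ∃ S : Finset ℤ, ∑ m ∈ S, bp (t + m) = 1 ∧ ∀ m ∉ S, bp (t + m) = 0 := by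
  obtain ⟨N, hN⟩ := exists_nat_ge (|t| + 1)
  have h1 := le_abs_self t
  have h2 := neg_abs_le t
  refine ⟨(range (2 * N)).image fun k : ℕ => (N : ℤ) - k, ?_, fun m hm => ?_⟩
  · rw [sum_image fun a _ b _ h => by simpa using h]
    have h := sum_bp (t + N) (2 * N)
    rw [Real.smoothTransition.one_of_one_le (by linarith),
      Real.smoothTransition.zero_of_nonpos (by push_cast; linarith), sub_zero] at h
    rw [← h]
    exact sum_congr rfl fun k _ => by push_cast; rw [add_sub_assoc]
  · have h : (N : ℤ) < m ∨ m ≤ -N := by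
      by_contra h
      exact hm (mem_image.2 ⟨(N - m).toNat, mem_range.2 (by omega), by omega⟩)
    rcases h with h | h
    · have : (N : ℝ) < m := by exact_mod_cast h
      exact bp_of_ge (by linarith)
    · have : (m : ℝ) ≤ -N := by exact_mod_cast h
      exact bp_of_le (by linarith)

lemma hasSum_pi {κ : Type} [Fintype κ] (t : κ → ℝ) :
    HasSum (fun m : κ → ℤ => ∏ i, bp (t i + m i)) 1 := by
  choose S h1 h2 using fun i => exists_box (t i)
  have h : HasSum (fun m : κ → ℤ => ∏ i, bp (t i + m i))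
      (∑ m ∈ Fintype.piFinset S, ∏ i, bp (t i + m i)) :=
    hasSum_sum_of_ne_finset_zero fun m hm => by
      obtain ⟨i, hi⟩ := not_forall.1 (mt Fintype.mem_piFinset.2 hm)
      exact prod_eq_zero (mem_univ i) (h2 i _ hi)
  rw [← prod_univ_sum S fun i m => bp (t i + m)] at h
  simpa [h1] using h

lemma hasSum_mul {α β : Type} {f : α → ℝ} {g : β → ℝ} {a b : ℝ} (hf : HasSum f a)
    (hg : HasSum g b) (h1 : ∀ x, 0 ≤ f x) (h2 : ∀ y, 0 ≤ g y) :
    HasSum (fun q : α × β => f q.1 * g q.2) (a * b) :=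
  hf.mul hg (hf.summable.mul_of_nonneg hg.summable h1 h2)

lemma hasSum_model (T : Type) [Fintype T] {κ : Type} [Fintype κ] (t : κ → ℝ) {l a : ℝ}
    (hl : 0 ≤ l) (ha : 0 ≤ a) : HasSum (fun q : (T × (κ → ℤ)) × ℕ =>
      (1 * ∏ i, bp (t i + q.1.2 i)) * (bp (l - q.2) * a)) (Fintype.card T * a) := by
  have h1 : HasSum (fun _ : T => (1 : ℝ)) (Fintype.card T) := by
    simpa using hasSum_fintype fun _ : T => (1 : ℝ)
  have n2 : ∀ m : κ → ℤ, 0 ≤ ∏ i, bp (t i + m i) := fun m => prod_nonneg fun _ _ => bp_nonneg _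
  have h12 := hasSum_mul h1 (hasSum_pi t) (fun _ => zero_le_one) n2
  have h := hasSum_mul h12 ((hasSum_nat hl).mul_right a)
    (fun q => mul_nonneg zero_le_one (n2 q.2)) fun j => mul_nonneg (bp_nonneg _) ha
  rwa [mul_one, one_mul] at h

variable {K : Type} [Field K] [NumberField K]

/-- projection to the logarithmic space -/
noncomputable def pj (K : Type) [Field K] [NumberField K] :
    (InfinitePlace K → ℝ) →ₗ[ℝ] logSpace K where
  toFun v w := v w - (∑ w', v w') / Module.finrank ℚ K
  map_add' v v' := by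
    funext w
    simp only [Pi.add_apply, sum_add_distrib]
    ring
  map_smul' a v := by
    funext w
    simp only [Pi.smul_apply, smul_eq_mul, ← mul_sum, RingHom.id_apply]
    ring

/-- the real basis given by a fundamental system of units -/
noncomputable def bs (K : Type) [Field K] [NumberField K] :
    Module.Basis (Fin (rank K)) ℝ (logSpace K) :=
  (basisUnitLattice K).ofZLatticeBasis ℝ (unitLattice K)

/-- the coordinates -/
noncomputable def cc (K : Type) [Field K] [NumberField K] (i : Fin (rank K)) :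
    (InfinitePlace K → ℝ) →ₗ[ℝ] ℝ := (bs K).coord i ∘ₗ pj K

lemma cc_inj (v : InfinitePlace K → ℝ) (h : ∑ w, v w = 0) (hc : ∀ i, cc K i v = 0) : v = 0 := by
  have h1 : pj K v = 0 := (bs K).forall_coord_eq_zero_iff.1 hc
  have h2 : ∀ w, w ≠ w₀ → v w = 0 := fun w hw => by
    have := congrFun h1 ⟨w, hw⟩
    simpa [pj, h] using this
  funext w
  by_cases hw : w = w₀
  · rw [sum_eq_single w₀ (fun b _ hb => h2 b hb) (by simp)] at h
    rw [hw]
    exact h
  · exact h2 w hw

/-- units are roots of unity times products of fundamental units -/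
noncomputable def ue (K : Type) [Field K] [NumberField K] :
    torsion K × (Fin (rank K) → ℤ) ≃ (𝓞 K)ˣ :=
  Equiv.ofBijective (fun q => q.1 * ∏ i, fundSystem K i ^ q.2 i)
    ((Function.bijective_iff_existsUnique _).2 fun x => by
      simpa only [eq_comm] using exist_unique_eq_mul_prod K x)

lemma log_ue (q : torsion K × (Fin (rank K) → ℤ)) :
    logEmbedding K (Additive.ofMul (ue K q)) = ∑ i, (q.2 i : ℝ) • bs K i := by
  rw [ue, Equiv.ofBijective_apply, ofMul_mul, map_add, logEmbedding_eq_zero_iff.2 q.1.2, zero_add,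
    ofMul_prod, map_sum]
  refine sum_congr rfl fun i _ => ?_
  rw [ofMul_zpow, map_zsmul, logEmbedding_fundSystem, bs, Module.Basis.ofZLatticeBasis_apply,
    Int.cast_smul_eq_zsmul]

variable [IsTotallyReal K]

lemma card_places : (Fintype.card (InfinitePlace K) : ℝ) = Module.finrank ℚ K := by
  rw [← InfinitePlace.sum_mult_eq]
  simp [IsTotallyReal.mult_eq]

omit [NumberField K] in
lemma abs_em (x : 𝓞 K) (w : InfinitePlace K) : |em x w| = w (x : K) := by
  have hw := IsTotallyReal.isReal w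
  rw [em, ← InfinitePlace.embedding_of_isReal_apply hw, Complex.ofReal_re, ← Real.norm_eq_abs,
    InfinitePlace.norm_embedding_of_isReal]

lemma sum_log_unit (u : (𝓞 K)ˣ) : ∑ w : InfinitePlace K, Real.log (w ((u : 𝓞 K) : K)) = 0 := by
  simpa [IsTotallyReal.mult_eq] using sum_mult_mul_log u

lemma sum_log {x : 𝓞 K} (hx : x ≠ 0) : ∑ w : InfinitePlace K, Real.log (w (x : K)) =
    Real.log (Ideal.absNorm (Ideal.span {x}) : ℝ) := by
  have hx' : (x : K) ≠ 0 := by exact_mod_cast hx
  rw [← Real.log_prod fun w _ => (InfinitePlace.pos_iff.2 hx').ne']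
  congr 1
  have h := InfinitePlace.prod_eq_abs_norm (x : K)
  simp only [IsTotallyReal.mult_eq, pow_one] at h
  rw [h, Ideal.absNorm_span_singleton, ← Algebra.coe_norm_int, Nat.cast_natAbs]
  push_cast
  rfl

lemma cc_const (i : Fin (rank K)) (a : ℝ) : cc K i (fun _ => a) = 0 := by
  have hn : (Module.finrank ℚ K : ℝ) ≠ 0 := by exact_mod_cast Module.finrank_pos.ne'
  have : pj K (fun _ => a) = 0 := by
    funext w
    simp only [pj, LinearMap.coe_mk, AddHom.coe_mk, sum_const, card_univ, nsmul_eq_mul,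
      card_places, Pi.zero_apply]
    field_simp
    ring
  rw [cc, LinearMap.comp_apply, this, map_zero]

lemma cc_unit (q : torsion K × (Fin (rank K) → ℤ)) (i : Fin (rank K)) :
    cc K i (fun w => Real.log (w (((ue K q : (𝓞 K)ˣ) : 𝓞 K) : K))) = q.2 i := by
  have : pj K (fun w => Real.log (w (((ue K q : (𝓞 K)ˣ) : 𝓞 K) : K))) =
      logEmbedding K (Additive.ofMul (ue K q)) := by
    funext w
    simp only [pj, LinearMap.coe_mk, AddHom.coe_mk, sum_log_unit, zero_div, sub_zero,
      logEmbedding_component, IsTotallyReal.mult_eq, Nat.cast_one, one_mul]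
  rw [cc, LinearMap.comp_apply, this, log_ue, Module.Basis.coord_apply,
    Module.Basis.repr_sum_self]

lemma term (s : ℝ) {x : 𝓞 K} (hx : x ≠ 0) (q : torsion K × (Fin (rank K) → ℤ)) (j : ℕ) :
    Real.exp (-s * j) * Ph (cc K) s
      (Real.exp (-(j : ℝ) / Module.finrank ℚ K) • em (((ue K q : (𝓞 K)ˣ) : 𝓞 K) * x)) =
    (1 * ∏ i, bp (cc K i (fun w => Real.log (w (x : K))) + q.2 i)) *
      (bp (Real.log (Ideal.absNorm (Ideal.span {x}) : ℝ) - j) *
        Real.exp (-s * Real.log (Ideal.absNorm (Ideal.span {x}) : ℝ))) := by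
  have hx' : (x : K) ≠ 0 := by exact_mod_cast hx
  have hu : (((ue K q : (𝓞 K)ˣ) : 𝓞 K) : K) ≠ 0 := by exact_mod_cast (ue K q).ne_zero
  have hn : (Module.finrank ℚ K : ℝ) ≠ 0 := by exact_mod_cast Module.finrank_pos.ne'
  have h0 : ∀ w, em (((ue K q : (𝓞 K)ˣ) : 𝓞 K) * x) w ≠ 0 := fun w => by
    rw [← abs_pos, abs_em, InfinitePlace.pos_iff]
    push_cast
    exact mul_ne_zero hu hx'
  have h1 : (fun w => Real.log ((Real.exp (-(j : ℝ) / Module.finrank ℚ K) •
      em (((ue K q : (𝓞 K)ˣ) : 𝓞 K) * x)) w)) =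
      (fun _ => -(j : ℝ) / Module.finrank ℚ K) + ((fun w => Real.log (w (x : K))) +
        fun w => Real.log (w (((ue K q : (𝓞 K)ˣ) : 𝓞 K) : K))) := by
    funext w
    simp only [Pi.smul_apply, smul_eq_mul, Pi.add_apply]
    rw [Real.log_mul (Real.exp_ne_zero _) (h0 w), Real.log_exp, ← Real.log_abs, abs_em]
    push_cast
    rw [map_mul, Real.log_mul (InfinitePlace.pos_iff.2 hu).ne' (InfinitePlace.pos_iff.2 hx').ne',
      add_comm (Real.log _)]
  have h2 : ∑ w, Real.log ((Real.exp (-(j : ℝ) / Module.finrank ℚ K) •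
      em (((ue K q : (𝓞 K)ˣ) : 𝓞 K) * x)) w) =
      Real.log (Ideal.absNorm (Ideal.span {x}) : ℝ) - j := by
    rw [sum_congr rfl fun w _ => congrFun h1 w]
    simp only [Pi.add_apply, sum_add_distrib, sum_log_unit, sum_log hx, sum_const, card_univ,
      nsmul_eq_mul, card_places]
    field_simp
    ring
  have h3 : ∀ w, (Real.exp (-(j : ℝ) / Module.finrank ℚ K) •
      em (((ue K q : (𝓞 K)ˣ) : 𝓞 K) * x)) w ≠ 0 :=
    fun w => mul_ne_zero (Real.exp_ne_zero _) (h0 w)
  rw [Ph, if_pos h3, h2, h1]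
  simp only [map_add, cc_const, cc_unit, zero_add]
  rw [show -s * Real.log (Ideal.absNorm (Ideal.span {x}) : ℝ) =
    -s * j + -s * (Real.log (Ideal.absNorm (Ideal.span {x}) : ℝ) - j) by ring, Real.exp_add]
  ring

end PartP

open PartP in
theorem p_Part : S_Part := by
  intro K _ _ _
  have : Fintype (torsion K) := Fintype.ofFinite _
  refine ⟨Fin (rank K), inferInstance, cc K, Fintype.card (torsion K),
    by exact_mod_cast Fintype.card_pos, cc_inj, fun s x hx => ?_⟩
  have hN : 1 ≤ Ideal.absNorm (Ideal.span {x}) := by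
    rw [Nat.one_le_iff_ne_zero, Ne, Ideal.absNorm_eq_zero_iff, Ideal.span_singleton_eq_bot]
    exact hx
  have hN' : (1 : ℝ) ≤ Ideal.absNorm (Ideal.span {x}) := by exact_mod_cast hN
  have h := hasSum_model (torsion K) (fun i => cc K i fun w => Real.log (w (x : K)))
    (Real.log_nonneg hN')
    (Real.exp_nonneg (-s * Real.log (Ideal.absNorm (Ideal.span {x}) : ℝ)))
  rw [← ((ue K).prodCongr (Equiv.refl ℕ)).hasSum_iff, Real.rpow_def_of_pos (by linarith),
    mul_comm _ (-s)]
  refine Eq.mp (congrArg (fun f => HasSum f _) (funext fun q => ?_)) h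
  exact (term s hx q.1 q.2).symm

end Pool.Agent.P.MP_44bffd_co.PB
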