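import Pool.Agent.P.MP_44bffd_co.PB.DA

/-! The recursion over the scales. -/

namespace Pool.Agent.P.MP_44bffd_co.PB

namespace RecP

theorem pw {a b : ℕ} (h : a ≤ b) : 2 ^ a ≤ 2 ^ b := Nat.pow_le_pow_right (by norm_num) h

theorem mul_pw {x y a b : ℕ} (h : x ≤ 2 ^ a) (h' : y ≤ 2 ^ b) : x * y ≤ 2 ^ (a + b) := by
  rw [pow_add]
  exact Nat.mul_le_mul h h'

theorem pow_pw {x a : ℕ} (h : x ≤ 2 ^ a) (n : ℕ) : x ^ n ≤ 2 ^ (a * n) := by
  rw [pow_mul]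
  exact Nat.pow_le_pow_left h n

theorem nine (w t : ℕ) : 9 * 2 ^ w * 4 ^ t ≤ 2 ^ (4 + w + 2 * t) :=
  mul_pw (mul_pw (by norm_num) le_rfl) (pow_pw (by norm_num) t)

/-- The general construction with all parameters bounded by powers of two. -/
theorem gen (h1 : S_Wgen) {c L l : ℕ} (hX : LS.HX c L) (hc : 1 ≤ c) (hcl : c ≤ 2 ^ l)
    (w S r u ρ E : ℕ) (hr : 1 ≤ r) (hρ : 6000 * r ≤ 2 ^ ρ) (hS : S + 3 ≤ 2 ^ l) (hL : 4 * S ≤ L)
    (hu : S + 3 ≤ 2 ^ r * u) (hE : ρ + 4 + w + 2 * (2 + l * (r + 1)) + 2 * l + u ≤ E)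
    (hK : E + 5 + (2 + l * (r + 1)) ≤ S) : TV (2 ^ w) S (2 ^ E) (4 * c * r ^ 2 * S) := by
  set t := 2 + l * (r + 1) with ht
  obtain ⟨K, rfl⟩ : ∃ K, S = K + t := ⟨S - t, by omega⟩
  have he : 6000 * 2 ^ (4 + w + 2 * t) * r * c * (K + t) * 2 ^ u ≤ 2 ^ E := by
    have e : 6000 * 2 ^ (4 + w + 2 * t) * r * c * (K + t) * 2 ^ u =
        6000 * r * 2 ^ (4 + w + 2 * t) * c * (K + t) * 2 ^ u := by ring
    rw [e]
    exact (mul_pw (mul_pw (mul_pw (mul_pw hρ le_rfl) hcl) (le_trans (by omega) hS))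
      le_rfl).trans (pw (by omega))
  have := h1 c L (2 ^ w) K t r u (2 ^ (4 + w + 2 * t)) hX hc Nat.one_le_two_pow (by omega) hr hL
    (mul_pw (a := 2) (by norm_num) (pow_pw (le_trans (by omega) hS) _)) (nine w t) hu
    ((mul_pw (a := 5) (by norm_num) he).trans (pw (by omega)))
  exact this.mono le_rfl (by exact_mod_cast he) le_rfl

theorem step (h1 : S_Wgen) (h2 : S_Step) {c L l : ℕ} (hX : LS.HX c L) (hc : 1 ≤ c)
    (hcl : c ≤ 2 ^ l) (w u E g : ℕ) (hw : 9 ≤ w) (hl : 3 * l ≤ w) (hu : 200 * w ≤ u)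
    (hE : E + 1 ≤ 2 * u) (hS : 8 * u + 3 ≤ 2 ^ l) (hL : 4 * (8 * u) ≤ L)
    (h : TV (2 ^ (128 * w)) (2 * u) (2 ^ E) g) :
    TV (2 ^ w) (8 * u) (2 ^ (128 * w + (E + 1))) (72 * c * (8 * u) + 2 * g) := by
  obtain ⟨K, hK⟩ : ∃ K, 8 * u = K + (7 + l * 4) := ⟨8 * u - (7 + l * 4), by omega⟩
  set β := 4 + w + 2 * (7 + l * 4) with hβ
  set s := w + 18 * l + 41 + u with hs
  have h3 := gen h1 hX hc hcl β K 3 u 15 s (by norm_num) (by norm_num) (by omega) (by omega)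
    (by omega) (by omega) (by omega)
  have h4 : 10 * (2 ^ β) ^ 2 * 2 ^ s + 2 ≤ 2 ^ (2 * u) := by
    have a1 : 10 * (2 ^ β) ^ 2 * 2 ^ s ≤ 2 ^ (4 + β * 2 + s) :=
      mul_pw (mul_pw (by norm_num) (pow_pw le_rfl 2)) le_rfl
    have a2 : 2 ^ 1 ≤ 2 ^ (4 + β * 2 + s) := pw (by omega)
    have a3 : 2 ^ (4 + β * 2 + s + 1) ≤ 2 ^ (2 * u) := pw (by omega)
    rw [pow_succ] at a3
    omega
  have h5 : 2 ^ E + 1 ≤ 2 ^ (E + 1) := by
    have : 1 ≤ 2 ^ E := Nat.one_le_two_pow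
    rw [pow_succ]
    omega
  have h6 := h2 (2 ^ w) K (7 + l * 4) (2 * u) (2 ^ β) (2 ^ (128 * w)) _ g (2 ^ s) (2 ^ E)
    Nat.one_le_two_pow (by omega) (by omega)
    (mul_pw (by norm_num) (pow_pw (le_trans (by omega) hS) _)) (nine _ _)
    ((mul_pw (mul_pw (a := 8) (by norm_num) (pow_pw le_rfl 10))
      (pow_pw (le_trans (by omega) hS) 4)).trans (pw (by omega)))
    ((mul_pw le_rfl le_rfl).trans (pw (by omega))) (by positivity)
    (pow_lt_pow_right₀ (by norm_num) (by omega)) (by exact_mod_cast h4) (by positivity)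
    (by exact_mod_cast h5.trans (pw hE)) h3 h
  rw [← hK] at h6
  refine h6.mono le_rfl (by exact_mod_cast mul_pw le_rfl h5) ?_
  have : c * K ≤ c * (8 * u) := Nat.mul_le_mul_left _ (by omega)
  nlinarith

end RecP

open RecP in
theorem p_Rec (h1 : S_Wgen) (h2 : S_Step) : S_Rec := by
  intro c L l m hX hc hcl hl J
  have hll : 3 * l ≤ l ^ 2 := by nlinarith
  induction J with
  | zero =>
    intro w hw hm hS hL
    simp only [pow_zero, one_mul, mul_one] at hm hS hL ⊢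
    have e : l * (l + 1) = l ^ 2 + l := by ring
    have h3 : 6000 * l ≤ 2 ^ (13 + l) := mul_pw (by norm_num) Nat.lt_two_pow_self.le
    exact ⟨8 * w, by omega, (gen h1 hX hc hcl w (2 * m) l 1 (13 + l) (8 * w) (by omega) h3 hS hL
      (by omega) (by omega) (by omega)).mono le_rfl le_rfl (by omega)⟩
  | succ J ih =>
    intro w hw hm hS hL
    have e1 : 4 ^ (J + 1) * (2 * m) = 8 * (4 ^ J * m) := by ring
    have e2 : 4 ^ J * (2 * m) = 2 * (4 ^ J * m) := by ring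
    have e3 : 200 * 128 ^ (J + 1) * w = 200 * (128 ^ J * (128 * w)) := by ring
    have e4 : 10 * 128 ^ (J + 1) * w = 10 * (128 ^ J * (128 * w)) := by ring
    have a1 : m ≤ 4 ^ J * m := Nat.le_mul_of_pos_left _ (by positivity)
    have a2 : 128 * w ≤ 128 ^ J * (128 * w) := Nat.le_mul_of_pos_left _ (by positivity)
    rw [e1] at hS hL ⊢
    rw [e3] at hm
    obtain ⟨E, hE, hT⟩ := ih (128 * w) (by omega) (by rw [mul_assoc]; exact hm) (by omega)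
      (by omega)
    rw [mul_assoc] at hE
    rw [e2] at hT
    refine ⟨128 * w + (E + 1), by omega, (step h1 h2 hX hc hcl w (4 ^ J * m) E _ (by omega)
      (by omega) (by omega) (by omega) hS hL hT).mono le_rfl le_rfl (le_of_eq (by ring))⟩

end Pool.Agent.P.MP_44bffd_co.PB
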