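import Pool.Agent.P.MP_44bffd_co.PB.DB

/-! The second inequality in the form of a comparison of Euler products. -/

namespace Pool.Agent.P.MP_44bffd_co.PB

open Finset NumberField Filter Topology
open scoped Classical nonZeroDivisors

namespace SIP

variable {K : Type} [Field K] [NumberField K]

theorem nm_nonneg (s : ℝ) (I : (Ideal (𝓞 K))⁰) : 0 ≤ nm s I := Real.rpow_nonneg (by positivity) _

theorem two_le_np (p : Pr K) : 2 ≤ np p := by
  have h0 : np p ≠ 0 := fun h => p.ne_bot (Ideal.absNorm_eq_zero_iff.1 h)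
  have h1 : np p ≠ 1 := fun h => p.isPrime.ne_top (Ideal.absNorm_eq_one_iff.1 h)
  omega

theorem nm_pz (s : ℝ) (p : Pr K) : nm s (pz p) = (np p : ℝ) ^ (-s) := rfl

theorem nm_lt_one {s : ℝ} (hs : 1 < s) (p : Pr K) : nm s (pz p) < 1 := by
  have h : (2 : ℝ) ≤ np p := by exact_mod_cast two_le_np p
  exact Real.rpow_lt_one_of_one_lt_of_neg (x := (np p : ℝ)) (by linarith) (by linarith)

/-- The sign of a class. -/
noncomputable def sn (χ : ClassGroup (𝓞 K) →* ℤˣ) (I : (Ideal (𝓞 K))⁰) : ℝ :=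
  ((χ (ClassGroup.mk0 I) : ℤ) : ℝ)

theorem sn_cases (χ : ClassGroup (𝓞 K) →* ℤˣ) (I : (Ideal (𝓞 K))⁰) :
    sn χ I = 1 ∨ sn χ I = -1 := by
  unfold sn
  rcases Int.units_eq_one_or (χ (ClassGroup.mk0 I)) with h | h <;> simp [h]

theorem abs_sn (χ : ClassGroup (𝓞 K) →* ℤˣ) (I : (Ideal (𝓞 K))⁰) : |sn χ I| = 1 := by
  rcases sn_cases χ I with h | h <;> simp [h]

theorem sn_mul (χ χ' : ClassGroup (𝓞 K) →* ℤˣ) (I : (Ideal (𝓞 K))⁰) :
    sn (χ * χ') I = sn χ I * sn χ' I := by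
  simp [sn]

theorem sn_one (I : (Ideal (𝓞 K))⁰) : sn 1 I = 1 := by simp [sn]

/-- The terms of the `L`-series. -/
noncomputable def fc (χ : ClassGroup (𝓞 K) →* ℤˣ) (s : ℝ) : (Ideal (𝓞 K))⁰ →* ℝ where
  toFun I := sn χ I * nm s I
  map_one' := by simp [sn, nm]
  map_mul' I J := by
    simp only [sn, nm, map_mul, Units.val_mul, Int.cast_mul, Submonoid.coe_mul, Nat.cast_mul]
    rw [Real.mul_rpow (by positivity) (by positivity)]
    ring

theorem euler (h1 : S_Zeta) (h2 : S_Euler) (χ : ClassGroup (𝓞 K) →* ℤˣ) {s : ℝ} (hs : 1 < s) :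
    Tendsto (fun T : Finset (Pr K) => ∏ p ∈ T, (1 - sn χ (pz p) * nm s (pz p))⁻¹) atTop
      (𝓝 (∑' I, sn χ I * nm s I)) := by
  have ha : ∀ I : (Ideal (𝓞 K))⁰, |sn χ I * nm s I| = nm s I := fun I => by
    rw [abs_mul, abs_sn, one_mul, abs_of_nonneg (nm_nonneg s I)]
  refine h2 K (fc χ s) (Summable.of_norm ?_) fun p => ?_
  · exact ((h1 K).1 s hs).congr fun I => (ha I).symm
  · exact lt_of_eq_of_lt (ha _) (nm_lt_one hs p)

theorem euler1 (h1 : S_Zeta) (h2 : S_Euler) {s : ℝ} (hs : 1 < s) :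
    Tendsto (fun T : Finset (Pr K) => ∏ p ∈ T, (1 - nm s (pz p))⁻¹) atTop
      (𝓝 (∑' I, nm (K := K) s I)) := by
  simpa only [sn_one, one_mul] using euler (K := K) h1 h2 1 hs

theorem prod_le {α : Type} (S : Finset α) (y : α → ℝ) (x : ℝ) (n : ℕ) (hx0 : 0 ≤ x) (hx : x < 1)
    (hn : S.card ≤ n) (hy : ∀ a ∈ S, y a ≤ x) :
    0 ≤ ∏ a ∈ S, (1 - y a)⁻¹ ∧ ∏ a ∈ S, (1 - y a)⁻¹ ≤ (1 - x)⁻¹ ^ n := by
  have h0 : ∀ a ∈ S, 0 ≤ (1 - y a)⁻¹ := fun a ha => inv_nonneg.2 (by linarith [hy a ha])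
  refine ⟨prod_nonneg h0, ?_⟩
  calc ∏ a ∈ S, (1 - y a)⁻¹ ≤ ∏ _a ∈ S, (1 - x)⁻¹ :=
        prod_le_prod h0 fun a ha => inv_anti₀ (by linarith) (by linarith [hy a ha])
    _ = (1 - x)⁻¹ ^ S.card := prod_const _
    _ ≤ _ := pow_le_pow_right₀ ((one_le_inv₀ (by linarith)).2 (by linarith)) hn

theorem loc2 {x e₁ e₂ : ℝ} (hx0 : 0 ≤ x) (hx : x < 1) (h₁ : e₁ = 1 ∨ e₁ = -1)
    (h₂ : e₂ = 1 ∨ e₂ = -1) : ((1 - x ^ 2)⁻¹ ^ 1) ^ 2 ≤
      (1 - x)⁻¹ * (1 - e₁ * x)⁻¹ * (1 - e₂ * x)⁻¹ * (1 - e₁ * e₂ * x)⁻¹ := by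
  have a1 : 0 < 1 - x := by linarith
  have a2 : 0 < 1 + x := by linarith
  have e : (1 - x ^ 2)⁻¹ = (1 - x)⁻¹ * (1 + x)⁻¹ := by
    rw [← mul_inv]; congr 1; ring
  have b1 : (1 + x)⁻¹ ≤ (1 - x)⁻¹ := inv_anti₀ a1 (by linarith)
  have b2 : 0 ≤ (1 + x)⁻¹ := inv_nonneg.2 a2.le
  rw [e]
  rcases h₁ with rfl | rfl <;> rcases h₂ with rfl | rfl <;>
    simp only [one_mul, neg_mul, mul_one, mul_neg, sub_neg_eq_add, neg_neg, pow_one]
  · generalize (1 + x)⁻¹ = v at *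
    generalize (1 - x)⁻¹ = u at *
    have h3 : u * v ≤ u * u := mul_le_mul_of_nonneg_left b1 (b2.trans b1)
    calc (u * v) ^ 2 ≤ (u * u) ^ 2 := pow_le_pow_left₀ (mul_nonneg (b2.trans b1) b2) h3 2
      _ = _ := by ring
  all_goals exact le_of_eq (by ring)

end SIP

open SIP

theorem p_SI (h1 : S_Zeta) (h2 : S_Euler) (h3 : S_LB) : S_SI := by
  intro K L _ _ _ _ _ π χ₁ χ₂ n1 n2 n3 H
  have key : ∀ s : ℝ, 1 < s → (∑' I, nm (K := L) s I) ^ 2 ≤ (∑' I, nm (K := K) s I) *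
      (∑' I, sn χ₁ I * nm s I) * (∑' I, sn χ₂ I * nm s I) * ∑' I, sn (χ₁ * χ₂) I * nm s I := by
    intro s hs
    have hK := (((euler1 (K := K) h1 h2 hs).mul (euler h1 h2 χ₁ hs)).mul (euler h1 h2 χ₂ hs)).mul
      (euler h1 h2 (χ₁ * χ₂) hs)
    refine le_of_tendsto' ((euler1 (K := L) h1 h2 hs).pow 2) fun T' => ?_
    refine ge_of_tendsto hK ((eventually_ge_atTop (T'.image π)).mono fun T hT => ?_)
    rw [← prod_fiberwise_of_maps_to (g := π) (t := T) (fun P hP => hT (mem_image_of_mem π hP)),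
      ← prod_pow]
    simp only [← prod_mul_distrib]
    refine prod_le_prod (fun p _ => sq_nonneg _) fun p _ => ?_
    obtain ⟨P₁, P₂, a1, a2⟩ := H p
    have x0 := nm_nonneg s (pz p)
    have x1 := nm_lt_one hs p
    have hp : (0 : ℝ) < np p := by exact_mod_cast lt_of_lt_of_le two_pos (two_le_np p)
    have hsub : T'.filter (fun P => π P = p) ⊆ {P₁, P₂} := fun P hP => by
      simpa using (a1 P (mem_filter.1 hP).2).1
    rcases a2 with ⟨b1, b2⟩ | ⟨rfl, b2⟩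
    · have c1 : sn χ₁ (pz p) = 1 := by simp [sn, b1]
      have c2 : sn χ₂ (pz p) = 1 := by simp [sn, b2]
      obtain ⟨d0, d1⟩ := prod_le (T'.filter fun P => π P = p) (fun P => nm s (pz P))
        (nm s (pz p)) 2 x0 x1 ((card_le_card hsub).trans card_le_two) fun P hP => by
          rw [nm_pz, nm_pz]
          exact Real.rpow_le_rpow_of_nonpos hp
            (by exact_mod_cast (a1 P (mem_filter.1 hP).2).2) (by linarith)
      rw [sn_mul, c1, c2]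
      refine (pow_le_pow_left₀ d0 d1 2).trans (le_of_eq ?_)
      simp only [one_mul]
      ring
    · obtain ⟨d0, d1⟩ := prod_le (T'.filter fun P => π P = p) (fun P => nm s (pz P))
        (nm s (pz p) ^ 2) 1 (by positivity) (by nlinarith)
        ((card_le_card hsub).trans (by simp)) fun P hP => by
          rw [nm_pz, nm_pz, ← Real.rpow_natCast, ← Real.rpow_mul hp.le, mul_comm,
            Real.rpow_mul hp.le, Real.rpow_natCast]
          exact Real.rpow_le_rpow_of_nonpos (by positivity)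
            (by exact_mod_cast b2 P (mem_filter.1 hP).2) (by linarith)
      rw [sn_mul]
      exact (pow_le_pow_left₀ d0 d1 2).trans (loc2 x0 x1 (sn_cases _ _) (sn_cases _ _))
  obtain ⟨C₁, e1⟩ := h3 K χ₁ n1
  obtain ⟨C₂, e2⟩ := h3 K χ₂ n2
  obtain ⟨C₃, e3⟩ := h3 K (χ₁ * χ₂) n3
  obtain ⟨ρ, -, t1⟩ := (h1 K).2
  obtain ⟨ρ', p2, t2⟩ := (h1 L).2
  have t0 : Tendsto (fun s : ℝ => s - 1) (𝓝[>] 1) (𝓝 0) := by
    have : Tendsto (fun s : ℝ => s - 1) (𝓝 1) (𝓝 (1 - 1)) := tendsto_id.sub_const 1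
    rw [sub_self] at this
    exact this.mono_left nhdsWithin_le_nhds
  have t3 := (t0.mul t1).mul_const (C₁ * C₂ * C₃)
  rw [zero_mul, zero_mul] at t3
  have fin : ρ' ^ 2 ≤ 0 := by
    refine le_of_tendsto_of_tendsto (t2.pow 2) t3 ?_
    filter_upwards [e1, e2, e3, self_mem_nhdsWithin] with s f1 f2 f3 hs
    have k1 := key s hs
    have z0 : 0 ≤ ∑' I, nm (K := K) s I := tsum_nonneg (nm_nonneg s)
    change |∑' I, sn χ₁ I * nm s I| ≤ C₁ at f1
    change |∑' I, sn χ₂ I * nm s I| ≤ C₂ at f2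
    change |∑' I, sn (χ₁ * χ₂) I * nm s I| ≤ C₃ at f3
    generalize (∑' I, sn χ₁ I * nm s I) = A₁ at *
    generalize (∑' I, sn χ₂ I * nm s I) = A₂ at *
    generalize (∑' I, sn (χ₁ * χ₂) I * nm s I) = A₃ at *
    generalize (∑' I, nm (K := K) s I) = Z at *
    generalize (∑' I, nm (K := L) s I) = Z' at *
    have g1 : A₁ * A₂ * A₃ ≤ C₁ * C₂ * C₃ := by
      refine (le_abs_self _).trans ?_
      rw [abs_mul, abs_mul]
      have := (abs_nonneg _).trans f1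
      have := (abs_nonneg _).trans f2
      gcongr
    have g2 : Z' ^ 2 ≤ Z * (C₁ * C₂ * C₃) :=
      k1.trans ((le_of_eq (by ring)).trans (mul_le_mul_of_nonneg_left g1 z0))
    calc ((s - 1) * Z') ^ 2 = (s - 1) ^ 2 * Z' ^ 2 := by ring
      _ ≤ (s - 1) ^ 2 * (Z * (C₁ * C₂ * C₃)) := mul_le_mul_of_nonneg_left g2 (sq_nonneg _)
      _ = _ := by ring
  exact absurd fin (not_le.2 (by positivity))

end Pool.Agent.P.MP_44bffd_co.PB
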