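import Pool.Agent.P.MP_44bffd_co.PB.DA

/-! Short relations span the weighted hyperplane; extension of maps with given fibre sizes. -/

namespace Pool.Agent.P.MP_44bffd_co.PB

open Finset
open scoped Classical

namespace SpanP

variable {K c : ℕ}

/-- The relation that links two consecutive atoms. -/
noncomputable def zz (k : Fin K) : Option (Fin K) × ZMod c → ℤ
  | (some j, i) => (if j = k then (if i = 0 then 1 else 0) + (if i = 1 then 1 else 0) else 0) -
      if (j : ℕ) = k + 1 then (if i = 0 then 1 else 0) else 0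
  | (none, i) => -(if i = 0 then 1 else 0) -
      if (k : ℕ) + 1 = K then (if i = 1 then 1 else 0) + (if i = 2 then 1 else 0) else 0

/-- The relation inside one atom. -/
noncomputable def zd (q b : Option (Fin K) × ZMod c) : ℤ :=
  (if b = q then 1 else 0) - if b = (q.1, 0) then 1 else 0

theorem ne_cast (hc : 3 ≤ c) {s t : ℕ} (hs : s < 3) (ht : t < 3) (h : s ≠ t) :
    (s : ZMod c) ≠ (t : ZMod c) := fun e => by
  rw [ZMod.natCast_eq_natCast_iff', Nat.mod_eq_of_lt (by omega), Nat.mod_eq_of_lt (by omega)] at e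
  exact h e

theorem zz_val (hc : 3 ≤ c) (k : Fin K) (b : Option (Fin K) × ZMod c) :
    zz k b = 1 ∨ zz k b = 0 ∨ zz k b = -1 := by
  have h01 : (0 : ZMod c) ≠ 1 := by simpa using ne_cast hc (s := 0) (t := 1) (by omega) (by omega)
  have h02 : (0 : ZMod c) ≠ 2 := by simpa using ne_cast hc (s := 0) (t := 2) (by omega) (by omega)
  have h12 : (1 : ZMod c) ≠ 2 := by simpa using ne_cast hc (s := 1) (t := 2) (by omega) (by omega)
  obtain ⟨_ | j, i⟩ := b
  · simp only [zz]
    by_cases a0 : i = 0
    · subst a0; simp [h01, h02]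
    by_cases a1 : i = 1
    · subst a1; simp [h01.symm, h12]; tauto
    · simp only [a0, a1, if_false]; split_ifs <;> simp
  · simp only [zz]
    by_cases a : j = k
    · subst a
      by_cases a0 : i = 0
      · subst a0; simp [h01]
      · simp only [a0, if_false]; split_ifs <;> simp
    · simp only [a, if_false]; split_ifs <;> simp

theorem zz_card [NeZero c] (k : Fin K) :
    (univ.filter fun b : Option (Fin K) × ZMod c => zz k b ≠ 0).card ≤ 5 := by
  by_cases h : (k : ℕ) + 1 < K
  · refine le_trans (card_le_card (t := {(some k, 0), (some k, 1), (some ⟨k + 1, h⟩, 0), (none, 0)})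
      ?_) (Finset.card_le_four.trans (by norm_num))
    rintro ⟨_ | j, i⟩ hb
    · have h1 := (mem_filter.1 hb).2
      simp only [zz, if_neg h.ne] at h1
      have : i = 0 := by by_contra h2; simp [h2] at h1
      simp [this]
    · have h1 := (mem_filter.1 hb).2
      simp only [zz] at h1
      by_cases a : j = k
      · have : i = 0 ∨ i = 1 := by by_contra h2; push Not at h2; simp [h2.1, h2.2] at h1
        rcases this with rfl | rfl <;> simp [a]
      · have h2 : (j : ℕ) = k + 1 := by by_contra h2; simp [a, h2] at h1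
        have h3 : i = 0 := by by_contra h3; simp [a, h3] at h1
        have h4 : j = ⟨k + 1, h⟩ := Fin.ext h2
        simp [h3, h4]
  · refine le_trans (card_le_card (t := {(some k, 0), (some k, 1), (none, 0), (none, 1), (none, 2)})
      ?_) card_le_five
    rintro ⟨_ | j, i⟩ hb
    · have h1 := (mem_filter.1 hb).2
      simp only [zz] at h1
      have : i = 0 ∨ i = 1 ∨ i = 2 := by
        by_contra h2; push Not at h2; simp [h2.1, h2.2.1, h2.2.2] at h1
      rcases this with rfl | rfl | rfl <;> simp
    · have h1 := (mem_filter.1 hb).2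
      have h2 : (j : ℕ) ≠ k + 1 := by have := j.2; omega
      simp only [zz, if_neg h2] at h1
      have a : j = k := by by_contra a; simp [a] at h1
      have : i = 0 ∨ i = 1 := by by_contra h2; push Not at h2; simp [h2.1, h2.2] at h1
      rcases this with rfl | rfl <;> simp [a]

theorem zz_some [NeZero c] (k j : Fin K) : ∑ i : ZMod c, zz k (some j, i) =
    (if j = k then 2 else 0) - if (j : ℕ) = k + 1 then 1 else 0 := by
  simp only [zz, sum_sub_distrib]
  congr 1 <;> split_ifs <;> simp [sum_add_distrib]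

theorem zz_none [NeZero c] (k : Fin K) : ∑ i : ZMod c, zz k (none, i) =
    -1 - if (k : ℕ) + 1 = K then 2 else 0 := by
  simp only [zz, sum_sub_distrib]
  congr 1
  · simp
  · split_ifs <;> simp [sum_add_distrib]

theorem zz_sum [NeZero c] (k : Fin K) :
    ∑ b : Option (Fin K) × ZMod c, (nu K b.1 : ℤ) * zz k b = 0 := by
  rw [Fintype.sum_prod_type, Fintype.sum_option]
  simp only [← mul_sum, zz_some, zz_none, mul_sub, sum_sub_distrib, mul_ite, mul_zero, mul_one,
    sum_ite_eq', mem_univ, if_true]
  by_cases h : (k : ℕ) + 1 < K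
  · rw [if_neg h.ne, sum_eq_single (⟨k + 1, h⟩ : Fin K) (fun j _ hj => if_neg fun e => hj (Fin.ext e))
      (by simp), if_pos rfl]
    simp only [nu]; push_cast; ring
  · have e : (k : ℕ) + 1 = K := by have := k.2; omega
    rw [if_pos e, sum_eq_zero fun j _ => if_neg (by have := j.2; omega)]
    have e2 : (2 : ℤ) ^ K = 2 ^ (k : ℕ) * 2 := by rw [← pow_succ, e]
    simp only [nu]; push_cast; rw [e2]; ring

theorem zd_val (q b : Option (Fin K) × ZMod c) : zd q b = 1 ∨ zd q b = 0 ∨ zd q b = -1 := by
  unfold zd; split_ifs <;> simp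

theorem zd_card [NeZero c] (q : Option (Fin K) × ZMod c) :
    (univ.filter fun b => zd q b ≠ 0).card ≤ 5 := by
  refine le_trans (card_le_card (t := {q, (q.1, 0)}) fun b hb => ?_)
    (card_le_two.trans (by norm_num))
  have h1 := (mem_filter.1 hb).2
  by_contra h2
  simp only [mem_insert, mem_singleton, not_or] at h2
  simp [zd, h2.1, h2.2] at h1

theorem zd_sum [NeZero c] (q : Option (Fin K) × ZMod c) :
    ∑ b : Option (Fin K) × ZMod c, (nu K b.1 : ℤ) * zd q b = 0 := by
  simp [zd, mul_sub, sum_sub_distrib]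

/-- The sum over one atom. -/
noncomputable def YY (K c : ℕ) [NeZero c] (k : ℕ) : (Option (Fin K) × ZMod c → ℝ) →ₗ[ℝ] ℝ :=
  if h : k < K then ∑ i : ZMod c, LinearMap.proj (some ⟨k, h⟩, i) else 0

/-- The coefficients of the linking relations. -/
noncomputable def aa (K c : ℕ) [NeZero c] : ℕ → (Option (Fin K) × ZMod c → ℝ) →ₗ[ℝ] ℝ
  | 0 => 0
  | k + 1 => (1 / 2 : ℝ) • (YY K c k + aa K c k)

variable [NeZero c]

theorem YY_fin (j : Fin K) (y : Option (Fin K) × ZMod c → ℝ) :
    YY K c j y = ∑ i, y (some j, i) := by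
  simp [YY, j.2]

theorem aa_le {y : Option (Fin K) × ZMod c → ℝ} {σ : ℝ} (h : ∀ b, |y b| ≤ σ) (k : ℕ) :
    |aa K c k y| ≤ c * σ := by
  have h0 : 0 ≤ σ := (abs_nonneg _).trans (h (none, 0))
  induction k with
  | zero => simp only [aa, LinearMap.zero_apply, abs_zero]; positivity
  | succ k ih =>
    have h1 : |YY K c k y| ≤ c * σ := by
      by_cases hk : k < K
      · rw [YY_fin ⟨k, hk⟩ y]
        refine (abs_sum_le_sum_abs _ _).trans ((sum_le_sum fun i _ => h _).trans (le_of_eq ?_))
        rw [sum_const, card_univ, ZMod.card, nsmul_eq_mul]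
      · simp only [YY, dif_neg hk, LinearMap.zero_apply, abs_zero]; positivity
    simp only [aa, LinearMap.smul_apply, LinearMap.add_apply, smul_eq_mul]
    rw [abs_le] at *
    constructor <;> linarith [h1.1, h1.2, ih.1, ih.2]

/-- The remainder after removing the linking relations. -/
noncomputable def rm (q : Option (Fin K) × ZMod c) : (Option (Fin K) × ZMod c → ℝ) →ₗ[ℝ] ℝ :=
  LinearMap.proj q - ∑ k : Fin K, (zz k q : ℝ) • aa K c (k + 1)

theorem rm_apply (q : Option (Fin K) × ZMod c) (y : Option (Fin K) × ZMod c → ℝ) :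
    rm q y = y q - ∑ k : Fin K, aa K c (k + 1) y * zz k q := by
  simp [rm, mul_comm]

theorem rm_some (j : Fin K) (y : Option (Fin K) × ZMod c → ℝ) : ∑ i, rm (some j, i) y = 0 := by
  simp only [rm_apply, sum_sub_distrib]
  rw [sum_comm, ← YY_fin]
  simp only [← mul_sum, ← Int.cast_sum, zz_some]
  push_cast
  simp only [mul_sub, sum_sub_distrib, mul_ite, mul_zero, mul_one, sum_ite_eq, mem_univ, if_true]
  have e : ∑ k : Fin K, (if (j : ℕ) = k + 1 then aa K c (k + 1) y else 0) = aa K c j y := by
    obtain ⟨_ | n, hn⟩ := j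
    · simp [aa]
    · rw [sum_eq_single (⟨n, by omega⟩ : Fin K)
        (fun k _ hk => if_neg fun e => hk (Fin.ext (by simp only at e ⊢; omega))) (by simp), if_pos rfl]
  rw [e]
  simp only [aa, LinearMap.smul_apply, LinearMap.add_apply, smul_eq_mul]
  ring

theorem rm_fib {y : Option (Fin K) × ZMod c → ℝ} (h : ∑ b, (nu K b.1 : ℝ) * y b = 0)
    (β : Option (Fin K)) : ∑ i, rm (β, i) y = 0 := by
  cases β with
  | some j => exact rm_some j y
  | none =>
    have h1 : ∑ b : Option (Fin K) × ZMod c, (nu K b.1 : ℝ) * rm b y = 0 := by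
      simp only [rm_apply, mul_sub, sum_sub_distrib, h, mul_sum]
      rw [sum_comm, zero_sub, neg_eq_zero]
      refine sum_eq_zero fun k _ => ?_
      have h2 : ∑ b : Option (Fin K) × ZMod c, (nu K b.1 : ℝ) * zz k b = 0 := by
        exact_mod_cast zz_sum (c := c) k
      calc _ = aa K c (k + 1) y * ∑ b : Option (Fin K) × ZMod c, (nu K b.1 : ℝ) * zz k b := by
            rw [mul_sum]; exact sum_congr rfl fun b _ => by ring
        _ = 0 := by rw [h2, mul_zero]
    rw [Fintype.sum_prod_type, Fintype.sum_option] at h1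
    simp only [← mul_sum, rm_some, mul_zero, sum_const_zero, add_zero] at h1
    refine (mul_eq_zero.1 h1).resolve_left ?_
    simp [nu]

end SpanP

open SpanP in
theorem p_Span : S_Span := by
  intro K c _ hK hc
  refine ⟨(Option (Fin K) × ZMod c) ⊕ Fin K, inferInstance, ⟨Sum.inl (none, 0)⟩, Sum.elim zd zz,
    Sum.elim rm fun k => aa K c (k + 1), ?_, ⟨?_, ?_, ?_⟩, ?_, ?_⟩
  · simp only [Fintype.card_sum, Fintype.card_prod, Fintype.card_option, Fintype.card_fin, ZMod.card]
    nlinarith
  · rintro (q | k) b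
    exacts [zd_val q b, zz_val hc k b]
  · rintro (q | k)
    · convert zd_card q; rfl
    · convert zz_card (c := c) k; rfl
  · rintro (q | k)
    exacts [zd_sum q, zz_sum k]
  · intro γ y σ h
    have h0 : 0 ≤ σ := (abs_nonneg _).trans (h (none, 0))
    have hc' : (3 : ℝ) ≤ c := by exact_mod_cast hc
    have hK' : (0 : ℝ) ≤ K * (c * σ) := by positivity
    push_cast
    rcases γ with q | k
    · simp only [Sum.elim_inl, rm_apply]
      have h1 : |∑ k : Fin K, aa K c (k + 1) y * zz k q| ≤ K * (c * σ) := by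
        refine (abs_sum_le_sum_abs _ _).trans
          ((sum_le_sum (g := fun _ => c * σ) fun k _ => ?_).trans (le_of_eq ?_))
        · rw [abs_mul]
          refine le_trans (mul_le_of_le_one_right (abs_nonneg _) ?_) (aa_le h _)
          rcases zz_val hc k q with e | e | e <;> simp [e]
        · simp
      have h2 := abs_sub (y q) (∑ k : Fin K, aa K c (k + 1) y * zz k q)
      nlinarith [h q]
    · simp only [Sum.elim_inr]
      linarith [aa_le h (k + 1)]
  · intro y h b
    rw [Fintype.sum_sum_type]
    simp only [Sum.elim_inl, Sum.elim_inr, zd]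
    push_cast
    simp only [mul_sub, sum_sub_distrib, mul_ite, mul_one, mul_zero, sum_ite_eq, mem_univ, if_true]
    have e : ∑ q : Option (Fin K) × ZMod c, (if b = (q.1, 0) then rm q y else 0) = 0 := by
      rw [Fintype.sum_prod_type]
      refine sum_eq_zero fun β _ => ?_
      by_cases hb : b = (β, 0)
      · simp only [if_pos hb]; exact rm_fib h β
      · simp only [if_neg hb]; exact sum_const_zero
    rw [e, rm_apply]
    ring

theorem p_Fib : S_Fib := by
  intro X C _ _ m S f h1 h2
  have h3 : S.card = ∑ κ, (S.filter fun x => f x = κ).card :=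
    card_eq_sum_card_fiberwise fun _ _ => mem_univ _
  have hc : Fintype.card {x // x ∉ S} =
      Fintype.card (Σ κ : C, Fin (m κ - (S.filter fun x => f x = κ).card)) := by
    rw [Fintype.card_sigma, Fintype.card_subtype_compl, Fintype.card_coe, ← h1, h3,
      ← sum_tsub_distrib _ fun κ _ => h2 κ]
    simp
  let e := Fintype.equivOfCardEq hc
  refine ⟨fun x => if h : x ∈ S then f x else (e ⟨x, h⟩).1, fun x hx => dif_pos hx, fun κ => ?_⟩
  rw [card_filter, ← sum_add_sum_compl S, sum_subtype Sᶜ (p := fun x => x ∉ S) (by simp)]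
  have e1 : ∑ x ∈ S, (if (if h : x ∈ S then f x else (e ⟨x, h⟩).1) = κ then 1 else 0) =
      (S.filter fun x => f x = κ).card := by
    rw [card_filter]
    exact sum_congr rfl fun x hx => by rw [dif_pos hx]
  have e2 : ∑ x : {x // x ∉ S}, (if (if h : x.1 ∈ S then f x else (e ⟨x, h⟩).1) = κ then 1 else 0) =
      m κ - (S.filter fun x => f x = κ).card := by
    rw [sum_congr rfl fun (x : {x // x ∉ S}) _ => by rw [dif_neg x.2],
      Equiv.sum_comp e (fun y => if y.1 = κ then 1 else 0), Fintype.sum_sigma, sum_eq_single κ]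
    · simp
    · intro b _ hb; simp [hb]
    · simp
  rw [e1, e2]
  exact Nat.add_sub_cancel' (h2 κ)

end Pool.Agent.P.MP_44bffd_co.PB
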