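import Pool.Agent.P.MP_44bffd_co.PB.DB

/-! Splitting of group extensions by the multiplicative group along a chain of subgroups. -/

namespace Pool.Agent.P.MP_44bffd_co.PB

open NumberField
open scoped Classical

namespace SplitP

variable {G L Γ : Type} [Group G] [Field L] [MulSemiringAction G L] [Group Γ]

/-- The action on the units. -/
def act (g : G) (a : Lˣ) : Lˣ := Units.mk0 (g • (a : L)) (smul_ne g a.ne_zero)

/-- A section over the subgroup `H`. -/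
def Sec (π : Γ →* G) (H : Subgroup G) (s : G → Γ) : Prop :=
  (∀ h ∈ H, π (s h) = h) ∧ ∀ h ∈ H, ∀ h' ∈ H, s (h * h') = s h * s h'

theorem conj_mem {H : Subgroup G} {g : G} (h2 : g * g ∈ H) (h3 : ∀ h ∈ H, g * h * g⁻¹ ∈ H) {h : G}
    (hh : h ∈ H) : g⁻¹ * h * g ∈ H := by
  have := H.mul_mem (H.mul_mem (H.inv_mem h2) (h3 h hh)) h2
  convert this using 1
  group

theorem glue {π : Γ →* G} {H K : Subgroup G} {s : G → Γ} (hs : Sec π H s) {g : G}
    (h2 : g * g ∈ H) (h3 : ∀ h ∈ H, g * h * g⁻¹ ∈ H) (h4 : ∀ x ∈ K, x ∈ H ∨ g⁻¹ * x ∈ H) {γ : Γ}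
    (e1 : π γ = g) (e2 : ∀ h ∈ H, γ * s (g⁻¹ * h * g) = s h * γ) (e3 : γ * γ = s (g * g)) :
    Sec π K (fun x => if x ∈ H then s x else γ * s (g⁻¹ * x)) := by
  refine ⟨fun x hx => ?_, fun x hx y hy => ?_⟩
  · by_cases a : x ∈ H
    · simp only [a, if_true, hs.1 x a]
    · simp only [a, if_false, map_mul, e1, hs.1 _ ((h4 x hx).resolve_left a), mul_inv_cancel_left]
  · by_cases a : x ∈ H <;> by_cases b : y ∈ H
    · simp only [a, b, H.mul_mem a b, if_true, hs.2 x a y b]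
    · have c : x * y ∉ H := fun c => b ((H.mul_mem_cancel_left a).1 c)
      have b' := (h4 y hy).resolve_left b
      simp only [a, b, c, if_true, if_false]
      rw [← mul_assoc (s x), ← e2 x a, mul_assoc γ, ← hs.2 _ (conj_mem h2 h3 a) _ b']
      congr 2
      group
    · have c : x * y ∉ H := fun c => a ((H.mul_mem_cancel_right b).1 c)
      have a' := (h4 x hx).resolve_left a
      simp only [a, b, c, if_true, if_false]
      rw [mul_assoc γ, ← hs.2 _ a' _ b, mul_assoc]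
    · have a' := (h4 x hx).resolve_left a
      have b' := (h4 y hy).resolve_left b
      have e : x * y = g * (g⁻¹ * x) * g⁻¹ * (g * g * (g⁻¹ * y)) := by group
      have c : x * y ∈ H := e ▸ H.mul_mem (h3 _ a') (H.mul_mem h2 b')
      simp only [a, b, c, if_true, if_false]
      have e4 := e2 _ (h3 _ a')
      rw [show g⁻¹ * (g * (g⁻¹ * x) * g⁻¹) * g = g⁻¹ * x by group] at e4
      rw [e, hs.2 _ (h3 _ a') _ (H.mul_mem h2 b'), hs.2 _ h2 _ b', e4, ← e3]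
      group

theorem norm1 (h90 : S_H90) [Finite G] [FaithfulSMul G L] {π : Γ →* G} {ι : Lˣ →* Γ}
    (hι : Function.Injective ι) (hk : ∀ γ, π γ = 1 ↔ ∃ a, ι a = γ)
    (hc : ∀ (γ : Γ) (a : Lˣ), γ * ι a = ι (act (π γ) a) * γ) {H : Subgroup G} {s : G → Γ}
    (hs : Sec π H s) {g : G} (h2 : g * g ∈ H) (h3 : ∀ h ∈ H, g * h * g⁻¹ ∈ H) {γ : Γ}
    (e1 : π γ = g) : ∃ γ' : Γ, π γ' = g ∧ ∀ h ∈ H, γ' * s (g⁻¹ * h * g) = s h * γ' := by
  have hz : ∀ h : H, ∃ a : Lˣ, γ * s (g⁻¹ * h * g) = ι a * (s h * γ) := fun h => by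
    obtain ⟨a, ha⟩ := (hk (γ * s (g⁻¹ * h * g) * (s h * γ)⁻¹)).1 (by
      simp only [map_mul, map_inv, e1, hs.1 _ (conj_mem h2 h3 h.2), hs.1 _ h.2]
      group)
    exact ⟨a, by rw [ha, inv_mul_cancel_right]⟩
  choose z hz using hz
  obtain ⟨b, hb, eb⟩ := h90 H L (fun h => (z h : L)) (fun h => (z h).ne_zero) (fun h h' => by
    have a1 := hz (h * h')
    rw [Subgroup.coe_mul, show g⁻¹ * (h * h' : G) * g = g⁻¹ * h * g * (g⁻¹ * h' * g) by group,
      hs.2 _ (conj_mem h2 h3 h.2) _ (conj_mem h2 h3 h'.2), ← mul_assoc γ, hz h, mul_assoc,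
      mul_assoc (s h), hz h', ← mul_assoc (s h), hc, hs.1 _ h.2, hs.2 _ h.2 _ h'.2] at a1
    have a2 : ι (z (h * h')) = ι (z h * act (h : G) (z h')) := by
      rw [map_mul]
      refine mul_right_cancel (b := s h * s h' * γ) ?_
      rw [← a1]
      group
    rw [hι a2]
    rfl)
  refine ⟨ι (Units.mk0 b hb) * γ, ?_, fun h hh => ?_⟩
  · rw [map_mul, (hk _).2 ⟨_, rfl⟩, one_mul, e1]
  · have a1 : act h (Units.mk0 b hb) = Units.mk0 b hb * z ⟨h, hh⟩ :=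
      Units.ext ((eb ⟨h, hh⟩).trans (mul_comm _ _))
    rw [mul_assoc, hz ⟨h, hh⟩, ← mul_assoc (s h), hc, hs.1 h hh, a1, map_mul]
    group

theorem step (h90 : S_H90) (hp : S_Perm) [NumberField L] [Finite G] [FaithfulSMul G L]
    {π : Γ →* G} {ι : Lˣ →* Γ} {D : Γ → Pr L →₀ ℤ} (hN : HN G L)
    (hι : Function.Injective ι) (hk : ∀ γ, π γ = 1 ↔ ∃ a, ι a = γ)
    (hc : ∀ (γ : Γ) (a : Lˣ), γ * ι a = ι (act (π γ) a) * γ)
    (hD : ∀ γ γ' P, D (γ * γ') P = D γ P + D γ' ((π γ)⁻¹ • P))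
    (hv : ∀ a P, D (ι a) P = val P (a : L)) {H : Subgroup G} {s : G → Γ}
    (hs : Sec π H s) {g : G} (h1 : g ∉ H) (h2 : g * g ∈ H) (h3 : ∀ h ∈ H, g * h * g⁻¹ ∈ H) {γ₀ : Γ}
    (e0 : π γ₀ = g) : ∃ γ' : Γ, π γ' = g ∧ (∀ h ∈ H, γ' * s (g⁻¹ * h * g) = s h * γ') ∧
      γ' * γ' = s (g * g) := by
  obtain ⟨γ, e1, e2⟩ := norm1 h90 hι hk hc hs h2 h3 e0
  have hπ : ∀ a, π (ι a) = 1 := fun a => (hk _).2 ⟨_, rfl⟩
  obtain ⟨B, hB⟩ := hp H (Pr L) (fun h => D (s h)) (fun h h' P => by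
    rw [Subgroup.coe_mul, hs.2 _ h.2 _ h'.2, hD, hs.1 _ h.2]
    rfl)
  have hB' : ∀ h ∈ H, ∀ P, D (s h) P = B (h⁻¹ • P) - B P := fun h hh P => hB ⟨h, hh⟩ P
  obtain ⟨a, ha⟩ := (hk (γ * γ * (s (g * g))⁻¹)).1 (by
    simp only [map_mul, map_inv, e1, hs.1 _ h2]
    group)
  have e3 : γ * γ = ι a * s (g * g) := by rw [ha, inv_mul_cancel_right]
  set E : Pr L →₀ ℤ := D γ - (Finsupp.equivMapDomain (MulAction.toPerm g) B - B) with hE
  have hE' : ∀ P, E P = D γ P - (B (g⁻¹ • P) - B P) := fun P => rfl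
  have i1 : ∀ h ∈ H, ∀ P, E (h⁻¹ • P) = E P := fun h hh P => by
    have a1 := congrArg (fun x => D x P) (e2 h hh)
    simp only [hD, e1, hs.1 h hh, hB' h hh, hB' _ (conj_mem h2 h3 hh), smul_smul] at a1
    rw [show (g⁻¹ * h * g)⁻¹ * g⁻¹ = g⁻¹ * h⁻¹ by group] at a1
    rw [hE', hE', smul_smul]
    linarith
  have i2 : ∀ h ∈ H, ∀ P, E (h • P) = E P := fun h hh P => by
    simpa using i1 _ (H.inv_mem hh) P
  have i3 : ∀ P, val P (a : L) = E P + E (g • P) := fun P => by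
    have a1 := congrArg (fun x => D x P) e3
    simp only [hD, e1, hv, hπ, inv_one, one_smul, hB' _ h2] at a1
    rw [← i1 _ h2 (g • P), smul_smul, show (g * g)⁻¹ * g = g⁻¹ by group, hE', hE', smul_smul,
      ← mul_inv_rev]
    linarith
  have i4 : ∀ h ∈ H, h • (a : L) = a := fun h hh => by
    have b1 := conj_mem h2 h3 hh
    have b2 := conj_mem h2 h3 b1
    have a1 : γ * γ * s (g⁻¹ * (g⁻¹ * h * g) * g) = s h * (γ * γ) := by
      rw [mul_assoc, e2 _ b1, ← mul_assoc, e2 _ hh, mul_assoc]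
    rw [e3, mul_assoc, ← hs.2 _ h2 _ b2, show g * g * (g⁻¹ * (g⁻¹ * h * g) * g) = h * (g * g) by
      group, hs.2 _ hh _ h2, ← mul_assoc (s h), hc, hs.1 h hh, mul_assoc] at a1
    exact congrArg Units.val (hι (mul_right_cancel a1)).symm
  have i5 : g • (a : L) = a := by
    have a1 := e2 _ h2
    rw [show g⁻¹ * (g * g) * g = g * g by group] at a1
    have a2 : γ * (ι a * s (g * g)) = ι a * s (g * g) * γ := by rw [← e3, mul_assoc]
    rw [← mul_assoc, hc, e1, mul_assoc, a1, mul_assoc] at a2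
    exact congrArg Units.val (hι (mul_right_cancel a2))
  obtain ⟨b, hb, eb⟩ := hN H g h1 h2 h3 a E a.ne_zero i4 i5 i2 i3
  have b0 : b ≠ 0 := fun h => a.ne_zero (by rw [eb, h, zero_mul])
  set β : Lˣ := (Units.mk0 b b0)⁻¹ with hβ
  have hβ' : (β : L) = b⁻¹ := by simp [hβ]
  refine ⟨ι β * γ, by rw [map_mul, hπ, one_mul, e1], fun h hh => ?_, ?_⟩
  · have a1 : act h β = β := Units.ext (by
      change h • (β : L) = β
      rw [hβ', smul_inv'', hb h hh])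
    rw [mul_assoc, e2 h hh, ← mul_assoc (s h), hc, hs.1 h hh, a1, mul_assoc]
  · have a1 : β * (act g β * a) = 1 := Units.ext (by
      change (β : L) * (g • (β : L) * a) = 1
      have := smul_ne g b0
      rw [hβ', smul_inv'', eb]
      field_simp)
    rw [mul_assoc, ← mul_assoc γ, hc, e1, mul_assoc, e3, ← mul_assoc (ι (act g β)), ← map_mul,
      ← mul_assoc, ← map_mul, a1, map_one, one_mul]

theorem half [Finite G] {H K : Subgroup G} (h : H ≤ K) (e : Nat.card K = 2 * Nat.card H) :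
    ∃ g, g ∉ H ∧ g * g ∈ H ∧ (∀ h ∈ H, g * h * g⁻¹ ∈ H) ∧ ∀ x ∈ K, x ∈ H ∨ g⁻¹ * x ∈ H := by
  have a1 : (H.subgroupOf K).index = 2 := by
    have a2 := (H.subgroupOf K).index_mul_card
    rw [Nat.card_congr (Subgroup.subgroupOfEquivOfLe h).toEquiv, e] at a2
    exact Nat.eq_of_mul_eq_mul_right Nat.card_pos a2
  obtain ⟨g, hg⟩ : ∃ g : K, g ∉ H.subgroupOf K := by
    by_contra c
    push Not at c
    rw [(Subgroup.eq_top_iff' _).2 c, Subgroup.index_top] at a1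
    omega
  have a3 := fun x y : K => Subgroup.mul_mem_iff_of_index_two a1 (a := x) (b := y)
  simp only [Subgroup.mem_subgroupOf, Subgroup.coe_mul] at a3 hg
  have hg' : (g : G)⁻¹ ∉ H := fun c => hg (by simpa using c)
  refine ⟨g, hg, (a3 g g).2 Iff.rfl, fun x hx => ?_, fun x hx => ?_⟩
  · have a4 : (g : G) * x ∉ H := fun c => hg ((H.mul_mem_cancel_right hx).1 c)
    exact (a3 (g * ⟨x, h hx⟩) g⁻¹).2 ⟨fun c => (a4 c).elim, fun c => (hg' c).elim⟩
  · by_cases c : x ∈ H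
    · exact Or.inl c
    · exact Or.inr ((a3 g⁻¹ ⟨x, hx⟩).2 ⟨fun d => (hg' d).elim, fun d => (c d).elim⟩)

end SplitP

open SplitP

theorem p_Split (h1 : S_H90) (h2 : S_Perm) : S_Split := by
  intro G L Γ _ _ _ _ _ _ _ π ι D hG hN hπ hι hk hc hD hv
  have hc' : ∀ (γ : Γ) (a : Lˣ), γ * ι a = ι (act (π γ) a) * γ := fun γ a => by
    rw [← hc γ a (act (π γ) a) rfl, inv_mul_cancel_right]
  have key : ∀ n, 2 ^ n ∣ Nat.card G →
      ∃ (H : Subgroup G) (s : G → Γ), Nat.card H = 2 ^ n ∧ Sec π H s := by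
    intro n
    induction n with
    | zero =>
      intro _
      refine ⟨⊥, fun _ => 1, by simp, fun h hh => ?_, fun _ _ _ _ => by simp⟩
      rw [Subgroup.mem_bot.1 hh, map_one]
    | succ n ih =>
      intro hn
      obtain ⟨H, s, a1, a2⟩ := ih ((pow_dvd_pow 2 n.le_succ).trans hn)
      obtain ⟨K, b1, b2⟩ := Sylow.exists_subgroup_card_pow_succ hn a1
      obtain ⟨g, c1, c2, c3, c4⟩ := half b2 (by rw [b1, a1, pow_succ, mul_comm])
      obtain ⟨γ₀, e0⟩ := hπ g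
      obtain ⟨γ, e1, e2, e3⟩ := step h1 h2 hN hι hk hc' hD hv a2 c1 c2 c3 e0
      exact ⟨K, _, b1, glue a2 c2 c3 c4 e1 e2 e3⟩
  obtain ⟨n, hn⟩ := IsPGroup.iff_card.1 hG
  obtain ⟨H, s, a1, a2⟩ := key n (by rw [hn])
  have hH : ∀ g, g ∈ H := (Subgroup.eq_top_iff' H).1 (Subgroup.eq_top_of_card_eq H (a1.trans hn.symm))
  exact ⟨MonoidHom.mk' s fun a b => a2.2 a (hH a) b (hH b), fun g => a2.1 g (hH g)⟩

end Pool.Agent.P.MP_44bffd_co.PB
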