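import Pool.Agent.P.MP_44bffd_co.PB.DA

/-! One step of the exact regularisation. -/

namespace Pool.Agent.P.MP_44bffd_co.PB

open Finset
open scoped Classical

namespace StepP

theorem exists_c (q K t s : ℕ) (hq : 1 ≤ q) (ht : 100 * (K + 3) ^ 4 ≤ 2 ^ t)
    (hs : s ≤ 8 * q * 2 ^ (K + t)) :
    ∃ c : ℕ, 30 ≤ c ∧ (K + 1) * c ≤ 9 * q * 4 ^ t ∧
      s + (2 * (K + 3) ^ 3 + 10) * Vt K ≤ c * Vt K := by
  have v := Vt_add K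
  have p0 : 0 < 2 ^ K := by positivity
  have v1 : 2 ^ K ≤ Vt K := by
    have : (K + 2) * 2 ^ K = K * 2 ^ K + 2 * 2 ^ K := by ring
    omega
  have k1 : K + 3 ≤ (K + 3) ^ 3 := Nat.le_self_pow (by norm_num) _
  have k2 : (K + 3) ^ 3 ≤ (K + 3) ^ 4 := Nat.pow_le_pow_right (by omega) (by norm_num)
  have d1 : s / Vt K ≤ 8 * q * 2 ^ t := by
    refine Nat.div_le_of_le_mul (hs.trans ?_)
    calc _ = 2 ^ K * (8 * q * 2 ^ t) := by ring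
      _ ≤ _ := by gcongr
  have d2 : 2 ^ t ≤ q * 2 ^ t := Nat.le_mul_of_pos_left _ hq
  have d3 : s < Vt K * (s / Vt K + 1) := Nat.lt_mul_div_succ s (by omega)
  generalize s / Vt K = d at d1 d3
  refine ⟨d + 1 + (2 * (K + 3) ^ 3 + 10) + 30, by omega, ?_, ?_⟩
  · calc _ ≤ 2 ^ t * (9 * (q * 2 ^ t)) := by
          rw [mul_assoc] at d1
          gcongr <;> omega
      _ = _ := by
          rw [show (4 : ℕ) = 2 * 2 from rfl, mul_pow]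
          ring
  · rw [mul_comm] at d3
    rw [add_mul _ 30, add_mul (d + 1)]
    omega

theorem low (K t : ℕ) (ht : 100 * (K + 3) ^ 4 ≤ 2 ^ t) :
    (2 * (K + 3) ^ 3 + 10) * Vt K * 2 ≤ 2 ^ (K + t) := by
  have v := Vt_add K
  have k1 : K + 3 ≤ (K + 3) ^ 3 := Nat.le_self_pow (by norm_num) _
  calc _ ≤ (2 * (K + 3) ^ 3 + 10 * (K + 3) ^ 3) * ((K + 3) * 2 ^ K) * 2 := by
        have : (K + 3) * 2 ^ K = (K + 2) * 2 ^ K + 2 ^ K := by ring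
        have : 0 < 2 ^ K := by positivity
        gcongr ?_ * ?_ * 2 <;> omega
    _ = 2 ^ K * (24 * (K + 3) ^ 4) := by ring
    _ ≤ 2 ^ K * 2 ^ t := by gcongr; omega
    _ = _ := by ring

theorem near {x τ : ℝ} (hx : 0 ≤ x) (h0 : 0 ≤ τ) (h1 : τ ≤ 1) :
    |(⌊x / (1 + τ)⌋₊ : ℝ) * (1 + τ) - x| ≤ 2 := by
  have p : 0 < 1 + τ := by linarith
  have a1 := (le_div_iff₀ p).1 (Nat.floor_le (div_nonneg hx p.le))
  have a2 := (div_lt_iff₀ p).1 (Nat.lt_floor_add_one (x / (1 + τ)))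
  rw [abs_le]
  constructor <;> linarith

theorem err {a b y P Q ε : ℝ} (ha0 : 0 ≤ a) (hy0 : 0 ≤ y) (hb : 1 ≤ b) (hP : 1 ≤ P)
    (ha : a ≤ 4 * b ^ 5) (hy : y ≤ 5 * P) (hQ : 200 * b ^ 10 * P ≤ Q) (hε : 0 ≤ ε) :
    a ^ 2 * (y * ε + 4) + 2 ≤ Q * (ε + 1) / 2 := by
  have e1 : a ^ 2 * (y * ε + 4) ≤ (4 * b ^ 5) ^ 2 * (5 * P * ε + 4) := by gcongr
  have e2 : 1 ≤ b ^ 10 := one_le_pow₀ hb
  have e3 : b ^ 10 ≤ b ^ 10 * P := le_mul_of_one_le_right (by positivity) hP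
  have e4 : 200 * b ^ 10 * P * ε ≤ Q * ε := by gcongr
  have e5 : 0 ≤ b ^ 10 * P * ε := by positivity
  linarith

end StepP

open StepP in
theorem p_Step (h1 : S_Fam) (h2 : S_Pres) (h3 : S_Num) (h4 : S_Del) : S_Step := by
  intro q K t K' b Q g g' σ ε hq hK hK' ht hb hQ hQ' σ0 σ1 σ2 ε0 ε1 tb tQ C _ _ N hC hN
  have X0 : (0 : ℝ) < 2 ^ (K + t) := by positivity
  have N0 : ∀ κ, 0 ≤ N κ := fun κ => X0.le.trans (hN κ).1
  have S1 : ∑ κ, N κ ≤ (8 * q * 2 ^ (K + t) : ℕ) := by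
    have hC' : (Fintype.card C : ℝ) ≤ q := by exact_mod_cast hC
    calc _ ≤ ∑ _κ : C, (8 * 2 ^ (K + t) : ℝ) := sum_le_sum fun κ _ => (hN κ).2
      _ = Fintype.card C * (8 * 2 ^ (K + t) : ℝ) := by simp
      _ ≤ q * (8 * 2 ^ (K + t) : ℝ) := by gcongr
      _ = _ := by push_cast; ring
  have S2 : (2 : ℝ) ^ (K + t) ≤ ∑ κ, N κ :=
    (hN (Classical.arbitrary C)).1.trans (single_le_sum (fun κ _ => N0 κ) (mem_univ _))
  obtain ⟨c, c1, c2, c3⟩ := exists_c q K t ⌈∑ κ, N κ⌉₊ hq ht (Nat.ceil_le.2 S1)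
  obtain ⟨B, A, _, _, _, _, ν, μ, cB, cA, hν, hμ, hF⟩ := h1 K c (Option C) hK c1
  obtain ⟨B', _, _, ν', T, sel, cB', hν', hT, hP⟩ := h2 K' hK'
  have b1 : Fintype.card B ≤ b := by omega
  have b2 : 9 * q ≤ b := (Nat.le_mul_of_pos_right _ (by positivity)).trans hb
  have b3 : Fintype.card A ≤ 4 * b ^ 5 := by
    refine cA.trans ?_
    rw [Fintype.card_option]
    calc _ ≤ 4 * b ^ 3 * b ^ 2 := by gcongr; omega
      _ = _ := by ring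
  have B0 : (1 : ℝ) ≤ b := by exact_mod_cast (by omega : 1 ≤ b)
  have B1 : (Fintype.card B : ℝ) ≤ b := by exact_mod_cast b1
  have B3 : (Fintype.card A : ℝ) ≤ 4 * (b : ℝ) ^ 5 := by exact_mod_cast b3
  have B4 : (Fintype.card B' : ℝ) ≤ 5 * ((K' : ℝ) + 3) ^ 4 := by exact_mod_cast cB'
  have Q1 : 200 * (b : ℝ) ^ 10 * ((K' : ℝ) + 3) ^ 4 ≤ Q := by exact_mod_cast hQ
  have Q2 : (Q : ℝ) * 2 ^ K' ≤ 2 ^ (K + t) := by exact_mod_cast hQ'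
  have T1 : (T : ℝ) ≤ 2 * ((K' : ℝ) + 3) ^ 4 * 2 ^ K' := by exact_mod_cast hT
  have P1 : (1 : ℝ) ≤ ((K' : ℝ) + 3) ^ 4 :=
    one_le_pow₀ (by linarith [(Nat.cast_nonneg K' : (0 : ℝ) ≤ K')])
  have ν1 : ∀ x, (2 : ℝ) ^ K ≤ ν x ∧ (ν x : ℝ) ≤ 2 * 2 ^ K := fun x =>
    ⟨by exact_mod_cast (hν x).1, by exact_mod_cast (hν x).2⟩
  have ν2 : ∀ x, (2 : ℝ) ^ K' ≤ ν' x ∧ (ν' x : ℝ) ≤ 2 * 2 ^ K' := fun x =>
    ⟨by exact_mod_cast (hν' x).1, by exact_mod_cast (hν' x).2⟩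
  have Y0 : (0 : ℝ) < 2 ^ K := by positivity
  have Y1 : (0 : ℝ) < 2 ^ K' := by positivity
  obtain ⟨V, G, p, cG, hG⟩ := tb B (fun x => ν x) b1 fun x => ⟨(ν1 x).1, by linarith [(ν1 x).2]⟩
  obtain ⟨V', W, ty, cW, hW⟩ := tQ (A × A × B') (fun x => μ x.1 * μ x.2.1 * ν' x.2.2) (by
    rw [Fintype.card_prod, Fintype.card_prod]
    calc _ ≤ 4 * b ^ 5 * (4 * b ^ 5 * (5 * (K' + 3) ^ 4)) := by gcongr
      _ = 80 * b ^ 10 * (K' + 3) ^ 4 := by ring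
      _ ≤ 200 * b ^ 10 * (K' + 3) ^ 4 := by gcongr; norm_num
      _ ≤ _ := hQ) fun x => by
    have a1 := hμ x.1
    have a2 := hμ x.2.1
    have a3 := ν2 x.2.2
    have a4 : 0 ≤ μ x.1 := by linarith [a1.1]
    have a5 : 0 ≤ μ x.2.1 := by linarith [a2.1]
    constructor
    · calc (2 : ℝ) ^ K' = 1 * 1 * 2 ^ K' := by ring
        _ ≤ _ := by gcongr; exacts [a1.1, a2.1, a3.1]
    · calc _ ≤ (2 : ℝ) * 2 * (2 * 2 ^ K') := by gcongr; exacts [a1.2, a2.2, a3.2]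
        _ = _ := by ring
  have M0 : 0 ≤ ∑ a, μ a := sum_nonneg fun a _ => by linarith [(hμ a).1]
  have M1 : ∑ a, μ a ≤ 8 * (b : ℝ) ^ 5 := by
    calc _ ≤ ∑ _a : A, (2 : ℝ) := sum_le_sum fun a _ => (hμ a).2
      _ = Fintype.card A * (2 : ℝ) := by simp
      _ ≤ _ := by linarith
  have S3 : ∑ κ, N κ ≤ (c * Vt K : ℕ) := Nat.ceil_le.1 (by omega)
  obtain ⟨τ, hτ⟩ : ∃ τ : ℝ, τ = (T + 2 ^ K' / 2) * (∑ a, μ a) ^ 2 / (c * Vt K : ℕ) := ⟨_, rfl⟩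
  have τ0 : 0 ≤ τ := hτ ▸ by positivity
  have τ1 : τ ≤ 1 := by
    rw [hτ, div_le_one (by linarith)]
    have : (2 : ℝ) ^ K' ≤ ((K' : ℝ) + 3) ^ 4 * 2 ^ K' := le_mul_of_one_le_left Y1.le P1
    calc _ ≤ 3 * ((K' : ℝ) + 3) ^ 4 * 2 ^ K' * (8 * (b : ℝ) ^ 5) ^ 2 := by
          gcongr ?_ * ?_ ^ 2
          linarith
      _ = 192 * (b : ℝ) ^ 10 * ((K' : ℝ) + 3) ^ 4 * 2 ^ K' := by ring
      _ ≤ 200 * (b : ℝ) ^ 10 * ((K' : ℝ) + 3) ^ 4 * 2 ^ K' := by gcongr; norm_num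
      _ ≤ Q * 2 ^ K' := by gcongr
      _ ≤ _ := by linarith
  have f1 : ∑ κ, ⌊N κ / (1 + τ)⌋₊ ≤ ⌈∑ κ, N κ⌉₊ := by
    have : ((∑ κ, ⌊N κ / (1 + τ)⌋₊ : ℕ) : ℝ) ≤ ⌈∑ κ, N κ⌉₊ := by
      push_cast
      exact (sum_le_sum fun κ _ => (Nat.floor_le (div_nonneg (N0 κ) (by linarith))).trans
        (div_le_self (N0 κ) (by linarith))).trans (Nat.le_ceil _)
    exact_mod_cast this
  obtain ⟨n, n0, n1⟩ : ∃ n : Option C → ℕ, n none = c * Vt K - ∑ κ, ⌊N κ / (1 + τ)⌋₊ ∧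
      ∀ κ, n (some κ) = ⌊N κ / (1 + τ)⌋₊ :=
    ⟨fun o => o.elim _ fun κ => ⌊N κ / (1 + τ)⌋₊, rfl, fun _ => rfl⟩
  have n2 : ∑ κ, n κ = c * Vt K := by
    rw [Fintype.sum_option, n0, sum_congr rfl fun κ _ => n1 κ]
    omega
  obtain ⟨α, hα⟩ := hF n n2 (by
    rintro (_ | κ)
    · omega
    · rw [n1]
      refine Nat.le_floor ((le_div_iff₀ (by linarith)).2 ?_)
      have : (((2 * (K + 3) ^ 3 + 10) * Vt K : ℕ) : ℝ) * 2 ≤ 2 ^ (K + t) := by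
        exact_mod_cast low K t ht
      calc _ ≤ (((2 * (K + 3) ^ 3 + 10) * Vt K : ℕ) : ℝ) * 2 := by
            gcongr
            linarith
        _ ≤ _ := this.trans (hN κ).1)
  obtain ⟨U, H, ξ, cH, hH⟩ := h3 V V' B (Option C) A B' G W p ty ν n μ α ν' T K' sel σ ε hα hμ hP hG
    (fun x => σ1.trans_le (ν1 x).1) hW (fun s => by linarith [(ν2 s).1])
    (le_trans (by gcongr) σ2)
  rw [← Nat.cast_sum, n2, ← hτ] at hH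
  have E1 := err (by positivity) (by positivity) B0 P1 B3 B4 Q1 ε0
  have E2 : (Q : ℝ) * (ε + 1) ≤ 2 ^ (K + t) := le_trans (by gcongr) Q2
  have E3 : 0 ≤ (Q : ℝ) * (ε + 1) := by positivity
  obtain ⟨H', ξ', cH', hH'⟩ := h4 U C H ξ N (Q * (ε + 1) / 2) (fun v hv κ => by
    have a1 := hH v hv (some κ)
    have a2 := near (N0 κ) τ0 τ1
    rw [← n1] at a2
    exact (abs_sub_le _ _ _).trans ((add_le_add a1 a2).trans E1))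
    fun κ => by linarith [(hN κ).1]
  refine ⟨U, H', ξ', cH'.trans (cH.trans ?_), fun v hv κ => (hH' v hv κ).trans (by linarith)⟩
  calc _ ≤ (2 ^ g) ^ 2 * (2 ^ g') ^ 2 := by gcongr
    _ = _ := by ring

end Pool.Agent.P.MP_44bffd_co.PB
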