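import Pool.Agent.P.MP_44bffd_co.PB.DB
import Pool.Agent.P.MP_44bffd_co.LS.Ext
import Pool.Agent.P.MP_44bffd_co.LS.Diff
import Pool.Agent.P.MP_44bffd_co.LS.Gen
import Pool.Agent.P.MP_44bffd_co.LS.Der
import Pool.Agent.P.MP_44bffd_co.LS.Kum
import Pool.Agent.P.MP_44bffd_co.LS.CM

/-! Fields of bounded root discriminant containing a square root of the golden ratio. -/

namespace Pool.Agent.P.MP_44bffd_co.PB

open Finset NumberField
open scoped Classical

namespace TowP

theorem irr : Irrational (Real.sqrt 5) := by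
  have h : Nat.Prime 5 := by norm_num
  simpa using h.irrational_sqrt

theorem one_lt : 1 < Real.sqrt 5 := by
  rw [Real.lt_sqrt (by norm_num)]; norm_num

/-- Half of the embeddings send a square root of five to the negative square root. -/
theorem half (K : Type) [Field K] [NumberField K] (β : K) (hβ : β ^ 2 = 5) :
    Module.finrank ℚ K =
      2 * ((univ : Finset (K →+* ℂ)).filter (fun φ => φ β = -((Real.sqrt 5 : ℝ) : ℂ))).card := by
  set s : ℂ := ((Real.sqrt 5 : ℝ) : ℂ) with hs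
  have hs2 : s ^ 2 = 5 := by
    rw [hs, ← Complex.ofReal_pow, Real.sq_sqrt (by norm_num)]; norm_num
  have hor : ∀ φ : K →+* ℂ, ¬ φ β = -s → φ β = s := by
    intro φ h
    have h1 : φ β ^ 2 = s ^ 2 := by rw [← map_pow, hβ, hs2]; exact map_ofNat φ 5
    rcases sq_eq_sq_iff_eq_or_eq_neg.1 h1 with h2 | h2
    · exact h2
    · exact absurd h2 h
  have htr : ((Algebra.trace ℚ K β : ℚ) : ℂ) = ∑ φ : K →+* ℂ, φ β := by
    have h := trace_eq_sum_embeddings ℂ (K := ℚ) (L := K) (x := β)
    rw [← Fintype.sum_equiv (RingHom.equivRatAlgHom K ℂ) (fun φ => φ β) (fun φ => φ β)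
      (fun _ => by simp [RingHom.equivRatAlgHom_apply])] at h
    simpa using h
  set B := (univ : Finset (K →+* ℂ)).filter (fun φ => φ β = -s) with hB
  set A := (univ : Finset (K →+* ℂ)).filter (fun φ => ¬ φ β = -s) with hA
  have hAB : B.card + A.card = Module.finrank ℚ K := by
    rw [hA, hB, card_filter_add_card_filter_not, card_univ, Embeddings.card K ℂ]
  have hsum : ∑ φ : K →+* ℂ, φ β = ((A.card : ℂ) - B.card) * s := by
    rw [← sum_filter_add_sum_filter_not univ (fun φ : K →+* ℂ => φ β = -s)]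
    have h1 : ∑ φ ∈ B, φ β = B.card * (-s) := by
      rw [sum_congr rfl (fun φ hφ => (mem_filter.1 hφ).2), sum_const, nsmul_eq_mul]
    have h2 : ∑ φ ∈ A, φ β = A.card * s := by
      rw [sum_congr rfl (fun φ hφ => hor φ (mem_filter.1 hφ).2), sum_const, nsmul_eq_mul]
    rw [← hA, ← hB, h1, h2]; ring
  have hreal : ((Algebra.trace ℚ K β : ℚ) : ℝ) =
      (((A.card : ℤ) - B.card : ℤ) : ℝ) * Real.sqrt 5 := by
    have h := htr.trans hsum
    rw [hs] at h
    exact_mod_cast h
  have hz : ((A.card : ℤ) - B.card : ℤ) = 0 := by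
    by_contra hne
    have hirr := irr.intCast_mul hne
    rw [← hreal] at hirr
    exact hirr ⟨_, rfl⟩
  omega

theorem pairs (K : Type) [Field K] [NumberField K] (τ : K →+* K) (α j : K)
    (hτ : ∀ x, τ (τ x) = x) (hα : (2 * α ^ 2 - 1) ^ 2 = 5) (hτα : τ α = α) (hj : j ^ 2 = -1)
    (hτj : τ j = -j) : ∃ W : Finset (InfinitePlace K), (∀ w ∈ W, w.comap τ ∉ W) ∧
      Module.finrank ℚ K ≤ 8 * W.card := by
  have hN := half K (2 * α ^ 2 - 1) hα
  set B := (univ : Finset (K →+* ℂ)).filter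
    (fun φ => φ (2 * α ^ 2 - 1) = -((Real.sqrt 5 : ℝ) : ℂ)) with hB
  set M := (univ : Finset (InfinitePlace K)).filter (fun w => w.comap τ ≠ w) with hM
  have hinv : ∀ w : InfinitePlace K, (w.comap τ).comap τ = w := by
    intro w
    rw [← InfinitePlace.comap_comp]
    have : τ.comp τ = RingHom.id K := RingHom.ext hτ
    rw [this, InfinitePlace.comap_id]
  have hmove : ∀ φ ∈ B, InfinitePlace.mk φ ∈ M := by
    intro φ hφ
    have hφ' := (mem_filter.1 hφ).2
    refine mem_filter.2 ⟨mem_univ _, fun h => ?_⟩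
    rw [InfinitePlace.comap_mk, InfinitePlace.mk_eq_iff] at h
    rcases h with h | h
    · have h1 : φ (τ j) = φ j := congrArg (fun ψ : K →+* ℂ => ψ j) h
      rw [hτj, map_neg] at h1
      have h2 : φ j = 0 := by linear_combination (-1 / 2 : ℂ) * h1
      have h3 : φ j ^ 2 = -1 := by rw [← map_pow, hj, map_neg, map_one]
      rw [h2] at h3
      norm_num at h3
    · have h1 : starRingEnd ℂ (φ (τ α)) = φ α := congrArg (fun ψ : K →+* ℂ => ψ α) h
      rw [hτα] at h1
      obtain ⟨r, hr⟩ := Complex.conj_eq_iff_real.1 h1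
      rw [map_sub, map_mul, map_pow, map_one, map_ofNat, hr] at hφ'
      have h2 : 2 * r ^ 2 - 1 = -Real.sqrt 5 := by exact_mod_cast hφ'
      have h3 := one_lt
      nlinarith [sq_nonneg r]
  have hBM : B.card ≤ 2 * M.card := by
    refine card_le_mul_card_image_of_maps_to hmove 2 fun w _ => ?_
    have h1 : (B.filter fun φ => InfinitePlace.mk φ = w).card
        ≤ ((univ : Finset (K →+* ℂ)).filter fun φ => InfinitePlace.mk φ = w).card :=
      card_le_card (filter_subset_filter _ (subset_univ _))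
    have h2 := InfinitePlace.card_filter_mk_eq w
    have h3 : w.mult ≤ 2 := by unfold InfinitePlace.mult; split_ifs <;> omega
    calc _ ≤ _ := h1
      _ = w.mult := by convert h2
      _ ≤ 2 := h3
  let e := Fintype.equivFin (InfinitePlace K)
  set W := (univ : Finset (InfinitePlace K)).filter (fun w => e w < e (w.comap τ)) with hW
  have hMW : M ⊆ W ∪ W.image (fun w => w.comap τ) := by
    intro w hw
    have hne : e (w.comap τ) ≠ e w := fun h => (mem_filter.1 hw).2 (e.injective h)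
    rcases lt_or_gt_of_ne hne with h | h
    · refine mem_union_right _ (mem_image.2 ⟨w.comap τ, ?_, hinv w⟩)
      exact mem_filter.2 ⟨mem_univ _, by rw [hinv]; exact h⟩
    · exact mem_union_left _ (mem_filter.2 ⟨mem_univ _, h⟩)
  have hcard : M.card ≤ 2 * W.card := by
    have h1 := card_le_card hMW
    have h2 := card_union_le W (W.image (fun w => w.comap τ))
    have h3 : (W.image (fun w => w.comap τ)).card ≤ W.card := card_image_le
    omega
  refine ⟨W, fun w hw h => ?_, by omega⟩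
  have h1 := (mem_filter.1 hw).2
  have h2 := (mem_filter.1 h).2
  rw [hinv] at h2
  exact lt_asymm h1 h2

theorem ext : LS.S_Ext := LS.p_Ext (LS.p_Diff LS.p_Gen LS.p_Der) LS.p_Kum

theorem single {S : Finset (Fin 1)} (hS : S.Nonempty) : S = {0} := by
  obtain ⟨i, hi⟩ := hS
  ext k
  simp only [mem_singleton]
  constructor
  · intro _; exact Subsingleton.elim _ _
  · intro _; rwa [Subsingleton.elim k i]

/-- In a totally real field some real embedding sends a root of five to the negative root. -/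
theorem ex_neg (L : Type) [Field L] [NumberField L] [IsTotallyReal L] (β : L) (hβ : β ^ 2 = 5) :
    ∃ ψ : L →+* ℝ, ψ β = -Real.sqrt 5 := by
  have h1 := half L β hβ
  have h2 : 0 < Module.finrank ℚ L := Module.finrank_pos
  obtain ⟨φ, hφ⟩ := card_pos.1 (show 0 < ((univ : Finset (L →+* ℂ)).filter
    (fun φ => φ β = -((Real.sqrt 5 : ℝ) : ℂ))).card by omega)
  have h3 := (mem_filter.1 hφ).2
  have h4 := IsTotallyReal.complexEmbedding_isReal φ
  refine ⟨h4.embedding, ?_⟩
  have h5 := h4.coe_embedding_apply β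
  rw [h3] at h5
  exact_mod_cast h5

theorem floor (L : Type) [Field L] [NumberField L] [IsTotallyReal L] (s : L) (hs : s ^ 2 = 5)
    (ρ : ℕ) (hd : (discr L).natAbs ≤ ρ ^ Module.finrank ℚ L) :
    RG (Module.finrank ℚ L * 2) (4 * ρ) := by
  obtain ⟨ψ, hψ⟩ := ex_neg L s hs
  obtain ⟨σ, hσ⟩ := ex_neg L (-s) (by rw [neg_sq, hs])
  rw [map_neg, neg_inj] at hσ
  set f : L := (1 + s) / 2 with hf
  have hf2 : f ^ 2 = f + 1 := by
    rw [hf]; linear_combination (1 / 4 : L) * hs
  have hint : IsIntegral ℤ f := by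
    refine ⟨Polynomial.X ^ 2 - Polynomial.X - 1, by monicity!, ?_⟩
    simp [hf2]
  let x : 𝓞 L := ⟨f, hint⟩
  have hx : x * (x - 1) = 1 := by
    apply Subtype.ext
    show f * (f - 1) = 1
    linear_combination hf2
  let u : (𝓞 L)ˣ := ⟨x, x - 1, hx, by rw [mul_comm]; exact hx⟩
  have hu : ((u : 𝓞 L) : L) = f := rfl
  have h1 := one_lt
  have hσf : σ f = (1 + Real.sqrt 5) / 2 := by
    rw [hf, map_div₀, map_add, map_one, map_ofNat, hσ]
  have hψf : ψ f = (1 - Real.sqrt 5) / 2 := by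
    rw [hf, map_div₀, map_add, map_one, map_ofNat, hψ]; ring
  have hy : Real.sqrt (σ f) ^ 2 = σ f := Real.sq_sqrt (by rw [hσf]; linarith)
  obtain ⟨F, i1, i2, ι, hr, hn, hdisc⟩ := ext L ℝ σ 1 ρ (fun _ => u) (fun _ => Real.sqrt (σ f))
    (fun _ => hy) (by
      intro S hS
      rw [single hS, prod_singleton, hu]
      rintro ⟨z, hz⟩
      have h2 := congrArg ψ hz
      rw [map_mul, hψf] at h2
      nlinarith [mul_self_nonneg (ψ z)]) hd
  have hα : ∃ a : F, ι a = Real.sqrt (σ f) := by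
    have h2 : Real.sqrt (σ f) ∈ ι.fieldRange := by
      rw [hr]; exact Subfield.subset_closure (Or.inr ⟨0, rfl⟩)
    exact h2
  obtain ⟨a, ha⟩ := hα
  rw [pow_one] at hn
  refine ⟨F, i1, i2, ι, a, ι.injective ?_, hn, hn ▸ hdisc⟩
  rw [map_pow, map_sub, map_mul, map_pow, ha, hy, hσf, map_one, map_ofNat, map_ofNat]
  have h3 : Real.sqrt 5 ^ 2 = 5 := Real.sq_sqrt (by norm_num)
  linear_combination h3

end TowP

theorem p_Tow (h1 : S_Start) (h2 : S_Up) (h3 : S_Disc) : S_Tow := by
  obtain ⟨K, _, _, u, j₀, hB, hS⟩ := h1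
  have hst : ∀ i, St K u (j₀ + i) := by
    intro i
    induction i with
    | zero => exact hS
    | succ i ih => exact h2 K u _ hB ih
  have hρ : 1 ≤ (discr K).natAbs := Int.natAbs_pos.2 (discr_ne_zero K)
  have hRG : ∀ i, RG (2 ^ (j₀ + 2 + i)) (4 * (discr K).natAbs) := by
    intro i
    obtain ⟨L, _, _, _, hG, hn, hR, hU, hsq⟩ := hst i
    obtain ⟨s, hs⟩ := hsq 0
    rw [hB.2.2.2, map_ofNat] at hs
    have hN : Module.finrank ℚ L = 2 * 2 ^ (j₀ + i) := by
      rw [← hn, ← hB.1, Module.finrank_mul_finrank]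
    have hd := h3 (L ≃ₐ[K] L) K L hU
    have h4 := TowP.floor L s (by rw [hs]; ring) (discr K).natAbs
      (hd.trans (Nat.pow_le_pow_right hρ (by rw [hn, hN]; omega)))
    have e : Module.finrank ℚ L * 2 = 2 ^ (j₀ + 2 + i) := by rw [hN]; ring
    rwa [e] at h4
  refine ⟨2 ^ (j₀ + 2), 4 * (discr K).natAbs, by omega, fun t => ?_⟩
  have hex : ∃ i, t ≤ 2 ^ (j₀ + 2 + i) :=
    ⟨t, Nat.lt_two_pow_self.le.trans (Nat.pow_le_pow_right (by norm_num) (by omega))⟩
  refine ⟨_, Nat.find_spec hex, ?_, hRG _⟩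
  rcases h5 : Nat.find hex with _ | i
  · simp
  · have h6 := Nat.find_min hex (show i < Nat.find hex by omega)
    have h7 : 2 ^ (j₀ + 2 + (i + 1)) = 2 * 2 ^ (j₀ + 2 + i) := by ring
    rw [h7]
    exact (Nat.mul_le_mul_left 2 (not_le.1 h6).le).trans (Nat.le_add_right _ _)

theorem p_CM5 : S_CM5 := by
  rintro n ρ ⟨K, _, _, σ, α, hα, hn, hd⟩
  obtain ⟨F, _, _, ι, hr, hf, hdisc⟩ := TowP.ext K ℂ (Complex.ofRealHom.comp σ) 1 ρ (fun _ => -1)
    (fun _ => Complex.I) (by intro i; simp) (by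
      intro S hS
      rw [TowP.single hS]
      rintro ⟨z, hz⟩
      refine LS.CMP.no_root σ z ?_
      rw [← hz]; simp) (by rw [hn]; exact hd)
  have hex : ∀ x : F, ∃ y : F, ι y = starRingEnd ℂ (ι x) := by
    intro x
    have h1 : ι x ∈ ι.fieldRange := ⟨x, rfl⟩
    rw [hr] at h1
    have h2 := LS.CMP.conj_mem σ _ h1
    rw [← hr] at h2
    exact h2
  choose t ht using hex
  let τ : F →+* F :=
    { toFun := t
      map_one' := ι.injective (by rw [ht]; simp)
      map_mul' := fun x y => ι.injective (by rw [ht, map_mul, map_mul, map_mul, ht, ht])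
      map_zero' := ι.injective (by rw [ht]; simp)
      map_add' := fun x y => ι.injective (by rw [ht, map_add, map_add, map_add, ht, ht]) }
  have hτ : ∀ x, ι (τ x) = starRingEnd ℂ (ι x) := ht
  have hα' : ∃ a : F, ι a = (Complex.ofRealHom.comp σ) α := by
    have h1 : (Complex.ofRealHom.comp σ) α ∈ ι.fieldRange := by
      rw [hr]; exact Subfield.subset_closure (Or.inl ⟨α, rfl⟩)
    exact h1
  have hj' : ∃ j : F, ι j = Complex.I := by
    have h1 : Complex.I ∈ ι.fieldRange := by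
      rw [hr]; exact Subfield.subset_closure (Or.inr ⟨0, rfl⟩)
    exact h1
  obtain ⟨a, ha⟩ := hα'
  obtain ⟨j, hj⟩ := hj'
  have hj2 : j ^ 2 = -1 := ι.injective (by rw [map_pow, hj]; simp)
  have ha4 : (2 * a ^ 2 - 1) ^ 2 = 5 := ι.injective (by
    have h1 := congrArg (Complex.ofRealHom.comp σ) hα
    rw [map_pow, map_sub, map_mul, map_pow, map_one, map_ofNat, map_ofNat] at h1 ⊢
    rw [ha]; exact h1)
  have hinv : ∀ x, τ (τ x) = x := fun x => ι.injective (by rw [hτ, hτ]; simp)
  have hτa : τ a = a := ι.injective (by rw [hτ, ha]; simp)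
  have hτj : τ j = -j := ι.injective (by rw [hτ, map_neg, hj]; simp)
  obtain ⟨W, hW, hcard⟩ := TowP.pairs F τ a j hinv ha4 hτa hj2 hτj
  have hN : Module.finrank ℚ F = 2 * n := by rw [hf, hn]; ring
  refine ⟨F, inferInstance, inferInstance, τ, ι, W, hτ, ?_, hW, hN ▸ hcard, hN, hN ▸ hdisc⟩
  intro w
  rw [← InfinitePlace.not_isReal_iff_isComplex]
  intro hw
  exact LS.CMP.no_root (InfinitePlace.embedding_of_isReal hw) j (by rw [← hj2]; ring)

end Pool.Agent.P.MP_44bffd_co.PB
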