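import Pool.Agent.P.MP_44bffd_co.PB.DB

/-! Surjectivity of the trace in unramified extensions, and odd powers modulo two. -/

namespace Pool.Agent.P.MP_44bffd_co.PB

open Finset NumberField IsDedekindDomain
open scoped Classical nonZeroDivisors

namespace TrP

/-- Some trace does not lie in a given prime. -/
theorem tr_not_mem {G L : Type} [Group G] [Fintype G] [Field L] [NumberField L]
    [MulSemiringAction G L] (h : Unr G L) (P : Pr L) : ∃ x : 𝓞 L, ∑ g : G, g • x ∉ P.asIdeal := by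
  have := P.isPrime
  let φ : G → (𝓞 L →* 𝓞 L ⧸ P.asIdeal) := fun g =>
    (Ideal.Quotient.mk P.asIdeal).toMonoidHom.comp
      (MulSemiringAction.toRingHom G (𝓞 L) g).toMonoidHom
  have hφ : ∀ g x, φ g x = Ideal.Quotient.mk P.asIdeal (g • x) := fun g x => rfl
  have hi : Function.Injective φ := fun g g' e => by
    by_contra hne
    obtain ⟨x, hx⟩ := h (g'⁻¹ * g) (fun e' => hne (inv_mul_eq_one.1 e').symm) (g'⁻¹ • P)
    apply hx
    rw [← smul_mem_smul g', smul_inv_smul, smul_sub, ← mul_smul, mul_inv_cancel_left,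
      ← Ideal.Quotient.eq, ← hφ, ← hφ, e]
  have hl := (linearIndependent_monoidHom (𝓞 L) (𝓞 L ⧸ P.asIdeal)).comp φ hi
  by_contra hc
  push Not at hc
  refine one_ne_zero (Fintype.linearIndependent_iff.1 hl (fun _ => 1) ?_ 1)
  funext x
  have h1 := Ideal.Quotient.eq_zero_iff_mem.2 (hc x)
  rw [map_sum] at h1
  simpa [Finset.sum_apply, hφ] using h1

theorem dvd_of_sq {L : Type} [Field L] [NumberField L] (h : ∀ P : Pr L, val P (2 : L) ≤ 1)
    {x : 𝓞 L} (hx : (2 : 𝓞 L) ∣ x ^ 2) : (2 : 𝓞 L) ∣ x := by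
  rcases eq_or_ne x 0 with rfl | h0
  · exact dvd_zero _
  obtain ⟨y, hy⟩ := hx
  have hx' : (x : L) ≠ 0 := by simpa using h0
  have hy0 : y ≠ 0 := by
    rintro rfl
    exact pow_ne_zero 2 h0 (by rw [hy, mul_zero])
  have hy' : (y : L) ≠ 0 := by simpa using hy0
  have e : (x : L) ^ 2 = 2 * (y : L) := by
    have := congrArg (algebraMap (𝓞 L) L) hy
    rwa [map_pow, map_mul, map_ofNat] at this
  obtain ⟨z, hz⟩ := exists_int (a := (x : L) / 2) fun P => by
    have h1 := val_pow P (x : L) 2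
    rw [e, val_mul P two_ne_zero hy'] at h1
    have h2 := h P
    have h3 := val_nonneg P x
    have h4 := val_nonneg P y
    rw [val_div P hx' two_ne_zero]
    push_cast at h1
    omega
  refine ⟨z, RingOfIntegers.coe_injective ?_⟩
  rw [map_mul, map_ofNat]
  change (x : L) = 2 * (z : L)
  rw [hz]
  field_simp

end TrP

open TrP

theorem p_Tr : S_Tr := by
  intro G K L _ _ _ _ _ _ _ _ _ h
  let T : Ideal (𝓞 K) :=
    { carrier := {a | ∃ x : 𝓞 L, ∑ g : G, g • x = algebraMap (𝓞 K) (𝓞 L) a}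
      add_mem' := by
        rintro a b ⟨x, hx⟩ ⟨y, hy⟩
        exact ⟨x + y, by simp only [smul_add, Finset.sum_add_distrib, hx, hy, map_add]⟩
      zero_mem' := ⟨0, by simp⟩
      smul_mem' := by
        rintro c a ⟨x, hx⟩
        refine ⟨algebraMap (𝓞 K) (𝓞 L) c * x, ?_⟩
        simp only [smul_mul', smul_algebraMap, ← Finset.mul_sum, hx, smul_eq_mul, map_mul] }
  have hT : T = ⊤ := by
    by_contra hne
    obtain ⟨p, hp, hle⟩ := Ideal.exists_le_maximal T hne
    obtain ⟨P, hP⟩ := und_surj (L := L) K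
      ⟨p, hp.isPrime, Ring.ne_bot_of_isMaximal_of_not_isField hp (RingOfIntegers.not_isField K)⟩
    obtain ⟨x, hx⟩ := tr_not_mem h P
    obtain ⟨a, ha⟩ := Algebra.IsInvariant.isInvariant (A := 𝓞 K) (B := 𝓞 L) (G := G)
      (∑ g : G, g • x) fun g => by
        rw [Finset.smul_sum]
        simp only [← mul_smul]
        exact Equiv.sum_comp (Equiv.mulLeft g) fun g' => g' • x
    apply hx
    rw [← ha, ← mem_und K P, hP]
    exact hle ⟨x, ha.symm⟩
  obtain ⟨x, hx⟩ : (1 : 𝓞 K) ∈ T := hT ▸ Submodule.mem_top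
  exact ⟨x, by rw [hx, map_one]⟩

theorem p_Odd : S_Odd := by
  intro L _ _ h
  have hb : Ideal.span {(2 : 𝓞 L)} ≠ ⊥ := by simp
  have : Finite (𝓞 L ⧸ Ideal.span {(2 : 𝓞 L)}) := Ideal.finiteQuotientOfFreeOfNeBot _ hb
  have : Fintype (𝓞 L ⧸ Ideal.span {(2 : 𝓞 L)})ˣ := Fintype.ofFinite _
  refine ⟨Fintype.card (𝓞 L ⧸ Ideal.span {(2 : 𝓞 L)})ˣ, ?_, fun x hx => ?_⟩
  · rw [← Nat.not_even_iff_odd, even_iff_two_dvd]
    intro hd
    have : Fact (Nat.Prime 2) := ⟨Nat.prime_two⟩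
    obtain ⟨u, hu⟩ := exists_prime_orderOf_dvd_card 2 hd
    have h1 : (u : 𝓞 L ⧸ Ideal.span {(2 : 𝓞 L)}) ^ 2 = 1 := by
      rw [← Units.val_pow_eq_pow_val, ← hu, pow_orderOf_eq_one, Units.val_one]
    obtain ⟨x, hx⟩ := Ideal.Quotient.mk_surjective (u : 𝓞 L ⧸ Ideal.span {(2 : 𝓞 L)})
    rw [← hx, ← map_pow, ← map_one (Ideal.Quotient.mk (Ideal.span {(2 : 𝓞 L)})),
      Ideal.Quotient.eq, Ideal.mem_span_singleton] at h1
    have h2 : (2 : 𝓞 L) ∣ (x - 1) ^ 2 := by
      have : (x - 1) ^ 2 = x ^ 2 - 1 + 2 * (1 - x) := by ring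
      rw [this]
      exact dvd_add h1 (dvd_mul_right _ _)
    have h3 : u = 1 := Units.ext (by
      rw [← hx, Units.val_one, ← map_one (Ideal.Quotient.mk (Ideal.span {(2 : 𝓞 L)})),
        Ideal.Quotient.eq, Ideal.mem_span_singleton]
      exact dvd_of_sq h h2)
    rw [h3, orderOf_one] at hu
    exact absurd hu (by norm_num)
  · have h1 : Ideal.span {x, (2 : 𝓞 L)} = ⊤ := by
      by_contra hne
      obtain ⟨p, hp, hle⟩ := Ideal.exists_le_maximal _ hne
      have h2 : (2 : 𝓞 L) ∈ p := hle (Ideal.subset_span (by simp))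
      exact hx ⟨p, hp.isPrime, fun e => by simp [e] at h2⟩ h2
        (hle (Ideal.subset_span (by simp)))
    obtain ⟨a, b, e⟩ := Ideal.mem_span_pair.1 ((Ideal.eq_top_iff_one _).1 h1)
    have h2 : IsUnit (Ideal.Quotient.mk (Ideal.span {(2 : 𝓞 L)}) x) := by
      refine IsUnit.of_mul_eq_one_right (Ideal.Quotient.mk _ a) ?_
      rw [← map_mul, ← map_one (Ideal.Quotient.mk (Ideal.span {(2 : 𝓞 L)})), Ideal.Quotient.eq,
        Ideal.mem_span_singleton, ← e]
      exact ⟨-b, by ring⟩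
    obtain ⟨u, hu⟩ := h2
    have h3 := congrArg Units.val (pow_card_eq_one (x := u))
    rw [Units.val_pow_eq_pow_val, hu, Units.val_one, ← map_pow,
      ← map_one (Ideal.Quotient.mk (Ideal.span {(2 : 𝓞 L)})), Ideal.Quotient.eq,
      Ideal.mem_span_singleton] at h3
    obtain ⟨y, hy⟩ := h3
    exact ⟨y, by rw [← hy]; ring⟩

end Pool.Agent.P.MP_44bffd_co.PB
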