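import Pool.Agent.P.MP_44bffd_co.PB.DB

/-! The Herbrand quotient of the units of a totally real quadratic extension. -/

namespace Pool.Agent.P.MP_44bffd_co.PB

open Finset NumberField
open scoped Classical

namespace URankP

theorem rank_add (L : Type) [Field L] [NumberField L] [IsTotallyReal L] :
    Module.finrank ℤ (Additive (𝓞 L)ˣ) + 1 = Module.finrank ℚ L := by
  have h : Fintype.card (InfinitePlace L) = Module.finrank ℚ L := by
    rw [← InfinitePlace.sum_mult_eq]; simp
  have h0 : 0 < Module.finrank ℚ L := Module.finrank_pos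
  rw [Units.finrank_eq, Units.rank, h]
  omega

theorem exists_real (L : Type) [Field L] [NumberField L] [IsTotallyReal L] :
    ∃ φ : 𝓞 L →+* ℝ, Function.Injective φ := by
  obtain ⟨w⟩ : Nonempty (InfinitePlace L) := inferInstance
  exact ⟨(InfinitePlace.embedding_of_isReal (IsTotallyReal.isReal w)).comp (algebraMap (𝓞 L) L),
    fun _ _ e => RingOfIntegers.coe_injective
      ((InfinitePlace.embedding_of_isReal (IsTotallyReal.isReal w)).injective e)⟩

theorem ext' {R : Type} [Monoid R] {x y : Additive Rˣ} (h : (x.toMul : R) = (y.toMul : R)) :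
    x = y := Additive.toMul.injective (Units.ext h)

end URankP

open URankP in
theorem p_URank (h : S_Herb) : S_URank := by
  intro G K L _ _ _ _ _ _ _ _ _ _ τ h1 h2 u hu
  have hτ : τ * τ = 1 := (h2 _).resolve_right fun e => h1 (mul_eq_left.1 e)
  obtain ⟨φ, hφ⟩ := exists_real L
  have hK : IsTotallyReal K := IsTotallyReal.of_algebra K L
  have hG : Nat.card G = 2 := Nat.card_eq_two_iff.2 ⟨1, τ, h1.symm, by
    ext g; simpa using h2 g⟩
  have hd : Module.finrank ℚ L = Module.finrank ℚ K * 2 := by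
    rw [← Module.finrank_mul_finrank ℚ K L, ← IsGaloisGroup.card_eq_finrank G K L, hG]
  have hinj : Function.Injective (algebraMap (𝓞 K) (𝓞 L)) := FaithfulSMul.algebraMap_injective _ _
  refine h (Additive (𝓞 L)ˣ) u (Additive.ofMul (-1)) (Module.finrank ℤ (Additive (𝓞 K)ˣ))
    (fun x => ext' ?_) (ext' ?_) (ext' ?_) (fun x e => ?_) (fun x m hm e => ?_) ?_ ?_
  · rw [hu, hu, ← mul_smul, hτ, one_smul]
  · rw [hu]; simp
  · simp
  · have e1 := congrArg (fun y : Additive (𝓞 L)ˣ => φ (y.toMul : (𝓞 L)ˣ)) e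
    simp only [toMul_add, Units.val_mul, map_mul, toMul_ofMul, Units.val_neg, Units.val_one, map_neg,
      map_one] at e1
    nlinarith [mul_self_nonneg (φ (x.toMul : (𝓞 L)ˣ))]
  · have e1 := congrArg (fun y : Additive (𝓞 L)ˣ => φ (y.toMul : (𝓞 L)ˣ)) e
    simp only [toMul_nsmul, Units.val_pow_eq_pow_val, map_pow, toMul_zero, Units.val_one,
      map_one] at e1
    rcases (pow_eq_one_iff_of_ne_zero hm.ne').1 e1 with e2 | ⟨e2, -⟩
    · exact Or.inl (ext' (hφ (by simpa using e2)))
    · exact Or.inr (ext' (hφ (by simpa using e2)))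
  · have := rank_add L
    have := rank_add K
    omega
  · let ι : Additive (𝓞 K)ˣ →+ Additive (𝓞 L)ˣ :=
      MonoidHom.toAdditive (Units.map (algebraMap (𝓞 K) (𝓞 L)).toMonoidHom)
    have hι : ∀ x, ((ι x).toMul : 𝓞 L) = algebraMap (𝓞 K) (𝓞 L) (x.toMul : (𝓞 K)ˣ) := fun _ => rfl
    have hi : Function.Injective ι := fun x y e => ext' (hinj (by rw [← hι, ← hι, e]))
    have key : ∀ x ∈ (AddMonoidHom.id (Additive (𝓞 L)ˣ) - u).ker,
        ∃ a : 𝓞 K, algebraMap (𝓞 K) (𝓞 L) a = (x.toMul : (𝓞 L)ˣ) := by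
      intro x hx
      have e : u x = x := (sub_eq_zero.1 (AddMonoidHom.mem_ker.1 hx)).symm
      refine Algebra.IsInvariant.isInvariant (G := G) _ fun g => ?_
      rcases h2 g with rfl | rfl
      · exact one_smul _ _
      · rw [← hu, e]
    have hr : ι.range = (AddMonoidHom.id (Additive (𝓞 L)ˣ) - u).ker := by
      ext x
      constructor
      · rintro ⟨y, rfl⟩
        refine AddMonoidHom.mem_ker.2 (sub_eq_zero.2 (ext' ?_))
        rw [hu, AddMonoidHom.id_apply, hι, smul_algebraMap]
      · intro hx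
        obtain ⟨a, ha⟩ := key x hx
        obtain ⟨b, hb⟩ := key (-x) (neg_mem hx)
        have e : a * b = 1 := hinj (by rw [map_mul, ha, hb, map_one]; simp)
        exact ⟨Additive.ofMul ⟨a, b, e, by rw [mul_comm, e]⟩, ext' ha⟩
    rw [← hr]
    exact (AddMonoidHom.ofInjective hi).toIntLinearEquiv.finrank_eq.symm

end Pool.Agent.P.MP_44bffd_co.PB
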