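import Pool.Agent.P.MP_44bffd_co.PB.DA

/-! A unimodular system of short relations between the weights. -/

namespace Pool.Agent.P.MP_44bffd_co.PB

open Finset

namespace UniP

/-- The short vectors. -/
def uu (K : ℕ) : Option (Fin K) → Option (Fin K) → ℤ
  | none, none => -1
  | none, some k => if (k : ℕ) = 0 then 1 else 0
  | some j, none => -1 - if (j : ℕ) + 1 = K then 2 else 0
  | some j, some k => (if (k : ℕ) = j then 2 else 0) - if (k : ℕ) = j + 1 then 1 else 0

/-- The coefficients of the constant vector. -/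
def oo (K : ℕ) : Option (Fin K) → ℤ
  | none => (K + 2) * 2 ^ K - 1
  | some j => 1 - (K + 2) * 2 ^ (K - j - 1)

theorem sum_ind (K m : ℕ) (g : ℕ → ℤ) :
    ∑ k : Fin K, (if (k : ℕ) = m then g k else 0) = if m < K then g m else 0 := by
  rw [Fin.sum_univ_eq_sum_range (fun k => if k = m then g k else 0), sum_ite_eq']
  simp only [mem_range]

theorem sum_ind' (K m : ℕ) (g : ℕ → ℤ) :
    ∑ k : Fin K, (if m = (k : ℕ) then g k else 0) = if m < K then g m else 0 := by
  simp only [eq_comm (a := m), sum_ind]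

theorem sum_succ (K m : ℕ) (hm : m ≤ K) (g : ℕ → ℤ) :
    ∑ k : Fin K, (if m = (k : ℕ) + 1 then g k else 0) = if m = 0 then 0 else g (m - 1) := by
  cases m with
  | zero => simp
  | succ m =>
    simp only [Nat.add_right_cancel_iff, sum_ind', Nat.add_sub_cancel]
    rw [if_pos (by omega), if_neg (by omega)]

theorem rows (K : ℕ) (hK : 1 ≤ K) (j : Option (Fin K)) :
    ∑ b, (nu K b : ℤ) * uu K j b = if j = none then 1 else 0 := by
  cases j with
  | none =>
    simp only [Fintype.sum_option, nu, uu, mul_ite, mul_one, mul_zero, if_true]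
    rw [sum_ind K 0 fun k => ((2 ^ K + 2 ^ k : ℕ) : ℤ), if_pos (by omega)]
    push_cast
    ring
  | some j =>
    simp only [Fintype.sum_option, nu, uu, mul_sub, mul_ite, mul_one, mul_zero, sum_sub_distrib]
    rw [sum_ind K j fun k => ((2 ^ K + 2 ^ k : ℕ) : ℤ) * 2,
      sum_ind K (j + 1) fun k => ((2 ^ K + 2 ^ k : ℕ) : ℤ), if_pos j.2,
      if_neg (Option.some_ne_none j)]
    have := j.2
    by_cases h : (j : ℕ) + 1 = K
    · have e : (2 : ℤ) ^ K = 2 ^ (j : ℕ) * 2 := by rw [← pow_succ, h]
      rw [if_pos h, if_neg (by omega)]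
      push_cast
      rw [e]
      ring
    · rw [if_neg h, if_pos (by omega)]
      push_cast
      ring

theorem cols (K : ℕ) (k : Fin K) : ∑ j, oo K j * uu K j (some k) = 1 := by
  have hk := k.2
  simp only [Fintype.sum_option, oo, uu, mul_sub, mul_ite, mul_one, mul_zero, sum_sub_distrib]
  rw [sum_ind' K k fun j => (1 - (K + 2 : ℤ) * 2 ^ (K - j - 1)) * 2,
    sum_succ K k hk.le fun j => 1 - (K + 2 : ℤ) * 2 ^ (K - j - 1), if_pos hk]
  have e : (2 : ℤ) ^ (K - k) = 2 ^ (K - k - 1) * 2 := by
    rw [← pow_succ]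
    congr 1
    omega
  by_cases h : (k : ℕ) = 0
  · rw [if_pos h, if_pos h]
    rw [h, Nat.sub_zero] at e
    rw [h, Nat.sub_zero, e]
    ring
  · rw [if_neg h, if_neg h, show K - ((k : ℕ) - 1) - 1 = K - k by omega, e]
    ring

theorem col_none (K : ℕ) (hK : 1 ≤ K) : ∑ j, oo K j * uu K j none = 1 := by
  have h1 : ∑ b, (nu K b : ℤ) * ∑ j, oo K j * uu K j b = oo K none := by
    simp only [mul_sum, mul_left_comm _ (oo K _)]
    rw [sum_comm]
    simp only [← mul_sum, rows K hK, mul_ite, mul_one, mul_zero, sum_ite_eq', mem_univ, if_true]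
  have h2 : ∑ b, (nu K b : ℤ) = oo K none := by
    have := congrArg (Nat.cast : ℕ → ℤ) (Vt_add K)
    unfold Vt at this
    push_cast at this
    rw [oo, ← this]
    ring
  rw [← h2, Fintype.sum_option, Fintype.sum_option fun b => (nu K b : ℤ)] at h1
  simp only [cols, mul_one, add_left_inj] at h1
  have h3 : (nu K none : ℤ) ≠ 0 := by simp [nu]
  exact mul_left_cancel₀ h3 (h1.trans (mul_one _).symm)

theorem short (K : ℕ) (hK : 1 ≤ K) (b : Option (Fin K)) : ∑ j, |uu K j b| ≤ K + 3 := by
  cases b with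
  | none =>
    have h : ∀ j : Fin K, |uu K (some j) none| = 1 + if K = (j : ℕ) + 1 then 2 else 0 := by
      intro j
      simp only [uu, eq_comm (a := K)]
      split_ifs <;> norm_num
    rw [Fintype.sum_option]
    simp only [h, sum_add_distrib, sum_succ K K le_rfl fun _ => 2]
    rw [if_neg (by omega)]
    simp [uu]
    omega
  | some k =>
    have h : ∀ j : Fin K, |uu K (some j) (some k)| ≤
        (if (k : ℕ) = j then 2 else 0) + if (k : ℕ) = j + 1 then 1 else 0 := by
      intro j
      simp only [uu]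
      split_ifs <;> norm_num
    have h1 := sum_le_sum (s := univ) fun j _ => h j
    rw [sum_add_distrib, sum_ind' K k fun _ => 2, sum_succ K k k.2.le fun _ => 1] at h1
    have h2 : |uu K none (some k)| ≤ 1 := by
      simp only [uu]
      split_ifs <;> norm_num
    rw [Fintype.sum_option]
    split_ifs at h1 <;> omega

end UniP

theorem p_Uni : S_Uni := fun K hK =>
  ⟨UniP.uu K, UniP.oo K, fun b => by
    cases b with
    | none => exact UniP.col_none K hK
    | some k => exact UniP.cols K k, fun j => by convert UniP.rows K hK j, UniP.short K hK⟩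

end Pool.Agent.P.MP_44bffd_co.PB
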