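import Pool.Agent.P.MP_44bffd_co.PB.DB

/-! The step from one floor of the tower to the next. -/

namespace Pool.Agent.P.MP_44bffd_co.PB

open Finset NumberField
open scoped Classical

namespace UpP

theorem mu_mul {G L : Type} [Group G] [Field L] [MulSemiringAction G L] {a b : L} (ha : Mu G a)
    (hb : Mu G b) : Mu G (a * b) := by
  refine ⟨mul_ne_zero ha.1 hb.1, fun g => ?_⟩
  obtain ⟨x, hx⟩ := ha.2 g
  obtain ⟨y, hy⟩ := hb.2 g
  exact ⟨x * y, by rw [smul_mul', hx, hy]; ring⟩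

theorem ev_mul {L : Type} [Field L] [NumberField L] {a b : L} (ha0 : a ≠ 0) (hb0 : b ≠ 0)
    (ha : Ev a) (hb : Ev b) : Ev (a * b) := fun P => by
  rw [val_mul P ha0 hb0]
  exact (ha P).add (hb P)

theorem num {h r : ℕ} (h8 : 2 ^ 8 ≤ h) (hr : 2 ^ r ≤ 16 ^ 2 * h) (hd : Nat.log 2 h ^ 2 < 4 * r) :
    False := by
  have h1 : 8 ≤ Nat.log 2 h := Nat.le_log_of_pow_le (by norm_num) h8
  have h2 : h < 2 ^ (Nat.log 2 h + 1) := Nat.lt_pow_succ_log_self (by norm_num) h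
  have h3 : 2 ^ r < 2 ^ (8 + (Nat.log 2 h + 1)) := by
    rw [pow_add]
    exact hr.trans_lt (by omega)
  have h4 := (Nat.pow_lt_pow_iff_right (by norm_num : 1 < 2)).1 h3
  nlinarith

end UpP

open UpP in
theorem p_Up (h1 : S_Desc) (h2 : S_HNL) (h3 : S_Many) (h4 : S_Hom) (h5 : S_Sign) (h6 : S_Tr)
    (h7 : S_Lam) (h8 : S_KC) (h9 : S_AdjF) (h10 : S_AdjU) : S_Up := by
  rintro K _ _ u j ⟨hK2, hv2, hns, -⟩ ⟨L, _, _, _, hG, hfin, hTR, hU, hsq⟩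
  by_cases hν : ∃ ν : L, Mu (L ≃ₐ[K] L) ν ∧ Ev ν ∧ Pos ν ∧ Prim ν ∧ ¬ IsSquare ν
  · obtain ⟨ν, a1, a2, a3, a4, a5⟩ := hν
    obtain ⟨M, _, _, _, _, _, w, b1, b2, b3, b4, b5⟩ := h9 K L ν a1 a5 a3
    refine ⟨M, inferInstance, inferInstance, inferInstance, b1, ?_, b3,
      h10 K L M ν w a1.1 hU a2 a4 b4 b5, fun i => ?_⟩
    · rw [← Module.finrank_mul_finrank K L M, hfin, b2, pow_succ]
    · rw [IsScalarTower.algebraMap_apply K L M]
      exact (hsq i).map (algebraMap L M)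
  · exfalso
    have hE : E1 K L := h1 (L ≃ₐ[K] L) K L hU
    have hP : IsPGroup 2 (L ≃ₐ[K] L) :=
      IsPGroup.of_card ((IsGalois.card_aut_eq_finrank K L).trans hfin)
    have hH := h4 (L ≃ₐ[K] L) K L u hsq hns
    have hd : 8 ≤ Nat.log 2 (Homs (L ≃ₐ[K] L)).ncard := Nat.le_log_of_pow_le (by norm_num) hH
    obtain ⟨r, μ, c1, c2, c3⟩ := h3 (L ≃ₐ[K] L) L (Nat.log 2 (Homs (L ≃ₐ[K] L)).ncard) hP
      (h2 (L ≃ₐ[K] L) L hU) (by omega) (Nat.pow_log_le_self 2 (by omega))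
    obtain ⟨O₁, _, o₁, d1, d2⟩ := h5 (L ≃ₐ[K] L) K L hK2
    obtain ⟨θ, hθ⟩ := h6 (L ≃ₐ[K] L) K L hU
    obtain ⟨O₂, _, o₂, e1, e2⟩ := h7 (L ≃ₐ[K] L) K L θ hK2 (fun P => by
      rw [← map_ofNat (algebraMap K L) 2, hE]
      exact hv2 _) hθ
    have key := h8 (L ≃ₐ[K] L) K L (O₁ × O₂) (Fin r → ZMod 2) (fun a => (o₁ a, o₂ a)) μ hE
      (fun a b ma mb ea eb hab => by
        by_contra hn
        exact hν ⟨a * b, mu_mul ma mb, ev_mul ma.1 mb.1 ea eb,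
          d2 a b ma mb (congrArg Prod.fst hab), e2 a b ma mb ea eb (congrArg Prod.snd hab), hn⟩)
      c2 (fun x y a ha hs => c3 x y _ ((map_ne_zero _).2 ha) (fun g => g.commutes a) hs)
    refine num hH ?_ c1
    have f1 : Fintype.card (O₁ × O₂) ≤ 16 := by
      rw [Fintype.card_prod]
      exact Nat.mul_le_mul d1 e1
    have f2 : Fintype.card (Fin r → ZMod 2) = 2 ^ r := by simp
    rw [f2] at key
    exact key.trans (Nat.mul_le_mul_right _ (Nat.pow_le_pow_left f1 2))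

end Pool.Agent.P.MP_44bffd_co.PB
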