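import Pool.Agent.P.MP_44bffd_co.PB.DA
import Pool.Agent.P.MP_44bffd_co.LS.OneW
import Pool.Agent.P.MP_44bffd_co.LS.Link
import Pool.Agent.P.MP_44bffd_co.LS.Near
import Pool.Agent.P.MP_44bffd_co.LS.Round

/-! Labelled graphs with arbitrary weights. -/

namespace Pool.Agent.P.MP_44bffd_co.PB

open Finset LS LS.RoundP
open scoped Classical

namespace WgenP

/-- The array for given weights. -/
theorem arr (h1 : S_Arr) {C : Type} [Fintype C] (n : C → ℕ) {q K t r : ℕ} (hq : 1 ≤ q)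
    (hK : 1 ≤ K) (hC : Fintype.card C ≤ q) (ht : 4 * (K + 3) ^ (r + 1) ≤ 2 ^ t)
    (hn : ∀ κ, 2 ^ K * 2 ^ t ≤ n κ ∧ n κ ≤ 8 * (2 ^ K * 2 ^ t)) :
    ∃ (B : Type) (_ : Fintype B) (ν : B → ℕ) (n' : Option C → ℕ) (π : (Fin r → B) → Option C),
      1 ≤ Fintype.card B ∧ Fintype.card B ≤ 9 * (q * 2 ^ t) ∧
      (∀ b, 2 ^ K ≤ ν b ∧ ν b ≤ 2 * 2 ^ K) ∧ (∀ κ, n' (some κ) = n κ) ∧
      (∀ κ, n' κ ≤ 8 * (2 ^ K * 2 ^ t)) ∧ Lines ν n' π := by
  have hV := Vt_add K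
  have P1 : 1 ≤ 2 ^ K := Nat.one_le_two_pow
  have A1 : 1 ≤ (K + 3) ^ r := Nat.one_le_pow _ _ (by omega)
  rw [pow_succ] at ht
  have hS : ∑ κ, n κ ≤ q * (8 * (2 ^ K * 2 ^ t)) :=
    (sum_le_card_nsmul _ _ _ fun κ _ => (hn κ).2).trans (Nat.mul_le_mul_right _ hC)
  have V1 : (K + 1) * 2 ^ K ≤ Vt K := by nlinarith
  have V0 : 0 < Vt K := lt_of_lt_of_le (by positivity) V1
  have d1 := Nat.div_mul_le_self (∑ κ, n κ) (Vt K)
  have d2 := Nat.lt_mul_div_succ (∑ κ, n κ) V0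
  have a1 : (K + 2) * (1 + 2 * (K + 3) ^ r) ≤ 2 ^ t := by nlinarith
  have a2 : (1 + 2 * (K + 3) ^ r) * Vt K ≤ 2 ^ K * 2 ^ t := by
    calc _ ≤ (1 + 2 * (K + 3) ^ r) * ((K + 2) * 2 ^ K) := Nat.mul_le_mul_left _ (by omega)
      _ = 2 ^ K * ((K + 2) * (1 + 2 * (K + 3) ^ r)) := by ring
      _ ≤ _ := Nat.mul_le_mul_left _ a1
  have a3 : (K + 1) * ((∑ κ, n κ) / Vt K) ≤ 8 * (q * 2 ^ t) := by
    refine Nat.le_of_mul_le_mul_right ?_ P1
    calc _ = (∑ κ, n κ) / Vt K * ((K + 1) * 2 ^ K) := by ring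
      _ ≤ (∑ κ, n κ) / Vt K * Vt K := Nat.mul_le_mul_left _ V1
      _ ≤ q * (8 * (2 ^ K * 2 ^ t)) := d1.trans hS
      _ = _ := by ring
  have a4 : 2 ^ t ≤ q * 2 ^ t := Nat.le_mul_of_pos_left _ hq
  generalize hd : (∑ κ, n κ) / Vt K = d at d1 d2 a3
  have e1 : (d + (1 + 2 * (K + 3) ^ r)) * Vt K = d * Vt K + Vt K + 2 * (K + 3) ^ r * Vt K := by ring
  have e2 : (1 + 2 * (K + 3) ^ r) * Vt K = Vt K + 2 * (K + 3) ^ r * Vt K := by ring
  have e3 : Vt K * (d + 1) = d * Vt K + Vt K := by ring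
  obtain ⟨B, _, ν, π, k1, k2, k3⟩ := h1 K r (d + (1 + 2 * (K + 3) ^ r)) (Option C)
    (fun κ => κ.elim ((d + (1 + 2 * (K + 3) ^ r)) * Vt K - ∑ κ, n κ) n) hK (by omega)
    (by rw [Fintype.sum_option]; simp only [Option.elim]; omega) fun κ => by
      rcases κ with _ | κ
      · simp only [Option.elim]; omega
      · have := (hn κ).1
        simp only [Option.elim]; omega
  refine ⟨B, _, ν, _, π, k1 ▸ Nat.mul_pos (by omega) (by omega), ?_, k2, fun _ => rfl,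
    fun κ => ?_, k3⟩
  · have : (K + 1) * (1 + 2 * (K + 3) ^ r) ≤ (K + 2) * (1 + 2 * (K + 3) ^ r) :=
      Nat.mul_le_mul_right _ (by omega)
    rw [k1, mul_add]
    omega
  · rcases κ with _ | κ
    · simp only [Option.elim]; omega
    · exact (hn κ).2

end WgenP

theorem p_Wgen (h1 : S_Arr) (h2 : S_Del) : S_Wgen := by
  intro c L q K t r u b hX hc hq hK hr hL ht hb hu hP C _ _ N hC hN
  have hN' : ∀ κ, 2 ^ K * 2 ^ t ≤ ⌊N κ⌋₊ ∧ ⌊N κ⌋₊ ≤ 8 * (2 ^ K * 2 ^ t) := fun κ => by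
    rw [← pow_add]
    exact ⟨Nat.le_floor (by exact_mod_cast (hN κ).1),
      Nat.floor_le_of_le (by exact_mod_cast (hN κ).2)⟩
  obtain ⟨B, _, ν, n, π, q1, q2, hν, hn, hn', hLi⟩ := WgenP.arr h1 _ hq hK hC ht hN'
  obtain ⟨b₀⟩ := Fintype.card_pos_iff.1 q1
  have u1 : 8 * (2 ^ K * 2 ^ t) ≤ 2 ^ (2 ^ r * u) := by
    refine le_of_eq_of_le ?_ (Nat.pow_le_pow_right (by norm_num) hu)
    ring
  have u2 : (2 ^ K * 2 ^ t) * (2 ^ K * 2 ^ t) ≤ 2 ^ (4 * (K + t)) := by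
    rw [← pow_add, ← pow_add]
    exact Nat.pow_le_pow_right (by norm_num) (by omega)
  have u3 : ∀ κ, ((2 ^ K * 2 ^ t : ℕ) : ℝ) ≤ N κ := fun κ => by
    rw [← pow_add]
    exact_mod_cast (hN κ).1
  rw [show 4 ^ t = 2 ^ t * 2 ^ t from mul_pow 2 2 t] at hb
  rw [show 6000 * b * r * c * (K + t) * 2 ^ u = 6000 * (b * (r * (c * (K + t)) * 2 ^ u)) by ring]
    at hP ⊢
  have T1 : 1 ≤ 2 ^ t := Nat.one_le_two_pow
  have w1 : 1 ≤ 2 ^ u := Nat.one_le_two_pow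
  have s1 : 1 ≤ K + t := by omega
  generalize K + t = s at *
  generalize 2 ^ K = P at *
  generalize 2 ^ t = T at *
  have cC : Fintype.card (Option C) ≤ 2 * q := by rw [Fintype.card_option]; omega
  have cC1 : 1 ≤ Fintype.card (Option C) := Fintype.card_pos
  have y1 : s ≤ c * s := Nat.le_mul_of_pos_left _ hc
  have y2 : c * s ≤ r * (c * s) := Nat.le_mul_of_pos_left _ hr
  have y3 : r * (c * s) ≤ r * (c * s) * 2 ^ u := Nat.le_mul_of_pos_right _ w1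
  have b1 : q ≤ q * T := Nat.le_mul_of_pos_right _ T1
  have b2 : 9 * (q * T) ≤ b := le_trans (by nlinarith) hb
  have y4 : r * (c * s) * 2 ^ u ≤ b * (r * (c * s) * 2 ^ u) := Nat.le_mul_of_pos_left _ (by omega)
  have y5 : b ≤ b * (r * (c * s) * 2 ^ u) := Nat.le_mul_of_pos_right _ (by omega)
  have p1 : P ≤ P * T := Nat.le_mul_of_pos_right _ T1
  have p2 : P * T ≤ P * T * (P * T) := Nat.le_mul_of_pos_right _ (by omega)
  have g0 : c * (4 * s) = 4 * (c * s) := by ring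
  have g1 : r * (c * (4 * s)) = 4 * (r * (c * s)) := by ring
  have z1 : Fintype.card B * (2 * P + 1) ≤ P * T * (P * T) := by
    calc _ ≤ b * (3 * (P * T)) := Nat.mul_le_mul (by omega) (by omega)
      _ = 3 * b * (P * T) := by ring
      _ ≤ _ := Nat.mul_le_mul_right _ (by omega)
  have z2 : Fintype.card (Option C) * (8 * (P * T) + 1) ≤ P * T * (P * T) := by
    calc _ ≤ 2 * q * (9 * (P * T)) := Nat.mul_le_mul cC (by omega)
      _ = 18 * q * (P * T) := by ring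
      _ ≤ _ := Nat.mul_le_mul_right _ (by omega)
  have z3 : 2 * P ≤ Fintype.card B * (2 * P) := Nat.le_mul_of_pos_left _ q1
  have z4 : 8 * (P * T) ≤ Fintype.card (Option C) * (8 * (P * T)) := Nat.le_mul_of_pos_left _ cC1
  obtain ⟨Γ, hΓ⟩ : ∃ Γ : ℝ, Γ = ((12 * (r * (c * s)) : ℕ) : ℝ) := ⟨_, rfl⟩
  have cast : ∀ {x : ℕ}, x ≤ 12 * (r * (c * s)) → (x : ℝ) ≤ Γ := fun h => hΓ ▸ Nat.cast_le.2 h
  have cast' : ∀ {x y : ℕ}, x * (12 * (r * (c * s))) ≤ y → x * Γ ≤ y := fun h => by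
    rw [hΓ]; exact_mod_cast h
  have Γ1 : 1 ≤ Γ := by exact_mod_cast cast (x := 1) (by omega)
  have b0 := hX (4 * s) (P * T * (P * T)) Γ (by omega) hL u2 (cast (by omega))
    (by exact_mod_cast cast' (x := 10 ^ 4) (y := P * T * (P * T)) (by omega))
  have m1 := cast' (x := 400) (y := Fintype.card (Option C) * (8 * (P * T))) (by omega)
  have m2 := cast' (x := 400) (y := Fintype.card B * (2 * P)) (by omega)
  rw [Nat.cast_ofNat] at m1 m2
  obtain ⟨V', H, hH, hd⟩ := p_Two _ _ _ _ Γ b0 (le_trans (Nat.mul_le_mul_left _ (Nat.le_succ _)) z2)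
    (le_trans (Nat.mul_le_mul_left _ (Nat.le_succ _)) z1)
    (by exact_mod_cast cast (x := c * (4 * s) + 1) (by omega)) m1 m2
  have hF : Fal H (Fintype.card B * (2 * P)) Γ := by
    refine ⟨H.both (fun v hv => ?_) false, fun v hv e => ⟨?_, ((hd v hv).2 e).1⟩⟩
    · have : (0 : ℝ) < H.deg v := by
        cases e : H.col v
        · exact (pos_of (by linarith) m2).trans_le ((hd v hv).2 e).1
        · exact (pos_of (by linarith) m1).trans_le ((hd v hv).1 e).1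
      exact_mod_cast this
    · exact_mod_cast ((hd v hv).2 e).2
  obtain ⟨V, O, ξ, hO, hV, hdO⟩ := p_One p_Link V' B H ν (2 * P) (c * (4 * s)) (4 * s) r u Γ _ _
    (fun b => (hν b).2) (by omega) (by omega) (z1.trans u2) hH
    (by exact_mod_cast cast (x := c * (4 * s) + 4 * s + 1) (by omega)) hF
    fun v hv e => (hd v hv).1 e
  generalize hε : (20 * Real.sqrt Γ + 2) ^ 2 * (2 : ℝ) ^ u = ε at hV
  have ε0 : 0 ≤ ε := by rw [← hε]; positivity
  have ε1 : ε ≤ ((5808 * (r * (c * s) * 2 ^ u) : ℕ) : ℝ) := by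
    calc ε ≤ 484 * Γ * 2 ^ u := by
          have := beta_le Γ1
          rw [← hε]
          gcongr
      _ = _ := by
          rw [hΓ]
          push_cast
          ring
  have hFO : Fal O (Fintype.card (Option C) * (8 * (P * T))) Γ := by
    refine ⟨ex_false hV (b := b₀) (ε1.trans_lt ?_), fun v hv e => ⟨?_, (hdO v hv e).1⟩⟩
    · have := (hν b₀).1
      exact_mod_cast (by omega : 5808 * (r * (c * s) * 2 ^ u) < ν b₀)
    · exact_mod_cast (hdO v hv e).2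
  obtain ⟨V₂, W, ξ', hW, hW1, hW2⟩ := p_W p_Link V B (Option C) O ξ r ν n π (8 * (P * T))
    (r * (c * (4 * s))) (4 * s) u ε Γ hLi hn' u1 (by omega) (z2.trans u2) hO
    (by exact_mod_cast cast (x := r * (c * (4 * s)) + 4 * s + 1) (by omega)) hFO hV ε0
  rw [hε] at hW1
  have q1' : (1 : ℝ) ≤ Fintype.card B := by exact_mod_cast q1
  have ε2 : Fintype.card B * ε + 1 ≤ ((6000 * (b * (r * (c * s) * 2 ^ u)) : ℕ) : ℝ) := by
    have h3 : Fintype.card B * (5808 * (r * (c * s) * 2 ^ u)) + 1 ≤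
        6000 * (b * (r * (c * s) * 2 ^ u)) := by
      have := Nat.mul_le_mul_right (r * (c * s) * 2 ^ u) (q2.trans b2)
      rw [mul_left_comm]
      omega
    refine le_trans ?_ (Nat.cast_le.2 h3)
    rw [Nat.cast_add, Nat.cast_mul, Nat.cast_one]
    gcongr
  have hE : ∀ v ∈ W.s, ∀ κ, |((W.cnt v fun w => ξ' w = some κ : ℕ) : ℝ) - N κ| ≤
      Fintype.card B * ε + 1 := by
    intro v hv κ
    have h3 : W.cnt v (fun w => ξ' w = some κ) ≤ n (some κ) ∧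
        (n (some κ) : ℝ) - W.cnt v (fun w => ξ' w = some κ) ≤ Fintype.card B * ε := by
      cases e : W.col v
      · exact hW2 v hv e _
      · exact view_mono hW1 (le_mul_of_one_le_left ε0 q1') v hv e _
    have h4 : ((W.cnt v fun w => ξ' w = some κ : ℕ) : ℝ) ≤ n (some κ) := Nat.cast_le.2 h3.1
    have h5 := Nat.floor_le ((Nat.cast_nonneg _).trans (u3 κ))
    have h6 := Nat.lt_floor_add_one (N κ)
    have h7 : 0 ≤ Fintype.card B * ε := by positivity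
    rw [hn] at h3 h4
    rw [abs_le]
    constructor <;> linarith [h3.2]
  obtain ⟨H', ξ'', k1, k2⟩ := h2 V₂ C W ξ' N _ (fun v hv κ => (hE v hv κ).trans ε2) fun κ =>
    lt_of_lt_of_le (Nat.cast_lt.2 (by omega)) (u3 κ)
  exact ⟨V₂, H', ξ'', k1.trans (hW.trans_eq (by congr 1; ring)), k2⟩

end Pool.Agent.P.MP_44bffd_co.PB
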