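import Pool.Agent.P.MP_44bffd_co.PB.DB

/-! The Dedekind zeta function as a sum over the nonzero ideals. -/

namespace Pool.Agent.P.MP_44bffd_co.PB

open Finset NumberField Filter Topology Asymptotics
open scoped Classical nonZeroDivisors

namespace ZetaP

variable (K : Type) [Field K] [NumberField K]

/-- The number of ideals of norm `n`. -/
noncomputable def an (n : ℕ) : ℕ := Nat.card {I : Ideal (𝓞 K) // Ideal.absNorm I = n}

theorem an_tendsto : Tendsto (fun n : ℕ => (∑ k ∈ Icc 1 n, (an K k : ℝ)) / n) atTop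
    (𝓝 (dedekindZeta_residue K)) := by
  refine ((Ideal.tendsto_norm_le_div_atTop₀ K).comp tendsto_natCast_atTop_atTop).congr fun n => ?_
  simp only [Function.comp_apply, Nat.cast_le, ← Nat.cast_sum, an]
  congr
  rw [← add_left_inj 1, ← Ideal.card_norm_le_eq_card_norm_le_add_one,
    show Finset.Icc 1 n = Finset.Ioc 0 n from Finset.Icc_succ_left_eq_Ioc _ _,
    show 1 = Nat.card {I : Ideal (𝓞 K) // Ideal.absNorm I = 0} by simp [Ideal.absNorm_eq_zero_iff],
    Finset.sum_Ioc_add_eq_sum_Icc (n.zero_le),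
    ← Finset.card_preimage_eq_sum_card_image_eq
      (fun k _ => Ideal.finite_setOfPred_absNorm_eq k)]
  simp [Set.coe_eq_subtype]

theorem an_summable {s : ℝ} (hs : 1 < s) : LSeriesSummable (fun n => ((an K n : ℝ) : ℂ)) s := by
  refine LSeriesSummable_of_sum_norm_bigO_and_nonneg (r := 1) ?_ (fun _ => Nat.cast_nonneg _)
    zero_le_one (by simpa using hs)
  simp only [Real.rpow_one]
  refine isBigO_of_div_tendsto_nhds ?_ _ (an_tendsto K)
  filter_upwards [eventually_ne_atTop 0] with n hn h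
  exact absurd (Nat.cast_eq_zero.1 h) hn

theorem term_eq {s : ℝ} (hs : 1 < s) (n : ℕ) :
    LSeries.term (fun n => ((an K n : ℝ) : ℂ)) s n = (((an K n : ℝ) * (n : ℝ) ^ (-s) : ℝ) : ℂ) := by
  rcases eq_or_ne n 0 with rfl | hn
  · rw [LSeries.term_zero, Nat.cast_zero, Real.zero_rpow (by linarith), mul_zero, Complex.ofReal_zero]
  · rw [LSeries.term_of_ne_zero hn, Real.rpow_neg (Nat.cast_nonneg _), Complex.ofReal_mul,
      Complex.ofReal_inv, Complex.ofReal_cpow (Nat.cast_nonneg _), div_eq_mul_inv,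
      Complex.ofReal_natCast n]

theorem hasSum_nm {s : ℝ} (hs : 1 < s) :
    HasSum (nm (K := K) s) (∑' n : ℕ, (an K n : ℝ) * (n : ℝ) ^ (-s)) := by
  have h1 : Summable fun n : ℕ => (an K n : ℝ) * (n : ℝ) ^ (-s) := by
    rw [← Complex.summable_ofReal]
    exact (an_summable K hs).congr (term_eq K hs)
  set f : Ideal (𝓞 K) → ℝ := fun I => (Ideal.absNorm I : ℝ) ^ (-s) with hf
  set e := Equiv.sigmaFiberEquiv (Ideal.absNorm (S := 𝓞 K) : Ideal (𝓞 K) → ℕ) with he
  have hfin : ∀ n, Finite {I : Ideal (𝓞 K) // Ideal.absNorm I = n} := fun n =>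
    (Ideal.finite_setOfPred_absNorm_eq n).to_subtype
  have h2 : ∀ n, HasSum (fun I : {I : Ideal (𝓞 K) // Ideal.absNorm I = n} => f (e ⟨n, I⟩))
      ((an K n : ℝ) * (n : ℝ) ^ (-s)) := fun n => by
    have := hfin n
    have h3 : (fun I : {I : Ideal (𝓞 K) // Ideal.absNorm I = n} => f (e ⟨n, I⟩)) =
        fun _ => (n : ℝ) ^ (-s) := funext fun I => by
      show (Ideal.absNorm I.1 : ℝ) ^ (-s) = _
      rw [I.2]
    rw [h3, an, ← nsmul_eq_mul, ← tsum_const]
    exact Summable.of_finite.hasSum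
  have h4 : Summable (f ∘ e) :=
    (summable_sigma_of_nonneg fun x => Real.rpow_nonneg (Nat.cast_nonneg _) _).2
      ⟨fun n => (h2 n).summable, h1.congr fun n => (h2 n).tsum_eq.symm⟩
  have h5 : HasSum f (∑' n : ℕ, (an K n : ℝ) * (n : ℝ) ^ (-s)) := by
    rw [← e.hasSum_iff, (h4.hasSum.sigma h2).tsum_eq]
    exact h4.hasSum
  refine (hasSum_subtype_iff_of_support_subset (s := ((Ideal (𝓞 K))⁰ : Set (Ideal (𝓞 K))))
    fun I hI => ?_).2 h5
  refine mem_nonZeroDivisors_of_ne_zero fun h => hI ?_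
  rw [h, hf]
  simp only [map_zero, Nat.cast_zero]
  exact Real.zero_rpow (by linarith)

theorem zeta_eq {s : ℝ} (hs : 1 < s) : dedekindZeta K s = ((∑' I, nm (K := K) s I : ℝ) : ℂ) := by
  rw [(hasSum_nm K hs).tsum_eq, Complex.ofReal_tsum]
  exact tsum_congr (term_eq K hs)

end ZetaP

theorem p_Zeta : S_Zeta := by
  intro K _ _
  refine ⟨fun s hs => (ZetaP.hasSum_nm K hs).summable, dedekindZeta_residue K,
    dedekindZeta_residue_pos K, ?_⟩
  refine ((Complex.continuous_re.tendsto _).comp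
    (tendsto_sub_one_mul_dedekindZeta_nhdsGT K)).congr' ?_
  filter_upwards [self_mem_nhdsWithin] with s hs
  rw [Function.comp_apply, ZetaP.zeta_eq K hs, ← Complex.ofReal_one, ← Complex.ofReal_sub,
    ← Complex.ofReal_mul, Complex.ofReal_re]

end Pool.Agent.P.MP_44bffd_co.PB
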